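import Pool.Agent.H989.DY.DyEx

/-!
The free evolution leaves boxes.
-/

set_option linter.unusedSectionVars false
set_option linter.unusedVariables false

open MeasureTheory Finset

namespace Pool.Agent.H989.DY

open Pool.Agent.W788.LD.Spec (S)
open Pool.Agent.H4R2.LO (Zd)

/-- the solution in dimension one -/
structure FbOne (f : ℝ → ℤ → ℂ) : Prop where
  init : ∀ n, f 0 n = if n = 0 then 1 else 0
  ode : ∀ s n, HasDerivAt (fun s => f s n) (-Complex.I * (f s (n + 1) + f s (n - 1))) s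
  norm : ∀ s, HasSum (fun n => ‖f s n‖ ^ 2) 1

theorem fb_one : ∃ f : ℝ → ℤ → ℂ, FbOne f := by
  obtain ⟨φ, h⟩ := ev_exists (fun _ : Zd 1 => 0) 0
  refine ⟨fun s n => φ s (fun _ => n), fun n => ?_, fun s n => ?_, fun s => ?_⟩
  · rw [h.init]
    have : ((fun _ => n : Zd 1) = 0) ↔ n = 0 := by
      constructor
      · intro h1
        exact congrFun h1 0
      · intro h1
        subst h1
        rfl
    simp only [this]
  · have h1 := h.ode s (fun _ => n)
    refine h1.congr_deriv ?_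
    unfold S
    simp only [Finset.univ_unique, Fin.default_eq_zero, Finset.sum_singleton, Complex.ofReal_zero,
      zero_mul, add_zero]
    have e1 : ((fun _ => n : Zd 1) + Pi.single 0 1) = fun _ => n + 1 := by
      funext i
      have : i = 0 := Subsingleton.elim _ _
      subst this
      simp
    have e2 : ((fun _ => n : Zd 1) - Pi.single 0 1) = fun _ => n - 1 := by
      funext i
      have : i = 0 := Subsingleton.elim _ _
      subst this
      simp
    rw [e1, e2]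
  · have h1 := h.norm s
    rw [← (Equiv.funUnique (Fin 1) ℤ).symm.hasSum_iff] at h1
    exact h1

variable {f : ℝ → ℤ → ℂ}

theorem fb_le (hf : FbOne f) (s : ℝ) (n : ℤ) : ‖f s n‖ ≤ 1 := by
  have h1 : ‖f s n‖ ^ 2 ≤ 1 := by
    have := sum_le_hasSum {n} (fun _ _ => by positivity) (hf.norm s)
    simpa using this
  nlinarith [norm_nonneg (f s n)]

theorem fb_dist (hf : FbOne f) (s : ℝ) (n : ℤ) : ‖f s n - f 0 n‖ ≤ 2 * |s| := by
  have h := Convex.norm_image_sub_le_of_norm_hasDerivWithin_le (f := fun s => f s n)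
    (f' := fun s => -Complex.I * (f s (n + 1) + f s (n - 1))) (C := 2) (s := Set.univ) (x := 0) (y := s)
    (fun r _ => (hf.ode r n).hasDerivWithinAt) (fun r _ => by
      rw [norm_mul, norm_neg, Complex.norm_I, one_mul]
      exact (norm_add_le _ _).trans (by linarith [fb_le hf r (n + 1), fb_le hf r (n - 1)]))
    convex_univ (Set.mem_univ _) (Set.mem_univ _)
  rw [sub_zero, Real.norm_eq_abs] at h
  exact h

theorem fb_one_low (hf : FbOne f) {t : ℝ} (ht : |t| ≤ 1 / 16) : t ^ 2 / 4 ≤ ‖f t 1‖ ^ 2 := by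
  have hmem : t ∈ Set.Icc (-(1 / 16) : ℝ) (1 / 16) := abs_le.1 ht
  have h := Convex.norm_image_sub_le_of_norm_hasDerivWithin_le
    (f := fun s : ℝ => f s 1 + Complex.I * (s : ℂ))
    (f' := fun s => -Complex.I * (f s (1 + 1) + f s (1 - 1)) + Complex.I) (C := 1 / 4)
    (s := Set.Icc (-(1 / 16) : ℝ) (1 / 16)) (x := 0) (y := t)
    (fun r _ => by
      have h1 : HasDerivAt (fun s : ℝ => Complex.I * (s : ℂ)) Complex.I r := by
        have := (Complex.ofRealCLM.hasDerivAt (x := r)).const_mul Complex.I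
        simpa using this
      exact ((hf.ode r 1).add h1).hasDerivWithinAt) (fun r hr => by
      have hr' : |r| ≤ 1 / 16 := abs_le.2 hr
      have e1 : -Complex.I * (f r (1 + 1) + f r (1 - 1)) + Complex.I =
          -Complex.I * ((f r 2 - f 0 2) + (f r 0 - f 0 0)) := by
        rw [hf.init 2, hf.init 0]
        norm_num
        ring
      rw [e1, norm_mul, norm_neg, Complex.norm_I, one_mul]
      refine (norm_add_le _ _).trans ?_
      linarith [fb_dist hf r 2, fb_dist hf r 0])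
    (convex_Icc _ _) (by constructor <;> norm_num) hmem
  have e2 : f 0 1 = 0 := by rw [hf.init]; norm_num
  simp only [e2, Complex.ofReal_zero, mul_zero, add_zero, sub_zero, Real.norm_eq_abs] at h
  have h2 : ‖Complex.I * (t : ℂ)‖ = |t| := by
    rw [norm_mul, Complex.norm_I, one_mul, Complex.norm_real, Real.norm_eq_abs]
  have h3 : |t| ≤ ‖f t 1 + Complex.I * (t : ℂ)‖ + ‖f t 1‖ := by
    rw [← h2]
    have : Complex.I * (t : ℂ) = (f t 1 + Complex.I * (t : ℂ)) - f t 1 := by ring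
    calc ‖Complex.I * (t : ℂ)‖ = ‖(f t 1 + Complex.I * (t : ℂ)) - f t 1‖ := by rw [← this]
      _ ≤ _ := norm_sub_le _ _
  have h4 : |t| / 2 ≤ ‖f t 1‖ := by
    have := abs_nonneg t
    linarith
  calc t ^ 2 / 4 = (|t| / 2) ^ 2 := by rw [div_pow, sq_abs]; norm_num
    _ ≤ _ := by gcongr

/-- one dimension -/
theorem fb_sum (hf : FbOne f) {l : ℕ} (hl : 0 < l) (c : ℤ) {t : ℝ} (ht : |t| ≤ 1 / 16) :
    ∑ m ∈ Ico c (c + l), ∑ n ∈ Ico c (c + l), ‖f t (n - m)‖ ^ 2 ≤ l - t ^ 2 / 4 := by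
  have hall : ∀ (m : ℤ) (F : Finset ℤ), ∑ n ∈ F, ‖f t (n - m)‖ ^ 2 ≤ 1 := by
    intro m F
    have h1 := hf.norm t
    rw [← (Equiv.subRight m).hasSum_iff] at h1
    exact sum_le_hasSum F (fun _ _ => by positivity) h1
  obtain ⟨m₀, hm₀⟩ : ∃ m₀ : ℤ, m₀ = c + l - 1 := ⟨_, rfl⟩
  have hmem : m₀ ∈ Ico c (c + l) := by
    rw [mem_Ico, hm₀]
    omega
  rw [← Finset.sum_erase_add _ _ hmem]
  have hlast : ∑ n ∈ Ico c (c + l), ‖f t (n - m₀)‖ ^ 2 ≤ 1 - t ^ 2 / 4 := by
    have h1 := hall m₀ (insert (m₀ + 1) (Ico c (c + l)))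
    rw [Finset.sum_insert (by rw [mem_Ico, hm₀]; omega), add_sub_cancel_left] at h1
    linarith [fb_one_low hf ht]
  have hrest : ∑ m ∈ (Ico c (c + l)).erase m₀, ∑ n ∈ Ico c (c + l), ‖f t (n - m)‖ ^ 2 ≤ (l : ℝ) - 1 := by
    calc _ ≤ ∑ m ∈ (Ico c (c + l)).erase m₀, (1 : ℝ) := Finset.sum_le_sum fun m _ => hall m _
      _ = (((Ico c (c + l)).erase m₀).card : ℝ) := by rw [Finset.sum_const, nsmul_eq_mul, mul_one]
      _ = (l : ℝ) - 1 := by
          rw [Finset.card_erase_of_mem hmem, Int.card_Ico]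
          have : (c + l - c).toNat = l := by omega
          rw [this, Nat.cast_sub (by omega)]
          simp
  linarith

/-- the product solution -/
noncomputable def fbp (f : ℝ → ℤ → ℂ) {d : ℕ} (a : Zd d) (s : ℝ) (y : Zd d) : ℂ :=
  ∏ i, f s (y i - a i)

theorem fbp_le (hf : FbOne f) {d : ℕ} (a : Zd d) (s : ℝ) (F : Finset (Zd d)) :
    ∑ y ∈ F, ‖fbp f a s y‖ ^ 2 ≤ 1 := by
  classical
  have hall : ∀ (m : ℤ) (F : Finset ℤ), ∑ n ∈ F, ‖f s (n - m)‖ ^ 2 ≤ 1 := by
    intro m F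
    have h1 := hf.norm s
    rw [← (Equiv.subRight m).hasSum_iff] at h1
    exact sum_le_hasSum F (fun _ _ => by positivity) h1
  have hF : F ⊆ Fintype.piFinset fun i => F.image fun y => y i := by
    intro y hy
    rw [Fintype.mem_piFinset]
    exact fun i => Finset.mem_image_of_mem _ hy
  calc ∑ y ∈ F, ‖fbp f a s y‖ ^ 2
      ≤ ∑ y ∈ Fintype.piFinset fun i => F.image fun y => y i, ‖fbp f a s y‖ ^ 2 :=
        Finset.sum_le_sum_of_subset_of_nonneg hF fun _ _ _ => by positivity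
    _ = ∑ y ∈ Fintype.piFinset fun i => F.image fun y => y i, ∏ i, ‖f s (y i - a i)‖ ^ 2 := by
        refine Finset.sum_congr rfl fun y _ => ?_
        rw [fbp, norm_prod, Finset.prod_pow]
    _ = ∏ i, ∑ n ∈ F.image fun y => y i, ‖f s (n - a i)‖ ^ 2 :=
        (Finset.prod_univ_sum (fun i : Fin d => F.image fun y => y i)
          (fun i n => ‖f s (n - a i)‖ ^ 2)).symm
    _ ≤ ∏ _i : Fin d, (1 : ℝ) := Finset.prod_le_prod (fun _ _ => by positivity) fun i _ => hall _ _
    _ = 1 := by simp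

theorem fbp_ode (hf : FbOne f) {d : ℕ} (a : Zd d) (s : ℝ) (y : Zd d) :
    HasDerivAt (fun s => fbp f a s y)
      (-Complex.I * (S (fbp f a s) y + (((fun _ : Zd d => (0 : ℝ)) y : ℝ) : ℂ) * fbp f a s y)) s := by
  classical
  have h1 : HasDerivAt (fun s => ∏ i, f s (y i - a i))
      (∑ i, (∏ j ∈ Finset.univ.erase i, f s (y j - a j)) •
        (-Complex.I * (f s (y i - a i + 1) + f s (y i - a i - 1)))) s :=
    HasDerivAt.fun_finsetProd fun i _ => hf.ode s (y i - a i)
  refine h1.congr_deriv ?_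
  unfold S
  simp only [Complex.ofReal_zero, zero_mul, add_zero]
  rw [Finset.mul_sum]
  refine Finset.sum_congr rfl fun i _ => ?_
  have e1 : fbp f a s (y + Pi.single i 1) =
      (∏ j ∈ Finset.univ.erase i, f s (y j - a j)) * f s (y i - a i + 1) := by
    unfold fbp
    rw [← Finset.prod_erase_mul _ _ (Finset.mem_univ i)]
    congr 1
    · refine Finset.prod_congr rfl fun j hj => ?_
      have hne : j ≠ i := (Finset.mem_erase.1 hj).1
      rw [Pi.add_apply, Pi.single_eq_of_ne hne, add_zero]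
    · rw [Pi.add_apply, Pi.single_eq_same]
      congr 1
      ring
  have e2 : fbp f a s (y - Pi.single i 1) =
      (∏ j ∈ Finset.univ.erase i, f s (y j - a j)) * f s (y i - a i - 1) := by
    unfold fbp
    rw [← Finset.prod_erase_mul _ _ (Finset.mem_univ i)]
    congr 1
    · refine Finset.prod_congr rfl fun j hj => ?_
      have hne : j ≠ i := (Finset.mem_erase.1 hj).1
      rw [Pi.sub_apply, Pi.single_eq_of_ne hne, sub_zero]
    · rw [Pi.sub_apply, Pi.single_eq_same]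
      congr 1
      ring
  rw [e1, e2, smul_eq_mul]
  ring

theorem fbp_ev (hf : FbOne f) {d : ℕ} (a : Zd d) : Ev d (fun _ => 0) a (fbp f a) := by
  classical
  have hinit : ∀ x, fbp f a 0 x = if x = a then 1 else 0 := by
    intro x
    unfold fbp
    by_cases hx : x = a
    · rw [if_pos hx, hx]
      refine Finset.prod_eq_one fun i _ => ?_
      rw [sub_self, hf.init, if_pos rfl]
    · rw [if_neg hx]
      obtain ⟨i, hi⟩ := Function.ne_iff.1 hx
      refine Finset.prod_eq_zero (Finset.mem_univ i) ?_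
      rw [hf.init, if_neg (sub_ne_zero.2 hi)]
  refine ⟨hinit, fun s y => fbp_ode hf a s y, fun s => ?_⟩
  have hsum : ∀ r : ℝ, Summable (fun x => ‖fbp f a r x‖ ^ 2) := fun r =>
    summable_of_sum_le (fun _ => by positivity) (fbp_le hf a r)
  have hle : ∀ r : ℝ, ∑' x, ‖fbp f a r x‖ ^ 2 ≤ 1 := fun r =>
    (hsum r).tsum_le_of_sum_le (fbp_le hf a r)
  have h3 := flux (W := fun _ => 0) (θ := fbp f a) (fun s y => fbp_ode hf a s y) (C := 1)
    (T := |s|) (fun r _ => ⟨hsum r, hle r⟩) s (abs_le.1 le_rfl)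
  have h4 : ∑' x, ‖fbp f a 0 x‖ ^ 2 = 1 := by
    rw [tsum_eq_single a]
    · rw [hinit]
      simp
    · intro x hx
      rw [hinit, if_neg hx]
      simp
  have h5 := (hsum s).hasSum
  rw [h3, h4] at h5
  exact h5

theorem free_box {d l : ℕ} (hl : 0 < l) (c : Zd d) {ψ : Zd d → ℝ → Zd d → ℂ}
    (hψ : ∀ a, Ev d (fun _ => 0) a (ψ a)) (t : ℝ) (ht : |t| ≤ 1 / 16) :
    ∑ a ∈ Fintype.piFinset (fun i => Finset.Ico (c i) (c i + l)),
      ∑ y ∈ Fintype.piFinset (fun i => Finset.Ico (c i) (c i + l)), ‖ψ a t y‖ ^ 2 ≤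
      (l : ℝ) ^ d * Real.exp (-(d * t ^ 2 / (4 * l))) := by
  classical
  obtain ⟨f, hf⟩ := fb_one
  have hψ' : ∀ a, ψ a = fbp f a := fun a => ev_unique (hψ a) (fbp_ev hf a)
  have hl0 : (0 : ℝ) < l := by exact_mod_cast hl
  have hnorm : ∀ (a y : Zd d), ‖ψ a t y‖ ^ 2 = ∏ i, ‖f t (y i - a i)‖ ^ 2 := by
    intro a y
    rw [hψ', fbp, norm_prod, Finset.prod_pow]
  calc ∑ a ∈ Fintype.piFinset (fun i => Finset.Ico (c i) (c i + l)),
      ∑ y ∈ Fintype.piFinset (fun i => Finset.Ico (c i) (c i + l)), ‖ψ a t y‖ ^ 2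
      = ∑ a ∈ Fintype.piFinset (fun i => Finset.Ico (c i) (c i + l)),
        ∏ i, ∑ n ∈ Finset.Ico (c i) (c i + l), ‖f t (n - a i)‖ ^ 2 := by
        refine Finset.sum_congr rfl fun a _ => ?_
        rw [Finset.prod_univ_sum (fun i : Fin d => Finset.Ico (c i) (c i + l))
          (fun i n => ‖f t (n - a i)‖ ^ 2)]
        exact Finset.sum_congr rfl fun y _ => hnorm a y
    _ = ∏ i, ∑ m ∈ Finset.Ico (c i) (c i + l), ∑ n ∈ Finset.Ico (c i) (c i + l),
          ‖f t (n - m)‖ ^ 2 :=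
        (Finset.prod_univ_sum (fun i : Fin d => Finset.Ico (c i) (c i + l))
          (fun i m => ∑ n ∈ Finset.Ico (c i) (c i + l), ‖f t (n - m)‖ ^ 2)).symm
    _ ≤ ∏ _i : Fin d, ((l : ℝ) * Real.exp (-(t ^ 2 / (4 * l)))) := by
        refine Finset.prod_le_prod (fun i _ => by positivity) fun i _ => ?_
        refine (fb_sum hf hl (c i) ht).trans ?_
        have h1 := Real.add_one_le_exp (-(t ^ 2 / (4 * l)))
        have h2 : (l : ℝ) - t ^ 2 / 4 = l * (-(t ^ 2 / (4 * l)) + 1) := by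
          field_simp
          ring
        rw [h2]
        gcongr
    _ = _ := by
        rw [Finset.prod_const, Finset.card_univ, Fintype.card_fin, mul_pow, ← Real.exp_nat_mul]
        congr 2
        ring

end Pool.Agent.H989.DY
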