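import Pool.Agent.H989.DY.DyFl

/-!
# DyEx: existence of the evolution for an arbitrary real potential

(You may use `flux` of `DyFl`, proved by another seat.) `W : Zd d → ℝ` is arbitrary (unbounded). Notation:
`N(x) = ∑_i |x_i - a_i|`. Put
`χ_0(s) x = if x = a then 1 else 0`,
`χ_{n+1}(s) x = -i ∫_0^s ∑_{y ~ x} exp(i r (W x - W y)) χ_n(r) y dr` (`y ~ x`: the `2 d` neighbours),
`ψ(s) x = exp(-i s W x) ∑_n χ_n(s) x`.
(1) By induction on `n`: `χ_n(·) x` is continuous, `χ_n(s) x = 0` if `N(x) > n`, `‖χ_n(s) x‖ ≤ (2 d |s|)^n / n!`.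
(2) `χ_{n+1}(·) x` has the derivative `-i ∑_{y~x} exp(i s (W x - W y)) χ_n(s) y`, of norm at most
`2 d (2 d |s|)^n / n!`, summable locally uniformly: `hasDerivAt_tsum_of_isPreconnected` (or `hasDerivAt_tsum`
on balls) gives `(∑_n χ_n)'(s) x = -i ∑_{y~x} exp(i s (W x - W y)) ∑_n χ_n(s) y`; multiply by `exp(-i s W x)`: this is
the equation for `ψ`, with `S` the sum over neighbours.
(3) `∑_x ‖χ_n(s) x‖² ≤ (2 n + 1)^d ((2 d |s|)^n / n!)²` (at most `(2n+1)^d` points with `N(x) ≤ n`), so for finite sets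
`F`: `(∑_{x∈F} ‖ψ(s) x‖²)^{1/2} ≤ ∑_n (2 n + 1)^{d/2} (2 d |s|)^n / n! < ∞` (Minkowski), bounded on `[-T, T]`.
(4) `flux` with `θ = ψ` on `[-T, T]`, `T = |s|`: `∑_x ‖ψ(s) x‖² = 1`.
-/

open MeasureTheory

namespace Pool.Agent.H989.DY

open Pool.Agent.W788.LD.Spec (S)
open Pool.Agent.H4R2.LO (Zd)

/-- the phase -/
noncomputable def DyEx_E {d : ℕ} (W : Zd d → ℝ) (x : Zd d) (s : ℝ) : ℂ :=
  Complex.exp (-Complex.I * (s : ℂ) * (W x : ℂ))

theorem DyEx_E_norm {d : ℕ} (W : Zd d → ℝ) (x : Zd d) (s : ℝ) : ‖DyEx_E W x s‖ = 1 := by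
  rw [DyEx_E, Complex.norm_exp]
  simp

theorem DyEx_E_zero {d : ℕ} (W : Zd d → ℝ) (x : Zd d) : DyEx_E W x 0 = 1 := by
  simp [DyEx_E]

theorem DyEx_E_mul {d : ℕ} (W : Zd d → ℝ) (x : Zd d) (s : ℝ) :
    DyEx_E W x s * DyEx_E W x (-s) = 1 := by
  rw [DyEx_E, DyEx_E, ← Complex.exp_add]
  have : -Complex.I * (s : ℂ) * (W x : ℂ) + -Complex.I * ((-s : ℝ) : ℂ) * (W x : ℂ) = 0 := by
    push_cast
    ring
  rw [this, Complex.exp_zero]

theorem DyEx_E_deriv {d : ℕ} (W : Zd d → ℝ) (x : Zd d) (s : ℝ) :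
    HasDerivAt (fun s => DyEx_E W x s) (-Complex.I * (W x : ℂ) * DyEx_E W x s) s := by
  have h1 : HasDerivAt (fun s : ℝ => -Complex.I * (s : ℂ) * (W x : ℂ))
      (-Complex.I * 1 * (W x : ℂ)) s :=
    ((Complex.ofRealCLM.hasDerivAt (x := s)).const_mul (-Complex.I)).mul_const (W x : ℂ)
  have h2 := h1.cexp
  refine h2.congr_deriv ?_
  simp only [DyEx_E]
  ring

theorem DyEx_E_cont {d : ℕ} (W : Zd d → ℝ) (x : Zd d) : Continuous (fun s => DyEx_E W x s) :=
  continuous_iff_continuousAt.2 fun s => (DyEx_E_deriv W x s).continuousAt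

/-- the terms of the Dyson series -/
noncomputable def DyEx_ch {d : ℕ} (W : Zd d → ℝ) (a : Zd d) : ℕ → ℝ → Zd d → ℂ
  | 0, _, x => if x = a then 1 else 0
  | n + 1, s, x => ∫ r in (0 : ℝ)..s, -Complex.I * (DyEx_E W x (-r) *
      S (fun y => DyEx_E W y r * DyEx_ch W a n r y) x)

/-- the derivative of the terms -/
noncomputable def DyEx_G {d : ℕ} (W : Zd d → ℝ) (a : Zd d) (n : ℕ) (r : ℝ) (x : Zd d) : ℂ :=
  -Complex.I * (DyEx_E W x (-r) * S (fun y => DyEx_E W y r * DyEx_ch W a n r y) x)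

theorem DyEx_ch_zero {d : ℕ} (W : Zd d → ℝ) (a : Zd d) (s : ℝ) (x : Zd d) :
    DyEx_ch W a 0 s x = if x = a then 1 else 0 := by
  rw [DyEx_ch]

theorem DyEx_ch_succ {d : ℕ} (W : Zd d → ℝ) (a : Zd d) (n : ℕ) (s : ℝ) (x : Zd d) :
    DyEx_ch W a (n + 1) s x = ∫ r in (0 : ℝ)..s, DyEx_G W a n r x := by
  rw [DyEx_ch]
  rfl

theorem DyEx_cont {d : ℕ} (W : Zd d → ℝ) (a : Zd d) (n : ℕ) :
    ∀ x, Continuous (fun s => DyEx_ch W a n s x) ∧ Continuous (fun s => DyEx_G W a n s x) := by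
  have key : ∀ n, (∀ x, Continuous (fun s => DyEx_ch W a n s x)) →
      ∀ x, Continuous (fun s => DyEx_G W a n s x) := by
    intro n h x
    have h1 : Continuous fun r => DyEx_E W x (-r) := (DyEx_E_cont W x).comp continuous_neg
    unfold DyEx_G
    refine continuous_const.mul (h1.mul ?_)
    unfold S
    refine continuous_finsetSum _ fun i _ => ?_
    exact ((DyEx_E_cont W _).mul (h _)).add ((DyEx_E_cont W _).mul (h _))
  induction n with
  | zero =>
    have h0 : ∀ x, Continuous (fun s => DyEx_ch W a 0 s x) := by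
      intro x
      simp only [DyEx_ch_zero]
      exact continuous_const
    exact fun x => ⟨h0 x, key 0 h0 x⟩
  | succ n ih =>
    have h0 : ∀ x, Continuous (fun s => DyEx_ch W a (n + 1) s x) := by
      intro x
      simp only [DyEx_ch_succ]
      exact continuous_iff_continuousAt.2 fun s =>
        ((ih x).2.integral_hasStrictDerivAt 0 s).hasDerivAt.continuousAt
    exact fun x => ⟨h0 x, key (n + 1) h0 x⟩

theorem DyEx_deriv {d : ℕ} (W : Zd d → ℝ) (a : Zd d) (n : ℕ) (s : ℝ) (x : Zd d) :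
    HasDerivAt (fun s => DyEx_ch W a (n + 1) s x) (DyEx_G W a n s x) s := by
  simp only [DyEx_ch_succ]
  exact ((DyEx_cont W a n x).2.integral_hasStrictDerivAt 0 s).hasDerivAt

theorem DyEx_S_bound {d : ℕ} (u : Zd d → ℂ) (B : ℝ) (h : ∀ y, ‖u y‖ ≤ B) (x : Zd d) :
    ‖S u x‖ ≤ 2 * d * B := by
  unfold S
  refine (norm_sum_le _ _).trans ?_
  refine (Finset.sum_le_sum (fun i _ => (norm_add_le _ _).trans (add_le_add (h _) (h _)))).trans ?_
  simp only [Finset.sum_const, Finset.card_univ, Fintype.card_fin, nsmul_eq_mul]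
  linarith

theorem DyEx_G_bound' {d : ℕ} (W : Zd d → ℝ) (a : Zd d) (n : ℕ) (r B : ℝ)
    (h : ∀ y, ‖DyEx_ch W a n r y‖ ≤ B) (x : Zd d) : ‖DyEx_G W a n r x‖ ≤ 2 * d * B := by
  unfold DyEx_G
  rw [norm_mul, norm_neg, Complex.norm_I, one_mul, norm_mul, DyEx_E_norm, one_mul]
  refine DyEx_S_bound _ B (fun y => ?_) x
  rw [norm_mul, DyEx_E_norm, one_mul]
  exact h y

theorem DyEx_ch_bound {d : ℕ} (W : Zd d → ℝ) (a : Zd d) (n : ℕ) : ∀ (s : ℝ) (x : Zd d),
    ‖DyEx_ch W a n s x‖ ≤ (2 * d * |s|) ^ n / n.factorial := by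
  induction n with
  | zero =>
    intro s x
    rw [DyEx_ch_zero]
    split_ifs <;> simp
  | succ n ih =>
    intro s x
    rw [DyEx_ch_succ]
    have h1 : ∀ r, ‖DyEx_G W a n r x‖ ≤
        2 * d * ((2 * d) ^ n / n.factorial) * |r - 0| ^ n := by
      intro r
      refine (DyEx_G_bound' W a n r _ (ih r) x).trans (le_of_eq ?_)
      rw [sub_zero, mul_pow (2 * (d : ℝ))]
      ring
    have hc1 : Continuous fun r => ‖DyEx_G W a n r x‖ := (DyEx_cont W a n x).2.norm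
    have hc2 : Continuous fun r : ℝ => 2 * (d : ℝ) * ((2 * d) ^ n / n.factorial) * |r - 0| ^ n := by
      fun_prop
    have hf : ((n + 1).factorial : ℝ) = (n + 1) * n.factorial := by
      rw [Nat.factorial_succ]
      push_cast
      ring
    have hf0 : (n.factorial : ℝ) ≠ 0 := by positivity
    calc ‖∫ r in (0 : ℝ)..s, DyEx_G W a n r x‖
        ≤ ∫ r in Set.uIoc 0 s, ‖DyEx_G W a n r x‖ :=
          intervalIntegral.norm_integral_le_integral_norm_uIoc
      _ ≤ ∫ r in Set.uIoc 0 s, 2 * (d : ℝ) * ((2 * d) ^ n / n.factorial) * |r - 0| ^ n :=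
          setIntegral_mono hc1.integrableOn_uIoc hc2.integrableOn_uIoc h1
      _ = 2 * (d : ℝ) * ((2 * d) ^ n / n.factorial) * (|s - 0| ^ (n + 1) / (n + 1)) := by
          rw [integral_const_mul, integral_pow_abs_sub_uIoc]
      _ = (2 * d * |s|) ^ (n + 1) / (n + 1).factorial := by
          rw [hf, sub_zero, mul_pow (2 * (d : ℝ)), pow_succ (2 * (d : ℝ))]
          field_simp

/-- the box -/
noncomputable def DyEx_box {d : ℕ} (a : Zd d) (n : ℕ) : Finset (Zd d) :=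
  Finset.Icc (fun i => a i - n) (fun i => a i + n)

theorem DyEx_box_card {d : ℕ} (a : Zd d) (n : ℕ) : (DyEx_box a n).card = (2 * n + 1) ^ d := by
  rw [DyEx_box, Pi.card_Icc]
  have : ∀ i : Fin d, (Finset.Icc (a i - (n : ℤ)) (a i + n)).card = 2 * n + 1 := by
    intro i
    rw [Int.card_Icc]
    omega
  simp only [this, Finset.prod_const, Finset.card_univ, Fintype.card_fin]

theorem DyEx_mem_box {d : ℕ} {a : Zd d} {n : ℕ} {x : Zd d} :
    x ∈ DyEx_box a n ↔ ∀ i, a i - n ≤ x i ∧ x i ≤ a i + n := by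
  rw [DyEx_box, Finset.mem_Icc]
  exact ⟨fun h i => ⟨h.1 i, h.2 i⟩, fun h => ⟨fun i => (h i).1, fun i => (h i).2⟩⟩

theorem DyEx_ch_supp {d : ℕ} (W : Zd d → ℝ) (a : Zd d) (n : ℕ) : ∀ (s : ℝ) (x : Zd d),
    x ∉ DyEx_box a n → DyEx_ch W a n s x = 0 := by
  induction n with
  | zero =>
    intro s x hx
    rw [DyEx_ch_zero]
    refine if_neg fun h => hx ?_
    rw [DyEx_mem_box, h]
    intro i
    simp
  | succ n ih =>
    intro s x hx
    rw [DyEx_ch_succ]
    have h1 : ∀ r, DyEx_G W a n r x = 0 := by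
      intro r
      have h2 : ∀ i : Fin d, DyEx_ch W a n r (x + Pi.single i 1) = 0 := by
        intro i
        refine ih r _ fun h => hx ?_
        rw [DyEx_mem_box] at h ⊢
        intro j
        have := h j
        rw [Pi.add_apply, Pi.single_apply] at this
        push_cast
        split_ifs at this <;> omega
      have h3 : ∀ i : Fin d, DyEx_ch W a n r (x - Pi.single i 1) = 0 := by
        intro i
        refine ih r _ fun h => hx ?_
        rw [DyEx_mem_box] at h ⊢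
        intro j
        have := h j
        rw [Pi.sub_apply, Pi.single_apply] at this
        push_cast
        split_ifs at this <;> omega
      unfold DyEx_G S
      simp [h2, h3]
    simp [h1]

theorem DyEx_summable_terms {d : ℕ} (W : Zd d → ℝ) (a : Zd d) (s : ℝ) (x : Zd d) :
    Summable (fun n => DyEx_ch W a n s x) :=
  Summable.of_norm_bounded (Real.summable_pow_div_factorial (2 * d * |s|))
    (fun n => DyEx_ch_bound W a n s x)

/-- the solution -/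
noncomputable def DyEx_psi {d : ℕ} (W : Zd d → ℝ) (a : Zd d) (s : ℝ) (x : Zd d) : ℂ :=
  DyEx_E W x s * ∑' n, DyEx_ch W a n s x

theorem DyEx_sum_G {d : ℕ} (W : Zd d → ℝ) (a : Zd d) (s : ℝ) (x : Zd d) :
    ∑' n, DyEx_G W a n s x = -Complex.I * (DyEx_E W x (-s) * S (DyEx_psi W a s) x) := by
  unfold DyEx_G
  rw [tsum_mul_left, tsum_mul_left]
  congr 2
  unfold S
  have hs : ∀ y, Summable fun n => DyEx_E W y s * DyEx_ch W a n s y := fun y =>
    (DyEx_summable_terms W a s y).mul_left _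
  rw [Summable.tsum_finsetSum (fun i _ => (hs _).add (hs _))]
  refine Finset.sum_congr rfl fun i _ => ?_
  rw [(hs _).tsum_add (hs _), tsum_mul_left, tsum_mul_left]
  rfl

theorem DyEx_tsum_deriv {d : ℕ} (W : Zd d → ℝ) (a : Zd d) (s : ℝ) (x : Zd d) :
    HasDerivAt (fun s => ∑' n, DyEx_ch W a n s x)
      (-Complex.I * (DyEx_E W x (-s) * S (DyEx_psi W a s) x)) s := by
  have h0 : ∀ s, ∑' n, DyEx_ch W a n s x =
      (if x = a then 1 else 0) + ∑' n, DyEx_ch W a (n + 1) s x := by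
    intro s
    rw [(DyEx_summable_terms W a s x).tsum_eq_zero_add, DyEx_ch_zero]
  simp only [h0]
  rw [← DyEx_sum_G]
  refine HasDerivAt.const_add _ ?_
  have hT : s ∈ Set.Ioo (-(|s| + 1)) (|s| + 1) := by
    constructor
    · linarith [neg_abs_le s]
    · linarith [le_abs_self s]
  refine hasDerivAt_tsum_of_isPreconnected
    (u := fun n => 2 * d * ((2 * d * (|s| + 1)) ^ n / n.factorial))
    (t := Set.Ioo (-(|s| + 1)) (|s| + 1)) (y₀ := s)
    ((Real.summable_pow_div_factorial _).mul_left _) isOpen_Ioo isPreconnected_Ioo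
    (fun n y _ => DyEx_deriv W a n y x) (fun n y hy => ?_) hT ?_ hT
  · refine DyEx_G_bound' W a n y _ (fun z => (DyEx_ch_bound W a n y z).trans ?_) x
    have : |y| ≤ |s| + 1 := abs_le.2 ⟨hy.1.le, hy.2.le⟩
    gcongr
  · exact (summable_nat_add_iff 1).2 (DyEx_summable_terms W a s x)

theorem DyEx_ode {d : ℕ} (W : Zd d → ℝ) (a : Zd d) (s : ℝ) (x : Zd d) :
    HasDerivAt (fun s => DyEx_psi W a s x)
      (-Complex.I * (S (DyEx_psi W a s) x + (W x : ℂ) * DyEx_psi W a s x)) s := by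
  have h := (DyEx_E_deriv W x s).mul (DyEx_tsum_deriv W a s x)
  refine h.congr_deriv ?_
  have hE := DyEx_E_mul W x s
  have h2 : DyEx_psi W a s x = DyEx_E W x s * ∑' n, DyEx_ch W a n s x := rfl
  calc -Complex.I * (W x : ℂ) * DyEx_E W x s * (∑' n, DyEx_ch W a n s x) +
        DyEx_E W x s * (-Complex.I * (DyEx_E W x (-s) * S (DyEx_psi W a s) x))
      = -Complex.I * (W x : ℂ) * (DyEx_E W x s * (∑' n, DyEx_ch W a n s x)) +
        (DyEx_E W x s * DyEx_E W x (-s)) * (-Complex.I * S (DyEx_psi W a s) x) := by ring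
    _ = _ := by
      rw [hE, ← h2]
      ring

theorem DyEx_init {d : ℕ} (W : Zd d → ℝ) (a : Zd d) (x : Zd d) :
    DyEx_psi W a 0 x = if x = a then 1 else 0 := by
  unfold DyEx_psi
  rw [DyEx_E_zero, one_mul, (DyEx_summable_terms W a 0 x).tsum_eq_zero_add, DyEx_ch_zero]
  have : ∀ n, DyEx_ch W a (n + 1) 0 x = 0 := by
    intro n
    rw [DyEx_ch_succ, intervalIntegral.integral_same]
  simp [this]

theorem DyEx_fin {d : ℕ} (W : Zd d → ℝ) (a : Zd d) (n : ℕ) (s : ℝ) :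
    Memℓp (DyEx_ch W a n s) 2 := by
  refine memℓp_gen ?_
  refine summable_of_ne_finset_zero (s := DyEx_box a n) fun x hx => ?_
  rw [DyEx_ch_supp W a n s x hx]
  simp

/-- the terms as vectors -/
noncomputable def DyEx_v {d : ℕ} (W : Zd d → ℝ) (a : Zd d) (s : ℝ) (n : ℕ) : LL (Zd d) :=
  ⟨DyEx_ch W a n s, DyEx_fin W a n s⟩

theorem DyEx_v_norm {d : ℕ} (W : Zd d → ℝ) (a : Zd d) (s : ℝ) (n : ℕ) :
    ‖DyEx_v W a s n‖ ≤ 2 ^ d * ((2 ^ d * (2 * d * |s|)) ^ n / n.factorial) := by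
  have hB : 0 ≤ (2 * d * |s|) ^ n / (n.factorial : ℝ) := by positivity
  have hn : ((2 * n + 1 : ℕ) : ℝ) ^ d ≤ 2 ^ d * (2 ^ d) ^ n := by
    rw [← pow_mul, mul_comm d n, pow_mul, ← mul_pow]
    refine pow_le_pow_left₀ (by positivity) ?_ d
    have h1 : n + 1 ≤ 2 ^ n := Nat.lt_two_pow_self
    have h2 : 2 * n + 1 ≤ 2 * 2 ^ n := by omega
    exact_mod_cast h2
  have h1 : (1 : ℝ) ≤ ((2 * n + 1 : ℕ) : ℝ) ^ d := by
    refine one_le_pow₀ ?_
    push_cast
    linarith [(Nat.cast_nonneg n : (0 : ℝ) ≤ n)]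
  refine lp.norm_le_of_tsum_le (by norm_num) (by positivity) ?_
  have e : ((2 : ENNReal).toReal) = 2 := by norm_num
  rw [e]
  have h3 : ∑' x, ‖DyEx_v W a s n x‖ ^ (2 : ℝ) ≤
      ((2 * n + 1 : ℕ) : ℝ) ^ d * ((2 * d * |s|) ^ n / (n.factorial : ℝ)) ^ 2 := by
    rw [tsum_eq_sum (s := DyEx_box a n)]
    · refine (Finset.sum_le_card_nsmul _ _ (((2 * d * |s|) ^ n / (n.factorial : ℝ)) ^ 2)
        (fun x _ => ?_)).trans ?_
      · rw [Real.rpow_two]
        exact pow_le_pow_left₀ (norm_nonneg _) (DyEx_ch_bound W a n s x) 2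
      · rw [DyEx_box_card, nsmul_eq_mul]
        push_cast
        exact le_rfl
    · intro x hx
      have : DyEx_v W a s n x = 0 := DyEx_ch_supp W a n s x hx
      rw [this]
      simp
  refine h3.trans ?_
  rw [Real.rpow_two]
  have h4 : 2 ^ d * ((2 ^ d * (2 * d * |s|)) ^ n / (n.factorial : ℝ)) =
      (2 ^ d * (2 ^ d) ^ n) * ((2 * d * |s|) ^ n / (n.factorial : ℝ)) := by
    rw [mul_pow (2 ^ d : ℝ)]
    ring
  rw [h4, mul_pow (2 ^ d * (2 ^ d) ^ n : ℝ)]
  refine mul_le_mul_of_nonneg_right ?_ (by positivity)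
  calc ((2 * n + 1 : ℕ) : ℝ) ^ d ≤ (((2 * n + 1 : ℕ) : ℝ) ^ d) ^ 2 := by
        rw [sq]
        exact le_mul_of_one_le_left (by positivity) h1
    _ ≤ _ := pow_le_pow_left₀ (by positivity) hn 2

theorem DyEx_l2 {d : ℕ} (W : Zd d → ℝ) (a : Zd d) (s T : ℝ) (hs : |s| ≤ T) :
    Summable (fun x => ‖DyEx_psi W a s x‖ ^ 2) ∧ ∑' x, ‖DyEx_psi W a s x‖ ^ 2 ≤
      (2 ^ d * ∑' n : ℕ, ((2 ^ d * (2 * d * T)) ^ n / n.factorial)) ^ 2 := by
  have hT : 0 ≤ T := (abs_nonneg s).trans hs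
  have hb : ∀ n : ℕ, ‖DyEx_v W a s n‖ ≤ 2 ^ d * ((2 ^ d * (2 * d * T)) ^ n / n.factorial) := by
    intro n
    refine (DyEx_v_norm W a s n).trans ?_
    gcongr
  have hsum : Summable fun n : ℕ => 2 ^ d * ((2 ^ d * (2 * d * T)) ^ n / (n.factorial : ℝ)) :=
    (Real.summable_pow_div_factorial _).mul_left _
  have hv : Summable (DyEx_v W a s) := Summable.of_norm_bounded hsum hb
  have hvn : ‖∑' n, DyEx_v W a s n‖ ≤
      2 ^ d * ∑' n : ℕ, ((2 ^ d * (2 * d * T)) ^ n / (n.factorial : ℝ)) := by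
    rw [← tsum_mul_left]
    exact tsum_of_norm_bounded hsum.hasSum hb
  have hx : ∀ x, (∑' n, DyEx_v W a s n : LL (Zd d)) x = ∑' n, DyEx_ch W a n s x := by
    intro x
    have h1 := hv.hasSum
    have h2 := h1.mapL (lp.evalCLM ℂ (fun _ : Zd d => ℂ) 2 x)
    exact h2.tsum_eq.symm
  have hn : ∀ x, ‖DyEx_psi W a s x‖ = ‖(∑' n, DyEx_v W a s n : LL (Zd d)) x‖ := by
    intro x
    rw [hx, DyEx_psi, norm_mul, DyEx_E_norm, one_mul]
  simp only [hn]
  have h3 := lp.hasSum_norm (p := 2) (by norm_num) (∑' n, DyEx_v W a s n : LL (Zd d))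
  have e : ((2 : ENNReal).toReal) = 2 := by norm_num
  rw [e] at h3
  simp only [Real.rpow_two] at h3
  refine ⟨h3.summable, ?_⟩
  rw [h3.tsum_eq]
  exact pow_le_pow_left₀ (norm_nonneg _) hvn 2

theorem ev_exists {d : ℕ} (W : Zd d → ℝ) (a : Zd d) : ∃ ψ, Ev d W a ψ := by
  refine ⟨DyEx_psi W a, DyEx_init W a, DyEx_ode W a, fun s => ?_⟩
  have h1 := flux (W := W) (θ := DyEx_psi W a) (DyEx_ode W a)
    (C := (2 ^ d * ∑' n : ℕ, ((2 ^ d * (2 * d * |s|)) ^ n / n.factorial)) ^ 2) (T := |s|)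
    (fun r hr => DyEx_l2 W a r |s| (abs_le.2 hr)) s (abs_le.1 le_rfl)
  have h2 : ∑' x, ‖DyEx_psi W a 0 x‖ ^ 2 = 1 := by
    rw [tsum_eq_single a]
    · rw [DyEx_init]
      simp
    · intro x hx
      rw [DyEx_init, if_neg hx]
      simp
  rw [h2] at h1
  rw [← h1]
  exact (DyEx_l2 W a s |s| le_rfl).1.hasSum

end Pool.Agent.H989.DY
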