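import Pool.Agent.H989.DY.Defs
import Pool.Agent.H155.GA.RuA
import Pool.Agent.H870.GA.RuB
import Pool.Agent.H168.Y987.Op

/-!
# DyRes: the resolvent of `S + W` for an arbitrary real potential `W`

From the team's files: `Pool.Agent.H121.GA.RU` (file `Pool/Agent/H121/GA/IfB.lean`: `RU`, `Rf`, `SpR`,
`S_ruA`, `S_ruB`), `Pool.Agent.H155.GA.ruA : S_ruA`, `Pool.Agent.H870.GA.ruB : S_ruA → S_ruB`,
and the neighbour operator with the kernel `adj`.
-/

open MeasureTheory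
open scoped InnerProductSpace

namespace Pool.Agent.H989.DY

open Pool.Agent.W788.LD.Spec (S)
open Pool.Agent.H4R2.LO (Zd)

/-- the kernel of the neighbour operator -/
theorem DyRes_ker (d : ℕ) : Pool.Agent.H987.Y.Ker (2 * (d : ℝ)) (Pool.Agent.H121.MY.adj d) := by
  have habs : ∀ x y, |Pool.Agent.H121.MY.adj d x y| = Pool.Agent.H121.MY.adj d x y := fun x y =>
    abs_of_nonneg (Pool.Agent.H121.MY.adj_nn x y)
  refine ⟨by positivity, Pool.Agent.H121.MY.adj_sy, fun x => ?_, fun x => ?_⟩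
  · simp only [habs]
    exact (Pool.Agent.H121.MY.adj_hasSum x).summable
  · simp only [habs]
    exact (Pool.Agent.H121.MY.adj_hasSum x).tsum_eq.le

/-- its action -/
theorem DyRes_act {d : ℕ} (u : LL (Zd d)) (x : Zd d) :
    Pool.Agent.H987.Y.Op (Pool.Agent.H121.MY.adj d) u x = S (fun y => u y) x := by
  have h1 := ((Pool.Agent.H168.Y987.op _ _ _ (DyRes_ker d)).1 u x).2
  have h2 := Pool.Agent.H121.MY.adj_act (fun y => u y) x
  rw [h1, h2.tsum_eq]
  rfl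

theorem exists_res {d : ℕ} (W : Zd d → ℝ) : ∃ R : ℂ → LL (Zd d) →L[ℂ] LL (Zd d), RF R ∧
    (∀ z : ℂ, z.im ≠ 0 → ∀ (f : LL (Zd d)) (x : Zd d),
      S (fun y => R z f y) x + (W x : ℂ) * R z f x - z * R z f x = f x) ∧
    ∀ z : ℂ, z.im ≠ 0 → ∀ f u : LL (Zd d),
      (∀ x, S (fun y => u y) x + (W x : ℂ) * u x - z * u x = f x) → u = R z f := by
  obtain ⟨T, hT⟩ : ∃ T, T = Pool.Agent.H987.Y.Op (Pool.Agent.H121.MY.adj d) := ⟨_, rfl⟩
  have hact : ∀ (u : LL (Zd d)) (x : Zd d), T u x = S (fun y => u y) x := fun u x => by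
    rw [hT]
    exact DyRes_act u x
  have hRs : Pool.Agent.H987.Z.Rs T := by
    rw [hT]
    exact (Pool.Agent.H168.Y987.op _ _ _ (DyRes_ker d)).2.2.1
  have hA := Pool.Agent.H155.GA.ruA
  have hB := Pool.Agent.H870.GA.ruB hA _ T hRs W
  refine ⟨Pool.Agent.H121.GA.RU T W, ?_, fun z hz f x => ?_, fun z hz f u h => ?_⟩
  · refine ⟨hB.nb, hB.id, hB.ad, hB.sy, fun φ => ?_⟩
    obtain ⟨m, hm, hm'⟩ := hB.sp φ
    exact ⟨m, hm.1, hm.2, hm'⟩
  · have h1 := (hA _ T hRs W z hz).2.2.1 f x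
    rw [hact] at h1
    exact h1
  · refine (hA _ T hRs W z hz).2.2.2 f u fun x => ?_
    rw [hact]
    exact h x

end Pool.Agent.H989.DY
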