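import Pool.Agent.H989.DY.DyEx

/-!
From averages over the starting sites in a box to single sites, by stationarity.
-/

set_option linter.unusedSectionVars false
set_option linter.unusedVariables false

open MeasureTheory Finset Filter Topology

namespace Pool.Agent.H989.DY

open Pool.Agent.W788.LD.Spec (S)
open Pool.Agent.H4R2.LO (Zd)

theorem ev_psi {d : ℕ} (W : Zd d → ℝ) (a : Zd d) : Ev d W a (DyEx_psi W a) := by
  obtain ⟨ψ, hψ⟩ := ev_exists W a
  refine ⟨DyEx_init W a, DyEx_ode W a, fun s => ?_⟩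
  have h1 := flux (W := W) (θ := DyEx_psi W a) (DyEx_ode W a)
    (C := (2 ^ d * ∑' n : ℕ, ((2 ^ d * (2 * d * |s|)) ^ n / n.factorial)) ^ 2) (T := |s|)
    (fun r hr => DyEx_l2 W a r |s| (abs_le.2 hr)) s (abs_le.1 le_rfl)
  have h2 : ∑' x, ‖DyEx_psi W a 0 x‖ ^ 2 = 1 := by
    rw [tsum_eq_single a]
    · rw [DyEx_init]
      simp
    · intro x hx
      rw [DyEx_init, if_neg hx]
      simp
  rw [h2] at h1
  rw [← h1]
  exact (DyEx_l2 W a s |s| le_rfl).1.hasSum

/-! ### measurability -/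

theorem st_param {X E : Type} [MeasurableSpace X] [NormedAddCommGroup E] [NormedSpace ℝ E]
    (u : ℝ → X → E) (hc : ∀ x, Continuous fun r => u r x) (hm : ∀ r, StronglyMeasurable (u r))
    (a b : ℝ) : StronglyMeasurable fun x => ∫ r in a..b, u r x := by
  have huc := stronglyMeasurable_uncurry_of_continuous_of_stronglyMeasurable hc hm
  have huc2 : StronglyMeasurable (Function.uncurry fun (x : X) (r : ℝ) => u r x) :=
    huc.comp_measurable measurable_swap
  unfold intervalIntegral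
  exact huc2.integral_prod_right.sub huc2.integral_prod_right

theorem st_E {d : ℕ} (x : Zd d) (s : ℝ) : StronglyMeasurable fun W : Zd d → ℝ => DyEx_E W x s := by
  unfold DyEx_E
  exact Measurable.stronglyMeasurable (by fun_prop)

theorem st_ch {d : ℕ} (a : Zd d) (n : ℕ) :
    ∀ (s : ℝ) (x : Zd d), StronglyMeasurable fun W : Zd d → ℝ => DyEx_ch W a n s x := by
  induction n with
  | zero =>
    intro s x
    simp only [DyEx_ch_zero]
    exact stronglyMeasurable_const
  | succ n ih =>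
    have hG : ∀ (r : ℝ) (x : Zd d), StronglyMeasurable fun W : Zd d → ℝ => DyEx_G W a n r x := by
      intro r x
      unfold DyEx_G S
      refine stronglyMeasurable_const.mul ((st_E x (-r)).mul ?_)
      refine Finset.stronglyMeasurable_fun_sum _ fun i _ => ?_
      exact ((st_E _ r).mul (ih r _)).add ((st_E _ r).mul (ih r _))
    intro s x
    simp only [DyEx_ch_succ]
    exact st_param (fun (r : ℝ) (W : Zd d → ℝ) => DyEx_G W a n r x)
      (fun W => (DyEx_cont W a n x).2) (fun r => hG r x) 0 s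

theorem st_psi {d : ℕ} (a : Zd d) (s : ℝ) (x : Zd d) :
    StronglyMeasurable fun W : Zd d → ℝ => DyEx_psi W a s x := by
  unfold DyEx_psi
  refine (st_E x s).mul ?_
  refine stronglyMeasurable_of_tendsto (f := fun (N : ℕ) (W : Zd d → ℝ) =>
    ∑ n ∈ Finset.range N, DyEx_ch W a n s x) atTop (fun N =>
      Finset.stronglyMeasurable_fun_sum _ fun n _ => st_ch a n s x) ?_
  rw [tendsto_pi_nhds]
  exact fun W => (DyEx_summable_terms W a s x).hasSum.tendsto_sum_nat

/-- the time average of the mass at `y` -/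
noncomputable def stM {d : ℕ} (T : ℝ) (W : Zd d → ℝ) (a y : Zd d) : ℝ :=
  (1 / T) * ∫ t in (0:ℝ)..T, ‖DyEx_psi W a t y‖ ^ 2

theorem st_cont {d : ℕ} (W : Zd d → ℝ) (a y : Zd d) :
    Continuous fun t => ‖DyEx_psi W a t y‖ ^ 2 :=
  (continuous_iff_continuousAt.2 fun s => (DyEx_ode W a s y).continuousAt).norm.pow 2

theorem st_M {d : ℕ} (T : ℝ) (a y : Zd d) : StronglyMeasurable fun W : Zd d → ℝ => stM T W a y := by
  unfold stM
  refine stronglyMeasurable_const.mul ?_
  exact st_param (fun (r : ℝ) (W : Zd d → ℝ) => ‖DyEx_psi W a r y‖ ^ 2)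
    (fun W => st_cont W a y) (fun r => (st_psi a r y).norm.pow 2) 0 T

theorem st_nonneg {d : ℕ} {T : ℝ} (hT : 0 < T) (W : Zd d → ℝ) (a y : Zd d) : 0 ≤ stM T W a y := by
  unfold stM
  refine mul_nonneg (by positivity) (intervalIntegral.integral_nonneg hT.le fun t _ => by positivity)

theorem st_le_one {d : ℕ} {T : ℝ} (hT : 0 < T) (W : Zd d → ℝ) (a y : Zd d) : stM T W a y ≤ 1 := by
  unfold stM
  have h1 : ∀ t, ‖DyEx_psi W a t y‖ ^ 2 ≤ 1 := by
    intro t
    have := sum_le_hasSum {y} (fun _ _ => by positivity) ((ev_psi W a).norm t)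
    simpa using this
  have h2 : ∫ t in (0:ℝ)..T, ‖DyEx_psi W a t y‖ ^ 2 ≤ ∫ _t in (0:ℝ)..T, (1:ℝ) :=
    intervalIntegral.integral_mono hT.le ((st_cont W a y).intervalIntegrable _ _)
      (continuous_const.intervalIntegrable _ _) h1
  rw [intervalIntegral.integral_const, smul_eq_mul, mul_one, sub_zero] at h2
  calc (1 / T) * ∫ t in (0:ℝ)..T, ‖DyEx_psi W a t y‖ ^ 2 ≤ (1 / T) * T := by gcongr
    _ = 1 := by field_simp

/-- covariance -/
theorem st_cov {d : ℕ} (T : ℝ) (W : Zd d → ℝ) (b y : Zd d) :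
    stM T (fun x => W (x + b)) 0 y = stM T W b (b + y) := by
  have h1 : Ev d (fun x => W (x + b)) 0 (fun s x => DyEx_psi W b s (b + x)) := by
    have h := ev_psi W b
    refine ⟨fun x => ?_, fun s x => ?_, fun s => ?_⟩
    · rw [h.init]
      have : b + x = b ↔ x = 0 := by simp
      simp only [this]
    · have h2 := h.ode s (b + x)
      refine h2.congr_deriv ?_
      unfold S
      congr 2
      · refine Finset.sum_congr rfl fun i _ => ?_
        rw [add_assoc, add_sub_assoc]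
      · rw [add_comm b x]
    · have h2 := h.norm s
      rw [← (Equiv.addLeft b).hasSum_iff] at h2
      exact h2
  have h3 := ev_unique (ev_psi (fun x => W (x + b)) 0) h1
  unfold stM
  rw [h3]

/-- invariance of the law -/
theorem st_inv {d : ℕ} (μ : Measure ℝ) [IsProbabilityMeasure μ] (b : Zd d) :
    (Measure.infinitePi fun _ : Zd d => μ).map (fun ω x => ω (x + b)) =
      Measure.infinitePi fun _ : Zd d => μ := by
  classical
  refine Measure.eq_infinitePi _ fun s t ht => ?_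
  rw [Measure.map_apply (by fun_prop) (.pi s.countable_toSet fun _ _ => ht _)]
  have h1 : (fun (ω : Zd d → ℝ) x => ω (x + b)) ⁻¹' ((s : Set (Zd d)).pi t) =
      ((s.image fun x => x + b : Finset (Zd d)) : Set (Zd d)).pi (fun j => t (j - b)) := by
    ext ω
    simp only [Set.mem_preimage, Set.mem_pi, Finset.coe_image, Set.mem_image, Finset.mem_coe,
      forall_exists_index, and_imp, forall_apply_eq_imp_iff₂, add_sub_cancel_right]
  rw [h1, Measure.infinitePi_pi _ (fun i _ => ht _), Finset.prod_image (by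
    intro x _ y _ h
    exact add_right_cancel h)]
  simp

theorem st_int {d : ℕ} {μ : Measure ℝ} [IsProbabilityMeasure μ] {T lam : ℝ} (a v : Zd d) :
    ∫ ω, stM T (fun x => lam * ω x) a (a + v) ∂(Measure.infinitePi fun _ : Zd d => μ) =
      ∫ ω, stM T (fun x => lam * ω x) 0 v ∂(Measure.infinitePi fun _ : Zd d => μ) := by
  conv_rhs => rw [← st_inv μ a]
  rw [integral_map (measurable_pi_lambda _ fun x => measurable_pi_apply _).aemeasurable]
  · refine integral_congr_ae (Eventually.of_forall fun ω => ?_)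
    exact (st_cov T (fun x => lam * ω x) a v).symm
  · have : Measurable fun (ω : Zd d → ℝ) (x : Zd d) => lam * ω x := by fun_prop
    exact ((st_M T 0 v).comp_measurable this).aestronglyMeasurable

theorem st_prod {ι : Type} (s : Finset ι) (x : ι → ℝ) (h0 : ∀ i, 0 ≤ x i) (h1 : ∀ i, x i ≤ 1) :
    1 - ∑ i ∈ s, x i ≤ ∏ i ∈ s, (1 - x i) := by
  classical
  induction s using Finset.induction_on with
  | empty => simp
  | insert i s hi ih =>
    rw [Finset.sum_insert hi, Finset.prod_insert hi]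
    have h2 : 0 ≤ ∑ j ∈ s, x j := Finset.sum_nonneg fun j _ => h0 j
    have h3 : (1 - x i) * (1 - ∑ j ∈ s, x j) ≤ (1 - x i) * ∏ j ∈ s, (1 - x j) :=
      mul_le_mul_of_nonneg_left ih (by linarith [h1 i])
    nlinarith [h0 i, h1 i]

/-- the box -/
noncomputable def bx (d l : ℕ) : Finset (Zd d) := Fintype.piFinset fun _ => Finset.Ico (0 : ℤ) (0 + l)

/-- most sites of the box have their `v`-translate in the box -/
theorem st_count {d l r : ℕ} (hl : 0 < l) (hr : 2 * r ≤ l) (v : Zd d) (hv : ∑ i, |(v i : ℝ)| ≤ r) :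
    (l : ℝ) ^ d / 2 ≤ (((bx d l).filter fun a => a + v ∈ bx d l).card : ℝ) := by
  classical
  have hl0 : (0:ℝ) < l := by exact_mod_cast hl
  have hvi : ∀ i, |(v i : ℝ)| ≤ r := fun i =>
    (Finset.single_le_sum (f := fun i => |(v i : ℝ)|) (fun _ _ => abs_nonneg _)
      (Finset.mem_univ i)).trans hv
  have hrl : (r : ℝ) ≤ l := by
    have : r ≤ l := by omega
    exact_mod_cast this
  have hrl2 : 2 * (r : ℝ) ≤ l := by exact_mod_cast hr
  have e1 : ((bx d l).filter fun a => a + v ∈ bx d l) =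
      Fintype.piFinset fun i => (Finset.Ico (0 : ℤ) (0 + l)).filter fun m => m + v i ∈ Finset.Ico (0 : ℤ) (0 + l) := by
    ext a
    simp only [bx, Finset.mem_filter, Fintype.mem_piFinset, Pi.add_apply]
    constructor
    · rintro ⟨h1, h2⟩ i
      exact ⟨h1 i, h2 i⟩
    · intro h
      exact ⟨fun i => (h i).1, fun i => (h i).2⟩
  have e2 : ∀ i, (l : ℝ) * (1 - |(v i : ℝ)| / l) ≤
      (((Finset.Ico (0 : ℤ) (0 + l)).filter fun m => m + v i ∈ Finset.Ico (0 : ℤ) (0 + l)).card : ℝ) := by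
    intro i
    have h1 : Finset.Ico (max 0 (-v i)) (min (l:ℤ) (l - v i)) ⊆
        (Finset.Ico (0 : ℤ) (0 + l)).filter fun m => m + v i ∈ Finset.Ico (0 : ℤ) (0 + l) := by
      intro m hm
      simp only [Finset.mem_filter, Finset.mem_Ico] at hm ⊢
      omega
    have h2 := Finset.card_le_card h1
    rw [Int.card_Ico] at h2
    have h3 : (l : ℤ) - |v i| ≤ ((min (l:ℤ) (l - v i) - max 0 (-v i)).toNat : ℤ) := by
      rcases abs_cases (v i) with ⟨h4, h5⟩ | ⟨h4, h5⟩ <;> omega
    have h4 : (l : ℤ) - |v i| ≤ (((Finset.Ico (0 : ℤ) (0 + l)).filter fun m =>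
        m + v i ∈ Finset.Ico (0 : ℤ) (0 + l)).card : ℤ) := h3.trans (by exact_mod_cast h2)
    have h5 : ((l : ℝ) - |(v i : ℝ)|) ≤ (((Finset.Ico (0 : ℤ) (0 + l)).filter fun m =>
        m + v i ∈ Finset.Ico (0 : ℤ) (0 + l)).card : ℝ) := by exact_mod_cast h4
    refine le_trans (le_of_eq ?_) h5
    field_simp
  rw [e1, Fintype.card_piFinset]
  push_cast
  calc (l : ℝ) ^ d / 2 ≤ (l : ℝ) ^ d * (1 - ∑ i, |(v i : ℝ)| / l) := by
        have h1 : ∑ i, |(v i : ℝ)| / l ≤ 1 / 2 := by
          rw [← Finset.sum_div, div_le_div_iff₀ hl0 (by norm_num)]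
          linarith
        have h2 : (0:ℝ) ≤ (l : ℝ) ^ d := by positivity
        nlinarith
    _ ≤ (l : ℝ) ^ d * ∏ i, (1 - |(v i : ℝ)| / l) := by
        refine mul_le_mul_of_nonneg_left ?_ (by positivity)
        exact st_prod _ _ (fun i => by positivity) fun i => by
          rw [div_le_one hl0]
          exact (hvi i).trans hrl
    _ = ∏ i, ((l : ℝ) * (1 - |(v i : ℝ)| / l)) := by
        rw [Finset.prod_mul_distrib, Finset.prod_const, Finset.card_univ, Fintype.card_fin]
    _ ≤ _ := Finset.prod_le_prod (fun i _ => by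
        refine mul_nonneg hl0.le ?_
        rw [sub_nonneg, div_le_one hl0]
        exact (hvi i).trans hrl) fun i _ => e2 i

/-- **single sites** -/
theorem stat {d l r : ℕ} (hl : 0 < l) (hr : 2 * r ≤ l) {μ : Measure ℝ} [IsProbabilityMeasure μ]
    (hμ : μ (Set.Icc (-1) 1)ᶜ = 0) {lam T η : ℝ} (hT : 0 < T) (hη : 0 < η)
    (hbox : ∀ ω : Zd d → ℝ, (∀ x, |ω x| ≤ 1) → ∀ ψ : Zd d → ℝ → Zd d → ℂ,
      (∀ a, Ev d (fun x => lam * ω x) a (ψ a)) →
      ∑ a ∈ bx d l, ∑ y ∈ bx d l, (1 / T) * ∫ t in (0:ℝ)..T, ‖ψ a t y‖ ^ 2 ≤ (η ^ 2 / 2) * l ^ d)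
    (a : Zd d) :
    ∃ G : Set (Zd d → ℝ), MeasurableSet G ∧
      1 - η ≤ (Measure.infinitePi fun _ : Zd d => μ).real G ∧
      ∀ ω ∈ G, ∀ ψ : ℝ → Zd d → ℂ, Ev d (fun x => lam * ω x) a ψ → ∀ F : Finset (Zd d),
        (∀ y ∈ F, ∑ i, |(y i : ℝ)| ≤ r) →
        (1 / T) * ∫ t in (0:ℝ)..T, ∑ y ∈ F, ‖ψ t (a + y)‖ ^ 2 ≤ η := by
  classical
  have hl0 : (0:ℝ) < l := by exact_mod_cast hl
  obtain ⟨P, hP⟩ : ∃ P, P = Measure.infinitePi fun _ : Zd d => μ := ⟨_, rfl⟩
  have hprob : IsProbabilityMeasure P := by rw [hP]; infer_instance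
  obtain ⟨B, hB⟩ : ∃ B : Finset (Zd d), ∀ y, y ∈ B ↔ ∑ i, |(y i : ℝ)| ≤ r := by
    refine ⟨(Fintype.piFinset fun _ => Finset.Icc (-(r:ℤ)) r).filter
      fun y => ∑ i, |(y i : ℝ)| ≤ r, fun y => ?_⟩
    rw [Finset.mem_filter]
    refine ⟨fun h => h.2, fun h => ⟨?_, h⟩⟩
    rw [Fintype.mem_piFinset]
    intro i
    have h1 := (Finset.single_le_sum (f := fun i => |(y i : ℝ)|) (fun _ _ => abs_nonneg _)
      (Finset.mem_univ i)).trans h
    have h2 : |y i| ≤ (r : ℤ) := by exact_mod_cast h1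
    rw [Finset.mem_Icc]
    exact abs_le.1 h2
  have hmeas : Measurable fun (ω : Zd d → ℝ) (x : Zd d) => lam * ω x := by fun_prop
  have hM : ∀ a y : Zd d, StronglyMeasurable fun ω : Zd d → ℝ => stM T (fun x => lam * ω x) a y :=
    fun a y => (st_M T a y).comp_measurable hmeas
  have hI : ∀ a y : Zd d, Integrable (fun ω : Zd d → ℝ => stM T (fun x => lam * ω x) a y) P :=
    fun a y => Integrable.of_bound (hM a y).aestronglyMeasurable 1 (Eventually.of_forall fun ω => by
      rw [Real.norm_eq_abs, abs_of_nonneg (st_nonneg hT _ _ _)]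
      exact st_le_one hT _ _ _)
  have hae : ∀ᵐ ω ∂P, ∀ x, |ω x| ≤ 1 := by
    rw [ae_all_iff]
    intro x
    have h3 : MeasurePreserving (fun ω : Zd d → ℝ => ω x) P μ := by
      rw [hP]
      exact measurePreserving_eval_infinitePi (fun _ : Zd d => μ) x
    refine h3.quasiMeasurePreserving.ae (p := fun v : ℝ => |v| ≤ 1) ?_
    have h4 : ∀ᵐ v ∂μ, v ∈ Set.Icc (-1 : ℝ) 1 := by
      rw [ae_iff]
      exact hμ
    filter_upwards [h4] with v hv
    exact abs_le.2 hv
  -- the sum over the box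
  have hsum : ∑ b ∈ bx d l, ∑ y ∈ bx d l, ∫ ω, stM T (fun x => lam * ω x) b y ∂P ≤
      (η ^ 2 / 2) * l ^ d := by
    have h1 : ∑ b ∈ bx d l, ∑ y ∈ bx d l, ∫ ω, stM T (fun x => lam * ω x) b y ∂P =
        ∫ ω, ∑ b ∈ bx d l, ∑ y ∈ bx d l, stM T (fun x => lam * ω x) b y ∂P := by
      rw [integral_finsetSum _ fun b _ => integrable_finsetSum _ fun y _ => hI b y]
      refine Finset.sum_congr rfl fun b _ => ?_
      rw [integral_finsetSum _ fun y _ => hI b y]
    rw [h1]
    have h2 : ∫ ω, ∑ b ∈ bx d l, ∑ y ∈ bx d l, stM T (fun x => lam * ω x) b y ∂P ≤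
        ∫ _ω, (η ^ 2 / 2) * (l:ℝ) ^ d ∂P := by
      refine integral_mono_ae (integrable_finsetSum _ fun b _ => integrable_finsetSum _ fun y _ =>
        hI b y) (integrable_const _) ?_
      filter_upwards [hae] with ω hω
      exact hbox ω hω (fun b => DyEx_psi (fun x => lam * ω x) b) fun b => ev_psi _ b
    refine h2.trans (le_of_eq ?_)
    simp
  -- single site
  obtain ⟨e, he⟩ : ∃ e : Zd d → ℝ, ∀ v, e v = ∫ ω, stM T (fun x => lam * ω x) 0 v ∂P := ⟨_, fun _ => rfl⟩
  have he0 : ∀ v, 0 ≤ e v := fun v => by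
    rw [he]
    exact integral_nonneg fun ω => st_nonneg hT _ _ _
  have hea : ∀ b v, ∫ ω, stM T (fun x => lam * ω x) b (b + v) ∂P = e v := fun b v => by
    rw [he, hP]
    exact st_int b v
  have hB2 : ∑ v ∈ B, e v ≤ η ^ 2 := by
    have h1 : ((l : ℝ) ^ d / 2) * ∑ v ∈ B, e v ≤ (η ^ 2 / 2) * l ^ d := by
      refine le_trans ?_ hsum
      calc ((l : ℝ) ^ d / 2) * ∑ v ∈ B, e v = ∑ v ∈ B, ((l : ℝ) ^ d / 2) * e v := by
            rw [Finset.mul_sum]
        _ ≤ ∑ v ∈ B, (((bx d l).filter fun b => b + v ∈ bx d l).card : ℝ) * e v := by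
            refine Finset.sum_le_sum fun v hv => ?_
            exact mul_le_mul_of_nonneg_right (st_count hl hr v ((hB v).1 hv)) (he0 v)
        _ = ∑ v ∈ B, ∑ b ∈ (bx d l).filter fun b => b + v ∈ bx d l,
              ∫ ω, stM T (fun x => lam * ω x) b (b + v) ∂P := by
            refine Finset.sum_congr rfl fun v _ => ?_
            rw [Finset.sum_congr rfl fun b _ => hea b v, Finset.sum_const, nsmul_eq_mul]
        _ = ∑ v ∈ B, ∑ b ∈ bx d l, if b + v ∈ bx d l then
              ∫ ω, stM T (fun x => lam * ω x) b (b + v) ∂P else 0 := by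
            refine Finset.sum_congr rfl fun v _ => ?_
            rw [Finset.sum_filter]
        _ = ∑ b ∈ bx d l, ∑ v ∈ B, if b + v ∈ bx d l then
              ∫ ω, stM T (fun x => lam * ω x) b (b + v) ∂P else 0 := Finset.sum_comm
        _ ≤ _ := by
            refine Finset.sum_le_sum fun b _ => ?_
            rw [← Finset.sum_filter]
            have h2 : ∑ v ∈ B.filter (fun v => b + v ∈ bx d l),
                ∫ ω, stM T (fun x => lam * ω x) b (b + v) ∂P =
                ∑ y ∈ (B.filter fun v => b + v ∈ bx d l).image (fun v => b + v),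
                ∫ ω, stM T (fun x => lam * ω x) b y ∂P := by
              rw [Finset.sum_image fun v _ w _ h => add_left_cancel h]
            rw [h2]
            refine Finset.sum_le_sum_of_subset_of_nonneg ?_ fun y _ _ =>
              integral_nonneg fun ω => st_nonneg hT _ _ _
            intro y hy
            rw [Finset.mem_image] at hy
            obtain ⟨v, hv, rfl⟩ := hy
            exact (Finset.mem_filter.1 hv).2
    have h2 : (0:ℝ) < (l : ℝ) ^ d := by positivity
    nlinarith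
  obtain ⟨g, hg⟩ : ∃ g : (Zd d → ℝ) → ℝ, ∀ ω, g ω = ∑ v ∈ B, stM T (fun x => lam * ω x) a (a + v) :=
    ⟨_, fun _ => rfl⟩
  have hgf : g = fun ω => ∑ v ∈ B, stM T (fun x => lam * ω x) a (a + v) := funext hg
  have hgm : Measurable g := by
    rw [hgf]
    exact (Finset.stronglyMeasurable_fun_sum _ fun v _ => hM a (a + v)).measurable
  have hgI : Integrable g P := by
    rw [hgf]
    exact integrable_finsetSum _ fun v _ => hI a (a + v)
  have hg0 : ∀ ω, 0 ≤ g ω := fun ω => by
    rw [hg]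
    exact Finset.sum_nonneg fun v _ => st_nonneg hT _ _ _
  have hEg : ∫ ω, g ω ∂P ≤ η ^ 2 := by
    rw [hgf, integral_finsetSum _ fun v _ => hI a (a + v)]
    rw [Finset.sum_congr rfl fun v _ => hea a v]
    exact hB2
  have hmarkov := mul_meas_ge_le_integral_of_nonneg (Eventually.of_forall hg0) hgI η
  refine ⟨{ω | g ω < η}, measurableSet_lt hgm measurable_const, ?_, fun ω hω ψ hψ F hF => ?_⟩
  · have h1 : P.real {ω | η ≤ g ω} ≤ η := by
      have h2 : η * P.real {ω | η ≤ g ω} ≤ η * η := by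
        refine hmarkov.trans (hEg.trans (le_of_eq ?_))
        ring
      exact le_of_mul_le_mul_left h2 hη
    have h3 : {ω : Zd d → ℝ | g ω < η} = {ω | η ≤ g ω}ᶜ := by
      ext ω
      simp
    rw [← hP, h3, probReal_compl_eq_one_sub (measurableSet_le measurable_const hgm)]
    linarith
  · have hψ' : ψ = DyEx_psi (fun x => lam * ω x) a := ev_unique hψ (ev_psi _ a)
    have h1 : (1 / T) * ∫ t in (0:ℝ)..T, ∑ y ∈ F, ‖ψ t (a + y)‖ ^ 2 =
        ∑ y ∈ F, stM T (fun x => lam * ω x) a (a + y) := by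
      rw [hψ', intervalIntegral.integral_finsetSum fun y _ =>
        (st_cont (fun x => lam * ω x) a (a + y)).intervalIntegrable _ _, Finset.mul_sum]
      rfl
    rw [h1]
    have h2 : F ⊆ B := fun y hy => (hB y).2 (hF y hy)
    have h3 : ∑ y ∈ F, stM T (fun x => lam * ω x) a (a + y) ≤ g ω := by
      rw [hg]
      exact Finset.sum_le_sum_of_subset_of_nonneg h2 fun _ _ _ => st_nonneg hT _ _ _
    exact h3.trans (le_of_lt hω)

end Pool.Agent.H989.DY
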