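import Pool.Agent.H989.SB.En4

/-!
From the tori to `ℤ^d`: the energy integral of the resolvents of `ℤ^d`.
-/

set_option linter.unusedSectionVars false
set_option linter.unusedVariables false

open MeasureTheory ProbabilityTheory Finset

namespace Pool.Agent.H989.DY

open Pool.Agent.H989 Pool.Agent.H989.SB
open Filter Topology
open scoped ComplexConjugate ENNReal

variable {d : ℕ}

/-- `u` is the column of the resolvent at `z` with the source `b` -/
def RC {d : ℕ} (σ : ℝ) (ω : Zd d → ℝ) (z : ℂ) (b : Zd d) (u : L2 d) : Prop :=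
  ∀ x, anderson σ ω u x - z * u x = if x = b then 1 else 0

lemma l2_hasSum (u : L2 d) : HasSum (fun y => ‖u y‖ ^ 2) (‖u‖ ^ 2) := by
  have h := lp.hasSum_norm (p := 2) (by norm_num) u
  simpa using h

/-- the resolvent equation on the torus, with defect -/
lemma res_torus {L : ℕ} [NeZero L] (hL : 3 ≤ L) {σ : ℝ} {ω : Zd d → ℝ} {u : L2 d} {z : ℂ}
    (a : Zd d) {x₀ : Tor d L} (h : RC σ ω z (lf L a x₀) u) :
    IsSol (ND L univ) ∅ (pot σ fun x => ω (lf L a x)) z (Pi.single x₀ 1 + dfc L a u)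
      (rst L a u) := by
  refine ⟨fun x hx => by simp at hx, fun x _ => ?_⟩
  have h1 := h (lf L a x)
  unfold anderson at h1
  rw [nb_ND hL]
  have hs : (Pi.single x₀ 1 : Tor d L → ℂ) x = if lf L a x = lf L a x₀ then 1 else 0 := by
    rw [Pi.single_apply]
    by_cases hx : x = x₀
    · subst hx; simp
    · rw [if_neg hx, if_neg (fun hh => hx (lf_inj a hh))]
  rw [Pi.add_apply, hs, ← h1]
  unfold rst dfc
  have : ∀ i : Fin d, ((u (lf L a (x + ei i)) - u (lf L a x + Pi.single i 1))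
      + (u (lf L a (x - ei i)) - u (lf L a x - Pi.single i 1)))
      = (u (lf L a (x + ei i)) + u (lf L a (x - ei i)))
        - (u (lf L a x + Pi.single i 1) + u (lf L a x - Pi.single i 1)) := fun i => by ring
  simp only [this, Finset.sum_sub_distrib]
  have e6 : ((pot σ (fun x => ω (lf L a x)) x : ℝ) : ℂ) = ((σ * ω (lf L a x) : ℝ) : ℂ) := rfl
  rw [e6]
  ring

lemma nrm_g_close {L : ℕ} [NeZero L] (hL : 3 ≤ L) {σ η : ℝ} (hη : 0 < η) {ω : Zd d → ℝ} {u : L2 d}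
    {E : ℝ} (a : Zd d) {x₀ : Tor d L} (h : RC σ ω (en η E) (lf L a x₀) u) :
    |nrm (En2_g L a σ η ω E x₀) - nrm (rst L a u)| ≤ nrm (dfc L a u) / η := by
  have hz : 0 < (en η E).im := hη
  have hNs : Steps (ND L (univ : Finset (Fin d))) := steps_ND hL _
  have h1 := res_torus hL a h
  have h2 := isSol_sol (v := pot σ fun x => ω (lf L a x)) (Λ := ∅) hNs hz (Pi.single x₀ 1)
  have h3 := h1.sub h2
  rw [add_sub_cancel_left] at h3
  have h4 : nrm (rst L a u - En2_g L a σ η ω E x₀) ≤ nrm (dfc L a u) / η := by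
    have h5 := h3.nsq_le hNs hz
    have h6 : (en η E).im = η := rfl
    rw [h6] at h5
    rw [le_div_iff₀ hη]
    have h7 : (nrm (rst L a u - En2_g L a σ η ω E x₀) * η) ^ 2 ≤ nrm (dfc L a u) ^ 2 := by
      rw [mul_pow, nrm_sq, nrm_sq, mul_comm]
      exact h5
    exact le_of_sq_le_sq h7 (nrm_nonneg _)
  have h8 : nrm (rst L a u) ≤ nrm (rst L a u - En2_g L a σ η ω E x₀) + nrm (En2_g L a σ η ω E x₀) := by
    have := nrm_add_le (rst L a u - En2_g L a σ η ω E x₀) (En2_g L a σ η ω E x₀)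
    rwa [sub_add_cancel] at this
  have h9 : nrm (En2_g L a σ η ω E x₀) ≤ nrm (rst L a u) + nrm (rst L a u - En2_g L a σ η ω E x₀) := by
    have := nrm_sub_le (rst L a u) (rst L a u - En2_g L a σ η ω E x₀)
    rwa [sub_sub_cancel] at this
  rw [abs_le]
  constructor <;> linarith

lemma nsq_rst_le (L : ℕ) [NeZero L] (a : Zd d) (u : L2 d) : nsq (rst L a u) ≤ ‖u‖ ^ 2 := by
  have h1 : nsq (rst L a u) = ∑ y ∈ univ.image (lf L a), ‖u y‖ ^ 2 :=
    (Finset.sum_image (f := fun y => ‖u y‖ ^ 2) fun x _ y _ h => lf_inj a h).symm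
  rw [h1]
  exact sum_le_hasSum _ (fun y _ => by positivity) (l2_hasSum u)

lemma nrm_rst_tendsto (a : Zd d) (u : L2 d) (L₀ : ℕ) :
    Tendsto (fun k : ℕ => nsq (rst (k + (L₀ + 5)) a u)) atTop (𝓝 (‖u‖ ^ 2)) := by
  have h1 := (l2_hasSum u)
  refine tendsto_order.2 ⟨fun c hc => ?_, fun c hc => ?_⟩
  · obtain ⟨F, hF⟩ := (h1.eventually (lt_mem_nhds hc)).exists
    obtain ⟨L₁, hL₁⟩ := exists_inside a F
    filter_upwards [eventually_ge_atTop L₁] with k hk
    refine hF.trans_le ?_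
    have h2 : nsq (rst (k + (L₀ + 5)) a u)
        = ∑ y ∈ univ.image (lf (k + (L₀ + 5)) a), ‖u y‖ ^ 2 :=
      (Finset.sum_image (f := fun y => ‖u y‖ ^ 2) fun x _ y _ h => lf_inj a h).symm
    rw [h2]
    refine Finset.sum_le_sum_of_subset_of_nonneg (fun y hy => ?_) (fun y _ _ => by positivity)
    rw [Finset.mem_image]
    refine ⟨red (k + (L₀ + 5)) (y - a), mem_univ _, lf_red fun i => ?_⟩
    have := hL₁ (k + (L₀ + 5)) (by omega) y hy i
    omega
  · exact Eventually.of_forall fun k => (nsq_rst_le _ a u).trans_lt hc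

lemma dfc_tendsto (a : Zd d) (u : L2 d) (L₀ : ℕ) :
    Tendsto (fun k : ℕ => nrm (dfc (k + (L₀ + 5)) a u)) atTop (𝓝 0) := by
  rw [Metric.tendsto_atTop]
  intro ε hε
  obtain ⟨L₁, hL₁⟩ := exists_L₀ (fun _ : Unit => u) a (ε := ε / 2) (by positivity)
  refine ⟨L₁, fun k hk => ?_⟩
  have := hL₁ (k + (L₀ + 5)) inferInstance (by omega) ()
  rw [Real.dist_eq, sub_zero, abs_of_nonneg (nrm_nonneg _)]
  linarith

lemma g_tendsto {σ η : ℝ} (hη : 0 < η) {ω : Zd d → ℝ} {u : L2 d} {E : ℝ} (a y : Zd d)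
    (h : RC σ ω (en η E) (a + y) u) (L₀ : ℕ) :
    Tendsto (fun k : ℕ => nsq (En2_g (k + (L₀ + 5)) a σ η ω E (red (k + (L₀ + 5)) y))) atTop
      (𝓝 (‖u‖ ^ 2)) := by
  have h1 : Tendsto (fun k : ℕ => nrm (rst (k + (L₀ + 5)) a u)) atTop (𝓝 ‖u‖) := by
    have := (Real.continuous_sqrt.tendsto _).comp (nrm_rst_tendsto a u L₀)
    rw [Real.sqrt_sq (norm_nonneg u)] at this
    refine this.congr fun k => ?_
    rw [nrm_eq_sqrt]; rfl
  have h2 : Tendsto (fun k : ℕ => nrm (dfc (k + (L₀ + 5)) a u) / η) atTop (𝓝 0) := by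
    have := (dfc_tendsto a u L₀).div_const η
    rwa [zero_div] at this
  obtain ⟨L₁, hL₁⟩ := exists_inside a {a + y}
  have h3 : Tendsto (fun k : ℕ => nrm (En2_g (k + (L₀ + 5)) a σ η ω E (red (k + (L₀ + 5)) y))
      - nrm (rst (k + (L₀ + 5)) a u)) atTop (𝓝 0) := by
    refine squeeze_zero_norm' ?_ h2
    filter_upwards [eventually_ge_atTop L₁] with k hk
    rw [Real.norm_eq_abs]
    refine nrm_g_close (by omega) hη a ?_
    have e2 : (a + y) - a = y := by abel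
    have e3 := lf_red (L := k + (L₀ + 5)) (a := a) (y := a + y) (fun i => by
      have := hL₁ (k + (L₀ + 5)) (by omega) (a + y) (Finset.mem_singleton_self _) i
      omega)
    rw [e2] at e3
    rw [e3]
    exact h
  have h4 := (h3.add h1).pow 2
  rw [zero_add] at h4
  refine h4.congr fun k => ?_
  rw [sub_add_cancel, nrm_sq]

/-- the integrand on `ℤ^d` -/
noncomputable def gZ (B : Finset (Zd d)) (η θ : ℝ) (w : ℝ → Zd d → L2 d) (E : ℝ) : ℝ≥0∞ :=
  ENNReal.ofReal ((η * ‖w E 0‖ ^ 2) * (if θ < ∑ y ∈ B, η * (η * ‖w E y‖ ^ 2) then 1 else 0))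

lemma gZ_le {σ η θ : ℝ} (hη : 0 < η) {ω : Zd d → ℝ} (a : Zd d) (B : Finset (Zd d))
    (w : ℝ → Zd d → L2 d) {E : ℝ} (h0 : RC σ ω (en η E) a (w E 0))
    (hB : ∀ y ∈ B, RC σ ω (en η E) (a + y) (w E y)) (L₀ : ℕ) :
    gZ B η θ w E ≤ liminf (fun k : ℕ => fE σ η θ (B.image (red (k + (L₀ + 5))))
      (fun x => ω (lf (k + (L₀ + 5)) a x)) E) atTop := by
  unfold gZ
  by_cases hθ : θ < ∑ y ∈ B, η * (η * ‖w E y‖ ^ 2)
  · rw [if_pos hθ, mul_one]
    have h1 : Tendsto (fun k : ℕ => ∑ y ∈ B, η * (η * nsq (En2_g (k + (L₀ + 5)) a σ η ω E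
        (red (k + (L₀ + 5)) y)))) atTop (𝓝 (∑ y ∈ B, η * (η * ‖w E y‖ ^ 2))) :=
      tendsto_finsetSum _ fun y hy => ((g_tendsto hη a y (hB y hy) L₀).const_mul η).const_mul η
    have h2 : Tendsto (fun k : ℕ => ENNReal.ofReal (η * nsq (En2_g (k + (L₀ + 5)) a σ η ω E 0)))
        atTop (𝓝 (ENNReal.ofReal (η * ‖w E 0‖ ^ 2))) := by
      have h3 := g_tendsto hη a 0 (u := w E 0) (E := E) (by rw [add_zero]; exact h0) L₀
      have h4 : ∀ k : ℕ, red (k + (L₀ + 5)) (0 : Zd d) = 0 := fun k => by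
        funext i; simp [red]
      simp only [h4] at h3
      exact ENNReal.tendsto_ofReal (h3.const_mul η)
    obtain ⟨L₁, hL₁⟩ := exists_inside a (B.image fun y => a + y)
    rw [← h2.liminf_eq]
    refine liminf_le_liminf ?_
    filter_upwards [h1.eventually (lt_mem_nhds hθ), eventually_ge_atTop L₁] with k hk hk2
    have e1 : ∀ y ∈ B, lf (k + (L₀ + 5)) a (red (k + (L₀ + 5)) y) = a + y := by
      intro y hy
      have e2 : (a + y) - a = y := by abel
      have e3 := lf_red (L := k + (L₀ + 5)) (a := a) (y := a + y) (fun i => by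
        have := hL₁ (k + (L₀ + 5)) (by omega) (a + y) (Finset.mem_image_of_mem _ hy) i
        omega)
      rw [e2] at e3
      exact e3
    have hinj : Set.InjOn (red (d := d) (k + (L₀ + 5))) B := by
      intro y hy y' hy' he
      have e4 := e1 y hy
      have e5 := e1 y' hy'
      rw [he, e5] at e4
      exact (add_left_cancel e4).symm
    rw [En4_eq, Finset.sum_image hinj, if_pos hk, mul_one]
  · rw [if_neg hθ, mul_zero, ENNReal.ofReal_zero]
    exact zero_le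

lemma fE_meas (L : ℕ) [NeZero L] (hL : 3 ≤ L) {σ η : ℝ} (hη : 0 < η) (θ : ℝ) (B : Finset (Tor d L))
    (ξ : Tor d L → ℝ) : Measurable (fE σ η θ B ξ) := by
  have h := measurable_fE (d := d) (L := L) hL (σ := σ) hη θ B
  have h2 : Measurable (fun E : ℝ => ((ξ, E) : (Tor d L → ℝ) × ℝ)) :=
    measurable_const.prodMk measurable_id
  have h3 := h.comp h2
  exact h3

lemma gZ_lint {σ η θ E₁ E₂ : ℝ} (hη : 0 < η) {ω : Zd d → ℝ} (a : Zd d) (B : Finset (Zd d))
    (w : ℝ → Zd d → L2 d) (h0 : ∀ E, RC σ ω (en η E) a (w E 0))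
    (hB : ∀ E, ∀ y ∈ B, RC σ ω (en η E) (a + y) (w E y)) (L₀ : ℕ) :
    ∫⁻ E in Set.Icc E₁ E₂, gZ B η θ w E ≤ En4_YY a B σ η θ E₁ E₂ L₀ ω := by
  have h1 : ∫⁻ E in Set.Icc E₁ E₂, gZ B η θ w E ≤ ∫⁻ E in Set.Icc E₁ E₂,
      liminf (fun k : ℕ => fE σ η θ (B.image (red (k + (L₀ + 5))))
        (fun x => ω (lf (k + (L₀ + 5)) a x)) E) atTop :=
    lintegral_mono fun E => gZ_le hη a B w (h0 E) (hB E) L₀
  have h2 : ∫⁻ E in Set.Icc E₁ E₂, liminf (fun k : ℕ => fE σ η θ (B.image (red (k + (L₀ + 5))))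
        (fun x => ω (lf (k + (L₀ + 5)) a x)) E) atTop
      ≤ liminf (fun k : ℕ => ∫⁻ E in Set.Icc E₁ E₂, fE σ η θ (B.image (red (k + (L₀ + 5))))
        (fun x => ω (lf (k + (L₀ + 5)) a x)) E) atTop :=
    lintegral_liminf_le fun k => fE_meas (k + (L₀ + 5)) (by omega) hη θ _ _
  exact h1.trans h2

/-- From the tori to `ℤ^d`, for resolvents. -/
theorem vol (ν : Measure ℝ) [IsProbabilityMeasure ν] {σ η θ E₁ E₂ : ℝ}
    (hη : 0 < η) (hθ : 0 < θ) (B : Finset (Zd d)) {c : ℝ} (hc : 0 < c) (L₀ : ℕ)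
    (h : ∀ (L : ℕ) [NeZero L], L₀ ≤ L → 5 ≤ L →
      ∫⁻ ξ, (∫⁻ E in Set.Icc E₁ E₂, fE σ η θ (B.image (red L)) ξ E) ∂(PV ν (Tor d L))
        ≤ ENNReal.ofReal c)
    (a : Zd d) :
    ∃ GG : Set (Zd d → ℝ), MeasurableSet GG ∧ 1 - √c ≤ (lawZ ν d).real GG ∧
      ∀ ω ∈ GG, ∀ w : ℝ → Zd d → L2 d, (∀ E, RC σ ω (en η E) a (w E 0)) →
        (∀ E, ∀ y ∈ B, RC σ ω (en η E) (a + y) (w E y)) →
        ∫⁻ E in Set.Icc E₁ E₂, gZ B η θ w E ≤ ENNReal.ofReal √c := by
  have hsc : 0 < √c := Real.sqrt_pos.mpr hc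
  set GG : Set (Zd d → ℝ) := {ω | En4_YY a B σ η θ E₁ E₂ L₀ ω ≤ ENNReal.ofReal (√c)} with hGG
  have hYm : Measurable (En4_YY (d := d) a B σ η θ E₁ E₂ L₀) := En4_measurable_YY a B hη L₀
  have hm : MeasurableSet GG := measurableSet_le hYm measurable_const
  have hl : ∫⁻ ω, En4_YY a B σ η θ E₁ E₂ L₀ ω ∂(lawZ ν d) ≤ ENNReal.ofReal c := by
    unfold En4_YY
    refine (lintegral_liminf_le fun k =>
      En4_measurable_Y (k + (L₀ + 5)) (by omega) a B hη).trans ?_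
    refine Filter.liminf_le_of_le (by isBoundedDefault) fun b hb => ?_
    obtain ⟨k, hk⟩ := hb.exists
    exact hk.trans (En4_lint_Y ν (k + (L₀ + 5)) (by omega) B hη
      (h (k + (L₀ + 5)) (by omega) (by omega)) a)
  refine ⟨GG, hm, ?_, ?_⟩
  · have hc1 : (lawZ ν d) GGᶜ ≤ ENNReal.ofReal (√c) := by
      have h1 : ENNReal.ofReal (√c) * (lawZ ν d) GGᶜ ≤ ENNReal.ofReal c := by
        refine le_trans ?_ hl
        refine le_trans ?_ (mul_meas_ge_le_lintegral hYm (ENNReal.ofReal (√c)))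
        gcongr
        intro ω hω
        have : ¬ (En4_YY a B σ η θ E₁ E₂ L₀ ω ≤ ENNReal.ofReal (√c)) := hω
        exact (not_le.1 this).le
      have h2 : (lawZ ν d) GGᶜ ≤ ENNReal.ofReal c / ENNReal.ofReal (√c) := by
        rw [ENNReal.le_div_iff_mul_le]
        · rw [mul_comm]; exact h1
        · left; simp [hc]
        · left; exact ENNReal.ofReal_ne_top
      refine h2.trans (le_of_eq ?_)
      rw [← ENNReal.ofReal_div_of_pos hsc]
      congr 1
      rw [div_eq_iff hsc.ne']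
      exact (Real.mul_self_sqrt hc.le).symm
    have h3 : (lawZ ν d).real GGᶜ ≤ √c := by
      rw [Measure.real]
      exact ENNReal.toReal_le_of_le_ofReal hsc.le hc1
    have h4 := probReal_compl_eq_one_sub (μ := lawZ ν d) hm
    linarith
  · intro ω hω w h0 hB
    exact (gZ_lint hη a B w h0 hB L₀).trans hω

end Pool.Agent.H989.DY
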