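import Pool.Agent.H989.SB.FinS3
import Pool.Agent.H989.DY.Vol

/-!
The energy integral of the resolvents of `ℤ^d`: windows and bands of energies.
-/

set_option linter.unusedSectionVars false
set_option linter.unusedVariables false

open MeasureTheory ProbabilityTheory Finset Filter

namespace Pool.Agent.H989.DY

open Pool.Agent.H989 Pool.Agent.H989.SB

/-- the columns of the resolvent at `a` and at the points of `a + B` -/
def Cols {d : ℕ} (σ : ℝ) (ω : Zd d → ℝ) (η : ℝ) (a : Zd d) (B : Finset (Zd d))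
    (w : ℝ → Zd d → L2 d) : Prop :=
  (∀ E, RC σ ω (en η E) a (w E 0)) ∧ ∀ E, ∀ y ∈ B, RC σ ω (en η E) (a + y) (w E y)

/-- From the tori to the lattice. -/
theorem inf_main4 {d : ℕ} {ν : Measure ℝ} {G : ℝ} (hν : Law ν G) {σ η E₁ E₂ θ p : ℝ}
    (hσ : 0 < σ) (hη : 0 < η) (hE : E₁ ≤ E₂) (hθ : 0 < θ) (hp : 0 ≤ p) {R : ℕ} (B : Finset (Zd d))
    (hBR : ∀ y ∈ B, ∑ i, |y i| ≤ (R : ℤ))
    (h : ∀ (L : ℕ) [NeZero L], 5 ≤ L → ∀ E ∈ Set.Icc E₁ E₂, ∀ B' : Finset (Tor d L),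
      B'.card ≤ (2 * d + 1) ^ R → (∀ x ∈ B', wt x ≤ R) →
      (PV ν (Tor d L)).real {ξ | θ / 2 * nsq (ch σ η E ξ) < ∑ x ∈ B', ‖ch σ η E ξ x‖ ^ 2} ≤ p)
    {c : ℝ} (hc0 : 0 < c)
    (hc : (E₂ - E₁) * (Real.pi * G / σ
      * (p + 2 * (2 * d + 1) ^ R * η * (Real.pi * G / σ) / θ)) ≤ c) (a : Zd d) :
    ∃ GG : Set (Zd d → ℝ), MeasurableSet GG ∧ 1 - √c ≤ (lawZ ν d).real GG ∧
      ∀ ω ∈ GG, ∀ w : ℝ → Zd d → L2 d, Cols σ ω η a B w →
        ∫⁻ E in Set.Icc E₁ E₂, gZ B η θ w E ≤ ENNReal.ofReal √c := by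
  have hpr := hν.prob
  have key := vol (d := d) ν (σ := σ) (η := η) (θ := θ) (E₁ := E₁) (E₂ := E₂) hη hθ B hc0 (2 * R + 1) ?_ a
  · obtain ⟨GG, hm, hP, hG⟩ := key
    exact ⟨GG, hm, hP, fun ω hω w hw => hG ω hω w hw.1 hw.2⟩
  intro L _ hL0 hL5
  have hcard : (B.image (red L)).card ≤ (2 * d + 1) ^ R := Finset.card_image_le.trans (card_ball R B hBR)
  have hwt : ∀ x ∈ B.image (red L), wt x ≤ R := by
    intro x hx
    rw [Finset.mem_image] at hx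
    obtain ⟨y, hy, rfl⟩ := hx
    exact Asm_wt_le (L := L) y (hBR y hy)
  have h1 := torus_energy3 hL5 hν hσ hη hE hθ hp (B.image (red L))
    (fun E hE' => h L hL5 E hE' (B.image (red L)) hcard hwt)
  refine h1.trans (ENNReal.ofReal_le_ofReal (le_trans ?_ hc))
  have h3 : ((B.image (red L)).card : ℝ) ≤ (2 * d + 1) ^ R := by exact_mod_cast hcard
  have h4 : 0 ≤ E₂ - E₁ := sub_nonneg.2 hE
  have hG := en1_G_nonneg hν
  have hpi := Real.pi_pos
  gcongr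

/-- one window of energies, general law -/
theorem dy_window {G δ ρ₀ e₀ ε : ℝ} (hG : 0 < G) (hδ : 0 < δ) (hρ₀ : 0 < ρ₀) (hε : 0 < ε)
    (hε1 : ε < 1) : ∃ c₀ : ℝ, 0 < c₀ ∧ ∃ d₀ : ℕ, ∀ d : ℕ, d₀ ≤ d → ∀ R A : ℕ,
      ((R + A : ℕ) : ℝ) * Real.log (Real.log (2 * d)) ^ 2 ≤ c₀ * Real.log (2 * d) →
      ∀ ν : Measure ℝ, Law ν G →
      ∀ e : ℝ, |e| ≤ |e₀| → LowD ν e δ ρ₀ → ∀ σ : ℝ, 2 * (d : ℝ) ≤ σ →
      σ ≤ (1 - ε) * (4 * ρ₀) * (2 * d) * Real.log (2 * d) →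
      ∀ a : Zd d,
      ∃ GG : Set (Zd d → ℝ), MeasurableSet GG ∧ 1 - ε ≤ (lawZ ν d).real GG ∧
        ∀ ω ∈ GG, ∀ w : ℝ → Zd d → L2 d, Cols σ ω (pη (Real.log (2 * d))) a (bal d R) w →
          ∫⁻ E in Set.Icc (σ * e - σ * δ / 2) (σ * e + σ * δ / 2),
            gZ (bal d R) (pη (Real.log (2 * d))) (1 / (4 * (d : ℝ) ^ A)) w E ≤ ENNReal.ofReal ε := by
  obtain ⟨C, hC1, hC⟩ := one_site G hG
  have hC0 : 0 < C := by linarith
  obtain ⟨p, hp⟩ : ∃ p : ℝ, p = ε ^ 2 / (2 * (Real.pi * G) * δ) := ⟨_, rfl⟩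
  have hπ := Real.pi_pos
  have hp0 : 0 < p := by rw [hp]; positivity
  have hCs : 0 < (1 - ε) * (4 * ρ₀) := by
    have : 0 < 1 - ε := by linarith
    positivity
  have hA := parRA (ε := ε) hε hε1 hC0 (Cs := (1 - ε) * (4 * ρ₀)) hCs
  have hB := parRB (ε := ε) hε hε1 (e := e₀) hδ hρ₀ (Cs := (1 - ε) * (4 * ρ₀)) hCs
  have hCC := parRC (ε := ε) hε hε1 hG hρ₀ hp0 (κ := 1) one_pos
  have hη := ue_eta (8 * δ * (Real.pi * G) ^ 2) (c := ε ^ 2 / 2) (by positivity)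
  obtain ⟨c₁, hc₁, hev⟩ := ((hA.and hB).and (hCC.and hη)).and (ue_ge (4 / δ + 1))
  have hls := par_log_sq (c := c₁ / 2) (by positivity)
  have hall := hev.and hls
  have ht : Tendsto (fun d : ℕ => Real.log (2 * (d : ℝ))) atTop atTop :=
    Real.tendsto_log_atTop.comp (Tendsto.const_mul_atTop (by norm_num) tendsto_natCast_atTop_atTop)
  obtain ⟨d₀, hd₀⟩ := eventually_atTop.1 ((ht.eventually hall).and (eventually_ge_atTop 1))
  refine ⟨c₁ / 2, by positivity, d₀, fun d hd R A hRA ν hν e he hlow σ hσ1 hσ2 a => ?_⟩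
  obtain ⟨⟨hev', hls'⟩, hd1⟩ := hd₀ d hd
  have hRb : ((R + A + 1 : ℕ) : ℝ) * Real.log (Real.log (2 * d)) ^ 2 ≤ c₁ * Real.log (2 * d) := by
    push_cast at hRA ⊢
    linarith
  obtain ⟨⟨⟨gA, gB⟩, gC, gη⟩, gx⟩ := hev' (R + A + 1) hRb
  have hd1' : (1:ℝ) ≤ d := by exact_mod_cast hd1
  have hd0 : (0:ℝ) < d := by linarith
  have hx : 2 * (d : ℝ) = Real.exp (Real.log (2 * d)) := (Real.exp_log (by positivity)).symm
  obtain ⟨x, hxx⟩ : ∃ x, x = Real.log (2 * (d : ℝ)) := ⟨_, rfl⟩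
  simp only [← hxx] at gA gB gC gη gx hx hσ2 ⊢
  have hσ0 : 0 < σ := lt_of_lt_of_le (by positivity) hσ1
  have PM := gA d hx σ hσ1 hσ2
  have PW := (gB d hx σ hσ1 hσ2).mono_e hσ0.le he
  have tot := gC d hx σ hσ1 hσ2
  have hη0 : 0 < pη x := PM.η0
  have hxe : x ≤ Real.exp x := by linarith [Real.add_one_le_exp x]
  have hσδ : 1 ≤ σ * δ / 4 := by
    have h1 : 4 / δ + 1 ≤ σ := by linarith
    have h2 : 4 / δ ≤ σ := by linarith
    rw [div_le_iff₀ hδ] at h2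
    linarith
  have hησ : pη x ≤ σ := PM.η1.trans (by linarith)
  obtain ⟨θ, hθ⟩ : ∃ θ : ℝ, θ = 1 / (4 * (d : ℝ) ^ A) := ⟨_, rfl⟩
  have hdA : 0 < (d : ℝ) ^ A := by positivity
  have hθ0 : 0 < θ := by rw [hθ]; positivity
  have key := inf_main4 (d := d) hν (σ := σ) (η := pη x) (E₁ := σ * e - σ * δ / 2)
    (E₂ := σ * e + σ * δ / 2) (θ := θ) (p := p) hσ0 hη0 (by nlinarith) hθ0 hp0.le
    (R := R) (bal d R) (fun y hy => mem_bal.1 hy)
    (fun L _ hL E hE B' hB'c hB' => par_torus3 (D := (2 * d + 1) ^ R) PM PW (by positivity) (by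
        refine le_trans ?_ tot
        have := FinS3_sqrt hd1' R A (X := pX (R + A + 1) x) PW.X0
        rw [hθ]
        linarith) hν hG hlow
      (by rw [abs_le]; constructor <;> linarith [hE.1, hE.2])
      (hC ν hν σ (pη x) E hη0 hησ) hL B' (by exact_mod_cast hB'c)
        (fun y hy => (hB' y hy).trans (by omega)))
    (c := ε ^ 2) (by positivity) ?_ a
  · obtain ⟨GG, hm, hP, hGG⟩ := key
    rw [Real.sqrt_sq (by positivity)] at hP hGG
    refine ⟨GG, hm, hP, fun ω hω w hw => ?_⟩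
    rw [← hθ]
    exact hGG ω hω w hw
  · have e1 : (σ * e + σ * δ / 2 - (σ * e - σ * δ / 2)) = σ * δ := by ring
    rw [e1]
    have e2 : σ * δ * (Real.pi * G / σ
        * (p + 2 * (2 * (d:ℝ) + 1) ^ R * pη x * (Real.pi * G / σ) / θ))
        = (Real.pi * G) * δ * p
          + (2 * (d:ℝ) + 1) ^ R * (d : ℝ) ^ A * ((8 * δ * (Real.pi * G) ^ 2) * pη x) / σ := by
      rw [hθ]
      field_simp
      ring
    rw [e2]
    have e3 : (Real.pi * G) * δ * p = ε ^ 2 / 2 := by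
      rw [hp]; field_simp
    rw [e3]
    have hσ1' : 1 ≤ σ := by linarith
    have e4 : (2 * (d:ℝ) + 1) ^ R * (d : ℝ) ^ A * ((8 * δ * (Real.pi * G) ^ 2) * pη x) / σ
        ≤ ε ^ 2 / 2 := by
      refine (div_le_self (by positivity) hσ1').trans (le_trans ?_ gη)
      have h5 : 2 * (d:ℝ) + 1 ≤ 2 * Real.exp x := by
        rw [← hx]; linarith
      have h6 : (d:ℝ) ≤ 2 * Real.exp x := by linarith
      have h7 : (2 * (d:ℝ) + 1) ^ R * (d : ℝ) ^ A ≤ (2 * Real.exp x) ^ (R + A + 1) := by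
        calc (2 * (d:ℝ) + 1) ^ R * (d : ℝ) ^ A ≤ (2 * Real.exp x) ^ R * (2 * Real.exp x) ^ A := by
              gcongr
          _ = (2 * Real.exp x) ^ (R + A) := by rw [pow_add]
          _ ≤ _ := pow_le_pow_right₀ (by linarith) (by omega)
      gcongr
    linarith

lemma lint_biUnion {ι : Type} (I : Finset ι) (s : ι → Set ℝ) (f : ℝ → ENNReal) :
    ∫⁻ E in ⋃ i ∈ I, s i, f E ≤ ∑ i ∈ I, ∫⁻ E in s i, f E := by
  classical
  induction I using Finset.induction_on with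
  | empty => simp
  | insert i I hi ih =>
    rw [Finset.set_biUnion_insert, Finset.sum_insert hi]
    exact (lintegral_union_le _ _ _).trans (add_le_add le_rfl ih)

/-- a band of energies, general law, positive coupling -/
theorem dy_band {G b δ ρ₀ ε : ℝ} (hG : 0 < G) (hb : 0 ≤ b) (hδ : 0 < δ) (hρ₀ : 0 < ρ₀)
    (hε : 0 < ε) (hε1 : ε < 1) : ∃ c₀ : ℝ, 0 < c₀ ∧ ∃ d₀ : ℕ, ∀ d : ℕ, d₀ ≤ d → ∀ R A : ℕ,
      ((R + A : ℕ) : ℝ) * Real.log (Real.log (2 * d)) ^ 2 ≤ c₀ * Real.log (2 * d) →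
      ∀ ν : Measure ℝ, Law ν G →
      (∀ e : ℝ, |e| ≤ b + δ → LowD ν e δ ρ₀) → ∀ σ : ℝ, 2 * (d : ℝ) ≤ σ →
      σ ≤ (1 - ε) * (4 * ρ₀) * (2 * d) * Real.log (2 * d) → ∀ a : Zd d,
      ∃ GG : Set (Zd d → ℝ), MeasurableSet GG ∧ 1 - ε ≤ (lawZ ν d).real GG ∧
        ∀ ω ∈ GG, ∀ w : ℝ → Zd d → L2 d, Cols σ ω (pη (Real.log (2 * d))) a (bal d R) w →
          ∫⁻ E in Set.Icc (-(b * σ) - σ * δ / 4) (b * σ + σ * δ / 4),
            gZ (bal d R) (pη (Real.log (2 * d))) (1 / (4 * (d : ℝ) ^ A)) w E ≤ ENNReal.ofReal ε := by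
  classical
  -- the windows
  obtain ⟨m, hm⟩ : ∃ m : ℕ, m = ⌈4 * b / δ⌉₊ := ⟨_, rfl⟩
  have hm1 : 4 * b / δ ≤ m := by rw [hm]; exact Nat.le_ceil _
  have hm2 : (m : ℝ) < 4 * b / δ + 1 := by rw [hm]; exact Nat.ceil_lt_add_one (by positivity)
  obtain ⟨I, hI⟩ : ∃ I : Finset ℤ, I = Finset.Icc (-(m : ℤ)) m := ⟨_, rfl⟩
  have hIc : I.card = 2 * m + 1 := by rw [hI, Int.card_Icc]; omega
  obtain ⟨ε', hε'⟩ : ∃ ε' : ℝ, ε' = ε / (2 * m + 1) := ⟨_, rfl⟩
  have h2m : (1:ℝ) ≤ 2 * m + 1 := by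
    have : (0:ℝ) ≤ m := Nat.cast_nonneg m
    linarith
  have hε'0 : 0 < ε' := by rw [hε']; positivity
  have hε'1 : ε' ≤ ε := by rw [hε']; exact div_le_self hε.le h2m
  obtain ⟨c₀, hc₀, d₀, hd₀⟩ := dy_window (e₀ := b + δ) hG hδ hρ₀ hε'0 (hε'1.trans_lt hε1)
  refine ⟨c₀, hc₀, max d₀ 1, fun d hd R A hRA ν hν hlow σ hσ1 hσ2 a => ?_⟩
  have hd1 : 1 ≤ d := le_trans (le_max_right _ _) hd
  have hd0 : (0:ℝ) < d := by exact_mod_cast hd1
  have hσ0 : 0 < σ := lt_of_lt_of_le (by positivity) hσ1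
  have hlog : 0 ≤ Real.log (2 * (d:ℝ)) := Real.log_nonneg (by
    have : (1:ℝ) ≤ d := by exact_mod_cast hd1
    linarith)
  have hσ3 : σ ≤ (1 - ε') * (4 * ρ₀) * (2 * d) * Real.log (2 * d) := by
    refine hσ2.trans ?_
    gcongr
  have hbδ : |b + δ| = b + δ := abs_of_pos (by linarith)
  have he : ∀ i ∈ I, |(i : ℝ) * (δ / 4)| ≤ b + δ := by
    intro i hi
    rw [hI, Finset.mem_Icc] at hi
    have h1 : |(i:ℝ)| ≤ m := by
      rw [abs_le]; exact ⟨by exact_mod_cast hi.1, by exact_mod_cast hi.2⟩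
    rw [abs_mul, abs_of_pos (by positivity : 0 < δ / 4)]
    calc |(i:ℝ)| * (δ / 4) ≤ (4 * b / δ + 1) * (δ / 4) := by gcongr; linarith
      _ = b + δ / 4 := by field_simp
      _ ≤ b + δ := by linarith
  choose! GG hGm hGP hGG using fun i (hi : i ∈ I) => hd₀ d (le_trans (le_max_left _ _) hd) R A hRA ν hν
    ((i : ℝ) * (δ / 4)) (by rw [hbδ]; exact he i hi) (hlow _ (he i hi)) σ hσ1 hσ3 a
  have hprob := hν.prob
  refine ⟨⋂ i ∈ I, GG i, Finset.measurableSet_biInter I fun i hi => hGm i hi, ?_, ?_⟩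
  · have h1 : (lawZ ν d).real (⋂ i ∈ I, GG i)ᶜ ≤ ∑ i ∈ I, (lawZ ν d).real (GG i)ᶜ := by
      rw [Set.compl_iInter₂]
      exact measureReal_biUnion_finset_le _ _
    have h2 : ∀ i ∈ I, (lawZ ν d).real (GG i)ᶜ ≤ ε' := by
      intro i hi
      rw [probReal_compl_eq_one_sub (hGm i hi)]
      linarith [hGP i hi]
    have h3 : ∑ i ∈ I, (lawZ ν d).real (GG i)ᶜ ≤ ε := by
      refine (Finset.sum_le_sum h2).trans ?_
      rw [Finset.sum_const, hIc, nsmul_eq_mul, hε']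
      push_cast
      rw [mul_div_cancel₀ _ (by positivity)]
    have h4 := probReal_compl_eq_one_sub (μ := lawZ ν d)
      (Finset.measurableSet_biInter I fun i hi => hGm i hi)
    linarith
  · intro ω hω w hw
    rw [Set.mem_iInter₂] at hω
    have hcov : Set.Icc (-(b * σ) - σ * δ / 4) (b * σ + σ * δ / 4)
        ⊆ ⋃ i ∈ I, Set.Icc (σ * ((i : ℝ) * (δ / 4)) - σ * δ / 2) (σ * ((i : ℝ) * (δ / 4)) + σ * δ / 2) := by
      intro E hE
      obtain ⟨t, ht⟩ : ∃ t : ℝ, t = 4 * E / (σ * δ) := ⟨_, rfl⟩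
      have hEt : E = σ * (δ / 4) * t := by rw [ht]; field_simp
      have hEa : |E| ≤ b * σ + σ * δ / 4 := by
        rw [abs_le]; constructor <;> linarith [hE.1, hE.2]
      have ht1 : |t| ≤ m + 1 := by
        have h1 : |t| ≤ 4 * b / δ + 1 := by
          rw [ht, abs_div, abs_mul, abs_of_pos (by positivity : (0:ℝ) < σ * δ),
            abs_of_pos (by norm_num : (0:ℝ) < 4), div_le_iff₀ (by positivity)]
          have h2 : (4 * b / δ + 1) * (σ * δ) = 4 * (b * σ + σ * δ / 4) := by field_simp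
          rw [h2]
          linarith
        linarith
      have hclamp : ∃ i ∈ I, |t - i| ≤ 2 := by
        have h1 := abs_sub_round t
        have h2 := abs_le.1 h1
        have h3 := abs_le.1 ht1
        refine ⟨max (-(m : ℤ)) (min (round t) m), ?_, ?_⟩
        · rw [hI, Finset.mem_Icc]
          omega
        · have h4 : (-(m:ℤ) - 2 : ℤ) < round t := by
            have : (-(m:ℝ) - 2 : ℝ) < round t := by linarith
            exact_mod_cast this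
          have h5 : (round t : ℤ) < m + 2 := by
            have : (round t : ℝ) < m + 2 := by linarith
            exact_mod_cast this
          have h6 : |(round t : ℤ) - max (-(m : ℤ)) (min (round t) m)| ≤ 1 := by
            rw [abs_le]; omega
          have h7 : |(round t : ℝ) - ((max (-(m : ℤ)) (min (round t) m) : ℤ) : ℝ)| ≤ 1 := by
            exact_mod_cast h6
          have h8 := abs_le.1 h7
          rw [abs_le]
          constructor <;> linarith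
      obtain ⟨i, hi, hti⟩ := hclamp
      rw [Set.mem_iUnion₂]
      refine ⟨i, hi, ?_⟩
      have h1 : |E - σ * ((i : ℝ) * (δ / 4))| ≤ σ * δ / 2 := by
        have e1 : E - σ * ((i : ℝ) * (δ / 4)) = σ * (δ / 4) * (t - i) := by
          rw [hEt]; ring
        rw [e1, abs_mul, abs_of_pos (by positivity : (0:ℝ) < σ * (δ / 4))]
        have h2 : 0 < σ * (δ / 4) := by positivity
        nlinarith
      have h2 := abs_le.1 h1
      constructor <;> linarith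
    calc ∫⁻ E in Set.Icc (-(b * σ) - σ * δ / 4) (b * σ + σ * δ / 4),
            gZ (bal d R) (pη (Real.log (2 * d))) (1 / (4 * (d : ℝ) ^ A)) w E
        ≤ ∫⁻ E in ⋃ i ∈ I, Set.Icc (σ * ((i : ℝ) * (δ / 4)) - σ * δ / 2)
            (σ * ((i : ℝ) * (δ / 4)) + σ * δ / 2),
            gZ (bal d R) (pη (Real.log (2 * d))) (1 / (4 * (d : ℝ) ^ A)) w E :=
          lintegral_mono_set hcov
      _ ≤ ∑ i ∈ I, ∫⁻ E in Set.Icc (σ * ((i : ℝ) * (δ / 4)) - σ * δ / 2)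
            (σ * ((i : ℝ) * (δ / 4)) + σ * δ / 2),
            gZ (bal d R) (pη (Real.log (2 * d))) (1 / (4 * (d : ℝ) ^ A)) w E := lint_biUnion _ _ _
      _ ≤ ∑ i ∈ I, ENNReal.ofReal ε' := Finset.sum_le_sum fun i hi => hGG i hi ω (hω i hi) w hw
      _ = ENNReal.ofReal ε := by
          rw [Finset.sum_const, hIc, ← ENNReal.ofReal_nsmul, nsmul_eq_mul, hε']
          congr 1
          push_cast
          rw [mul_div_cancel₀ _ (by positivity)]

end Pool.Agent.H989.DY
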