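import Pool.Graph.R_pool_sql_team_seeded_2aa45f1a.Q62.QD.Time

/-!
# Project DY (dynamical form of the mobility edge): definitions
-/

open MeasureTheory
open scoped InnerProductSpace

namespace Pool.Agent.H989.DY

open Pool.Agent.W788.LD.Spec (S)
open Pool.Agent.H4R2.LO (Zd)

/-- the Hilbert space -/
abbrev LL (ι : Type) : Type := lp (fun _ : ι => ℂ) 2

open Classical in
/-- the delta function -/
noncomputable def dv {ι : Type} (a : ι) : LL ι := lp.single (E := fun _ : ι => ℂ) 2 a (1 : ℂ)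

/-- resolvent families of self-adjoint real symmetric operators, possibly unbounded -/
structure RF {ι : Type} (R : ℂ → LL ι →L[ℂ] LL ι) : Prop where
  nb : ∀ z : ℂ, z.im ≠ 0 → ‖R z‖ ≤ 1 / |z.im|
  id : ∀ z w : ℂ, z.im ≠ 0 → w.im ≠ 0 → ∀ u : LL ι, R z u - R w u = (z - w) • R z (R w u)
  ad : ∀ z : ℂ, z.im ≠ 0 → ∀ u v : LL ι, ⟪R z u, v⟫_ℂ = ⟪u, R (starRingEnd ℂ z) v⟫_ℂ
  sy : ∀ z : ℂ, z.im ≠ 0 → ∀ x y : ι, R z (dv y) x = R z (dv x) y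
  sp : ∀ φ : LL ι, ∃ m : Measure ℝ, IsFiniteMeasure m ∧
    (∀ z : ℂ, z.im ≠ 0 → ⟪φ, R z φ⟫_ℂ = ∫ x : ℝ, ((x : ℂ) - z)⁻¹ ∂m) ∧
    m Set.univ = ENNReal.ofReal (‖φ‖ ^ 2)

/-- the solution of the Schrödinger equation `i ψ' = (S + W) ψ` with `ψ(0) = δ_a`, where
`S u (x) = ∑_i (u (x + e_i) + u (x - e_i))` -/
structure Ev (d : ℕ) (W : Zd d → ℝ) (a : Zd d) (ψ : ℝ → Zd d → ℂ) : Prop where
  init : ∀ x, ψ 0 x = if x = a then 1 else 0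
  ode : ∀ s x, HasDerivAt (fun s => ψ s x) (-Complex.I * (S (ψ s) x + (W x : ℂ) * ψ s x)) s
  norm : ∀ s, HasSum (fun x => ‖ψ s x‖ ^ 2) 1

end Pool.Agent.H989.DY
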