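import Pool.Agent.H989.DY.Defs

/-!
# DyAtom: the pure point part of `δ_a` in `J` is carried by finitely many eigenfunctions up to a small rest

`m` is the spectral measure of `dv a` (Borel transform `⟪dv a, R z (dv a)⟫`), carried by the countable set `N` in `J`.
(1) `m J = m (J ∩ N) = ∑_{E ∈ J ∩ N} m {E}`, so there is a finite `F ⊆ J ∩ N` with `m {E} > 0` on `F` and
    `c ≤ ∑_{E ∈ F} m {E}` (from `c < m.real J`; if `c ≤ 0` take `n = 0`).
(2) From `RF.ad`, `RF.id`: `⟪R z f, R w f⟫ = ⟪f, R z̄ (R w f)⟫ = (⟪f, R z̄ f⟫ - ⟪f, R w f⟫) / (z̄ - w)` for `z̄ ≠ w`; for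
    `f = dv a` it is `∫ ((s - z̄)(s - w))⁻¹ dm(s)`. Let `q_k = -i η_k R(E + i η_k) (dv a)`, `η_k = 1/(k+1)`. Then
    `⟪q_k, q_l⟫ = ∫ η_k η_l ((s - E + i η_k) (s - E - i η_l))⁻¹ dm → m {E}` as `k, l → ∞` (dominated convergence: the
    integrand is bounded by `1`, tends to `0` for `s ≠ E` and is `1` at `s = E`), so `q_k` is Cauchy:
    `p_E = lim q_k`, `‖p_E‖² = m {E}`; and `⟪dv a, q_k⟫ = ∫ -i η_k (s - E - i η_k)⁻¹ dm → m {E}`, so `p_E a = m {E}`.
    In the same way `⟪p_E, p_E'⟫ = 0` for `E ≠ E'`.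
(3) `(S + W - E) q_k = -i η_k (dv a) + i η_k q_k` pointwise (`hsol`), so `(S + W - E) p_E = 0` pointwise in the limit.
(4) `u_E = p_E / √(m {E})`: orthonormal, `‖u_E a‖² = m {E}`.
-/

open MeasureTheory
open scoped InnerProductSpace

namespace Pool.Agent.H989.DY

open Pool.Agent.W788.LD.Spec (S)
open Pool.Agent.H4R2.LO (Zd)

section dyatom

open Filter Topology

/-- the imaginary parts -/
noncomputable def dyAtom_eta (k : ℕ) : ℝ := 1 / ((k : ℝ) + 1)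

theorem dyAtom_eta_pos (k : ℕ) : 0 < dyAtom_eta k := by
  unfold dyAtom_eta
  positivity

theorem dyAtom_eta_lim : Tendsto dyAtom_eta atTop (𝓝 0) :=
  tendsto_one_div_add_atTop_nhds_zero_nat

/-- the points -/
noncomputable def dyAtom_z (E : ℝ) (k : ℕ) : ℂ := ⟨E, dyAtom_eta k⟩

theorem dyAtom_z_im (E : ℝ) (k : ℕ) : (dyAtom_z E k).im ≠ 0 := (dyAtom_eta_pos k).ne'

theorem dyAtom_z_lim (E : ℝ) : Tendsto (dyAtom_z E) atTop (𝓝 (E : ℂ)) := by
  have h1 : dyAtom_z E = fun k => (E : ℂ) + (dyAtom_eta k : ℂ) * Complex.I := by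
    funext k
    exact Complex.mk_eq_add_mul_I _ _
  rw [h1]
  have h2 : Tendsto (fun k => (dyAtom_eta k : ℂ)) atTop (𝓝 ((0 : ℝ) : ℂ)) :=
    (Complex.continuous_ofReal.tendsto _).comp dyAtom_eta_lim
  have h3 := (h2.mul_const Complex.I).const_add (E : ℂ)
  rwa [Complex.ofReal_zero, zero_mul, add_zero] at h3

theorem dyAtom_sub_ne (s : ℝ) {z : ℂ} (hz : z.im ≠ 0) : (s : ℂ) - z ≠ 0 := by
  intro h
  have h1 := congrArg Complex.im h
  rw [Complex.sub_im, Complex.ofReal_im, zero_sub, Complex.zero_im, neg_eq_zero] at h1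
  exact hz h1

theorem dyAtom_norm_inv (s : ℝ) {z : ℂ} (hz : z.im ≠ 0) : ‖((s : ℂ) - z)⁻¹‖ ≤ |z.im|⁻¹ := by
  rw [norm_inv]
  apply inv_anti₀ (abs_pos.2 hz)
  have h1 := Complex.abs_im_le_norm ((s : ℂ) - z)
  rwa [Complex.sub_im, Complex.ofReal_im, zero_sub, abs_neg] at h1

theorem dyAtom_cont {z : ℂ} (hz : z.im ≠ 0) : Continuous fun s : ℝ => ((s : ℂ) - z)⁻¹ :=
  (Complex.continuous_ofReal.sub continuous_const).inv₀ fun s => dyAtom_sub_ne s hz

theorem dyAtom_int (m : Measure ℝ) [IsFiniteMeasure m] {z : ℂ} (hz : z.im ≠ 0) :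
    Integrable (fun s : ℝ => ((s : ℂ) - z)⁻¹) m :=
  Integrable.of_bound (dyAtom_cont hz).aestronglyMeasurable |z.im|⁻¹
    (Eventually.of_forall fun s => dyAtom_norm_inv s hz)

/-- the functions which tend to the indicator of a point -/
noncomputable def dyAtom_h (E : ℝ) (k : ℕ) (s : ℝ) : ℂ :=
  -(Complex.I * dyAtom_eta k) * ((s : ℂ) - dyAtom_z E k)⁻¹

theorem dyAtom_h_cont (E : ℝ) (k : ℕ) : Continuous (dyAtom_h E k) :=
  continuous_const.mul (dyAtom_cont (dyAtom_z_im E k))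

theorem dyAtom_h_norm (E : ℝ) (k : ℕ) (s : ℝ) : ‖dyAtom_h E k s‖ ≤ 1 := by
  unfold dyAtom_h
  have h0 := dyAtom_eta_pos k
  rw [norm_mul, norm_neg, norm_mul, Complex.norm_I, one_mul, Complex.norm_real,
    Real.norm_of_nonneg h0.le]
  have h1 := dyAtom_norm_inv s (dyAtom_z_im E k)
  have h2 : |(dyAtom_z E k).im| = dyAtom_eta k := abs_of_pos h0
  rw [h2] at h1
  calc dyAtom_eta k * ‖((s : ℂ) - dyAtom_z E k)⁻¹‖ ≤ dyAtom_eta k * (dyAtom_eta k)⁻¹ :=
        mul_le_mul_of_nonneg_left h1 h0.le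
    _ = 1 := mul_inv_cancel₀ h0.ne'

theorem dyAtom_h_lim (E s : ℝ) :
    Tendsto (fun k => dyAtom_h E k s) atTop (𝓝 (if s = E then 1 else 0)) := by
  split_ifs with h
  · subst h
    have h1 : ∀ k, dyAtom_h s k s = 1 := by
      intro k
      unfold dyAtom_h
      have h2 : (s : ℂ) - dyAtom_z s k = -(Complex.I * dyAtom_eta k) := by
        have h3 : dyAtom_z s k = (s : ℂ) + (dyAtom_eta k : ℂ) * Complex.I :=
          Complex.mk_eq_add_mul_I _ _
        rw [h3]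
        ring
      rw [h2]
      refine mul_inv_cancel₀ (neg_ne_zero.2 (mul_ne_zero Complex.I_ne_zero ?_))
      exact_mod_cast (dyAtom_eta_pos k).ne'
    simp_rw [h1]
    exact tendsto_const_nhds
  · have h1 : Tendsto (fun k => -(Complex.I * (dyAtom_eta k : ℂ))) atTop (𝓝 0) := by
      have h2 : Tendsto (fun k => (dyAtom_eta k : ℂ)) atTop (𝓝 ((0 : ℝ) : ℂ)) :=
        (Complex.continuous_ofReal.tendsto _).comp dyAtom_eta_lim
      have h3 := (h2.const_mul Complex.I).neg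
      rwa [Complex.ofReal_zero, mul_zero, neg_zero] at h3
    have h2 : Tendsto (fun k => ((s : ℂ) - dyAtom_z E k)⁻¹) atTop (𝓝 ((s : ℂ) - E)⁻¹) := by
      refine ((dyAtom_z_lim E).const_sub (s : ℂ)).inv₀ ?_
      rw [sub_ne_zero]
      exact fun h' => h (Complex.ofReal_injective h')
    have h3 := h1.mul h2
    rwa [zero_mul] at h3

theorem dyAtom_two (m : Measure ℝ) [IsFiniteMeasure m] {z w : ℂ} (hz : z.im ≠ 0)
    (hw : w.im ≠ 0) : (∫ s : ℝ, ((s : ℂ) - z)⁻¹ ∂m) - ∫ s : ℝ, ((s : ℂ) - w)⁻¹ ∂m =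
      (z - w) * ∫ s : ℝ, ((s : ℂ) - z)⁻¹ * ((s : ℂ) - w)⁻¹ ∂m := by
  rw [← integral_sub (dyAtom_int m hz) (dyAtom_int m hw), ← integral_const_mul]
  refine integral_congr_ae (Eventually.of_forall fun s => ?_)
  have h1 := dyAtom_sub_ne s hz
  have h2 := dyAtom_sub_ne s hw
  change ((s : ℂ) - z)⁻¹ - ((s : ℂ) - w)⁻¹ = (z - w) * (((s : ℂ) - z)⁻¹ * ((s : ℂ) - w)⁻¹)
  field_simp
  ring

variable {ι : Type} {R : ℂ → LL ι →L[ℂ] LL ι}

theorem dyAtom_inner (hR : RF R) {f : LL ι} {m : Measure ℝ} [IsFiniteMeasure m]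
    (hm : ∀ z : ℂ, z.im ≠ 0 → ⟪f, R z f⟫_ℂ = ∫ x : ℝ, ((x : ℂ) - z)⁻¹ ∂m) {z w : ℂ}
    (hz : z.im ≠ 0) (hw : w.im ≠ 0) (hzw : starRingEnd ℂ z ≠ w) :
    ⟪R z f, R w f⟫_ℂ = ∫ s : ℝ, ((s : ℂ) - starRingEnd ℂ z)⁻¹ * ((s : ℂ) - w)⁻¹ ∂m := by
  have hz' : (starRingEnd ℂ z).im ≠ 0 := by
    rw [Complex.conj_im]
    exact neg_ne_zero.2 hz
  have h1 : (starRingEnd ℂ z - w) * ⟪R z f, R w f⟫_ℂ =
      (starRingEnd ℂ z - w) *
        ∫ s : ℝ, ((s : ℂ) - starRingEnd ℂ z)⁻¹ * ((s : ℂ) - w)⁻¹ ∂m := by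
    rw [← dyAtom_two m hz' hw, ← hm _ hz', ← hm _ hw, hR.ad z hz, ← inner_sub_right,
      hR.id _ _ hz' hw, inner_smul_right]
  exact mul_left_cancel₀ (sub_ne_zero.2 hzw) h1

/-- the approximations of the eigenfunctions -/
noncomputable def dyAtom_q (R : ℂ → LL ι →L[ℂ] LL ι) (f : LL ι) (E : ℝ) (k : ℕ) : LL ι :=
  (-(Complex.I * dyAtom_eta k)) • R (dyAtom_z E k) f

theorem dyAtom_inner_q (hR : RF R) {f : LL ι} {m : Measure ℝ} [IsFiniteMeasure m]
    (hm : ∀ z : ℂ, z.im ≠ 0 → ⟪f, R z f⟫_ℂ = ∫ x : ℝ, ((x : ℂ) - z)⁻¹ ∂m) (E E' : ℝ)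
    (k l : ℕ) : ⟪dyAtom_q R f E k, dyAtom_q R f E' l⟫_ℂ =
      ∫ s : ℝ, starRingEnd ℂ (dyAtom_h E k s) * dyAtom_h E' l s ∂m := by
  have hne : starRingEnd ℂ (dyAtom_z E k) ≠ dyAtom_z E' l := by
    intro h
    have h1 := congrArg Complex.im h
    rw [Complex.conj_im] at h1
    have h2 : (dyAtom_z E k).im = dyAtom_eta k := rfl
    have h3 : (dyAtom_z E' l).im = dyAtom_eta l := rfl
    rw [h2, h3] at h1
    have h4 := dyAtom_eta_pos k
    have h5 := dyAtom_eta_pos l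
    linarith
  unfold dyAtom_q
  rw [inner_smul_left, inner_smul_right,
    dyAtom_inner hR hm (dyAtom_z_im E k) (dyAtom_z_im E' l) hne, ← integral_const_mul,
    ← integral_const_mul]
  refine integral_congr_ae (Eventually.of_forall fun s => ?_)
  unfold dyAtom_h
  change _ = starRingEnd ℂ (-(Complex.I * dyAtom_eta k) * ((s : ℂ) - dyAtom_z E k)⁻¹) *
    (-(Complex.I * dyAtom_eta l) * ((s : ℂ) - dyAtom_z E' l)⁻¹)
  rw [map_mul, map_inv₀, map_sub, Complex.conj_ofReal]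
  ring

theorem dyAtom_lim2 (m : Measure ℝ) [IsFiniteMeasure m] (E E' : ℝ) :
    Tendsto (fun p : ℕ × ℕ => ∫ s : ℝ, starRingEnd ℂ (dyAtom_h E p.1 s) *
      dyAtom_h E' p.2 s ∂m) (atTop ×ˢ atTop)
      (𝓝 (if E = E' then ((m.real {E} : ℝ) : ℂ) else 0)) := by
  have h1 : ∫ s : ℝ, (starRingEnd ℂ (if s = E then 1 else 0) * if s = E' then 1 else 0) ∂m =
      if E = E' then ((m.real {E} : ℝ) : ℂ) else 0 := by
    have h2 : (fun s : ℝ => (starRingEnd ℂ (if s = E then 1 else 0) *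
        if s = E' then 1 else 0 : ℂ)) =
        ({E} : Set ℝ).indicator fun _ => if E = E' then (1 : ℂ) else 0 := by
      funext s
      by_cases h : s = E
      · subst h
        rw [if_pos rfl, map_one, one_mul, Set.indicator_of_mem (Set.mem_singleton s)]
      · rw [if_neg h, map_zero, zero_mul, Set.indicator_of_notMem]
        exact h
    rw [h2, integral_indicator_const _ (measurableSet_singleton E)]
    split_ifs
    · rw [Complex.real_smul, mul_one]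
    · rw [smul_zero]
  rw [← h1]
  refine tendsto_integral_filter_of_dominated_convergence (fun _ => (1 : ℝ)) ?_ ?_ ?_ ?_
  · refine Eventually.of_forall fun p => ?_
    exact ((Complex.continuous_conj.comp (dyAtom_h_cont E p.1)).mul
      (dyAtom_h_cont E' p.2)).aestronglyMeasurable
  · refine Eventually.of_forall fun p => Eventually.of_forall fun s => ?_
    rw [norm_mul, RCLike.norm_conj]
    have h2 := dyAtom_h_norm E p.1 s
    have h3 := dyAtom_h_norm E' p.2 s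
    have h4 := norm_nonneg (dyAtom_h E' p.2 s)
    nlinarith [norm_nonneg (dyAtom_h E p.1 s)]
  · exact integrable_const _
  · refine Eventually.of_forall fun s => ?_
    have h2 := (dyAtom_h_lim E s).comp (tendsto_fst (f := (atTop : Filter ℕ))
      (g := (atTop : Filter ℕ)))
    have h3 := (dyAtom_h_lim E' s).comp (tendsto_snd (f := (atTop : Filter ℕ))
      (g := (atTop : Filter ℕ)))
    exact ((Complex.continuous_conj.tendsto _).comp h2).mul h3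

theorem dyAtom_exists (hR : RF R) {f : LL ι} {m : Measure ℝ} [IsFiniteMeasure m]
    (hm : ∀ z : ℂ, z.im ≠ 0 → ⟪f, R z f⟫_ℂ = ∫ x : ℝ, ((x : ℂ) - z)⁻¹ ∂m) (E : ℝ) :
    ∃ p : LL ι, Tendsto (dyAtom_q R f E) atTop (𝓝 p) := by
  apply cauchySeq_tendsto_of_complete
  rw [cauchySeq_iff_tendsto_dist_atTop_0, ← prod_atTop_atTop_eq]
  have h1 := dyAtom_lim2 m E E
  rw [if_pos rfl] at h1
  have h2 : Tendsto (fun p : ℕ × ℕ => ⟪dyAtom_q R f E p.1, dyAtom_q R f E p.2⟫_ℂ)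
      (atTop ×ˢ atTop) (𝓝 ((m.real {E} : ℝ) : ℂ)) := by
    simp_rw [dyAtom_inner_q hR hm]
    exact h1
  have h3 : Tendsto (fun p : ℕ × ℕ => ⟪dyAtom_q R f E p.1, dyAtom_q R f E p.1⟫_ℂ)
      (atTop ×ˢ atTop) (𝓝 ((m.real {E} : ℝ) : ℂ)) :=
    h2.comp (f := fun p : ℕ × ℕ => (p.1, p.1)) (tendsto_fst.prodMk tendsto_fst)
  have h4 : Tendsto (fun p : ℕ × ℕ => ⟪dyAtom_q R f E p.2, dyAtom_q R f E p.2⟫_ℂ)
      (atTop ×ˢ atTop) (𝓝 ((m.real {E} : ℝ) : ℂ)) :=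
    h2.comp (f := fun p : ℕ × ℕ => (p.2, p.2)) (tendsto_snd.prodMk tendsto_snd)
  have hre : ∀ {g : ℕ × ℕ → ℂ}, Tendsto g (atTop ×ˢ atTop) (𝓝 ((m.real {E} : ℝ) : ℂ)) →
      Tendsto (fun p => (g p).re) (atTop ×ˢ atTop) (𝓝 (m.real {E})) := by
    intro g hg
    have h5 := (Complex.continuous_re.tendsto _).comp hg
    rwa [Complex.ofReal_re] at h5
  have h5 : Tendsto (fun p : ℕ × ℕ => ‖dyAtom_q R f E p.1 - dyAtom_q R f E p.2‖ ^ 2)
      (atTop ×ˢ atTop) (𝓝 0) := by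
    have h6 : ∀ p : ℕ × ℕ, ‖dyAtom_q R f E p.1 - dyAtom_q R f E p.2‖ ^ 2 =
        (⟪dyAtom_q R f E p.1, dyAtom_q R f E p.1⟫_ℂ).re -
          2 * (⟪dyAtom_q R f E p.1, dyAtom_q R f E p.2⟫_ℂ).re +
          (⟪dyAtom_q R f E p.2, dyAtom_q R f E p.2⟫_ℂ).re := by
      intro p
      rw [@norm_sub_sq ℂ, ← inner_self_eq_norm_sq (𝕜 := ℂ) (dyAtom_q R f E p.1),
        ← inner_self_eq_norm_sq (𝕜 := ℂ) (dyAtom_q R f E p.2)]
      rfl
    simp_rw [h6]
    have h7 := ((hre h3).sub ((hre h2).const_mul 2)).add (hre h4)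
    have h8 : m.real {E} - 2 * m.real {E} + m.real {E} = 0 := by ring
    rwa [h8] at h7
  have h6 := (Real.continuous_sqrt.tendsto _).comp h5
  rw [Real.sqrt_zero] at h6
  refine h6.congr fun p => ?_
  rw [Function.comp_apply, Real.sqrt_sq (norm_nonneg _), dist_eq_norm]

theorem dyAtom_inner_p (hR : RF R) {f : LL ι} {m : Measure ℝ} [IsFiniteMeasure m]
    (hm : ∀ z : ℂ, z.im ≠ 0 → ⟪f, R z f⟫_ℂ = ∫ x : ℝ, ((x : ℂ) - z)⁻¹ ∂m) {E E' : ℝ}
    {p p' : LL ι} (hp : Tendsto (dyAtom_q R f E) atTop (𝓝 p))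
    (hp' : Tendsto (dyAtom_q R f E') atTop (𝓝 p')) :
    ⟪p, p'⟫_ℂ = if E = E' then ((m.real {E} : ℝ) : ℂ) else 0 := by
  have h1 : Tendsto (fun k => ⟪dyAtom_q R f E k, dyAtom_q R f E' k⟫_ℂ) atTop
      (𝓝 ⟪p, p'⟫_ℂ) := hp.inner hp'
  have h2 : Tendsto (fun k => ⟪dyAtom_q R f E k, dyAtom_q R f E' k⟫_ℂ) atTop
      (𝓝 (if E = E' then ((m.real {E} : ℝ) : ℂ) else 0)) := by
    simp_rw [dyAtom_inner_q hR hm]
    exact (dyAtom_lim2 m E E').comp (f := fun k : ℕ => (k, k)) (tendsto_id.prodMk tendsto_id)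
  exact tendsto_nhds_unique h1 h2

theorem dyAtom_inner_f {f : LL ι} {m : Measure ℝ} [IsFiniteMeasure m]
    (hm : ∀ z : ℂ, z.im ≠ 0 → ⟪f, R z f⟫_ℂ = ∫ x : ℝ, ((x : ℂ) - z)⁻¹ ∂m) {E : ℝ}
    {p : LL ι} (hp : Tendsto (dyAtom_q R f E) atTop (𝓝 p)) :
    ⟪f, p⟫_ℂ = ((m.real {E} : ℝ) : ℂ) := by
  have h1 : Tendsto (fun k => ⟪f, dyAtom_q R f E k⟫_ℂ) atTop (𝓝 ⟪f, p⟫_ℂ) :=
    tendsto_const_nhds.inner hp
  have h2 : Tendsto (fun k => ⟪f, dyAtom_q R f E k⟫_ℂ) atTop (𝓝 ((m.real {E} : ℝ) : ℂ)) := by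
    have h3 : ∀ k, ⟪f, dyAtom_q R f E k⟫_ℂ = ∫ s : ℝ, dyAtom_h E k s ∂m := by
      intro k
      unfold dyAtom_q
      rw [inner_smul_right, hm _ (dyAtom_z_im E k), ← integral_const_mul]
      rfl
    simp_rw [h3]
    have h4 : ∫ s : ℝ, (if s = E then (1 : ℂ) else 0) ∂m = ((m.real {E} : ℝ) : ℂ) := by
      have h5 : (fun s : ℝ => (if s = E then (1 : ℂ) else 0)) =
          ({E} : Set ℝ).indicator fun _ => (1 : ℂ) := by
        funext s
        by_cases h : s = E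
        · subst h
          rw [if_pos rfl, Set.indicator_of_mem (Set.mem_singleton s)]
        · rw [if_neg h, Set.indicator_of_notMem]
          exact h
      rw [h5, integral_indicator_const _ (measurableSet_singleton E), Complex.real_smul,
        mul_one]
    rw [← h4]
    refine tendsto_integral_filter_of_dominated_convergence (fun _ => (1 : ℝ)) ?_ ?_ ?_ ?_
    · exact Eventually.of_forall fun k => (dyAtom_h_cont E k).aestronglyMeasurable
    · exact Eventually.of_forall fun k => Eventually.of_forall fun s => dyAtom_h_norm E k s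
    · exact integrable_const _
    · exact Eventually.of_forall fun s => dyAtom_h_lim E s
  exact tendsto_nhds_unique h1 h2

theorem dyAtom_dv (a : ι) (g : LL ι) : ⟪dv a, g⟫_ℂ = g a := by
  classical
  unfold dv
  rw [lp.inner_single_left]
  simp

theorem dyAtom_pt {g : ℕ → LL ι} {p : LL ι} (h : Tendsto g atTop (𝓝 p)) (x : ι) :
    Tendsto (fun k => g k x) atTop (𝓝 (p x)) := by
  have h1 : Tendsto (fun k => ⟪dv x, g k⟫_ℂ) atTop (𝓝 ⟪dv x, p⟫_ℂ) :=
    tendsto_const_nhds.inner h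
  simp_rw [dyAtom_dv] at h1
  exact h1

theorem dyAtom_S {d : ℕ} (c : ℂ) (g h : Zd d → ℂ) (hg : ∀ y, g y = c * h y) (x : Zd d) :
    S g x = c * S h x := by
  unfold S
  rw [Finset.mul_sum]
  refine Finset.sum_congr rfl fun i _ => ?_
  rw [hg, hg]
  ring

theorem dyAtom_eq {d : ℕ} {W : Zd d → ℝ} {f : LL (Zd d)}
    {R : ℂ → LL (Zd d) →L[ℂ] LL (Zd d)}
    (hsol : ∀ z : ℂ, z.im ≠ 0 → ∀ (f : LL (Zd d)) (x : Zd d),
      S (fun y => R z f y) x + (W x : ℂ) * R z f x - z * R z f x = f x)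
    {E : ℝ} {p : LL (Zd d)} (hp : Tendsto (dyAtom_q R f E) atTop (𝓝 p)) (x : Zd d) :
    S (fun y => p y) x + (W x : ℂ) * p x = E * p x := by
  have h1 : ∀ k, S (fun y => dyAtom_q R f E k y) x + (W x : ℂ) * dyAtom_q R f E k x -
      dyAtom_z E k * dyAtom_q R f E k x = -(Complex.I * dyAtom_eta k) * f x := by
    intro k
    have h2 := hsol (dyAtom_z E k) (dyAtom_z_im E k) f x
    have h3 : ∀ y, dyAtom_q R f E k y =
        -(Complex.I * dyAtom_eta k) * R (dyAtom_z E k) f y := fun y => rfl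
    have h4 : S (fun y => dyAtom_q R f E k y) x =
        -(Complex.I * dyAtom_eta k) * S (fun y => R (dyAtom_z E k) f y) x :=
      dyAtom_S _ _ _ h3 x
    rw [h4, h3, ← h2]
    ring
  have h2 : Tendsto (fun k => S (fun y => dyAtom_q R f E k y) x +
      (W x : ℂ) * dyAtom_q R f E k x - dyAtom_z E k * dyAtom_q R f E k x) atTop
      (𝓝 (S (fun y => p y) x + (W x : ℂ) * p x - E * p x)) := by
    refine Tendsto.sub (Tendsto.add ?_ ((dyAtom_pt hp x).const_mul _))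
      ((dyAtom_z_lim E).mul (dyAtom_pt hp x))
    unfold S
    exact tendsto_finsetSum _ fun i _ => (dyAtom_pt hp _).add (dyAtom_pt hp _)
  have h3 : Tendsto (fun k => -(Complex.I * (dyAtom_eta k : ℂ)) * f x) atTop (𝓝 0) := by
    have h4 : Tendsto (fun k => (dyAtom_eta k : ℂ)) atTop (𝓝 ((0 : ℝ) : ℂ)) :=
      (Complex.continuous_ofReal.tendsto _).comp dyAtom_eta_lim
    have h5 := ((h4.const_mul Complex.I).neg).mul_const (f x)
    rwa [Complex.ofReal_zero, mul_zero, neg_zero, zero_mul] at h5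
  simp_rw [h1] at h2
  have h4 := tendsto_nhds_unique h2 h3
  exact sub_eq_zero.1 h4

theorem dyAtom_fin {m : Measure ℝ} [IsFiniteMeasure m] {J N : Set ℝ}
    (hN : N.Countable) (hJN : m (J \ N) = 0) {c : ℝ}
    (hc : c < m.real J) : ∃ F : Finset ℝ, (∀ E ∈ F, E ∈ J ∧ 0 < m.real {E}) ∧
      c ≤ ∑ E ∈ F, m.real {E} := by
  classical
  have hc1 : (J ∩ N).Countable := hN.mono Set.inter_subset_right
  have h1 : m J = ∑' p : (J ∩ N : Set ℝ), m {(p : ℝ)} := by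
    have h2 := measure_biUnion (μ := m) hc1 (f := fun E : ℝ => ({E} : Set ℝ))
      (fun x _ y _ hxy => Set.disjoint_singleton.2 hxy)
      (fun E _ => measurableSet_singleton E)
    rw [Set.biUnion_of_singleton] at h2
    rw [← h2]
    exact (measure_inter_add_sdiff₀ J hN.measurableSet.nullMeasurableSet).symm.trans
      (by rw [hJN, add_zero])
  have h2 : ENNReal.ofReal c < m J ∨ c ≤ 0 := by
    by_cases h : c ≤ 0
    · exact Or.inr h
    · left
      push Not at h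
      rw [ENNReal.ofReal_lt_iff_lt_toReal h.le (measure_ne_top m J)]
      exact hc
  rcases h2 with h2 | h2
  · rw [h1, ENNReal.tsum_eq_iSup_sum, lt_iSup_iff] at h2
    obtain ⟨G, hG⟩ := h2
    refine ⟨(G.map (Function.Embedding.subtype _)).filter fun E => 0 < m.real {E}, ?_, ?_⟩
    · intro E hE
      rw [Finset.mem_filter, Finset.mem_map] at hE
      obtain ⟨⟨p, -, rfl⟩, h3⟩ := hE
      exact ⟨p.2.1, h3⟩
    · rw [Finset.sum_filter_of_ne (fun E _ hne => lt_of_le_of_ne measureReal_nonneg hne.symm),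
        Finset.sum_map]
      have h3 : ∑ p ∈ G, m {(p : ℝ)} = ENNReal.ofReal (∑ p ∈ G, m.real {(p : ℝ)}) := by
        rw [ENNReal.ofReal_sum_of_nonneg fun p _ => measureReal_nonneg]
        refine Finset.sum_congr rfl fun p _ => ?_
        rw [ofReal_measureReal]
      rw [h3] at hG
      exact (ENNReal.ofReal_lt_ofReal_iff'.1 hG).1.le
  · exact ⟨∅, by simp, by simpa using h2⟩

end dyatom

theorem atoms {d : ℕ} {W : Zd d → ℝ} {a : Zd d} {R : ℂ → LL (Zd d) →L[ℂ] LL (Zd d)} (hR : RF R)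
    (hsol : ∀ z : ℂ, z.im ≠ 0 → ∀ (f : LL (Zd d)) (x : Zd d),
      S (fun y => R z f y) x + (W x : ℂ) * R z f x - z * R z f x = f x)
    {m : Measure ℝ} [IsFiniteMeasure m]
    (hm : ∀ z : ℂ, z.im ≠ 0 → ⟪dv a, R z (dv a)⟫_ℂ = ∫ x : ℝ, ((x : ℂ) - z)⁻¹ ∂m)
    {J N : Set ℝ} (hJ : MeasurableSet J) (hN : N.Countable) (hJN : m (J \ N) = 0) {c : ℝ}
    (hc : c < m.real J) :
    ∃ (n : ℕ) (u : Fin n → LL (Zd d)) (E : Fin n → ℝ), Orthonormal ℂ u ∧
      (∀ j x, S (fun y => u j y) x + (W x : ℂ) * u j x = E j * u j x) ∧ (∀ j, E j ∈ J) ∧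
      c ≤ ∑ j, ‖u j a‖ ^ 2 := by
  classical
  obtain ⟨F, hF, hcF⟩ := dyAtom_fin hN hJN hc
  choose p hp using dyAtom_exists hR hm
  have hpp : ∀ E E', ⟪p E, p E'⟫_ℂ = if E = E' then ((m.real {E} : ℝ) : ℂ) else 0 :=
    fun E E' => dyAtom_inner_p hR hm (hp E) (hp E')
  have hpa : ∀ E, p E a = ((m.real {E} : ℝ) : ℂ) := by
    intro E
    rw [← dyAtom_dv a (p E)]
    exact dyAtom_inner_f hm (hp E)
  let e : Fin F.card ≃ F := F.equivFin.symm
  let α : Fin F.card → ℝ := fun j => (Real.sqrt (m.real {(e j : ℝ)}))⁻¹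
  have hpos : ∀ j, 0 < m.real {(e j : ℝ)} := fun j => (hF _ (e j).2).2
  have hα : ∀ j, α j * α j * m.real {(e j : ℝ)} = 1 := by
    intro j
    have h1 : α j * α j = (m.real {(e j : ℝ)})⁻¹ := by
      change (Real.sqrt (m.real {(e j : ℝ)}))⁻¹ * (Real.sqrt (m.real {(e j : ℝ)}))⁻¹ = _
      rw [← mul_inv, Real.mul_self_sqrt (hpos j).le]
    rw [h1, inv_mul_cancel₀ (hpos j).ne']
  refine ⟨F.card, fun j => (α j : ℂ) • p (e j : ℝ), fun j => (e j : ℝ), ?_, ?_, ?_, ?_⟩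
  · rw [orthonormal_iff_ite]
    intro i j
    rw [inner_smul_left, inner_smul_right, hpp, Complex.conj_ofReal]
    by_cases h : i = j
    · subst h
      rw [if_pos rfl, if_pos rfl]
      have h1 := hα i
      have h2 : (α i : ℂ) * (α i * ((m.real {(e i : ℝ)} : ℝ) : ℂ)) =
          ((α i * α i * m.real {(e i : ℝ)} : ℝ) : ℂ) := by push_cast; ring
      rw [h2, h1, Complex.ofReal_one]
    · rw [if_neg h, if_neg, mul_zero, mul_zero]
      intro h'
      exact h (e.injective (Subtype.ext h'))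
  · intro j x
    have h1 := dyAtom_eq hsol (hp (e j : ℝ)) x
    have h3 : ∀ y, ((α j : ℂ) • p (e j : ℝ)) y = (α j : ℂ) * p (e j : ℝ) y := fun y => rfl
    have h4 : S (fun y => ((α j : ℂ) • p (e j : ℝ)) y) x =
        (α j : ℂ) * S (fun y => p (e j : ℝ) y) x := dyAtom_S _ _ _ h3 x
    change S (fun y => ((α j : ℂ) • p (e j : ℝ)) y) x +
      (W x : ℂ) * ((α j : ℂ) • p (e j : ℝ)) x = _ * ((α j : ℂ) • p (e j : ℝ)) x
    rw [h4, h3]
    linear_combination (α j : ℂ) * h1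
  · intro j
    exact (hF _ (e j).2).1
  · refine hcF.trans (le_of_eq ?_)
    have h1 : ∀ j, ‖((α j : ℂ) • p (e j : ℝ)) a‖ ^ 2 = m.real {(e j : ℝ)} := by
      intro j
      have h3 : ((α j : ℂ) • p (e j : ℝ)) a = (α j : ℂ) * p (e j : ℝ) a := rfl
      have h4 : (α j : ℂ) * ((m.real {(e j : ℝ)} : ℝ) : ℂ) =
          ((α j * m.real {(e j : ℝ)} : ℝ) : ℂ) := by push_cast; ring
      rw [h3, hpa, h4, Complex.norm_real, Real.norm_eq_abs, sq_abs]
      have h5 := hα j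
      calc (α j * m.real {(e j : ℝ)}) ^ 2 =
            (α j * α j * m.real {(e j : ℝ)}) * m.real {(e j : ℝ)} := by ring
        _ = m.real {(e j : ℝ)} := by rw [h5, one_mul]
    change _ = ∑ j, ‖((α j : ℂ) • p (e j : ℝ)) a‖ ^ 2
    rw [Finset.sum_congr rfl fun j _ => h1 j]
    rw [← Finset.sum_coe_sort F (fun E => m.real {E})]
    exact (Equiv.sum_comp e (fun E : F => m.real {(E : ℝ)})).symm

end Pool.Agent.H989.DY
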