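import Pool.Agent.H989.DY.Defs

/-!
# DyCheb: the spectral measure of `δ_a` is concentrated near the potential at `a`

`R z χ = dv a + (z - v) R z (dv a)` says `χ = (H - v) δ_a`. Let `m` be the spectral measure of `dv a` (`RF.sp`, mass `1`).
(1) For `y > 0`, `z = v + i y`: `‖R z χ‖ ≤ ‖χ‖ / y`, and `‖R z χ‖² = ‖dv a + i y R z (dv a)‖² =
    1 + 2 Re (i y ⟪dv a, R z (dv a)⟫) + y² ‖R z (dv a)‖² = 1 - 2 y Im G + y Im G = 1 - y Im G` with
    `G = ⟪dv a, R z (dv a)⟫`, `y ‖R z (dv a)‖² = Im G` (from `ad`, `id`), `y Im G = ∫ y²/((s-v)² + y²) dm`. So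
    `∫ (s-v)²/((s-v)² + y²) dm(s) ≤ ‖χ‖²/y²`; with `y = D/2`: `m{|s - v| ≥ D/2} ≤ 2 ‖χ‖²/(D/2)² = 8 ‖χ‖²/D²`.
(2) `(η/π) ‖R(E+iη) (dv a)‖² = (1/π) ∫ η/((s-E)² + η²) dm(s)`. Integrate over `|E - v| ≥ D` (Tonelli): the `s` with
    `|s - v| ≥ D/2` contribute at most `m{|s-v| ≥ D/2}` (`∫ η/((s-E)²+η²) dE = π`); for `|s - v| < D/2` one has
    `|s - E| ≥ |E - v|/2`, so the inner integral is at most `(1/π) ∫_{|E-v| ≥ D} 4 η/(E-v)² dE = 8 η/(π D) ≤ 3 η/D`.
-/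

open MeasureTheory
open scoped InnerProductSpace

namespace Pool.Agent.H989.DY

open ProbabilityTheory Filter Topology

theorem DyCheb_norm_dv {ι : Type} (a : ι) : ‖dv a‖ = 1 := by
  classical
  unfold dv
  have := lp.norm_single (E := fun _ : ι => ℂ) (p := 2) (by norm_num) a (1 : ℂ)
  rw [norm_one] at this
  convert this

theorem DyCheb_imG {ι : Type} {R : ℂ → LL ι →L[ℂ] LL ι} (hR : RF R) (u : LL ι) {E η : ℝ}
    (hη : 0 < η) : η * ‖R ⟨E, η⟩ u‖ ^ 2 = (⟪u, R ⟨E, η⟩ u⟫_ℂ).im := by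
  set z : ℂ := ⟨E, η⟩ with hz
  have hz0 : z.im ≠ 0 := hη.ne'
  have hc0 : (starRingEnd ℂ z).im ≠ 0 := by
    rw [Complex.conj_im]
    exact neg_ne_zero.2 hz0
  have h1 := hR.ad z hz0 u (R z u)
  have h2 := hR.id (starRingEnd ℂ z) z hc0 hz0 u
  have h3 := hR.ad z hz0 u u
  have h4 : ⟪u, R (starRingEnd ℂ z) u - R z u⟫_ℂ =
      (starRingEnd ℂ z - z) * ⟪u, R (starRingEnd ℂ z) (R z u)⟫_ℂ := by
    rw [h2, inner_smul_right]
  rw [inner_sub_right, ← h3, ← h1, inner_self_eq_norm_sq_to_K] at h4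
  have h5 : ⟪R z u, u⟫_ℂ = starRingEnd ℂ ⟪u, R z u⟫_ℂ := (inner_conj_symm _ _).symm
  rw [h5] at h4
  have h6 := congrArg Complex.im h4
  simp only [Complex.sub_im, Complex.conj_im, Complex.mul_im, Complex.sub_re, Complex.conj_re,
    sub_self, zero_mul, zero_add] at h6
  have h7 : (((‖R z u‖ : ℂ)) ^ 2).re = ‖R z u‖ ^ 2 := by
    rw [← Complex.ofReal_pow, Complex.ofReal_re]
  have h8 : z.im = η := rfl
  erw [h7] at h6
  rw [h8] at h6
  linarith

theorem DyCheb_int {m : Measure ℝ} [IsFiniteMeasure m] {E η : ℝ} (hη : 0 < η) :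
    Integrable (fun s : ℝ => ((s : ℂ) - ⟨E, η⟩)⁻¹) m ∧
    (∫ s : ℝ, ((s : ℂ) - ⟨E, η⟩)⁻¹ ∂m).im = ∫ s : ℝ, η * ((E - s) ^ 2 + η ^ 2)⁻¹ ∂m ∧
    Integrable (fun s : ℝ => η * ((E - s) ^ 2 + η ^ 2)⁻¹) m := by
  have him : ∀ s : ℝ, (((s : ℂ) - ⟨E, η⟩)⁻¹).im = η * ((E - s) ^ 2 + η ^ 2)⁻¹ := by
    intro s
    rw [Complex.inv_im, Complex.normSq_apply]
    simp only [Complex.sub_re, Complex.sub_im, Complex.ofReal_re, Complex.ofReal_im]
    rw [div_eq_mul_inv]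
    congr 1
    · ring
    · congr 1
      ring
  have hI : Integrable (fun s : ℝ => ((s : ℂ) - ⟨E, η⟩)⁻¹) m := by
    refine Integrable.of_bound (C := η⁻¹) ?_ (ae_of_all _ fun s => ?_)
    · apply Measurable.aestronglyMeasurable
      fun_prop
    · rw [norm_inv]
      apply inv_anti₀ hη
      have h1 := Complex.abs_im_le_norm ((s : ℂ) - ⟨E, η⟩)
      simp only [Complex.sub_im, Complex.ofReal_im, zero_sub, abs_neg, abs_of_pos hη] at h1
      exact h1
  refine ⟨hI, ?_, ?_⟩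
  · have := integral_im (𝕜 := ℂ) hI
    simp only [RCLike.im_eq_complex_im] at this
    rw [← this]
    exact integral_congr_ae (ae_of_all _ him)
  · have := hI.im
    simp only [RCLike.im_eq_complex_im] at this
    exact this.congr (ae_of_all _ him)

/-- the energy density as an average of Cauchy densities -/
theorem DyCheb_dens {ι : Type} {R : ℂ → LL ι →L[ℂ] LL ι} (hR : RF R) (u : LL ι) {m : Measure ℝ}
    [IsFiniteMeasure m] (hm : ∀ z : ℂ, z.im ≠ 0 → ⟪u, R z u⟫_ℂ = ∫ x : ℝ, ((x : ℂ) - z)⁻¹ ∂m)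
    {E η : ℝ} (hη : 0 < η) :
    ENNReal.ofReal (η / Real.pi * ‖R ⟨E, η⟩ u‖ ^ 2) = ∫⁻ s, cauchyPDF s ⟨η, hη.le⟩ E ∂m := by
  obtain ⟨h1, h2, h3⟩ := DyCheb_int (m := m) (E := E) hη
  have h4 := DyCheb_imG hR u (E := E) hη
  rw [hm ⟨E, η⟩ hη.ne', h2] at h4
  have h5 : η / Real.pi * ‖R ⟨E, η⟩ u‖ ^ 2 =
      ∫ s : ℝ, Real.pi⁻¹ * η * ((E - s) ^ 2 + η ^ 2)⁻¹ ∂m := by
    have : ∀ s : ℝ, Real.pi⁻¹ * η * ((E - s) ^ 2 + η ^ 2)⁻¹ =
        Real.pi⁻¹ * (η * ((E - s) ^ 2 + η ^ 2)⁻¹) := fun s => mul_assoc _ _ _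
    simp_rw [this]
    rw [integral_const_mul, ← h4]
    ring
  rw [h5, ofReal_integral_eq_lintegral_ofReal]
  · rfl
  · have : ∀ s : ℝ, Real.pi⁻¹ * η * ((E - s) ^ 2 + η ^ 2)⁻¹ =
        Real.pi⁻¹ * (η * ((E - s) ^ 2 + η ^ 2)⁻¹) := fun s => mul_assoc _ _ _
    simp_rw [this]
    exact h3.const_mul _
  · refine ae_of_all _ fun s => ?_
    have := Real.pi_pos
    show (0 : ℝ) ≤ Real.pi⁻¹ * η * ((E - s) ^ 2 + η ^ 2)⁻¹
    positivity

theorem DyCheb_meas (γ : NNReal) : Measurable (fun q : ℝ × ℝ => cauchyPDF q.2 γ q.1) := by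
  unfold cauchyPDF cauchyPDFReal
  fun_prop

theorem DyCheb_right (v : ℝ) {D c : ℝ} (hD : 0 < D) (hc : 0 ≤ c) :
    ∫⁻ E in Set.Ici (v + D), ENNReal.ofReal (c * ((E - v) ^ 2)⁻¹) = ENNReal.ofReal (c / D) := by
  have hd : ∀ x ∈ Set.Ici (v + D), HasDerivAt (fun x : ℝ => -c * (x - v)⁻¹)
      (c * ((x - v) ^ 2)⁻¹) x := by
    intro x hx
    have hx' : x - v ≠ 0 := by
      have : v + D ≤ x := hx
      have : 0 < x - v := by linarith
      exact this.ne'
    have h1 := (((hasDerivAt_id x).sub_const v).inv hx').const_mul (-c)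
    refine h1.congr_deriv ?_
    simp only [id]
    field_simp
  have hp : ∀ x ∈ Set.Ioi (v + D), 0 ≤ c * ((x - v) ^ 2)⁻¹ := by
    intro x _
    positivity
  have hlim : Tendsto (fun x : ℝ => -c * (x - v)⁻¹) atTop (𝓝 0) := by
    have h1 : Tendsto (fun x : ℝ => (x - v)⁻¹) atTop (𝓝 0) :=
      tendsto_inv_atTop_zero.comp (tendsto_atTop_add_const_right _ (-v) tendsto_id)
    have := h1.const_mul (-c)
    rwa [mul_zero] at this
  have h2 := integrableOn_Ioi_deriv_of_nonneg' hd hp hlim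
  have h3 := integral_Ioi_of_hasDerivAt_of_nonneg' hd hp hlim
  rw [setLIntegral_congr Ioi_ae_eq_Ici.symm, ← ofReal_integral_eq_lintegral_ofReal h2
    (ae_of_all _ fun x => by show (0:ℝ) ≤ c * ((x - v) ^ 2)⁻¹; positivity), h3]
  congr 1
  have : v + D - v = D := by ring
  rw [this]
  field_simp
  ring

theorem DyCheb_tail (v : ℝ) {D c : ℝ} (hD : 0 < D) (hc : 0 ≤ c) :
    ∫⁻ E in {E : ℝ | D ≤ |E - v|}, ENNReal.ofReal (c * ((E - v) ^ 2)⁻¹) ≤
      ENNReal.ofReal (2 * c / D) := by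
  have hsub : {E : ℝ | D ≤ |E - v|} ⊆ Set.Iic (v - D) ∪ Set.Ici (v + D) := by
    intro E hE
    have hE' : D ≤ |E - v| := hE
    rcases le_abs.1 hE' with h | h
    · right
      show v + D ≤ E
      linarith
    · left
      show E ≤ v - D
      linarith
  have hleft : ∫⁻ E in Set.Iic (v - D), ENNReal.ofReal (c * ((E - v) ^ 2)⁻¹) =
      ENNReal.ofReal (c / D) := by
    rw [← DyCheb_right (-v) hD hc]
    have h := (Measure.measurePreserving_neg (volume : Measure ℝ)).setLIntegral_comp_preimage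
      (s := Set.Iic (v - D)) measurableSet_Iic
      (f := fun E : ℝ => ENNReal.ofReal (c * ((E - v) ^ 2)⁻¹)) (by fun_prop)
    rw [← h]
    have hpre : (Neg.neg ⁻¹' Set.Iic (v - D) : Set ℝ) = Set.Ici (-v + D) := by
      ext x
      simp only [Set.mem_preimage, Set.mem_Iic, Set.mem_Ici]
      constructor <;> intro h <;> linarith
    rw [hpre]
    refine lintegral_congr fun x => ?_
    congr 2
    congr 1
    ring
  calc _ ≤ ∫⁻ E in Set.Iic (v - D) ∪ Set.Ici (v + D), ENNReal.ofReal (c * ((E - v) ^ 2)⁻¹) :=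
        lintegral_mono_set hsub
    _ ≤ _ := lintegral_union_le _ _ _
    _ = ENNReal.ofReal (c / D) + ENNReal.ofReal (c / D) := by
        rw [hleft, DyCheb_right v hD hc]
    _ = ENNReal.ofReal (2 * c / D) := by
        rw [← ENNReal.ofReal_add (by positivity) (by positivity)]
        congr 1
        ring

theorem DyCheb_mass {ι : Type} {R : ℂ → LL ι →L[ℂ] LL ι} (hR : RF R) (a : ι) (v : ℝ) (χ : LL ι)
    (hχ : ∀ z : ℂ, z.im ≠ 0 → R z χ = dv a + (z - v) • R z (dv a)) {m : Measure ℝ}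
    [IsFiniteMeasure m]
    (hm : ∀ z : ℂ, z.im ≠ 0 → ⟪dv a, R z (dv a)⟫_ℂ = ∫ x : ℝ, ((x : ℂ) - z)⁻¹ ∂m)
    (hm1 : m Set.univ = 1) {D : ℝ} (hD : 0 < D) :
    m {s : ℝ | D / 2 ≤ |s - v|} ≤ ENNReal.ofReal (8 * ‖χ‖ ^ 2 / D ^ 2) := by
  set y : ℝ := D / 2 with hy
  have hy0 : 0 < y := by positivity
  set z : ℂ := ⟨v, y⟩ with hz
  have hz0 : z.im ≠ 0 := hy0.ne'
  set u := dv a with hu
  have hu1 : ‖u‖ = 1 := DyCheb_norm_dv a
  have hG := DyCheb_imG hR u (E := v) hy0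
  have h1 := hχ z hz0
  have h2 : ‖R z χ‖ ≤ ‖χ‖ / y := by
    have h3 := (R z).le_opNorm χ
    have h4 := hR.nb z hz0
    have h5 : |z.im| = y := abs_of_pos hy0
    rw [h5] at h4
    calc ‖R z χ‖ ≤ ‖R z‖ * ‖χ‖ := h3
      _ ≤ 1 / y * ‖χ‖ := mul_le_mul_of_nonneg_right h4 (norm_nonneg _)
      _ = ‖χ‖ / y := by ring
  have hzv : z - (v : ℂ) = Complex.I * y := by
    apply Complex.ext
    · simp [hz]
    · simp [hz]
  have h6 : ‖R z χ‖ ^ 2 = 1 - (⟪u, R z u⟫_ℂ).im * y := by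
    rw [h1, norm_add_sq (𝕜 := ℂ), inner_smul_right, hzv, norm_smul, hu1]
    have h7 : RCLike.re (Complex.I * (y : ℂ) * ⟪u, R z u⟫_ℂ) = -(y * (⟪u, R z u⟫_ℂ).im) := by
      simp
    have h8 : ‖Complex.I * (y : ℂ)‖ = y := by
      rw [norm_mul, Complex.norm_I, one_mul, Complex.norm_real, Real.norm_eq_abs, abs_of_pos hy0]
    rw [h7, h8, mul_pow]
    have h9 : y ^ 2 * ‖R z u‖ ^ 2 = y * (⟪u, R z u⟫_ℂ).im := by
      rw [← hG]
      ring
    rw [h9]
    ring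
  obtain ⟨-, h10, h11⟩ := DyCheb_int (m := m) (E := v) hy0
  rw [hm z hz0, h10] at h6
  -- the comparison
  set A : Set ℝ := {s : ℝ | y ≤ |s - v|} with hA
  have hAm : MeasurableSet A := measurableSet_le measurable_const (by fun_prop)
  have hmr : m.real Set.univ = 1 := by
    rw [Measure.real, hm1]
    rfl
  have h12 : ∫ s : ℝ, y * ((v - s) ^ 2 + y ^ 2)⁻¹ * y ∂m ≤
      ∫ s : ℝ, (1 - A.indicator (fun _ => (1 / 2 : ℝ)) s) ∂m := by
    refine integral_mono (h11.mul_const y)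
      ((integrable_const _).sub ((integrable_const _).indicator hAm)) fun s => ?_
    have hpos : 0 < (v - s) ^ 2 + y ^ 2 := by positivity
    by_cases hs : s ∈ A
    · rw [Set.indicator_of_mem hs]
      have hs' : y ≤ |s - v| := hs
      have h13 : y ^ 2 ≤ (v - s) ^ 2 := by
        have := pow_le_pow_left₀ hy0.le hs' 2
        rw [sq_abs] at this
        nlinarith
      show y * ((v - s) ^ 2 + y ^ 2)⁻¹ * y ≤ 1 - 1 / 2
      rw [show y * ((v - s) ^ 2 + y ^ 2)⁻¹ * y = y ^ 2 / ((v - s) ^ 2 + y ^ 2) by ring,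
        div_le_iff₀ hpos]
      linarith
    · rw [Set.indicator_of_notMem hs]
      show y * ((v - s) ^ 2 + y ^ 2)⁻¹ * y ≤ 1 - 0
      rw [show y * ((v - s) ^ 2 + y ^ 2)⁻¹ * y = y ^ 2 / ((v - s) ^ 2 + y ^ 2) by ring,
        div_le_iff₀ hpos]
      nlinarith [sq_nonneg (v - s)]
  rw [integral_mul_const, integral_sub (integrable_const _) ((integrable_const _).indicator hAm),
    integral_const, hmr, integral_indicator_const _ hAm] at h12
  simp only [smul_eq_mul, mul_one] at h12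
  have h14 : ‖R z χ‖ ^ 2 ≤ (‖χ‖ / y) ^ 2 := pow_le_pow_left₀ (norm_nonneg _) h2 2
  have h15 : m.real A ≤ 8 * ‖χ‖ ^ 2 / D ^ 2 := by
    have h16 : (‖χ‖ / y) ^ 2 = 4 * ‖χ‖ ^ 2 / D ^ 2 := by
      rw [hy]
      field_simp
      ring
    rw [h16] at h14
    have : 8 * ‖χ‖ ^ 2 / D ^ 2 = 2 * (4 * ‖χ‖ ^ 2 / D ^ 2) := by ring
    rw [this]
    linarith
  rw [← ENNReal.ofReal_toReal (measure_ne_top m A)]
  exact ENNReal.ofReal_le_ofReal h15

theorem cheb {ι : Type} {R : ℂ → LL ι →L[ℂ] LL ι} (hR : RF R) (a : ι) (v : ℝ) (χ : LL ι)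
    (hχ : ∀ z : ℂ, z.im ≠ 0 → R z χ = dv a + (z - v) • R z (dv a)) {D η : ℝ} (hD : 0 < D)
    (hη : 0 < η) :
    ∫⁻ E in {E : ℝ | D ≤ |E - v|}, ENNReal.ofReal (η / Real.pi * ‖R ⟨E, η⟩ (dv a)‖ ^ 2) ≤
      ENNReal.ofReal (8 * ‖χ‖ ^ 2 / D ^ 2 + 3 * η / D) := by
  obtain ⟨m, hfin, hm, hm1⟩ := hR.sp (dv a)
  rw [DyCheb_norm_dv, one_pow, ENNReal.ofReal_one] at hm1
  set B : Set ℝ := {E : ℝ | D ≤ |E - v|} with hB
  have hBm : MeasurableSet B := measurableSet_le measurable_const (by fun_prop)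
  set A : Set ℝ := {s : ℝ | D / 2 ≤ |s - v|} with hA
  have hAm : MeasurableSet A := measurableSet_le measurable_const (by fun_prop)
  set γ : NNReal := ⟨η, hη.le⟩ with hγ
  have hγ0 : γ ≠ 0 := by
    intro h
    have := congrArg NNReal.toReal h
    exact hη.ne' this
  simp_rw [DyCheb_dens hR (dv a) hm hη]
  rw [lintegral_lintegral_swap ((DyCheb_meas γ).aemeasurable)]
  have key : ∀ s : ℝ, ∫⁻ E in B, cauchyPDF s γ E ≤
      A.indicator (fun _ => (1 : ENNReal)) s + ENNReal.ofReal (3 * η / D) := by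
    intro s
    by_cases hs : s ∈ A
    · rw [Set.indicator_of_mem hs]
      calc _ ≤ ∫⁻ E, cauchyPDF s γ E := setLIntegral_le_lintegral _ _
        _ = 1 := lintegral_cauchyPDF_eq_one s hγ0
        _ ≤ _ := le_self_add
    · rw [Set.indicator_of_notMem hs, zero_add]
      have hs' : |s - v| < D / 2 := not_le.1 hs
      have hpi := Real.pi_gt_three
      calc ∫⁻ E in B, cauchyPDF s γ E
          ≤ ∫⁻ E in B, ENNReal.ofReal (4 * η / Real.pi * ((E - v) ^ 2)⁻¹) := by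
            refine setLIntegral_mono (by fun_prop) fun E hE => ?_
            have hE' : D ≤ |E - v| := hE
            rw [cauchyPDF]
            refine ENNReal.ofReal_le_ofReal ?_
            show Real.pi⁻¹ * η * ((E - s) ^ 2 + η ^ 2)⁻¹ ≤ _
            have hEv : 0 < |E - v| := lt_of_lt_of_le hD hE'
            have h1 : |E - v| / 2 ≤ |E - s| := by
              have := abs_sub_abs_le_abs_sub (E - v) (s - v)
              rw [show E - v - (s - v) = E - s by ring] at this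
              linarith
            have h2 : (E - v) ^ 2 / 4 ≤ (E - s) ^ 2 + η ^ 2 := by
              have h3 := pow_le_pow_left₀ (by positivity) h1 2
              rw [sq_abs, div_pow, sq_abs] at h3
              nlinarith [sq_nonneg η]
            have h4 : 0 < (E - v) ^ 2 := by
              rw [← sq_abs]
              positivity
            have h5 : ((E - s) ^ 2 + η ^ 2)⁻¹ ≤ ((E - v) ^ 2 / 4)⁻¹ :=
              inv_anti₀ (by positivity) h2
            calc Real.pi⁻¹ * η * ((E - s) ^ 2 + η ^ 2)⁻¹ ≤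
                Real.pi⁻¹ * η * ((E - v) ^ 2 / 4)⁻¹ :=
                  mul_le_mul_of_nonneg_left h5 (by positivity)
              _ = 4 * η / Real.pi * ((E - v) ^ 2)⁻¹ := by
                  rw [inv_div]
                  field_simp
        _ ≤ ENNReal.ofReal (2 * (4 * η / Real.pi) / D) := DyCheb_tail v hD (by positivity)
        _ ≤ ENNReal.ofReal (3 * η / D) := by
            refine ENNReal.ofReal_le_ofReal ?_
            apply div_le_div_of_nonneg_right _ hD.le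
            rw [← mul_div_assoc, div_le_iff₀ Real.pi_pos]
            nlinarith
  calc ∫⁻ s, (∫⁻ E in B, cauchyPDF s γ E) ∂m
      ≤ ∫⁻ s, (A.indicator (fun _ => (1 : ENNReal)) s + ENNReal.ofReal (3 * η / D)) ∂m :=
        lintegral_mono key
    _ = m A + ENNReal.ofReal (3 * η / D) := by
        rw [lintegral_add_right _ measurable_const, lintegral_indicator_const hAm,
          lintegral_const, hm1, one_mul, mul_one]
    _ ≤ ENNReal.ofReal (8 * ‖χ‖ ^ 2 / D ^ 2) + ENNReal.ofReal (3 * η / D) := by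
        gcongr
        exact DyCheb_mass hR a v χ hχ hm hm1 hD
    _ = _ := (ENNReal.ofReal_add (by positivity) (by positivity)).symm

/-- the total mass of the energy integral -/
theorem tot {ι : Type} {R : ℂ → LL ι →L[ℂ] LL ι} (hR : RF R) (a : ι) {η : ℝ} (hη : 0 < η) :
    ∫⁻ E : ℝ, ENNReal.ofReal (η / Real.pi * ‖R ⟨E, η⟩ (dv a)‖ ^ 2) = 1 := by
  obtain ⟨m, hfin, hm, hm1⟩ := hR.sp (dv a)
  rw [DyCheb_norm_dv, one_pow, ENNReal.ofReal_one] at hm1
  set γ : NNReal := ⟨η, hη.le⟩ with hγ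
  have hγ0 : γ ≠ 0 := by
    intro h
    have := congrArg NNReal.toReal h
    exact hη.ne' this
  simp_rw [DyCheb_dens hR (dv a) hm hη]
  rw [lintegral_lintegral_swap ((DyCheb_meas γ).aemeasurable)]
  simp_rw [← hγ, lintegral_cauchyPDF_eq_one _ hγ0]
  rw [lintegral_const, hm1, one_mul]

end Pool.Agent.H989.DY
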