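import Pool.Agent.H989.DY.Defs

/-!
# DyWin: from the energy scale `η₀` to all smaller `η`

Abbreviations: `z = E + i η`, `z₀ = E + i η₀`, `w = R z (dv a)`, `g_x = R z₀ (dv x)`,
`τ(E) = ∑_{x ∈ B} η₀ (η₀ ‖g_x‖²)`, `m_x` the spectral measure of `dv x` (`RF.sp`, total mass `1`),
`P_η(t) = η / (t² + η²)`.

(0) `η ‖R(E + iη) (dv x)‖² = Im ⟪dv x, R z (dv x)⟫ = ∫ P_η(s - E) dm_x(s)`: the first equality from `RF.ad`, `RF.id`
    (`⟪R z u, R z u⟫ = ⟪u, R(z̄) R z u⟫ = ⟪u, (R z - R z̄) u⟫ / (z - z̄)`), the second from `RF.sp` (imaginary part of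
    the integral). In particular `E ↦ ‖R z (dv x)‖²` is continuous (also norm continuity of `z ↦ R z u` from `id`, `nb`).
(1) `w = R z₀ (dv a + (z - z₀) • w)` (`RF.id` with `z₀, z`: `R z₀ u - R z u = (z₀ - z) R z₀ (R z u)`), so by `RF.ad`
    `w x = ⟪dv x, R z₀ w'⟫ = ⟪R z̄₀ (dv x), w'⟫`, `w' = dv a + (z - z₀) w`, hence
    `‖w x‖² ≤ ‖R z̄₀ (dv x)‖² ‖w'‖² = ‖g_x‖² ‖w'‖² ≤ 2 ‖g_x‖² (1 + η₀² ‖w‖²)` (`‖R z̄₀ u‖ = ‖R z₀ u‖` from `ad` and `id`: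
    both squares equal `⟪u, R z̄₀ R z₀ u⟫ = ⟪u, R z₀ R z̄₀ u⟫`; `|z - z₀| = η₀ - η ≤ η₀`).
(2) Sum over `x ∈ B`, times `η/π`: `(η/π) ∑_B ‖w x‖² ≤ (2 η/π) ∑_B ‖g_x‖² + (2/π) τ(E) · η ‖w‖²`, and also
    `(η/π) ∑_B ‖w x‖² ≤ (1/π) η ‖w‖²`. Use the first where `τ(E) ≤ κ`, the second where `τ(E) > κ`. Integrals over all `E`:
    `∫ η₀ ‖g_x‖² dE = π`, `∫ η ‖w‖² dE = π` (Fubini and `∫ P_η = π`; in `ℝ≥0∞`, `≤` is enough). So
    `LHS ≤ 2 (η/η₀) |B| + 2 κ + (1/π) ∫_{[E₁,E₂], τ(E) > κ} η ‖w‖² dE`.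
(3) Harnack: `|E' - E| ≤ η₀` implies `P_η₀(s - E) ≤ 3 P_η₀(s - E')` (`(s-E')² + η₀² ≤ 2 (s-E)² + 3 η₀²`), so
    `τ(E) ≤ 3 τ(E')`: if `τ(E) > κ` then `τ(E') > κ/3` for all `|E' - E| ≤ η₀`.
(4) `(1/(2η₀)) ∫_{|E - E'| ≤ η₀} P_η(s - E) dE ≤ 8 P_η₀(s - E')`, `η ≤ η₀`: if `|s - E'| ≥ 2 η₀` then
    `|s - E| ≥ |s - E'|/2` and `P_η(s - E) ≤ 4 η₀/(s-E')² ≤ 5 P_η₀(s - E')`; if `|s - E'| < 2 η₀` the left side is at most
    `π/(2 η₀)` and `P_η₀(s - E') ≥ 1/(5 η₀)`.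
(5) Tonelli: `∫_{[E₁,E₂]} 1[τ(E) > κ] f_η(E) dE = ∫_{[E₁,E₂]} 1[τ(E) > κ] f_η(E) (1/(2η₀)) ∫_{|E'-E| ≤ η₀} dE' dE
    ≤ ∫_{[E₁-η₀, E₂+η₀]} 1[τ(E') > κ/3] (1/(2η₀)) ∫_{|E-E'| ≤ η₀} f_η(E) dE dE' ≤ 8 ∫ 1[τ(E') > κ/3] f_η₀(E') dE'`,
    `f_η(E) = η ‖R(E+iη) (dv a)‖² = ∫ P_η(s - E) dm_a(s)`; and `8/π ≤ 3`.
-/

open MeasureTheory
open scoped InnerProductSpace ENNReal

namespace Pool.Agent.H989.DY

/-- the Poisson kernel -/
noncomputable def DyWin_P (η t : ℝ) : ℝ := η / (t ^ 2 + η ^ 2)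

theorem DyWin_P_nonneg {η : ℝ} (hη : 0 < η) (t : ℝ) : 0 ≤ DyWin_P η t := by
  unfold DyWin_P
  positivity

theorem DyWin_P_cont {η : ℝ} (hη : 0 < η) : Continuous (DyWin_P η) := by
  unfold DyWin_P
  refine continuous_const.div (by fun_prop) fun t => ?_
  positivity

theorem DyWin_P_meas {η : ℝ} (hη : 0 < η) :
    Measurable fun p : ℝ × ℝ => ENNReal.ofReal (DyWin_P η (p.1 - p.2)) :=
  ((DyWin_P_cont hη).measurable.comp (measurable_fst.sub measurable_snd)).ennreal_ofReal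

/-- the integral of the Poisson kernel -/
theorem DyWin_P_int {η : ℝ} (hη : 0 < η) (s : ℝ) :
    ∫⁻ E, ENNReal.ofReal (DyWin_P η (s - E)) = ENNReal.ofReal Real.pi := by
  have e : ∀ E, DyWin_P η (s - E) = η⁻¹ * (1 + ((E - s) / η) ^ 2)⁻¹ := by
    intro E
    unfold DyWin_P
    field_simp
    ring
  have hint0 : Integrable fun x : ℝ => (1 + (x / η) ^ 2)⁻¹ :=
    (integrable_inv_one_add_sq).comp_div hη.ne'
  have hint : Integrable fun E : ℝ => DyWin_P η (s - E) := by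
    simp only [e]
    exact (hint0.comp_sub_right s).const_mul _
  rw [← ofReal_integral_eq_lintegral_ofReal hint
    (Filter.Eventually.of_forall fun E => DyWin_P_nonneg hη _)]
  congr 1
  simp only [e]
  rw [integral_const_mul, integral_sub_right_eq_self (fun x : ℝ => (1 + (x / η) ^ 2)⁻¹) s,
    Measure.integral_comp_div (fun x : ℝ => (1 + x ^ 2)⁻¹) η, integral_univ_inv_one_add_sq,
    abs_of_pos hη, smul_eq_mul]
  field_simp

section

variable {ι : Type} {R : ℂ → LL ι →L[ℂ] LL ι}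

theorem DyWin_inner (x : ι) (u : LL ι) : ⟪(dv x : LL ι), u⟫_ℂ = u x := by
  classical
  unfold dv
  rw [lp.inner_single_left]
  simp

theorem DyWin_norm_dv (x : ι) : ‖(dv x : LL ι)‖ = 1 := by
  classical
  unfold dv
  rw [lp.norm_single (by norm_num)]
  simp

theorem DyWin_bessel (u : LL ι) (B : Finset ι) : ∑ x ∈ B, ‖u x‖ ^ 2 ≤ ‖u‖ ^ 2 := by
  have h := lp.sum_rpow_le_norm_rpow (p := 2) (by norm_num) u B
  simpa using h

/-- `R z` and `R z̄` commute on vectors -/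
theorem DyWin_comm (hR : RF R) {z : ℂ} (hz : z.im ≠ 0) (u : LL ι) :
    R z (R (starRingEnd ℂ z) u) = R (starRingEnd ℂ z) (R z u) := by
  have hz' : (starRingEnd ℂ z).im ≠ 0 := by simpa using hz
  have h1 := hR.id z (starRingEnd ℂ z) hz hz' u
  have h2 := hR.id (starRingEnd ℂ z) z hz' hz u
  have h3 : (z - starRingEnd ℂ z) • R z (R (starRingEnd ℂ z) u) =
      (z - starRingEnd ℂ z) • R (starRingEnd ℂ z) (R z u) := by
    rw [← h1]
    have h4 : (z - starRingEnd ℂ z) • R (starRingEnd ℂ z) (R z u) =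
        -((starRingEnd ℂ z - z) • R (starRingEnd ℂ z) (R z u)) := by
      rw [← neg_smul, neg_sub]
    rw [h4, ← h2, neg_sub]
  have h5 : z - starRingEnd ℂ z ≠ 0 := by
    intro h
    apply hz
    have := congrArg Complex.im h
    simp at this
    linarith
  exact smul_right_injective _ h5 h3

theorem DyWin_sq (hR : RF R) {z : ℂ} (hz : z.im ≠ 0) (u : LL ι) :
    ((‖R z u‖ ^ 2 : ℝ) : ℂ) = ⟪u, R (starRingEnd ℂ z) (R z u)⟫_ℂ := by
  rw [← hR.ad z hz, inner_self_eq_norm_sq_to_K]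
  push_cast
  rfl

theorem DyWin_norm_conj (hR : RF R) {z : ℂ} (hz : z.im ≠ 0) (u : LL ι) :
    ‖R (starRingEnd ℂ z) u‖ = ‖R z u‖ := by
  have hz' : (starRingEnd ℂ z).im ≠ 0 := by simpa using hz
  have h1 := DyWin_sq hR hz u
  have h2 := DyWin_sq hR hz' u
  rw [Complex.conj_conj, DyWin_comm hR hz, ← h1] at h2
  have h3 : ‖R (starRingEnd ℂ z) u‖ ^ 2 = ‖R z u‖ ^ 2 := by exact_mod_cast h2
  exact (sq_eq_sq₀ (norm_nonneg _) (norm_nonneg _)).1 h3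

/-- (0) `η ‖R z u‖² = Im ⟪u, R z u⟫` -/
theorem DyWin_im (hR : RF R) {z : ℂ} (hz : z.im ≠ 0) (u : LL ι) :
    z.im * ‖R z u‖ ^ 2 = (⟪u, R z u⟫_ℂ).im := by
  have hz' : (starRingEnd ℂ z).im ≠ 0 := by simpa using hz
  have h1 := hR.id (starRingEnd ℂ z) z hz' hz u
  have h2 : ⟪u, R (starRingEnd ℂ z) u⟫_ℂ - ⟪u, R z u⟫_ℂ =
      (starRingEnd ℂ z - z) * ((‖R z u‖ ^ 2 : ℝ) : ℂ) := by
    rw [DyWin_sq hR hz, ← inner_sub_right, h1, inner_smul_right]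
  have h3 : ⟪u, R (starRingEnd ℂ z) u⟫_ℂ = starRingEnd ℂ ⟪u, R z u⟫_ℂ := by
    rw [← hR.ad z hz, inner_conj_symm]
  rw [h3] at h2
  have h4 := congrArg Complex.im h2
  rw [Complex.sub_im, Complex.conj_im, Complex.mul_im, Complex.sub_im, Complex.conj_im,
    Complex.ofReal_re, Complex.ofReal_im, mul_zero, zero_add] at h4
  linarith

/-- (0) the spectral representation -/
theorem DyWin_sp (hR : RF R) (u : LL ι) : ∃ m : Measure ℝ, IsFiniteMeasure m ∧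
    m Set.univ = ENNReal.ofReal (‖u‖ ^ 2) ∧ ∀ E η : ℝ, 0 < η →
      ENNReal.ofReal (η * ‖R ⟨E, η⟩ u‖ ^ 2) = ∫⁻ s, ENNReal.ofReal (DyWin_P η (s - E)) ∂m := by
  obtain ⟨m, hm, h1, h2⟩ := hR.sp u
  refine ⟨m, hm, h2, fun E η hη => ?_⟩
  have hz : (⟨E, η⟩ : ℂ).im ≠ 0 := hη.ne'
  have h3 := DyWin_im hR hz u
  rw [h1 _ hz] at h3
  have hint : Integrable (fun x : ℝ => ((x : ℂ) - ⟨E, η⟩)⁻¹) m := by
    refine (integrable_const (1 / η)).mono' ?_ ?_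
    · have : Measurable fun x : ℝ => ((x : ℂ) - ⟨E, η⟩)⁻¹ :=
        (Complex.measurable_ofReal.sub measurable_const).inv
      exact this.aestronglyMeasurable
    · refine Filter.Eventually.of_forall fun x => ?_
      rw [norm_inv, one_div]
      refine inv_anti₀ hη ?_
      have := Complex.abs_im_le_norm ((x : ℂ) - ⟨E, η⟩)
      rw [Complex.sub_im, Complex.ofReal_im, zero_sub, abs_neg, abs_of_pos hη] at this
      exact this
  have him : ∀ x : ℝ, (((x : ℂ) - ⟨E, η⟩)⁻¹).im = DyWin_P η (x - E) := by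
    intro x
    rw [Complex.inv_im, Complex.normSq_apply]
    unfold DyWin_P
    simp only [Complex.sub_im, Complex.sub_re, Complex.ofReal_re, Complex.ofReal_im]
    congr 1
    · ring
    · ring
  have h4 : (∫ x : ℝ, ((x : ℂ) - ⟨E, η⟩)⁻¹ ∂m).im = ∫ x : ℝ, DyWin_P η (x - E) ∂m := by
    have h5 := integral_im hint
    simp only [RCLike.im_to_complex, him] at h5
    exact h5.symm
  rw [h4] at h3
  have h6 : Integrable (fun x : ℝ => DyWin_P η (x - E)) m := by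
    have h7 := hint.im
    simp only [RCLike.im_to_complex, him] at h7
    exact h7
  have h8 : η * ‖R ⟨E, η⟩ u‖ ^ 2 = ∫ x : ℝ, DyWin_P η (x - E) ∂m := h3
  rw [h8, ofReal_integral_eq_lintegral_ofReal h6
    (Filter.Eventually.of_forall fun x => DyWin_P_nonneg hη _)]

theorem DyWin_meas (hR : RF R) (u : LL ι) {η : ℝ} (hη : 0 < η) :
    Measurable fun E : ℝ => η * ‖R ⟨E, η⟩ u‖ ^ 2 := by
  obtain ⟨m, hm, -, h2⟩ := DyWin_sp hR u
  have h3 : Measurable fun E : ℝ => ENNReal.ofReal (η * ‖R ⟨E, η⟩ u‖ ^ 2) := by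
    simp only [fun E => h2 E η hη]
    exact (DyWin_P_meas hη).lintegral_prod_left'
  have h4 : (fun E : ℝ => η * ‖R ⟨E, η⟩ u‖ ^ 2) =
      fun E : ℝ => (ENNReal.ofReal (η * ‖R ⟨E, η⟩ u‖ ^ 2)).toReal := by
    funext E
    rw [ENNReal.toReal_ofReal (by positivity)]
  rw [h4]
  exact h3.ennreal_toReal

theorem DyWin_total (hR : RF R) (u : LL ι) {η : ℝ} (hη : 0 < η) :
    ∫⁻ E : ℝ, ENNReal.ofReal (η * ‖R ⟨E, η⟩ u‖ ^ 2) = ENNReal.ofReal (Real.pi * ‖u‖ ^ 2) := by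
  obtain ⟨m, hm, h1, h2⟩ := DyWin_sp hR u
  simp only [fun E => h2 E η hη]
  rw [lintegral_lintegral_swap (f := fun E s => ENNReal.ofReal (DyWin_P η (s - E)))
    ((DyWin_P_meas hη).comp measurable_swap).aemeasurable]
  simp only [DyWin_P_int hη]
  rw [lintegral_const, h1, ← ENNReal.ofReal_mul Real.pi_pos.le]

/-- (3) Harnack -/
theorem DyWin_harnack (hR : RF R) (u : LL ι) {η E E' : ℝ} (hη : 0 < η) (h : |E' - E| ≤ η) :
    η * ‖R ⟨E, η⟩ u‖ ^ 2 ≤ 3 * (η * ‖R ⟨E', η⟩ u‖ ^ 2) := by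
  obtain ⟨m, hm, h1, h2⟩ := DyWin_sp hR u
  have e : ENNReal.ofReal (3 * (η * ‖R ⟨E', η⟩ u‖ ^ 2)) =
      ENNReal.ofReal 3 * ENNReal.ofReal (η * ‖R ⟨E', η⟩ u‖ ^ 2) :=
    ENNReal.ofReal_mul (by norm_num)
  rw [← ENNReal.ofReal_le_ofReal_iff (by positivity), e, h2 E η hη,
    h2 E' η hη, ← lintegral_const_mul' _ _ ENNReal.ofReal_ne_top]
  refine lintegral_mono fun s => ?_
  rw [← ENNReal.ofReal_mul (by norm_num)]
  refine ENNReal.ofReal_le_ofReal ?_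
  unfold DyWin_P
  rw [← mul_div_assoc, div_le_div_iff₀ (by positivity) (by positivity)]
  have h3 : (E' - E) ^ 2 ≤ η ^ 2 := sq_le_sq' (abs_le.1 h).1 (abs_le.1 h).2
  have h4 : (s - E') ^ 2 + η ^ 2 ≤ 3 * ((s - E) ^ 2 + η ^ 2) := by
    nlinarith [sq_nonneg ((s - E) + (E' - E))]
  nlinarith

/-- (4) -/
theorem DyWin_P_local {η η₀ : ℝ} (hη : 0 < η) (hη₀ : η ≤ η₀) (s E' : ℝ) :
    ∫⁻ E in Set.Icc (E' - η₀) (E' + η₀), ENNReal.ofReal (DyWin_P η (s - E)) ≤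
      ENNReal.ofReal (16 * η₀ * DyWin_P η₀ (s - E')) := by
  have h0 : 0 < η₀ := hη.trans_le hη₀
  rcases le_or_gt (2 * η₀) |s - E'| with h | h
  · have h1 : ∀ E ∈ Set.Icc (E' - η₀) (E' + η₀),
        ENNReal.ofReal (DyWin_P η (s - E)) ≤ ENNReal.ofReal (5 * DyWin_P η₀ (s - E')) := by
      intro E hE
      refine ENNReal.ofReal_le_ofReal ?_
      have h2 : |E - E'| ≤ η₀ := abs_le.2 ⟨by linarith [hE.1], by linarith [hE.2]⟩
      have h3 : |s - E'| / 2 ≤ |s - E| := by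
        have := abs_sub_abs_le_abs_sub (s - E') (E - E')
        have e : s - E' - (E - E') = s - E := by ring
        rw [e] at this
        linarith
      have h4 : (s - E') ^ 2 / 4 ≤ (s - E) ^ 2 := by
        rw [← sq_abs (s - E'), ← sq_abs (s - E)]
        have := abs_nonneg (s - E')
        nlinarith
      have h5 : 4 * η₀ ^ 2 ≤ (s - E') ^ 2 := by
        rw [← sq_abs (s - E')]
        nlinarith
      unfold DyWin_P
      rw [← mul_div_assoc, div_le_div_iff₀ (by positivity) (by positivity)]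
      have h6 : (s - E') ^ 2 + η₀ ^ 2 ≤ 5 * (s - E) ^ 2 := by nlinarith
      have h7 : 0 ≤ (s - E') ^ 2 + η₀ ^ 2 := by positivity
      calc η * ((s - E') ^ 2 + η₀ ^ 2) ≤ η₀ * ((s - E') ^ 2 + η₀ ^ 2) :=
            mul_le_mul_of_nonneg_right hη₀ h7
        _ ≤ η₀ * (5 * (s - E) ^ 2) := mul_le_mul_of_nonneg_left h6 h0.le
        _ ≤ 5 * η₀ * ((s - E) ^ 2 + η ^ 2) := by nlinarith [mul_nonneg h0.le (sq_nonneg η)]
    calc ∫⁻ E in Set.Icc (E' - η₀) (E' + η₀), ENNReal.ofReal (DyWin_P η (s - E))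
        ≤ ∫⁻ _ in Set.Icc (E' - η₀) (E' + η₀), ENNReal.ofReal (5 * DyWin_P η₀ (s - E')) :=
          setLIntegral_mono measurable_const h1
      _ = ENNReal.ofReal (5 * DyWin_P η₀ (s - E')) * ENNReal.ofReal (2 * η₀) := by
          rw [setLIntegral_const, Real.volume_Icc]
          congr 2
          ring
      _ ≤ ENNReal.ofReal (16 * η₀ * DyWin_P η₀ (s - E')) := by
          have hP := DyWin_P_nonneg h0 (s - E')
          rw [← ENNReal.ofReal_mul (by positivity)]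
          refine ENNReal.ofReal_le_ofReal ?_
          nlinarith [mul_nonneg h0.le hP]
  · calc ∫⁻ E in Set.Icc (E' - η₀) (E' + η₀), ENNReal.ofReal (DyWin_P η (s - E))
        ≤ ∫⁻ E, ENNReal.ofReal (DyWin_P η (s - E)) := setLIntegral_le_lintegral _ _
      _ = ENNReal.ofReal Real.pi := DyWin_P_int hη s
      _ ≤ ENNReal.ofReal (16 * η₀ * DyWin_P η₀ (s - E')) := by
          refine ENNReal.ofReal_le_ofReal ?_
          have h2 : (s - E') ^ 2 ≤ 4 * η₀ ^ 2 := by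
            rw [← sq_abs (s - E')]
            have := abs_nonneg (s - E')
            nlinarith
          unfold DyWin_P
          rw [← mul_div_assoc, le_div_iff₀ (by positivity)]
          have h3 := Real.pi_lt_d2
          have h4 : Real.pi * ((s - E') ^ 2 + η₀ ^ 2) ≤ Real.pi * (5 * η₀ ^ 2) :=
            mul_le_mul_of_nonneg_left (by linarith) Real.pi_pos.le
          nlinarith [sq_nonneg η₀]

/-- (4) for the resolvent -/
theorem DyWin_local (hR : RF R) (u : LL ι) {η η₀ : ℝ} (hη : 0 < η) (hη₀ : η ≤ η₀) (E' : ℝ) :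
    ∫⁻ E in Set.Icc (E' - η₀) (E' + η₀), ENNReal.ofReal (η * ‖R ⟨E, η⟩ u‖ ^ 2) ≤
      ENNReal.ofReal (16 * η₀) * ENNReal.ofReal (η₀ * ‖R ⟨E', η₀⟩ u‖ ^ 2) := by
  have h0 : 0 < η₀ := hη.trans_le hη₀
  obtain ⟨m, hm, h1, h2⟩ := DyWin_sp hR u
  simp only [fun E => h2 E η hη]
  rw [h2 E' η₀ h0, ← lintegral_const_mul' _ _ ENNReal.ofReal_ne_top,
    lintegral_lintegral_swap (f := fun E s => ENNReal.ofReal (DyWin_P η (s - E)))
      ((DyWin_P_meas hη).comp measurable_swap).aemeasurable]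
  refine lintegral_mono fun s => ?_
  rw [← ENNReal.ofReal_mul (by positivity)]
  exact DyWin_P_local hη hη₀ s E'

end

/-- (5) Tonelli -/
theorem DyWin_tonelli {f g : ℝ → ℝ≥0∞} (hf : Measurable f) {A A' : Set ℝ}
    (hA : MeasurableSet A) (hA' : MeasurableSet A') {r C : ℝ}
    (h1 : ∀ E ∈ A, ∀ E', |E' - E| ≤ r → E' ∈ A')
    (h2 : ∀ E', ∫⁻ E in Set.Icc (E' - r) (E' + r), f E ≤ ENNReal.ofReal C * g E') :
    ENNReal.ofReal (2 * r) * ∫⁻ E in A, f E ≤ ENNReal.ofReal C * ∫⁻ E' in A', g E' := by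
  classical
  -- the kernel
  obtain ⟨k, hk⟩ : ∃ k : ℝ × ℝ → ℝ≥0∞, k = {p : ℝ × ℝ | |p.2 - p.1| ≤ r}.indicator 1 :=
    ⟨_, rfl⟩
  have hkm : Measurable k := by
    rw [hk]
    refine measurable_one.indicator ?_
    exact measurableSet_le (by fun_prop) measurable_const
  have hkE : ∀ E, Measurable fun E' => k (E, E') := fun E => hkm.comp measurable_prodMk_left
  have hkE' : ∀ E', Measurable fun E => k (E, E') := fun E' => hkm.comp measurable_prodMk_right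
  have hk1 : ∀ E, ∫⁻ E', k (E, E') = ENNReal.ofReal (2 * r) := by
    intro E
    have e : ∀ E', k (E, E') = (Set.Icc (E - r) (E + r)).indicator 1 E' := by
      intro E'
      rw [hk]
      by_cases h : |E' - E| ≤ r
      · rw [Set.indicator_of_mem (show (E, E') ∈ {p : ℝ × ℝ | |p.2 - p.1| ≤ r} from h),
          Set.indicator_of_mem (show E' ∈ Set.Icc (E - r) (E + r) from
            ⟨by linarith [(abs_le.1 h).1], by linarith [(abs_le.1 h).2]⟩)]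
        rfl
      · rw [Set.indicator_of_notMem (show (E, E') ∉ {p : ℝ × ℝ | |p.2 - p.1| ≤ r} from h),
          Set.indicator_of_notMem (show E' ∉ Set.Icc (E - r) (E + r) from fun h' =>
            h (abs_le.2 ⟨by linarith [h'.1], by linarith [h'.2]⟩))]
    simp only [e]
    rw [lintegral_indicator_one measurableSet_Icc, Real.volume_Icc]
    congr 1
    ring
  have hk2 : ∀ E', ∫⁻ E, f E * k (E, E') = ∫⁻ E in Set.Icc (E' - r) (E' + r), f E := by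
    intro E'
    rw [← lintegral_indicator measurableSet_Icc]
    refine lintegral_congr fun E => ?_
    rw [hk]
    by_cases h : |E' - E| ≤ r
    · rw [Set.indicator_of_mem (show (E, E') ∈ {p : ℝ × ℝ | |p.2 - p.1| ≤ r} from h),
        Set.indicator_of_mem (show E ∈ Set.Icc (E' - r) (E' + r) from
          ⟨by linarith [(abs_le.1 h).2], by linarith [(abs_le.1 h).1]⟩)]
      simp
    · rw [Set.indicator_of_notMem (show (E, E') ∉ {p : ℝ × ℝ | |p.2 - p.1| ≤ r} from h),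
        Set.indicator_of_notMem (show E ∉ Set.Icc (E' - r) (E' + r) from fun h' =>
          h (abs_le.2 ⟨by linarith [h'.2], by linarith [h'.1]⟩)), mul_zero]
  have hm1 : Measurable fun p : ℝ × ℝ => A'.indicator 1 p.2 * (f p.1 * k p) :=
    ((measurable_one.indicator hA').comp measurable_snd).mul ((hf.comp measurable_fst).mul hkm)
  calc ENNReal.ofReal (2 * r) * ∫⁻ E in A, f E
      = ∫⁻ E in A, f E * ∫⁻ E', k (E, E') := by
        rw [← lintegral_const_mul' _ _ ENNReal.ofReal_ne_top]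
        refine lintegral_congr fun E => ?_
        rw [hk1, mul_comm]
    _ = ∫⁻ E in A, ∫⁻ E', f E * k (E, E') := by
        refine lintegral_congr fun E => ?_
        rw [lintegral_const_mul _ (hkE E)]
    _ ≤ ∫⁻ E in A, ∫⁻ E', A'.indicator 1 E' * (f E * k (E, E')) := by
        refine setLIntegral_mono' hA fun E hE => lintegral_mono fun E' => ?_
        by_cases h : |E' - E| ≤ r
        · rw [Set.indicator_of_mem (h1 E hE E' h)]
          simp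
        · rw [hk, Set.indicator_of_notMem (show (E, E') ∉ {p : ℝ × ℝ | |p.2 - p.1| ≤ r} from h),
            mul_zero]
          exact bot_le
    _ ≤ ∫⁻ E, ∫⁻ E', A'.indicator 1 E' * (f E * k (E, E')) := setLIntegral_le_lintegral _ _
    _ = ∫⁻ E', ∫⁻ E, A'.indicator 1 E' * (f E * k (E, E')) :=
        lintegral_lintegral_swap (f := fun E E' => A'.indicator 1 E' * (f E * k (E, E')))
          hm1.aemeasurable
    _ = ∫⁻ E', A'.indicator 1 E' * ∫⁻ E in Set.Icc (E' - r) (E' + r), f E := by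
        refine lintegral_congr fun E' => ?_
        rw [lintegral_const_mul (f := fun E => f E * k (E, E')) _ (hf.mul (hkE' E')), hk2]
    _ ≤ ∫⁻ E', A'.indicator 1 E' * (ENNReal.ofReal C * g E') := by
        refine lintegral_mono fun E' => ?_
        exact mul_le_mul_right (h2 E') _
    _ = ENNReal.ofReal C * ∫⁻ E' in A', g E' := by
        rw [← lintegral_indicator hA', ← lintegral_const_mul' _ _ ENNReal.ofReal_ne_top]
        refine lintegral_congr fun E' => ?_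
        by_cases h : E' ∈ A'
        · rw [Set.indicator_of_mem h, Set.indicator_of_mem h]
          simp
        · rw [Set.indicator_of_notMem h, Set.indicator_of_notMem h]
          simp

theorem DyWin_ite (h : ℝ → ℝ) {τ : ℝ → ℝ} (hτ : Measurable τ) (c : ℝ) (I : Set ℝ) :
    ∫⁻ E in I, ENNReal.ofReal (h E * (if c < τ E then 1 else 0)) =
      ∫⁻ E in {E | c < τ E} ∩ I, ENNReal.ofReal (h E) := by
  have hS : MeasurableSet {E | c < τ E} := measurableSet_lt measurable_const hτ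
  rw [← Measure.restrict_restrict hS, ← lintegral_indicator hS]
  refine lintegral_congr fun E => ?_
  by_cases h1 : c < τ E
  · rw [if_pos h1, Set.indicator_of_mem (show E ∈ {E | c < τ E} from h1), mul_one]
  · rw [if_neg h1, Set.indicator_of_notMem (show E ∉ {E | c < τ E} from h1), mul_zero,
      ENNReal.ofReal_zero]

/-- (1) -/
theorem DyWin_coord {ι : Type} {R : ℂ → LL ι →L[ℂ] LL ι} (hR : RF R) (a x : ι) {η η₀ : ℝ}
    (hη : 0 < η) (hη₀ : η ≤ η₀) (E : ℝ) :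
    ‖R ⟨E, η⟩ (dv a) x‖ ^ 2 ≤ 2 * ‖R ⟨E, η₀⟩ (dv x)‖ ^ 2 * (1 + η₀ ^ 2 * ‖R ⟨E, η⟩ (dv a)‖ ^ 2) := by
  have h0 : 0 < η₀ := hη.trans_le hη₀
  have hz : (⟨E, η⟩ : ℂ).im ≠ 0 := hη.ne'
  have hz₀ : (⟨E, η₀⟩ : ℂ).im ≠ 0 := h0.ne'
  have hz₀' : (starRingEnd ℂ (⟨E, η₀⟩ : ℂ)).im ≠ 0 := by simpa using h0.ne'
  obtain ⟨z, hze⟩ : ∃ z : ℂ, z = ⟨E, η⟩ := ⟨_, rfl⟩
  obtain ⟨z₀, hz₀e⟩ : ∃ z : ℂ, z = ⟨E, η₀⟩ := ⟨_, rfl⟩
  have hd : ‖z - z₀‖ ≤ η₀ := by
    have e : z - z₀ = ((η - η₀ : ℝ) : ℂ) * Complex.I := by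
      rw [hze, hz₀e]
      apply Complex.ext <;> simp
    rw [e, norm_mul, Complex.norm_I, mul_one, Complex.norm_real, Real.norm_eq_abs, abs_le]
    constructor <;> linarith
  rw [← hze] at hz ⊢
  rw [← hz₀e] at hz₀ hz₀' ⊢
  obtain ⟨w, hw⟩ : ∃ w, w = R z (dv a) := ⟨_, rfl⟩
  rw [← hw]
  have h1 := hR.id z₀ z hz₀ hz (dv a)
  rw [← hw] at h1
  have h2 : w = R z₀ (dv a + (z - z₀) • w) := by
    rw [map_add, map_smul]
    have h3 : (z - z₀) • R z₀ w = -((z₀ - z) • R z₀ w) := by rw [← neg_smul, neg_sub]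
    rw [h3, ← h1]
    abel
  have h4 : w x = ⟪R (starRingEnd ℂ z₀) (dv x), dv a + (z - z₀) • w⟫_ℂ := by
    rw [hR.ad _ hz₀', Complex.conj_conj, ← h2, DyWin_inner]
  have h5 : ‖w x‖ ≤ ‖R z₀ (dv x)‖ * (1 + η₀ * ‖w‖) := by
    rw [h4]
    refine (norm_inner_le_norm _ _).trans ?_
    rw [DyWin_norm_conj hR hz₀]
    refine mul_le_mul_of_nonneg_left ?_ (norm_nonneg _)
    refine (norm_add_le _ _).trans ?_
    rw [DyWin_norm_dv, norm_smul]
    have := mul_le_mul_of_nonneg_right hd (norm_nonneg w)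
    linarith
  have h6 : ‖w x‖ ^ 2 ≤ (‖R z₀ (dv x)‖ * (1 + η₀ * ‖w‖)) ^ 2 :=
    pow_le_pow_left₀ (norm_nonneg _) h5 2
  refine h6.trans ?_
  rw [mul_pow]
  have h7 : (1 + η₀ * ‖w‖) ^ 2 ≤ 2 * (1 + η₀ ^ 2 * ‖w‖ ^ 2) := by
    nlinarith [sq_nonneg (1 - η₀ * ‖w‖)]
  calc ‖R z₀ (dv x)‖ ^ 2 * (1 + η₀ * ‖w‖) ^ 2
      ≤ ‖R z₀ (dv x)‖ ^ 2 * (2 * (1 + η₀ ^ 2 * ‖w‖ ^ 2)) :=
        mul_le_mul_of_nonneg_left h7 (sq_nonneg _)
    _ = 2 * ‖R z₀ (dv x)‖ ^ 2 * (1 + η₀ ^ 2 * ‖w‖ ^ 2) := by ring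

theorem win {ι : Type} {R : ℂ → LL ι →L[ℂ] LL ι} (hR : RF R) (a : ι) (B : Finset ι)
    {η η₀ κ : ℝ} (hη : 0 < η) (hη₀ : η ≤ η₀) (hκ : 0 < κ) {E₁ E₂ : ℝ} (h12 : E₁ ≤ E₂) :
    ∫⁻ E in Set.Icc E₁ E₂, ENNReal.ofReal (η / Real.pi * ∑ x ∈ B, ‖R ⟨E, η⟩ (dv a) x‖ ^ 2) ≤
      ENNReal.ofReal (2 * (η / η₀) * B.card + 2 * κ) +
      3 * ∫⁻ E in Set.Icc (E₁ - η₀) (E₂ + η₀), ENNReal.ofReal ((η₀ * ‖R ⟨E, η₀⟩ (dv a)‖ ^ 2) *
        (if κ / 3 < ∑ x ∈ B, η₀ * (η₀ * ‖R ⟨E, η₀⟩ (dv x)‖ ^ 2) then 1 else 0)) := by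
  have h0 : 0 < η₀ := hη.trans_le hη₀
  have hπ := Real.pi_pos
  have hfm := DyWin_meas hR (dv a) hη
  have hgm := DyWin_meas hR (dv a) h0
  obtain ⟨τ, hτ⟩ : ∃ τ : ℝ → ℝ, τ = fun E => ∑ x ∈ B, η₀ * (η₀ * ‖R ⟨E, η₀⟩ (dv x)‖ ^ 2) :=
    ⟨_, rfl⟩
  have hτm : Measurable τ := by
    rw [hτ]
    exact Finset.measurable_fun_sum _ fun x _ => (DyWin_meas hR (dv x) h0).const_mul η₀
  obtain ⟨f, hf⟩ : ∃ f : ℝ → ℝ, f = fun E => η * ‖R ⟨E, η⟩ (dv a)‖ ^ 2 := ⟨_, rfl⟩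
  obtain ⟨g, hg⟩ : ∃ g : ℝ → ℝ, g = fun E => η₀ * ‖R ⟨E, η₀⟩ (dv a)‖ ^ 2 := ⟨_, rfl⟩
  have hf0 : ∀ E, 0 ≤ f E := fun E => by rw [hf]; positivity
  rw [← hf] at hfm
  rw [← hg] at hgm
  -- the pointwise bound
  have hpt : ∀ E : ℝ, η / Real.pi * ∑ x ∈ B, ‖R ⟨E, η⟩ (dv a) x‖ ^ 2 ≤
      2 * η / (Real.pi * η₀) * ∑ x ∈ B, η₀ * ‖R ⟨E, η₀⟩ (dv x)‖ ^ 2 + 2 * κ / Real.pi * f E +
        1 / Real.pi * f E * (if κ < τ E then 1 else 0) := by
    intro E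
    have hG : 0 ≤ ∑ x ∈ B, η₀ * ‖R ⟨E, η₀⟩ (dv x)‖ ^ 2 :=
      Finset.sum_nonneg fun x _ => by positivity
    have hc1 : 0 ≤ 2 * η / (Real.pi * η₀) := by positivity
    by_cases hc : κ < τ E
    · rw [if_pos hc, mul_one]
      have h1 := DyWin_bessel (R ⟨E, η⟩ (dv a)) B
      have h2 : η / Real.pi * ∑ x ∈ B, ‖R ⟨E, η⟩ (dv a) x‖ ^ 2 ≤ 1 / Real.pi * f E := by
        rw [hf]
        calc η / Real.pi * ∑ x ∈ B, ‖R ⟨E, η⟩ (dv a) x‖ ^ 2
            ≤ η / Real.pi * ‖R ⟨E, η⟩ (dv a)‖ ^ 2 :=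
              mul_le_mul_of_nonneg_left h1 (by positivity)
          _ = 1 / Real.pi * (η * ‖R ⟨E, η⟩ (dv a)‖ ^ 2) := by ring
      have h3 := mul_nonneg hc1 hG
      have h4 : 0 ≤ 2 * κ / Real.pi * f E := mul_nonneg (by positivity) (hf0 E)
      linarith
    · rw [if_neg hc, mul_zero, add_zero]
      push Not at hc
      have h1 : ∑ x ∈ B, ‖R ⟨E, η⟩ (dv a) x‖ ^ 2 ≤
          ∑ x ∈ B, 2 * ‖R ⟨E, η₀⟩ (dv x)‖ ^ 2 * (1 + η₀ ^ 2 * ‖R ⟨E, η⟩ (dv a)‖ ^ 2) :=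
        Finset.sum_le_sum fun x _ => DyWin_coord hR a x hη hη₀ E
      have h2 : η / Real.pi * ∑ x ∈ B, 2 * ‖R ⟨E, η₀⟩ (dv x)‖ ^ 2 *
          (1 + η₀ ^ 2 * ‖R ⟨E, η⟩ (dv a)‖ ^ 2) =
          2 * η / (Real.pi * η₀) * ∑ x ∈ B, η₀ * ‖R ⟨E, η₀⟩ (dv x)‖ ^ 2 +
            2 / Real.pi * f E * τ E := by
        rw [hf, hτ]
        simp only [Finset.mul_sum]
        rw [← Finset.sum_add_distrib]
        refine Finset.sum_congr rfl fun x _ => ?_
        field_simp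
      have h3 : η / Real.pi * ∑ x ∈ B, ‖R ⟨E, η⟩ (dv a) x‖ ^ 2 ≤
          η / Real.pi * ∑ x ∈ B, 2 * ‖R ⟨E, η₀⟩ (dv x)‖ ^ 2 *
          (1 + η₀ ^ 2 * ‖R ⟨E, η⟩ (dv a)‖ ^ 2) := mul_le_mul_of_nonneg_left h1 (by positivity)
      have h4 : 2 / Real.pi * f E * τ E ≤ 2 / Real.pi * f E * κ :=
        mul_le_mul_of_nonneg_left hc (mul_nonneg (by positivity) (hf0 E))
      have h5 : 2 / Real.pi * f E * κ = 2 * κ / Real.pi * f E := by ring
      linarith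
  -- the three integrals
  have hI1 : ∫⁻ E in Set.Icc E₁ E₂, ENNReal.ofReal (2 * η / (Real.pi * η₀) *
      ∑ x ∈ B, η₀ * ‖R ⟨E, η₀⟩ (dv x)‖ ^ 2) ≤ ENNReal.ofReal (2 * (η / η₀) * B.card) := by
    refine (setLIntegral_le_lintegral _ _).trans ?_
    have e1 : ∀ E : ℝ, ENNReal.ofReal (2 * η / (Real.pi * η₀) *
        ∑ x ∈ B, η₀ * ‖R ⟨E, η₀⟩ (dv x)‖ ^ 2) = ENNReal.ofReal (2 * η / (Real.pi * η₀)) *
        ∑ x ∈ B, ENNReal.ofReal (η₀ * ‖R ⟨E, η₀⟩ (dv x)‖ ^ 2) := by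
      intro E
      rw [ENNReal.ofReal_mul (by positivity), ENNReal.ofReal_sum_of_nonneg]
      intro x _
      positivity
    simp only [e1]
    rw [lintegral_const_mul' _ _ ENNReal.ofReal_ne_top, lintegral_finsetSum _
      fun x _ => (DyWin_meas hR (dv x) h0).ennreal_ofReal]
    simp only [DyWin_total hR _ h0, DyWin_norm_dv]
    rw [Finset.sum_const, nsmul_eq_mul, ← ENNReal.ofReal_natCast,
      ← ENNReal.ofReal_mul (Nat.cast_nonneg _), ← ENNReal.ofReal_mul (by positivity)]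
    refine ENNReal.ofReal_le_ofReal (le_of_eq ?_)
    field_simp
  have hI2 : ∫⁻ E in Set.Icc E₁ E₂, ENNReal.ofReal (2 * κ / Real.pi * f E) ≤
      ENNReal.ofReal (2 * κ) := by
    refine (setLIntegral_le_lintegral _ _).trans ?_
    have e1 : ∀ E : ℝ, ENNReal.ofReal (2 * κ / Real.pi * f E) =
        ENNReal.ofReal (2 * κ / Real.pi) * ENNReal.ofReal (f E) :=
      fun E => ENNReal.ofReal_mul (by positivity)
    simp only [e1]
    rw [lintegral_const_mul' _ _ ENNReal.ofReal_ne_top, hf, DyWin_total hR _ hη, DyWin_norm_dv,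
      ← ENNReal.ofReal_mul (by positivity)]
    refine ENNReal.ofReal_le_ofReal (le_of_eq ?_)
    field_simp
  have hton : ENNReal.ofReal (2 * η₀) * ∫⁻ E in {E | κ < τ E} ∩ Set.Icc E₁ E₂,
      ENNReal.ofReal (f E) ≤ ENNReal.ofReal (16 * η₀) *
      ∫⁻ E in {E | κ / 3 < τ E} ∩ Set.Icc (E₁ - η₀) (E₂ + η₀), ENNReal.ofReal (g E) := by
    refine DyWin_tonelli hfm.ennreal_ofReal
      ((measurableSet_lt measurable_const hτm).inter measurableSet_Icc)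
      ((measurableSet_lt measurable_const hτm).inter measurableSet_Icc) ?_ ?_
    · rintro E ⟨hE1, hE2⟩ E' hE'
      refine ⟨?_, by linarith [hE2.1, (abs_le.1 hE').1], by linarith [hE2.2, (abs_le.1 hE').2]⟩
      show κ / 3 < τ E'
      have h1 : τ E ≤ 3 * τ E' := by
        rw [hτ]
        simp only [Finset.mul_sum]
        refine Finset.sum_le_sum fun x _ => ?_
        have h2 := mul_le_mul_of_nonneg_left (DyWin_harnack hR (dv x) h0 hE') h0.le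
        linarith
      have h2 : κ < τ E := hE1
      linarith
    · intro E'
      rw [hf, hg]
      exact DyWin_local hR (dv a) hη hη₀ E'
  have hI3 : ∫⁻ E in Set.Icc E₁ E₂, ENNReal.ofReal (1 / Real.pi * f E *
      (if κ < τ E then 1 else 0)) ≤
      3 * ∫⁻ E in Set.Icc (E₁ - η₀) (E₂ + η₀), ENNReal.ofReal (g E *
        (if κ / 3 < τ E then 1 else 0)) := by
    rw [DyWin_ite (fun E => 1 / Real.pi * f E) hτm, DyWin_ite g hτm]
    have e1 : ∀ E : ℝ, ENNReal.ofReal (1 / Real.pi * f E) =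
        ENNReal.ofReal (1 / Real.pi) * ENNReal.ofReal (f E) :=
      fun E => ENNReal.ofReal_mul (by positivity)
    simp only [e1]
    rw [lintegral_const_mul' _ _ ENNReal.ofReal_ne_top]
    obtain ⟨X, hX⟩ : ∃ X, X = ∫⁻ E in {E | κ < τ E} ∩ Set.Icc E₁ E₂, ENNReal.ofReal (f E) :=
      ⟨_, rfl⟩
    obtain ⟨Z, hZ⟩ : ∃ Z, Z = ∫⁻ E in {E | κ / 3 < τ E} ∩ Set.Icc (E₁ - η₀) (E₂ + η₀),
      ENNReal.ofReal (g E) := ⟨_, rfl⟩
    rw [← hX, ← hZ] at hton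
    rw [← hX, ← hZ]
    have e2 : ENNReal.ofReal (1 / Real.pi) =
        ENNReal.ofReal (1 / (Real.pi * (2 * η₀))) * ENNReal.ofReal (2 * η₀) := by
      rw [← ENNReal.ofReal_mul (by positivity)]
      congr 1
      field_simp
    calc ENNReal.ofReal (1 / Real.pi) * X
        = ENNReal.ofReal (1 / (Real.pi * (2 * η₀))) * (ENNReal.ofReal (2 * η₀) * X) := by
          rw [e2, mul_assoc]
      _ ≤ ENNReal.ofReal (1 / (Real.pi * (2 * η₀))) * (ENNReal.ofReal (16 * η₀) * Z) :=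
          mul_le_mul_right hton _
      _ = ENNReal.ofReal (8 / Real.pi) * Z := by
          rw [← mul_assoc, ← ENNReal.ofReal_mul (by positivity)]
          congr 2
          field_simp
          norm_num
      _ ≤ 3 * Z := by
          refine mul_le_mul_left ?_ _
          rw [show (3 : ℝ≥0∞) = ENNReal.ofReal 3 by norm_num]
          refine ENNReal.ofReal_le_ofReal ?_
          rw [div_le_iff₀ hπ]
          linarith [Real.pi_gt_three]
  -- conclusion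
  have e3 : ∀ E : ℝ, ∑ x ∈ B, η₀ * (η₀ * ‖R ⟨E, η₀⟩ (dv x)‖ ^ 2) = τ E := fun E => by rw [hτ]
  have e4 : ∀ E : ℝ, η₀ * ‖R ⟨E, η₀⟩ (dv a)‖ ^ 2 = g E := fun E => by rw [hg]
  simp only [e3, e4]
  calc ∫⁻ E in Set.Icc E₁ E₂, ENNReal.ofReal (η / Real.pi *
        ∑ x ∈ B, ‖R ⟨E, η⟩ (dv a) x‖ ^ 2)
      ≤ ∫⁻ E in Set.Icc E₁ E₂, ((ENNReal.ofReal (2 * η / (Real.pi * η₀) *
          ∑ x ∈ B, η₀ * ‖R ⟨E, η₀⟩ (dv x)‖ ^ 2) + ENNReal.ofReal (2 * κ / Real.pi * f E)) +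
          ENNReal.ofReal (1 / Real.pi * f E * (if κ < τ E then 1 else 0))) := by
        refine lintegral_mono fun E => ?_
        refine (ENNReal.ofReal_le_ofReal (hpt E)).trans ?_
        exact (ENNReal.ofReal_add_le).trans (add_le_add ENNReal.ofReal_add_le le_rfl)
    _ = (∫⁻ E in Set.Icc E₁ E₂, ENNReal.ofReal (2 * η / (Real.pi * η₀) *
          ∑ x ∈ B, η₀ * ‖R ⟨E, η₀⟩ (dv x)‖ ^ 2)) +
        (∫⁻ E in Set.Icc E₁ E₂, ENNReal.ofReal (2 * κ / Real.pi * f E)) +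
        ∫⁻ E in Set.Icc E₁ E₂, ENNReal.ofReal (1 / Real.pi * f E *
          (if κ < τ E then 1 else 0)) := by
        have m1 : Measurable fun E : ℝ => ENNReal.ofReal (2 * η / (Real.pi * η₀) *
          ∑ x ∈ B, η₀ * ‖R ⟨E, η₀⟩ (dv x)‖ ^ 2) :=
          ((Finset.measurable_fun_sum _ fun x _ => DyWin_meas hR (dv x) h0).const_mul
            _).ennreal_ofReal
        have m2 : Measurable fun E : ℝ => ENNReal.ofReal (2 * κ / Real.pi * f E) :=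
          (hfm.const_mul _).ennreal_ofReal
        have m12 : Measurable fun E : ℝ => ENNReal.ofReal (2 * η / (Real.pi * η₀) *
            ∑ x ∈ B, η₀ * ‖R ⟨E, η₀⟩ (dv x)‖ ^ 2) + ENNReal.ofReal (2 * κ / Real.pi * f E) :=
          m1.add m2
        rw [lintegral_add_left m12, lintegral_add_left m1]
    _ ≤ ENNReal.ofReal (2 * (η / η₀) * B.card) + ENNReal.ofReal (2 * κ) +
        3 * ∫⁻ E in Set.Icc (E₁ - η₀) (E₂ + η₀), ENNReal.ofReal (g E *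
          (if κ / 3 < τ E then 1 else 0)) := add_le_add (add_le_add hI1 hI2) hI3
    _ = ENNReal.ofReal (2 * (η / η₀) * B.card + 2 * κ) +
        3 * ∫⁻ E in Set.Icc (E₁ - η₀) (E₂ + η₀), ENNReal.ofReal (g E *
          (if κ / 3 < τ E then 1 else 0)) := by
        rw [ENNReal.ofReal_add (mul_nonneg (mul_nonneg zero_le_two (div_nonneg hη.le h0.le))
          (Nat.cast_nonneg _)) (mul_nonneg zero_le_two hκ.le)]

end Pool.Agent.H989.DY
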