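import Pool.Agent.H989.DY.DyLink
import Pool.Agent.H989.DY.DyWin
import Pool.Agent.H989.DY.DyCheb

/-!
# DyComb: the three parts together

(`link` of `DyLink`, `win` of `DyWin`, `cheb` of `DyCheb` are proved by other seats; use them as given there.)
Let `η = 1 / T`. `link` bounds the left side by `4 ∫⁻ E, ofReal (η/π ∑_{x∈F} ‖R ⟨E,η⟩ (dv a) x‖²)`. Split the line in
`Set.Icc (-b) b` and its complement. On `Icc (-b) b`: `win`. On the complement: `∑_{x∈F} ‖u x‖² ≤ ‖u‖²` and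
`|E - W a| ≥ D` (since `|W a| + D ≤ b`), so `cheb` with `v = W a` and `χ = S δ_a` (the sum of the `2 d` delta functions
at the neighbours of `a`, `‖χ‖² ≤ 2 d`; for `d = 0` it is `0`): `dv a + (z - v) • R z (dv a)` solves
`(S + W - z) u = χ` pointwise by `hsol`, so it equals `R z χ` by `hres`.
-/

open MeasureTheory
open scoped InnerProductSpace

namespace Pool.Agent.H989.DY

open Pool.Agent.W788.LD.Spec (S)
open Pool.Agent.H4R2.LO (Zd)

open Classical in
theorem dyComb_dv {ι : Type} (a x : ι) : (dv a : LL ι) x = if x = a then 1 else 0 := by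
  unfold dv
  rw [lp.single_apply]
  by_cases hx : x = a
  · subst hx
    simp
  · simp [hx]

theorem dyComb_dv_self {ι : Type} (a : ι) : (dv a : LL ι) a = 1 := by
  classical
  rw [dyComb_dv, if_pos rfl]

theorem dyComb_dv_ne {ι : Type} {a x : ι} (h : x ≠ a) : (dv a : LL ι) x = 0 := by
  classical
  rw [dyComb_dv, if_neg h]

/-- the `2 d` neighbours -/
def dyComb_nb {d : ℕ} (a : Zd d) : Fin d ⊕ Fin d → Zd d
  | Sum.inl i => a - Pi.single i 1
  | Sum.inr i => a + Pi.single i 1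

theorem dyComb_nb_inj {d : ℕ} (a : Zd d) : Function.Injective (dyComb_nb a) := by
  intro p q hpq
  rcases p with i | i <;> rcases q with j | j
  · have h1 := congrFun hpq i
    simp only [dyComb_nb, Pi.sub_apply, Pi.single_eq_same] at h1
    by_cases hij : i = j
    · rw [hij]
    · rw [Pi.single_eq_of_ne hij] at h1
      omega
  · have h1 := congrFun hpq i
    simp only [dyComb_nb, Pi.sub_apply, Pi.add_apply, Pi.single_eq_same] at h1
    by_cases hij : i = j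
    · rw [hij, Pi.single_eq_same] at h1
      omega
    · rw [Pi.single_eq_of_ne hij] at h1
      omega
  · have h1 := congrFun hpq i
    simp only [dyComb_nb, Pi.sub_apply, Pi.add_apply, Pi.single_eq_same] at h1
    by_cases hij : i = j
    · rw [hij, Pi.single_eq_same] at h1
      omega
    · rw [Pi.single_eq_of_ne hij] at h1
      omega
  · have h1 := congrFun hpq i
    simp only [dyComb_nb, Pi.add_apply, Pi.single_eq_same] at h1
    by_cases hij : i = j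
    · rw [hij]
    · rw [Pi.single_eq_of_ne hij] at h1
      omega

/-- the vector `S δ_a` -/
noncomputable def dyComb_chi {d : ℕ} (a : Zd d) : LL (Zd d) := ∑ j : Fin d ⊕ Fin d, dv (dyComb_nb a j)

theorem dyComb_inner {ι : Type} (a : ι) (u : LL ι) : ⟪(dv a : LL ι), u⟫_ℂ = u a := by
  classical
  unfold dv
  rw [lp.inner_single_left]
  simp

theorem dyComb_chi_norm {d : ℕ} (a : Zd d) : ‖dyComb_chi a‖ ^ 2 ≤ 2 * d := by
  have h1 : ⟪dyComb_chi a, dyComb_chi a⟫_ℂ = ((2 * d : ℝ) : ℂ) := by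
    unfold dyComb_chi
    rw [sum_inner]
    have h2 : ∀ j : Fin d ⊕ Fin d,
        ⟪(dv (dyComb_nb a j) : LL (Zd d)), ∑ k : Fin d ⊕ Fin d, dv (dyComb_nb a k)⟫_ℂ = 1 := by
      intro j
      rw [inner_sum]
      rw [Finset.sum_eq_single j]
      · rw [dyComb_inner, dyComb_dv_self]
      · intro k _ hk
        rw [dyComb_inner, dyComb_dv_ne]
        intro h4
        exact hk (dyComb_nb_inj a h4).symm
      · intro hj
        exact absurd (Finset.mem_univ j) hj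
    rw [Finset.sum_congr rfl fun j _ => h2 j]
    simp
    ring
  have h5 : ‖dyComb_chi a‖ ^ 2 = 2 * d := by
    have h6 := inner_self_eq_norm_sq_to_K (𝕜 := ℂ) (dyComb_chi a)
    rw [h1] at h6
    have h7 : ((2 * d : ℝ) : ℂ) = ((‖dyComb_chi a‖ ^ 2 : ℝ) : ℂ) := by
      rw [h6]
      push_cast
      rfl
    exact (Complex.ofReal_injective h7).symm
  exact h5.le

theorem dyComb_dv_congr {ι : Type} {a b x y : ι} (h : x = a ↔ y = b) :
    (dv a : LL ι) x = (dv b : LL ι) y := by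
  by_cases hx : x = a
  · have hy := h.1 hx
    rw [hx, hy, dyComb_dv_self, dyComb_dv_self]
  · have hy : y ≠ b := fun hy => hx (h.2 hy)
    rw [dyComb_dv_ne hx, dyComb_dv_ne hy]

theorem dyComb_chi_apply {d : ℕ} (a x : Zd d) :
    (dyComb_chi a : LL (Zd d)) x = S (fun y => (dv a : LL (Zd d)) y) x := by
  have h1 : ((dyComb_chi a : LL (Zd d)) : Zd d → ℂ) x =
      ∑ j : Fin d ⊕ Fin d, (dv (dyComb_nb a j) : LL (Zd d)) x := by
    unfold dyComb_chi
    rw [lp.coeFn_sum, Finset.sum_apply]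
  rw [h1, Fintype.sum_sum_type, ← Finset.sum_add_distrib]
  unfold S
  refine Finset.sum_congr rfl fun i _ => ?_
  have h2 : (dv (dyComb_nb a (Sum.inl i)) : LL (Zd d)) x = (dv a : LL (Zd d)) (x + Pi.single i 1) :=
    dyComb_dv_congr eq_sub_iff_add_eq
  have h3 : (dv (dyComb_nb a (Sum.inr i)) : LL (Zd d)) x = (dv a : LL (Zd d)) (x - Pi.single i 1) :=
    dyComb_dv_congr sub_eq_iff_eq_add.symm
  rw [h2, h3]

theorem dyComb_S_add {d : ℕ} (u v : Zd d → ℂ) (c : ℂ) (x : Zd d) :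
    S (fun y => u y + c * v y) x = S u x + c * S v x := by
  unfold S
  rw [Finset.mul_sum, ← Finset.sum_add_distrib]
  refine Finset.sum_congr rfl fun i _ => ?_
  ring

theorem dyComb_res {d : ℕ} {W : Zd d → ℝ} {a : Zd d} {R : ℂ → LL (Zd d) →L[ℂ] LL (Zd d)}
    (hsol : ∀ z : ℂ, z.im ≠ 0 → ∀ (f : LL (Zd d)) (x : Zd d),
      S (fun y => R z f y) x + (W x : ℂ) * R z f x - z * R z f x = f x)
    (hres : ∀ z : ℂ, z.im ≠ 0 → ∀ f u : LL (Zd d),
      (∀ x, S (fun y => u y) x + (W x : ℂ) * u x - z * u x = f x) → u = R z f)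
    (z : ℂ) (hz : z.im ≠ 0) :
    R z (dyComb_chi a) = dv a + (z - (W a : ℝ)) • R z (dv a) := by
  refine (hres z hz (dyComb_chi a) (dv a + (z - (W a : ℝ)) • R z (dv a)) fun x => ?_).symm
  have h1 : ∀ y : Zd d, (dv a + (z - (W a : ℝ)) • R z (dv a) : LL (Zd d)) y =
      (dv a : LL (Zd d)) y + (z - (W a : ℝ)) * (R z (dv a) : LL (Zd d)) y := fun y => rfl
  have h2 := hsol z hz (dv a) x
  have h3 : S (fun y => (dv a + (z - (W a : ℝ)) • R z (dv a) : LL (Zd d)) y) x =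
      S (fun y => (dv a : LL (Zd d)) y) x + (z - (W a : ℝ)) * S (fun y => (R z (dv a) : LL (Zd d)) y) x :=
    dyComb_S_add _ _ _ x
  rw [h3, h1, dyComb_chi_apply]
  have h4 : ((W x : ℂ) - (W a : ℝ)) * (dv a : LL (Zd d)) x = 0 := by
    by_cases hx : x = a
    · rw [hx]
      simp
    · rw [dyComb_dv_ne hx, mul_zero]
  linear_combination (z - (W a : ℝ)) * h2 + h4

/-- outside of the window -/
theorem outside {d : ℕ} {W : Zd d → ℝ} {a : Zd d} {R : ℂ → LL (Zd d) →L[ℂ] LL (Zd d)} (hR : RF R)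
    (hsol : ∀ z : ℂ, z.im ≠ 0 → ∀ (f : LL (Zd d)) (x : Zd d),
      S (fun y => R z f y) x + (W x : ℂ) * R z f x - z * R z f x = f x)
    (hres : ∀ z : ℂ, z.im ≠ 0 → ∀ f u : LL (Zd d),
      (∀ x, S (fun y => u y) x + (W x : ℂ) * u x - z * u x = f x) → u = R z f)
    {η D : ℝ} (hη : 0 < η) (hD : 0 < D) :
    ∫⁻ E in {E : ℝ | D ≤ |E - W a|}, ENNReal.ofReal (η / Real.pi * ‖R ⟨E, η⟩ (dv a)‖ ^ 2) ≤
      ENNReal.ofReal (8 * (2 * d) / D ^ 2 + 3 * η / D) := by
  refine (cheb hR a (W a) (dyComb_chi a) (fun z hz => dyComb_res hsol hres z hz) hD hη).trans ?_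
  refine ENNReal.ofReal_le_ofReal ?_
  have h1 := dyComb_chi_norm a
  have h2 : 8 * ‖dyComb_chi a‖ ^ 2 / D ^ 2 ≤ 8 * (2 * d) / D ^ 2 := by
    refine div_le_div_of_nonneg_right ?_ (by positivity)
    linarith
  linarith

theorem dyComb_sum_le {ι : Type} (F : Finset ι) (u : LL ι) : ∑ x ∈ F, ‖u x‖ ^ 2 ≤ ‖u‖ ^ 2 := by
  have h := lp.sum_rpow_le_norm_rpow (p := 2) (by norm_num) u F
  simpa using h

theorem comb {d : ℕ} {W : Zd d → ℝ} {a : Zd d} {ψ : ℝ → Zd d → ℂ} (h : Ev d W a ψ)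
    {R : ℂ → LL (Zd d) →L[ℂ] LL (Zd d)} (hR : RF R)
    (hsol : ∀ z : ℂ, z.im ≠ 0 → ∀ (f : LL (Zd d)) (x : Zd d),
      S (fun y => R z f y) x + (W x : ℂ) * R z f x - z * R z f x = f x)
    (hres : ∀ z : ℂ, z.im ≠ 0 → ∀ f u : LL (Zd d),
      (∀ x, S (fun y => u y) x + (W x : ℂ) * u x - z * u x = f x) → u = R z f)
    (F : Finset (Zd d)) {T η₀ κ b D : ℝ} (hT : 0 < T) (hη₀ : 1 / T ≤ η₀) (hκ : 0 < κ) (hD : 0 < D)
    (hb : |W a| + D ≤ b) :
    ENNReal.ofReal ((1 / T) * ∫ s in (0:ℝ)..T, ∑ x ∈ F, ‖ψ s x‖ ^ 2) ≤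
      4 * (ENNReal.ofReal (2 * ((1 / T) / η₀) * F.card + 2 * κ + 8 * (2 * d) / D ^ 2 + 3 * (1 / T) / D) +
      3 * ∫⁻ E in Set.Icc (-b - η₀) (b + η₀), ENNReal.ofReal ((η₀ * ‖R ⟨E, η₀⟩ (dv a)‖ ^ 2) *
        (if κ / 3 < ∑ x ∈ F, η₀ * (η₀ * ‖R ⟨E, η₀⟩ (dv x)‖ ^ 2) then 1 else 0))) := by
  have hη : 0 < 1 / T := by positivity
  have hη₀' : 0 < η₀ := lt_of_lt_of_le hη hη₀
  have hb0 : 0 < b := by
    have := abs_nonneg (W a)
    linarith
  refine (link h hsol hres F hT).trans ?_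
  refine mul_le_mul_right ?_ 4
  set f : ℝ → ENNReal := fun E =>
    ENNReal.ofReal ((1 / T) / Real.pi * ∑ x ∈ F, ‖R ⟨E, 1 / T⟩ (dv a) x‖ ^ 2) with hf
  have hsplit : ∫⁻ E : ℝ, f E = (∫⁻ E in Set.Icc (-b) b, f E) + ∫⁻ E in (Set.Icc (-b) b)ᶜ, f E :=
    (lintegral_add_compl f measurableSet_Icc).symm
  have h1 : ∫⁻ E in Set.Icc (-b) b, f E ≤
      ENNReal.ofReal (2 * ((1 / T) / η₀) * F.card + 2 * κ) +
      3 * ∫⁻ E in Set.Icc (-b - η₀) (b + η₀), ENNReal.ofReal ((η₀ * ‖R ⟨E, η₀⟩ (dv a)‖ ^ 2) *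
        (if κ / 3 < ∑ x ∈ F, η₀ * (η₀ * ‖R ⟨E, η₀⟩ (dv x)‖ ^ 2) then 1 else 0)) :=
    win hR a F hη hη₀ hκ (by linarith)
  have h2 : ∫⁻ E in (Set.Icc (-b) b)ᶜ, f E ≤
      ENNReal.ofReal (8 * (2 * d) / D ^ 2 + 3 * (1 / T) / D) := by
    refine le_trans ?_ (outside (a := a) hR hsol hres hη hD)
    refine (lintegral_mono_set (s := (Set.Icc (-b) b)ᶜ) (t := {E : ℝ | D ≤ |E - W a|}) ?_).trans ?_
    · intro E hE
      rw [Set.mem_ofPred_eq]
      rw [Set.mem_compl_iff, Set.mem_Icc, not_and_or, not_le, not_le] at hE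
      rcases hE with hE | hE
      · have h3 := neg_abs_le (W a)
        have h4 := neg_abs_le (E - W a)
        linarith
      · have h3 := le_abs_self (W a)
        have h4 := le_abs_self (E - W a)
        linarith
    · refine lintegral_mono fun E => ?_
      refine ENNReal.ofReal_le_ofReal ?_
      refine mul_le_mul_of_nonneg_left (dyComb_sum_le F _) ?_
      positivity
  have h3 : ENNReal.ofReal (2 * ((1 / T) / η₀) * F.card + 2 * κ + 8 * (2 * d) / D ^ 2 + 3 * (1 / T) / D) =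
      ENNReal.ofReal (2 * ((1 / T) / η₀) * F.card + 2 * κ) +
      ENNReal.ofReal (8 * (2 * d) / D ^ 2 + 3 * (1 / T) / D) := by
    rw [← ENNReal.ofReal_add (by positivity) (by positivity)]
    congr 1
    ring
  rw [h3, hsplit]
  refine (add_le_add h1 h2).trans (le_of_eq ?_)
  ring

end Pool.Agent.H989.DY
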