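import Pool.Agent.H989.DY.Defs

/-!
# DyFl: conservation of the norm, uniqueness

FLUX. `S` is the sum over the `2 d` neighbours, `W : Zd d → ℝ` arbitrary. Use the weights
`w_n(x) = max 0 (1 - (∑_i |x_i|)/n)`, `n ≥ 1`, of finite support, `|w_n(x) - w_n(y)| ≤ 1/n` for neighbours,
`w_n(x) → 1` increasing. `m_n(s) = ∑_x w_n(x) ‖θ(s) x‖²` (a finite sum) has the derivative
`∑_x w_n(x) 2 Re(conj(θ x) (-i) (S θ x + W x θ x)) = 2 ∑_x w_n(x) Im(conj(θ x) S θ x)`
`= 2 ∑_i ∑_x (w_n(x) - w_n(x + e_i)) Im(conj(θ x) θ(x + e_i))` (shift `x → x + e_i` in the terms with `x - e_i`;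
`Im (conj a b) = - Im (conj b a)`), so `|m_n'(s)| ≤ (2/n) ∑_i ∑_x ‖θ x‖ ‖θ(x+e_i)‖ ≤ (2 d/n) C`. Hence
`|m_n(s) - m_n(0)| ≤ 2 d C T / n` on `[-T, T]`, and `m_n(s) → ∑_x ‖θ(s) x‖²` (dominated / monotone convergence of
the sums, `0 ≤ w_n ≤ 1`).

UNIQUENESS: apply it to the difference of two solutions, `C = 4`; it vanishes at `s = 0`.
-/

open MeasureTheory

namespace Pool.Agent.H989.DY

open Pool.Agent.W788.LD.Spec (S)
open Pool.Agent.H4R2.LO (Zd)

open Filter Topology in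
/-- the `ℓ¹` norm -/
noncomputable def dyFlN {d : ℕ} (x : Zd d) : ℝ := ∑ i, |(x i : ℝ)|

/-- the weights -/
noncomputable def dyFlw {d : ℕ} (n : ℕ) (x : Zd d) : ℝ := max (1 - dyFlN x / ((n : ℝ) + 1)) 0

theorem dyFl_w_nonneg {d : ℕ} (n : ℕ) (x : Zd d) : 0 ≤ dyFlw n x := le_max_right _ _

theorem dyFl_N_nonneg {d : ℕ} (x : Zd d) : 0 ≤ dyFlN x :=
  Finset.sum_nonneg fun _ _ => abs_nonneg _

theorem dyFl_w_le {d : ℕ} (n : ℕ) (x : Zd d) : dyFlw n x ≤ 1 := by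
  unfold dyFlw
  refine max_le ?_ zero_le_one
  have h1 : 0 ≤ dyFlN x / ((n : ℝ) + 1) := div_nonneg (dyFl_N_nonneg x) (by positivity)
  linarith

theorem dyFl_w_step {d : ℕ} (n : ℕ) (x : Zd d) (i : Fin d) :
    |dyFlw n x - dyFlw n (x + Pi.single i 1)| ≤ 1 / ((n : ℝ) + 1) := by
  have hn : (0 : ℝ) < (n : ℝ) + 1 := by positivity
  unfold dyFlw
  refine (abs_max_sub_max_le_abs _ _ _).trans ?_
  have h1 : |dyFlN (x + Pi.single i 1) - dyFlN x| ≤ 1 := by
    unfold dyFlN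
    rw [← Finset.sum_sub_distrib]
    refine (Finset.abs_sum_le_sum_abs _ _).trans ?_
    have h2 : ∀ j : Fin d, |(|(((x + Pi.single i 1 : Zd d) j : ℤ) : ℝ)| - |((x j : ℤ) : ℝ)|)| ≤
        if j = i then 1 else 0 := by
      intro j
      by_cases hj : j = i
      · rw [if_pos hj, hj, Pi.add_apply, Pi.single_eq_same]
        refine (abs_abs_sub_abs_le_abs_sub _ _).trans ?_
        push_cast
        rw [add_sub_cancel_left, abs_one]
      · rw [if_neg hj, Pi.add_apply, Pi.single_eq_of_ne hj, add_zero, sub_self, abs_zero]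
    refine (Finset.sum_le_sum fun j _ => h2 j).trans ?_
    rw [Finset.sum_ite_eq' Finset.univ i (fun _ => (1 : ℝ)), if_pos (Finset.mem_univ i)]
  have h3 : 1 - dyFlN x / ((n : ℝ) + 1) - (1 - dyFlN (x + Pi.single i 1) / ((n : ℝ) + 1)) =
      (dyFlN (x + Pi.single i 1) - dyFlN x) / ((n : ℝ) + 1) := by
    field_simp
    ring
  rw [h3, abs_div, abs_of_pos hn]
  exact div_le_div_of_nonneg_right h1 hn.le

/-- the box -/
noncomputable def dyFlB (d n : ℕ) : Finset (Zd d) :=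
  Fintype.piFinset fun _ : Fin d => Finset.Icc (-((n : ℤ) + 1)) ((n : ℤ) + 1)

theorem dyFl_w_supp {d : ℕ} (n : ℕ) (x : Zd d) (hx : x ∉ dyFlB d n) : dyFlw n x = 0 := by
  unfold dyFlB at hx
  rw [Fintype.mem_piFinset] at hx
  push Not at hx
  obtain ⟨i, hi⟩ := hx
  rw [Finset.mem_Icc, not_and_or] at hi
  have hn : (0 : ℝ) < (n : ℝ) + 1 := by positivity
  have h1 : (n : ℤ) + 1 < |x i| := by
    rcases hi with h | h
    · have h2 : x i < -((n : ℤ) + 1) := not_le.1 h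
      rw [lt_abs]
      right
      linarith
    · have h2 : (n : ℤ) + 1 < x i := not_le.1 h
      rw [lt_abs]
      left
      exact h2
  have h2 : (n : ℝ) + 1 < |(x i : ℝ)| := by
    have h3 : (((n : ℤ) + 1 : ℤ) : ℝ) < ((|x i| : ℤ) : ℝ) := by exact_mod_cast h1
    rw [Int.cast_abs] at h3
    push_cast at h3
    exact h3
  have h3 : |(x i : ℝ)| ≤ dyFlN x :=
    Finset.single_le_sum (f := fun i => |(x i : ℝ)|) (fun _ _ => abs_nonneg _)
      (Finset.mem_univ i)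
  have h4 : 1 < dyFlN x / ((n : ℝ) + 1) := by
    rw [one_lt_div hn]
    linarith
  unfold dyFlw
  exact max_eq_right (by linarith)

open Filter Topology in
theorem dyFl_w_lim {d : ℕ} (x : Zd d) : Tendsto (fun n => dyFlw n x) atTop (𝓝 1) := by
  have h1 : Tendsto (fun n : ℕ => dyFlN x / ((n : ℝ) + 1)) atTop (𝓝 0) := by
    have h2 : Tendsto (fun n : ℕ => (n : ℝ) + 1) atTop atTop :=
      tendsto_atTop_add_const_right _ _ tendsto_natCast_atTop_atTop
    exact tendsto_const_nhds.div_atTop h2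
  have h2 : Tendsto (fun n : ℕ => max (1 - dyFlN x / ((n : ℝ) + 1)) 0) atTop
      (𝓝 (max (1 - 0) 0)) := (tendsto_const_nhds.sub h1).max tendsto_const_nhds
  rw [sub_zero, max_eq_left zero_le_one] at h2
  exact h2

theorem dyFl_deriv {f : ℝ → ℂ} {f' : ℂ} {s : ℝ} (h : HasDerivAt f f' s) :
    HasDerivAt (fun s => ‖f s‖ ^ 2) (2 * ((starRingEnd ℂ) (f s) * f').re) s := by
  have h1 := h.norm_sq
  rw [Complex.inner, mul_comm f' _] at h1
  exact h1

theorem dyFl_re (u v : ℂ) (w : ℝ) :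
    ((starRingEnd ℂ) u * (-Complex.I * (v + (w : ℂ) * u))).re = ((starRingEnd ℂ) u * v).im := by
  simp only [Complex.mul_re, Complex.mul_im, Complex.conj_re, Complex.conj_im, Complex.neg_re,
    Complex.neg_im, Complex.I_re, Complex.I_im, Complex.add_re, Complex.add_im, Complex.ofReal_re,
    Complex.ofReal_im]
  ring

theorem dyFl_shift_tsum {d : ℕ} (F : Zd d → ℝ) (e : Zd d) : ∑' x, F (x + e) = ∑' x, F x :=
  (Equiv.addRight e).tsum_eq F

theorem dyFl_shift_summable {d : ℕ} (F : Zd d → ℝ) (e : Zd d) (h : Summable F) :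
    Summable fun x => F (x + e) :=
  (Equiv.addRight e).summable_iff.2 h

theorem dyFl_shift_hasSum {d : ℕ} (F : Zd d → ℝ) (e : Zd d) (a : ℝ)
    (h : HasSum (fun x => F (x + e)) a) : HasSum F a :=
  (Equiv.addRight e).hasSum_iff.1 h

/-- the flux through an edge -/
noncomputable def dyFlF {d : ℕ} (u : Zd d → ℂ) (i : Fin d) (x : Zd d) : ℝ :=
  ((starRingEnd ℂ) (u x) * u (x + Pi.single i 1)).im

theorem dyFl_F_abs {d : ℕ} (u : Zd d → ℂ) (i : Fin d) (x : Zd d) :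
    |dyFlF u i x| ≤ (‖u x‖ ^ 2 + ‖u (x + Pi.single i 1)‖ ^ 2) / 2 := by
  unfold dyFlF
  refine (Complex.abs_im_le_norm _).trans ?_
  rw [norm_mul, Complex.norm_conj]
  nlinarith [sq_nonneg (‖u x‖ - ‖u (x + Pi.single i 1)‖)]

theorem dyFl_S {d : ℕ} (u : Zd d → ℂ) (x : Zd d) :
    ((starRingEnd ℂ) (u x) * S u x).im = ∑ i, (dyFlF u i x - dyFlF u i (x - Pi.single i 1)) := by
  unfold S dyFlF
  rw [Finset.mul_sum, Complex.im_sum]
  refine Finset.sum_congr rfl fun i _ => ?_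
  rw [sub_add_cancel]
  simp only [Complex.mul_im, Complex.add_re, Complex.add_im, Complex.conj_re, Complex.conj_im]
  ring

theorem dyFl_sum {d : ℕ} {u : Zd d → ℂ} (hu : Summable fun x => ‖u x‖ ^ 2) (i : Fin d) :
    Summable (fun x => |dyFlF u i x|) ∧ ∑' x, |dyFlF u i x| ≤ ∑' x, ‖u x‖ ^ 2 := by
  have h1 : Summable fun x => ‖u (x + Pi.single i 1)‖ ^ 2 :=
    dyFl_shift_summable (fun x => ‖u x‖ ^ 2) (Pi.single i 1) hu
  have h2 : ∑' x, ‖u (x + Pi.single i 1)‖ ^ 2 = ∑' x, ‖u x‖ ^ 2 :=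
    dyFl_shift_tsum (fun x => ‖u x‖ ^ 2) (Pi.single i 1)
  have h3 : Summable fun x => (‖u x‖ ^ 2 + ‖u (x + Pi.single i 1)‖ ^ 2) / 2 :=
    (hu.add h1).div_const 2
  have h4 : Summable (fun x => |dyFlF u i x|) :=
    Summable.of_nonneg_of_le (fun _ => abs_nonneg _) (fun x => dyFl_F_abs u i x) h3
  refine ⟨h4, ?_⟩
  refine (h4.tsum_le_tsum (fun x => dyFl_F_abs u i x) h3).trans ?_
  rw [tsum_div_const, hu.tsum_add h1, h2]
  linarith

theorem dyFl_static {d : ℕ} {u : Zd d → ℂ} (hu : Summable fun x => ‖u x‖ ^ 2) (n : ℕ) :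
    |∑ x ∈ dyFlB d n, dyFlw n x * (2 * ((starRingEnd ℂ) (u x) * S u x).im)| ≤
      2 * d * (∑' x, ‖u x‖ ^ 2) / ((n : ℝ) + 1) := by
  have hn : (0 : ℝ) < (n : ℝ) + 1 := by positivity
  -- the sum over all points
  have e1 : ∑ x ∈ dyFlB d n, dyFlw n x * (2 * ((starRingEnd ℂ) (u x) * S u x).im) =
      ∑' x, dyFlw n x * (2 * ((starRingEnd ℂ) (u x) * S u x).im) := by
    symm
    refine tsum_eq_sum fun x hx => ?_
    rw [dyFl_w_supp n x hx, zero_mul]
  -- one direction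
  have e2 : ∀ i : Fin d, HasSum (fun x => 2 * (dyFlw n x * dyFlF u i x -
      dyFlw n x * dyFlF u i (x - Pi.single i 1)))
      (2 * ∑' x, (dyFlw n x - dyFlw n (x + Pi.single i 1)) * dyFlF u i x) := by
    intro i
    obtain ⟨hF, _⟩ := dyFl_sum hu i
    have k1 : Summable fun x => dyFlw n x * dyFlF u i x := by
      refine Summable.of_norm_bounded hF fun x => ?_
      rw [Real.norm_eq_abs, abs_mul, abs_of_nonneg (dyFl_w_nonneg n x)]
      exact mul_le_of_le_one_left (abs_nonneg _) (dyFl_w_le n x)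
    have k2 : Summable fun x => dyFlw n (x + Pi.single i 1) * dyFlF u i x := by
      refine Summable.of_norm_bounded hF fun x => ?_
      rw [Real.norm_eq_abs, abs_mul, abs_of_nonneg (dyFl_w_nonneg n _)]
      exact mul_le_of_le_one_left (abs_nonneg _) (dyFl_w_le n _)
    have k3 : HasSum (fun x => dyFlw n x * dyFlF u i (x - Pi.single i 1))
        (∑' x, dyFlw n (x + Pi.single i 1) * dyFlF u i x) := by
      refine dyFl_shift_hasSum (fun x => dyFlw n x * dyFlF u i (x - Pi.single i 1))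
        (Pi.single i 1) _ ?_
      have k5 : (fun x : Zd d => (fun x => dyFlw n x * dyFlF u i (x - Pi.single i 1))
          (x + Pi.single i 1)) = fun x => dyFlw n (x + Pi.single i 1) * dyFlF u i x := by
        funext x
        beta_reduce
        rw [add_sub_cancel_right]
      rw [k5]
      exact k2.hasSum
    have k6 : ∑' x, (dyFlw n x - dyFlw n (x + Pi.single i 1)) * dyFlF u i x =
        ∑' x, dyFlw n x * dyFlF u i x - ∑' x, dyFlw n (x + Pi.single i 1) * dyFlF u i x := by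
      rw [← k1.tsum_sub k2]
      refine tsum_congr fun x => ?_
      ring
    rw [k6]
    exact (k1.hasSum.sub k3).mul_left 2
  have e3 : HasSum (fun x => ∑ i, 2 * (dyFlw n x * dyFlF u i x -
      dyFlw n x * dyFlF u i (x - Pi.single i 1)))
      (∑ i : Fin d, 2 * ∑' x, (dyFlw n x - dyFlw n (x + Pi.single i 1)) * dyFlF u i x) :=
    hasSum_sum fun i _ => e2 i
  have e4 : (fun x => ∑ i, 2 * (dyFlw n x * dyFlF u i x -
      dyFlw n x * dyFlF u i (x - Pi.single i 1))) =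
      fun x => dyFlw n x * (2 * ((starRingEnd ℂ) (u x) * S u x).im) := by
    funext x
    rw [dyFl_S, Finset.mul_sum, Finset.mul_sum]
    refine Finset.sum_congr rfl fun i _ => ?_
    ring
  rw [e4] at e3
  rw [e1, e3.tsum_eq]
  have e5 : ∀ i : Fin d,
      |2 * ∑' x, (dyFlw n x - dyFlw n (x + Pi.single i 1)) * dyFlF u i x| ≤
      2 * (∑' x, ‖u x‖ ^ 2) / ((n : ℝ) + 1) := by
    intro i
    obtain ⟨hF, hF2⟩ := dyFl_sum hu i
    have k1 : ∀ x, ‖(dyFlw n x - dyFlw n (x + Pi.single i 1)) * dyFlF u i x‖ ≤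
        1 / ((n : ℝ) + 1) * |dyFlF u i x| := by
      intro x
      rw [Real.norm_eq_abs, abs_mul]
      exact mul_le_mul_of_nonneg_right (dyFl_w_step n x i) (abs_nonneg _)
    have k2 := tsum_of_norm_bounded (hF.mul_left (1 / ((n : ℝ) + 1))).hasSum k1
    rw [tsum_mul_left, Real.norm_eq_abs] at k2
    rw [abs_mul, abs_two]
    have k3 : 1 / ((n : ℝ) + 1) * ∑' x, |dyFlF u i x| ≤ 1 / ((n : ℝ) + 1) * ∑' x, ‖u x‖ ^ 2 :=
      mul_le_mul_of_nonneg_left hF2 (by positivity)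
    have k4 : 2 * (∑' x, ‖u x‖ ^ 2) / ((n : ℝ) + 1) =
        2 * (1 / ((n : ℝ) + 1) * ∑' x, ‖u x‖ ^ 2) := by ring
    rw [k4]
    linarith
  refine (Finset.abs_sum_le_sum_abs _ _).trans ?_
  refine (Finset.sum_le_sum fun i _ => e5 i).trans ?_
  rw [Finset.sum_const, Finset.card_univ, Fintype.card_fin, nsmul_eq_mul]
  apply le_of_eq
  ring

open Filter Topology in
theorem flux {d : ℕ} {W : Zd d → ℝ} {θ : ℝ → Zd d → ℂ}
    (hode : ∀ s x, HasDerivAt (fun s => θ s x) (-Complex.I * (S (θ s) x + (W x : ℂ) * θ s x)) s)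
    {C T : ℝ} (hs : ∀ s ∈ Set.Icc (-T) T, Summable (fun x => ‖θ s x‖ ^ 2) ∧ ∑' x, ‖θ s x‖ ^ 2 ≤ C) :
    ∀ s ∈ Set.Icc (-T) T, ∑' x, ‖θ s x‖ ^ 2 = ∑' x, ‖θ 0 x‖ ^ 2 := by
  intro s hsT
  have h0T : (0 : ℝ) ∈ Set.Icc (-T) T := by
    have h1 := hsT.1.trans hsT.2
    constructor <;> linarith
  -- the weighted sums
  have hm : ∀ n : ℕ, ∀ t, HasDerivAt (fun t => ∑ x ∈ dyFlB d n, dyFlw n x * ‖θ t x‖ ^ 2)
      (∑ x ∈ dyFlB d n, dyFlw n x * (2 * ((starRingEnd ℂ) (θ t x) * S (θ t) x).im)) t := by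
    intro n t
    refine HasDerivAt.fun_sum fun x _ => ?_
    have h1 := dyFl_deriv (hode t x)
    rw [dyFl_re] at h1
    exact h1.const_mul (dyFlw n x)
  have hbd : ∀ n : ℕ, |∑ x ∈ dyFlB d n, dyFlw n x * ‖θ s x‖ ^ 2 -
      ∑ x ∈ dyFlB d n, dyFlw n x * ‖θ 0 x‖ ^ 2| ≤ 2 * d * C / ((n : ℝ) + 1) * |s| := by
    intro n
    have hn : (0 : ℝ) < (n : ℝ) + 1 := by positivity
    have h1 := (convex_Icc (-T) T).norm_image_sub_le_of_norm_hasDerivWithin_le
      (f := fun t => ∑ x ∈ dyFlB d n, dyFlw n x * ‖θ t x‖ ^ 2)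
      (f' := fun t => ∑ x ∈ dyFlB d n,
        dyFlw n x * (2 * ((starRingEnd ℂ) (θ t x) * S (θ t) x).im))
      (C := 2 * d * C / ((n : ℝ) + 1))
      (fun t _ => (hm n t).hasDerivWithinAt) ?_ h0T hsT
    · rw [Real.norm_eq_abs, Real.norm_eq_abs, sub_zero] at h1
      exact h1
    · intro t ht
      obtain ⟨h2, h3⟩ := hs t ht
      rw [Real.norm_eq_abs]
      refine (dyFl_static h2 n).trans ?_
      refine div_le_div_of_nonneg_right ?_ hn.le
      exact mul_le_mul_of_nonneg_left h3 (by positivity)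
  have hlim : ∀ t ∈ Set.Icc (-T) T, Tendsto (fun n => ∑ x ∈ dyFlB d n, dyFlw n x * ‖θ t x‖ ^ 2)
      atTop (𝓝 (∑' x, ‖θ t x‖ ^ 2)) := by
    intro t ht
    obtain ⟨h2, _⟩ := hs t ht
    have e1 : (fun n => ∑ x ∈ dyFlB d n, dyFlw n x * ‖θ t x‖ ^ 2) =
        fun n => ∑' x, dyFlw n x * ‖θ t x‖ ^ 2 := by
      funext n
      symm
      refine tsum_eq_sum fun x hx => ?_
      rw [dyFl_w_supp n x hx, zero_mul]
    rw [e1]
    refine tendsto_tsum_of_dominated_convergence h2 (fun x => ?_)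
      (Eventually.of_forall fun n x => ?_)
    · have h3 := (dyFl_w_lim x).mul_const (‖θ t x‖ ^ 2)
      rw [one_mul] at h3
      exact h3
    · rw [Real.norm_eq_abs, abs_mul, abs_of_nonneg (dyFl_w_nonneg n x),
        abs_of_nonneg (sq_nonneg _)]
      exact mul_le_of_le_one_left (sq_nonneg _) (dyFl_w_le n x)
  have h5 : Tendsto (fun n => |∑ x ∈ dyFlB d n, dyFlw n x * ‖θ s x‖ ^ 2 -
      ∑ x ∈ dyFlB d n, dyFlw n x * ‖θ 0 x‖ ^ 2|) atTop
      (𝓝 |∑' x, ‖θ s x‖ ^ 2 - ∑' x, ‖θ 0 x‖ ^ 2|) :=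
    ((hlim s hsT).sub (hlim 0 h0T)).abs
  have h6 : Tendsto (fun n : ℕ => 2 * d * C / ((n : ℝ) + 1) * |s|) atTop (𝓝 (0 * |s|)) := by
    refine Tendsto.mul_const _ ?_
    have h2 : Tendsto (fun n : ℕ => (n : ℝ) + 1) atTop atTop :=
      tendsto_atTop_add_const_right _ _ tendsto_natCast_atTop_atTop
    exact tendsto_const_nhds.div_atTop h2
  rw [zero_mul] at h6
  have h7 := le_of_tendsto_of_tendsto' h5 h6 hbd
  have h8 := abs_eq_zero.1 (le_antisymm h7 (abs_nonneg _))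
  linarith

theorem ev_unique {d : ℕ} {W : Zd d → ℝ} {a : Zd d} {ψ φ : ℝ → Zd d → ℂ} (h : Ev d W a ψ)
    (h' : Ev d W a φ) : ψ = φ := by
  have hode : ∀ s x, HasDerivAt (fun s => (fun s x => ψ s x - φ s x) s x)
      (-Complex.I * (S ((fun s x => ψ s x - φ s x) s) x +
        (W x : ℂ) * (fun s x => ψ s x - φ s x) s x)) s := by
    intro s x
    have h1 := (h.ode s x).sub (h'.ode s x)
    have h2 : -Complex.I * (S ((fun s x => ψ s x - φ s x) s) x +
        (W x : ℂ) * (fun s x => ψ s x - φ s x) s x) =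
        -Complex.I * (S (ψ s) x + (W x : ℂ) * ψ s x) -
          -Complex.I * (S (φ s) x + (W x : ℂ) * φ s x) := by
      have h3 : S ((fun s x => ψ s x - φ s x) s) x = S (ψ s) x - S (φ s) x := by
        unfold S
        rw [← Finset.sum_sub_distrib]
        refine Finset.sum_congr rfl fun i _ => ?_
        ring
      rw [h3]
      ring
    rw [h2]
    exact h1
  have hsum : ∀ s, Summable (fun x => ‖(fun s x => ψ s x - φ s x) s x‖ ^ 2) ∧
      ∑' x, ‖(fun s x => ψ s x - φ s x) s x‖ ^ 2 ≤ 4 := by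
    intro s
    have h1 := h.norm s
    have h2 := h'.norm s
    have h3 := (h1.mul_left 2).add (h2.mul_left 2)
    have h4 : ∀ x, ‖ψ s x - φ s x‖ ^ 2 ≤ 2 * ‖ψ s x‖ ^ 2 + 2 * ‖φ s x‖ ^ 2 := by
      intro x
      have h5 := norm_sub_le (ψ s x) (φ s x)
      have h6 := norm_nonneg (ψ s x - φ s x)
      nlinarith [sq_nonneg (‖ψ s x‖ - ‖φ s x‖), norm_nonneg (ψ s x), norm_nonneg (φ s x)]
    have h5 : Summable (fun x => ‖ψ s x - φ s x‖ ^ 2) :=
      Summable.of_nonneg_of_le (fun _ => sq_nonneg _) h4 h3.summable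
    refine ⟨h5, ?_⟩
    refine (h5.tsum_le_tsum h4 h3.summable).trans ?_
    rw [h3.tsum_eq]
    norm_num
  funext s x
  have h1 := flux (W := W) (θ := fun s x => ψ s x - φ s x) hode (C := 4) (T := |s|)
    (fun t _ => hsum t) s ⟨neg_abs_le s, le_abs_self s⟩
  have h2 : ∑' x, ‖(fun s x => ψ s x - φ s x) 0 x‖ ^ 2 = 0 := by
    have h3 : (fun x => ‖(fun s x => ψ s x - φ s x) 0 x‖ ^ 2) = fun _ => (0 : ℝ) := by
      funext x
      show ‖ψ 0 x - φ 0 x‖ ^ 2 = 0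
      rw [h.init x, h'.init x, sub_self, norm_zero]
      norm_num
    rw [h3, tsum_zero]
  rw [h2] at h1
  have h3 := (hsum s).1.hasSum
  rw [h1] at h3
  have h4 := (hasSum_zero_iff_of_nonneg (fun x => sq_nonneg _)).1 h3
  have h5 : ‖ψ s x - φ s x‖ ^ 2 = 0 := congrFun h4 x
  have h6 : ‖ψ s x - φ s x‖ = 0 := by
    rcases pow_eq_zero_iff (two_ne_zero) |>.1 h5 with h7
    exact h7
  exact sub_eq_zero.1 (norm_eq_zero.1 h6)

end Pool.Agent.H989.DY
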