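import Pool.Agent.H989.DY.Defs

/-!
# DyLink: time averages of the evolution and the resolvent

Let `ψ` be the evolution for `S + W` (`Ev`) and `R` a family with `u = R z f` whenever `(S + W - z) u = f` pointwise,
`f, u ∈ ℓ²`. Let `η = 1 / T`.
(1) The complex conjugate `φ(s) x = conj (ψ s x)` is a `Sol d (fun x => -W x) a φ`
    (`Pool.Agent.TH794.QD.Sol`, file `Pool/Graph/R_seed8/TH794/QD/Lap.lean`).
    Its Laplace transform `w(E) = i La φ E η` satisfies `-S w - W w - (E + iη) w = δ_a` (`La_eq`), `w ∈ ℓ²` (`La_sum`). So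
    `S w + W w - (-E - iη) w = -δ_a`, `w = -R(-E - iη) (dv a)`, `‖La φ E η x‖ = ‖R ⟨-E, -η⟩ (dv a) x‖`.
(2) `‖R z̄ (dv a) x‖ = ‖R z (dv a) x‖`: `R z̄ (dv a)` is the pointwise complex conjugate of `R z (dv a)` by the
    uniqueness in `hres` (the conjugate of `R z (dv a)`, which solves `(S + W - z) u = dv a` by `hsol`, solves the
    equation at `z̄`). So `‖La φ E η x‖ = ‖R ⟨-E, η⟩ (dv a) x‖`, and the integral over all `E` is symmetric.
(3) `Pool.Agent.Q62.QD.site_lint`: `∫⁻ E, ‖La φ E η x‖ₑ² = 2π ∫⁻_0^∞ exp(-2 η s) ‖φ s x‖² ds`; sum over `x ∈ F`: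
    `∫⁻ E, (η/π) ∑_{x∈F} ‖R ⟨E,η⟩ (dv a) x‖² = 2 η ∫⁻_0^∞ exp(-2 η s) ∑_{x ∈ F} ‖ψ s x‖² ds`.
(4) For `0 ≤ s ≤ T`: `1 ≤ exp(2) exp(-2 s/T)`, so `(1/T) ∫_0^T ∑_F ‖ψ‖² ≤ (exp 2 / 2) · 2 η ∫_0^∞ exp(-2 η s) ∑_F ‖ψ‖²`, and
    `exp 2 / 2 ≤ 4` (`Real.exp_one_lt_d9`).
-/

open MeasureTheory
open scoped InnerProductSpace

namespace Pool.Agent.H989.DY

open Pool.Agent.W788.LD.Spec (S)
open Pool.Agent.H4R2.LO (Zd)

theorem DyLink_dv {ι : Type} (a x : ι) [Decidable (x = a)] :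
    (dv a) x = if x = a then (1 : ℂ) else 0 := by
  classical
  unfold dv
  by_cases h : x = a
  · subst h
    rw [if_pos rfl]
    exact lp.single_apply_self _ _ _
  · rw [if_neg h]
    exact lp.single_apply_ne _ _ _ h

theorem DyLink_S {d : ℕ} (u : Zd d → ℂ) (x : Zd d) :
    S (fun y => starRingEnd ℂ (u y)) x = starRingEnd ℂ (S u x) := by
  unfold S
  rw [map_sum]
  exact Finset.sum_congr rfl fun i _ => (map_add _ _ _).symm

theorem DyLink_Sneg {d : ℕ} (u : Zd d → ℂ) (x : Zd d) :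
    S (fun y => -u y) x = -S u x := by
  unfold S
  rw [← Finset.sum_neg_distrib]
  exact Finset.sum_congr rfl fun i _ => by ring

theorem DyLink_sol {d : ℕ} {W : Zd d → ℝ} {a : Zd d} {ψ : ℝ → Zd d → ℂ} (h : Ev d W a ψ) :
    Pool.Agent.TH794.QD.Sol d (fun x => -W x) a (fun s x => starRingEnd ℂ (ψ s x)) where
  init x := by
    show starRingEnd ℂ (ψ 0 x) = _
    rw [h.init x]
    split_ifs
    · exact map_one _
    · exact map_zero _
  ode s x := by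
    have h2 : HasDerivAt (fun s => starRingEnd ℂ (ψ s x))
        (starRingEnd ℂ (-Complex.I * (S (ψ s) x + (W x : ℂ) * ψ s x))) s := (h.ode s x).star
    refine h2.congr_deriv ?_
    rw [DyLink_S]
    simp only [map_mul, map_add, map_neg, Complex.conj_I, Complex.conj_ofReal, Complex.ofReal_neg]
    ring
  norm s := by
    have e : (fun x => ‖starRingEnd ℂ (ψ s x)‖ ^ 2) = fun x => ‖ψ s x‖ ^ 2 :=
      funext fun x => by rw [RCLike.norm_conj]
    show HasSum (fun x => ‖starRingEnd ℂ (ψ s x)‖ ^ 2) 1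
    rw [e]
    exact h.norm s

theorem DyLink_conj {d : ℕ} {W : Zd d → ℝ} {a : Zd d}
    {R : ℂ → LL (Zd d) →L[ℂ] LL (Zd d)}
    (hsol : ∀ z : ℂ, z.im ≠ 0 → ∀ (f : LL (Zd d)) (x : Zd d),
      S (fun y => R z f y) x + (W x : ℂ) * R z f x - z * R z f x = f x)
    (hres : ∀ z : ℂ, z.im ≠ 0 → ∀ f u : LL (Zd d),
      (∀ x, S (fun y => u y) x + (W x : ℂ) * u x - z * u x = f x) → u = R z f)
    {z : ℂ} (hz : z.im ≠ 0) (x : Zd d) :
    ‖R (starRingEnd ℂ z) (dv a) x‖ = ‖R z (dv a) x‖ := by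
  classical
  have hz' : (starRingEnd ℂ z).im ≠ 0 := by
    rw [Complex.conj_im]
    exact neg_ne_zero.2 hz
  have h1 : star (R z (dv a)) = R (starRingEnd ℂ z) (dv a) := by
    refine hres _ hz' (dv a) (star (R z (dv a))) fun x => ?_
    have h2 := congrArg (starRingEnd ℂ) (hsol z hz (dv a) x)
    have h3 : ∀ y, (star (R z (dv a)) : LL (Zd d)) y = starRingEnd ℂ (R z (dv a) y) :=
      fun y => lp.star_apply _ _
    simp only [h3]
    rw [DyLink_S]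
    rw [map_sub, map_add, map_mul, map_mul, Complex.conj_ofReal] at h2
    rw [h2, DyLink_dv]
    split_ifs
    · exact map_one _
    · exact map_zero _
  rw [← h1, lp.star_apply, norm_star]

theorem DyLink_La {d : ℕ} {W : Zd d → ℝ} {a : Zd d} {ψ : ℝ → Zd d → ℂ} (h : Ev d W a ψ)
    {R : ℂ → LL (Zd d) →L[ℂ] LL (Zd d)}
    (hsol : ∀ z : ℂ, z.im ≠ 0 → ∀ (f : LL (Zd d)) (x : Zd d),
      S (fun y => R z f y) x + (W x : ℂ) * R z f x - z * R z f x = f x)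
    (hres : ∀ z : ℂ, z.im ≠ 0 → ∀ f u : LL (Zd d),
      (∀ x, S (fun y => u y) x + (W x : ℂ) * u x - z * u x = f x) → u = R z f)
    {η : ℝ} (hη : 0 < η) (E : ℝ) (x : Zd d) :
    ‖Pool.Agent.TH794.QD.La (fun s x => starRingEnd ℂ (ψ s x)) (-E) η x‖ =
      ‖R ⟨E, η⟩ (dv a) x‖ := by
  classical
  obtain ⟨φ, hφ⟩ : ∃ φ : ℝ → Zd d → ℂ, φ = fun s x => starRingEnd ℂ (ψ s x) := ⟨_, rfl⟩
  have hs : Pool.Agent.TH794.QD.Sol d (fun x => -W x) a φ := by
    rw [hφ]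
    exact DyLink_sol h
  rw [← hφ]
  have hsum := Pool.Agent.TH794.QD.La_sum hs (-E) η hη
  have heq := fun y => Pool.Agent.TH794.QD.La_eq hs (-E) η hη y
  have hmem : Memℓp (fun y => -(Complex.I * Pool.Agent.TH794.QD.La φ (-E) η y)) 2 := by
    rw [memℓp_gen_iff (by norm_num)]
    refine hsum.congr fun y => ?_
    rw [norm_neg]
    simp
  obtain ⟨u, hu⟩ : ∃ u : LL (Zd d), ∀ y, u y = -(Complex.I * Pool.Agent.TH794.QD.La φ (-E) η y) :=
    ⟨⟨_, hmem⟩, fun _ => rfl⟩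
  have hz : (starRingEnd ℂ (⟨E, η⟩ : ℂ)).im ≠ 0 := by
    rw [Complex.conj_im]
    exact neg_ne_zero.2 hη.ne'
  have h1 : u = R (starRingEnd ℂ ⟨E, η⟩) (dv a) := by
    refine hres _ hz (dv a) u fun y => ?_
    simp only [hu]
    rw [DyLink_Sneg, DyLink_dv, ← heq y]
    have e : (starRingEnd ℂ (⟨E, η⟩ : ℂ)) = (E : ℂ) - η * Complex.I := by
      apply Complex.ext <;> simp
    rw [e]
    push_cast
    ring
  rw [← DyLink_conj hsol hres (z := ⟨E, η⟩) hη.ne' x, ← h1, hu, norm_neg, norm_mul, Complex.norm_I,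
    one_mul]

theorem link {d : ℕ} {W : Zd d → ℝ} {a : Zd d} {ψ : ℝ → Zd d → ℂ} (h : Ev d W a ψ)
    {R : ℂ → LL (Zd d) →L[ℂ] LL (Zd d)}
    (hsol : ∀ z : ℂ, z.im ≠ 0 → ∀ (f : LL (Zd d)) (x : Zd d),
      S (fun y => R z f y) x + (W x : ℂ) * R z f x - z * R z f x = f x)
    (hres : ∀ z : ℂ, z.im ≠ 0 → ∀ f u : LL (Zd d),
      (∀ x, S (fun y => u y) x + (W x : ℂ) * u x - z * u x = f x) → u = R z f)
    (F : Finset (Zd d)) {T : ℝ} (hT : 0 < T) :
    ENNReal.ofReal ((1 / T) * ∫ s in (0:ℝ)..T, ∑ x ∈ F, ‖ψ s x‖ ^ 2) ≤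
      4 * ∫⁻ E : ℝ, ENNReal.ofReal ((1 / T) / Real.pi * ∑ x ∈ F, ‖R ⟨E, 1 / T⟩ (dv a) x‖ ^ 2) := by
  obtain ⟨η, hη⟩ : ∃ η : ℝ, η = 1 / T := ⟨_, rfl⟩
  have hη0 : 0 < η := by rw [hη]; positivity
  rw [← hη]
  have hs := DyLink_sol h
  have hcont : ∀ x, Continuous fun s => ψ s x := fun x =>
    continuous_iff_continuousAt.2 fun s => (h.ode s x).continuousAt
  have hpi := Real.pi_pos
  -- the right side
  have hR : ∫⁻ E : ℝ, ENNReal.ofReal (η / Real.pi * ∑ x ∈ F, ‖R ⟨E, η⟩ (dv a) x‖ ^ 2) =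
      ∑ x ∈ F, ENNReal.ofReal (2 * η) *
        ∫⁻ s in Set.Ioi (0 : ℝ), ENNReal.ofReal (Real.exp (-(2 * η) * s) * ‖ψ s x‖ ^ 2) := by
    have e1 : ∀ E : ℝ, ENNReal.ofReal (η / Real.pi * ∑ x ∈ F, ‖R ⟨E, η⟩ (dv a) x‖ ^ 2) =
        (fun E' : ℝ => ∑ x ∈ F, ENNReal.ofReal (η / Real.pi) *
          ‖Pool.Agent.TH794.QD.La (fun s x => starRingEnd ℂ (ψ s x)) E' η x‖ₑ ^ 2) (-E) := by
      intro E
      show _ = ∑ x ∈ F, ENNReal.ofReal (η / Real.pi) *
          ‖Pool.Agent.TH794.QD.La (fun s x => starRingEnd ℂ (ψ s x)) (-E) η x‖ₑ ^ 2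
      rw [ENNReal.ofReal_mul (by positivity), ENNReal.ofReal_sum_of_nonneg fun x _ => sq_nonneg _,
        Finset.mul_sum]
      refine Finset.sum_congr rfl fun x _ => ?_
      rw [← DyLink_La h hsol hres hη0 E x, ENNReal.ofReal_pow (norm_nonneg _), ofReal_norm]
    simp only [e1]
    rw [lintegral_neg_eq_self (μ := volume) (fun E' : ℝ => ∑ x ∈ F, ENNReal.ofReal (η / Real.pi) *
          ‖Pool.Agent.TH794.QD.La (fun s x => starRingEnd ℂ (ψ s x)) E' η x‖ₑ ^ 2)]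
    rw [lintegral_finsetSum]
    · refine Finset.sum_congr rfl fun x _ => ?_
      rw [lintegral_const_mul' _ _ ENNReal.ofReal_ne_top,
        Pool.Agent.Q62.QD.site_lint hs η hη0 x, ← mul_assoc, ← ENNReal.ofReal_mul (by positivity)]
      have e2 : η / Real.pi * (2 * Real.pi) = 2 * η := by
        field_simp
      rw [e2]
      congr 1
      refine lintegral_congr fun s => ?_
      rw [RCLike.norm_conj]
    · intro x _
      exact ((Pool.Agent.Q62.QD.La_cont hs η hη0 x).measurable.enorm.pow_const 2).const_mul _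
  rw [hR]
  -- the left side
  have hL : ENNReal.ofReal (η * ∫ s in (0:ℝ)..T, ∑ x ∈ F, ‖ψ s x‖ ^ 2) =
      ∑ x ∈ F, ENNReal.ofReal η * ENNReal.ofReal (∫ s in (0:ℝ)..T, ‖ψ s x‖ ^ 2) := by
    have hi : ∀ x ∈ F, IntervalIntegrable (fun s => ‖ψ s x‖ ^ 2) volume 0 T := fun x _ =>
      ((hcont x).norm.pow 2).intervalIntegrable _ _
    rw [intervalIntegral.integral_finsetSum hi, ENNReal.ofReal_mul hη0.le,
      ENNReal.ofReal_sum_of_nonneg, Finset.mul_sum]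
    intro x _
    exact intervalIntegral.integral_nonneg hT.le fun s _ => sq_nonneg _
  rw [hL, Finset.mul_sum]
  refine Finset.sum_le_sum fun x _ => ?_
  have h8 : ∀ s ∈ Set.Ioc (0 : ℝ) T, (1 : ℝ) ≤ 8 * Real.exp (-(2 * η) * s) := by
    intro s hs'
    have h1 : 2 * η * s ≤ 2 := by
      have : η * s ≤ 1 := by
        rw [hη, one_div, inv_mul_le_iff₀ hT, mul_one]
        exact hs'.2
      linarith
    have h2 : Real.exp (2 * η * s) ≤ 8 := by
      calc Real.exp (2 * η * s) ≤ Real.exp 2 := Real.exp_le_exp.2 h1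
        _ = Real.exp 1 ^ 2 := by rw [← Real.exp_nat_mul]; norm_num
        _ ≤ 8 := by
          have := Real.exp_one_lt_d9
          have h0 := Real.exp_pos 1
          nlinarith
    rw [neg_mul, Real.exp_neg]
    have h3 := Real.exp_pos (2 * η * s)
    rw [← div_eq_mul_inv, le_div_iff₀ h3, one_mul]
    exact h2
  have h9 : ENNReal.ofReal (∫ s in (0:ℝ)..T, ‖ψ s x‖ ^ 2) ≤ ENNReal.ofReal 8 *
      ∫⁻ s in Set.Ioi (0 : ℝ), ENNReal.ofReal (Real.exp (-(2 * η) * s) * ‖ψ s x‖ ^ 2) := by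
    rw [intervalIntegral.integral_of_le hT.le, ofReal_integral_eq_lintegral_ofReal]
    · rw [← lintegral_const_mul' _ _ ENNReal.ofReal_ne_top]
      refine le_trans ?_ (lintegral_mono_set (fun s hs' => hs'.1 : Set.Ioc (0 : ℝ) T ⊆ Set.Ioi 0))
      refine setLIntegral_mono_ae' measurableSet_Ioc (Filter.Eventually.of_forall fun s hs' => ?_)
      rw [← ENNReal.ofReal_mul (by norm_num)]
      refine ENNReal.ofReal_le_ofReal ?_
      have := mul_le_mul_of_nonneg_right (h8 s hs') (sq_nonneg ‖ψ s x‖)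
      linarith
    · exact (((hcont x).norm.pow 2).integrableOn_Icc (a := 0) (b := T)).mono_set
        Set.Ioc_subset_Icc_self
    · exact Filter.Eventually.of_forall fun s => sq_nonneg _
  calc ENNReal.ofReal η * ENNReal.ofReal (∫ s in (0:ℝ)..T, ‖ψ s x‖ ^ 2)
      ≤ ENNReal.ofReal η * (ENNReal.ofReal 8 *
        ∫⁻ s in Set.Ioi (0 : ℝ), ENNReal.ofReal (Real.exp (-(2 * η) * s) * ‖ψ s x‖ ^ 2)) := by
        gcongr
    _ = 4 * (ENNReal.ofReal (2 * η) *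
        ∫⁻ s in Set.Ioi (0 : ℝ), ENNReal.ofReal (Real.exp (-(2 * η) * s) * ‖ψ s x‖ ^ 2)) := by
        rw [← mul_assoc, ← mul_assoc, ← ENNReal.ofReal_mul hη0.le]
        congr 1
        rw [show (4 : ENNReal) = ENNReal.ofReal 4 by norm_num, ← ENNReal.ofReal_mul (by norm_num)]
        congr 1
        ring

end Pool.Agent.H989.DY
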