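import Pool.Agent.H989.DY.DyFl

/-!
# DyLoc: dynamical localization from the eigenfunctions

(You may use `flux` of `DyFl`, proved by another seat.) Let
`φ(t) = ψ(t) - ∑_j e^{-i t E_j} conj (u_j a) u_j`. It solves the same equation pointwise (`S` is linear, `(S + W) u_j = E_j u_j`),
its norms are summable and bounded (`‖φ‖² ≤ 2 + 2 ∑_j ‖u_j a‖² ≤ 4` by Bessel), so by `flux` (on `[-T, T]`, `T = |t|`)
`‖φ(t)‖² = ‖φ(0)‖² = ‖δ_a - ∑_j conj (u_j a) u_j‖² = 1 - ∑_j ‖u_j a‖² ≤ h'` (orthonormality). For `y ∈ F`: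
`‖ψ t y‖² ≤ 2 ‖∑_j θ_j conj (u_j a) u_j y‖² + 2 ‖φ t y‖²`, `θ_j = e^{-i t E_j}`.
-/

open MeasureTheory
open scoped InnerProductSpace

namespace Pool.Agent.H989.DY

open Pool.Agent.W788.LD.Spec (S)
open Pool.Agent.H4R2.LO (Zd)

theorem dyLoc_hasSum {ι : Type} (f : LL ι) : HasSum (fun x => ‖f x‖ ^ 2) (‖f‖ ^ 2) := by
  have h := lp.hasSum_norm (p := 2) (by norm_num) f
  simpa using h

theorem dyLoc_inner {ι : Type} (f : LL ι) (a : ι) : ⟪f, dv a⟫_ℂ = starRingEnd ℂ (f a) := by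
  classical
  unfold dv
  rw [lp.inner_single_right]
  simp

theorem dyLoc_norm_dv {ι : Type} (a : ι) : ‖(dv a : LL ι)‖ = 1 := by
  classical
  unfold dv
  rw [lp.norm_single (by norm_num)]
  simp

theorem dyLoc_dv_self {ι : Type} (a : ι) : (dv a : LL ι) a = 1 := by
  classical
  unfold dv
  rw [lp.single_apply]
  simp

theorem dyLoc_dv_ne {ι : Type} {a x : ι} (h : x ≠ a) : (dv a : LL ι) x = 0 := by
  classical
  unfold dv
  rw [lp.single_apply]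
  simp [h]

theorem dyLoc_bessel {ι : Type} {n : ℕ} (u : Fin n → LL ι) (hu : Orthonormal ℂ u) (x : LL ι) :
    ‖x - ∑ i, ⟪u i, x⟫_ℂ • u i‖ ^ 2 = ‖x‖ ^ 2 - ∑ i, ‖⟪u i, x⟫_ℂ‖ ^ 2 := by
  have h₂ : (∑ i, ∑ j, ⟪u i, x⟫_ℂ * ⟪x, u j⟫_ℂ * ⟪u j, u i⟫_ℂ) =
      (∑ k, ⟪u k, x⟫_ℂ * ⟪x, u k⟫_ℂ : ℂ) := hu.inner_left_right_finset
  have h₃ : ∀ z : ℂ, RCLike.re (z * starRingEnd ℂ z) = ‖z‖ ^ 2 := by
    intro z
    simp only [RCLike.mul_conj]
    norm_cast
  rw [@norm_sub_sq ℂ, sub_add]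
  simp only [@InnerProductSpace.norm_sq_eq_re_inner ℂ (LL ι), inner_sum, sum_inner]
  simp only [inner_smul_right, two_mul, inner_smul_left, inner_conj_symm, ← mul_assoc, h₂,
    add_sub_cancel_right, sub_right_inj]
  simp only [map_sum, ← inner_conj_symm x, ← h₃]

theorem dyLoc_norm_comb {ι : Type} {n : ℕ} (u : Fin n → LL ι) (hu : Orthonormal ℂ u)
    (c : Fin n → ℂ) : ‖∑ i, c i • u i‖ ^ 2 = ∑ i, ‖c i‖ ^ 2 := by
  have h₃ : ∀ z : ℂ, RCLike.re (starRingEnd ℂ z * z) = ‖z‖ ^ 2 := by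
    intro z
    simp only [RCLike.conj_mul]
    norm_cast
  rw [@InnerProductSpace.norm_sq_eq_re_inner ℂ (LL ι), hu.inner_sum, map_sum]
  exact Finset.sum_congr rfl fun i _ => h₃ _

theorem dyLoc_apply {ι : Type} {n : ℕ} (u : Fin n → LL ι) (c : Fin n → ℂ) (x : ι) :
    (∑ i, c i • u i : LL ι) x = ∑ i, c i * u i x := by
  rw [lp.coeFn_sum, Finset.sum_apply]
  refine Finset.sum_congr rfl fun i _ => ?_
  rw [lp.coeFn_smul, Pi.smul_apply, smul_eq_mul]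

theorem dyLoc_S_sub {d n : ℕ} (ψ : Zd d → ℂ) (c : Fin n → ℂ) (u : Fin n → Zd d → ℂ) (x : Zd d) :
    S (fun y => ψ y - ∑ j, c j * u j y) x = S ψ x - ∑ j, c j * S (u j) x := by
  unfold S
  simp only [Finset.mul_sum]
  rw [Finset.sum_comm, ← Finset.sum_sub_distrib]
  refine Finset.sum_congr rfl fun i _ => ?_
  simp only [mul_add, Finset.sum_add_distrib]
  ring

theorem loc_comb {d : ℕ} {W : Zd d → ℝ} {a : Zd d} {ψ : ℝ → Zd d → ℂ} (h : Ev d W a ψ)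
    {n : ℕ} (u : Fin n → LL (Zd d)) (E : Fin n → ℝ) (hu : Orthonormal ℂ u)
    (hE : ∀ j x, S (fun y => u j y) x + (W x : ℂ) * u j x = E j * u j x)
    {η η' : ℝ} (hm : 1 - η' ≤ ∑ j, ‖u j a‖ ^ 2) (F : Finset (Zd d))
    (hF : ∀ θ : Fin n → ℂ, (∀ j, ‖θ j‖ ≤ 1) →
      ∑ y ∈ F, ‖∑ j, θ j * (starRingEnd ℂ (u j a) * u j y)‖ ^ 2 ≤ η) (t : ℝ) :
    ∑ y ∈ F, ‖ψ t y‖ ^ 2 ≤ 2 * η + 2 * η' := by
  obtain ⟨c, hc⟩ : ∃ c : Fin n → ℂ, ∀ j, c j = starRingEnd ℂ (u j a) := ⟨_, fun _ => rfl⟩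
  obtain ⟨e, he⟩ : ∃ e : ℝ → Fin n → ℂ,
    ∀ s j, e s j = Complex.exp (((-(s * E j) : ℝ) : ℂ) * Complex.I) := ⟨_, fun _ _ => rfl⟩
  have hen : ∀ s j, ‖e s j‖ = 1 := fun s j => by rw [he, Complex.norm_exp_ofReal_mul_I]
  have hed : ∀ s j, HasDerivAt (fun s => e s j) (e s j * (-(E j : ℂ) * Complex.I)) s := by
    intro s j
    have h1 : HasDerivAt (fun s : ℝ => (((-(s * E j) : ℝ) : ℂ) * Complex.I))
        (-(E j : ℂ) * Complex.I) s := by
      have h2 := (((hasDerivAt_id s).mul_const (E j)).neg.ofReal_comp).mul_const Complex.I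
      simpa using h2
    have h3 := h1.cexp
    have h4 : (fun s => e s j) =
        fun s : ℝ => Complex.exp (((-(s * E j) : ℝ) : ℂ) * Complex.I) := by
      funext s
      exact he s j
    rw [h4, he s j]
    exact h3
  have hin : ∀ j, ⟪u j, dv a⟫_ℂ = c j := fun j => by rw [dyLoc_inner, hc]
  have hcn : ∑ j, ‖c j‖ ^ 2 ≤ 1 := by
    have h1 := hu.sum_inner_products_le (dv a) (s := Finset.univ)
    simp only [hin, dyLoc_norm_dv] at h1
    simpa using h1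
  have hca : ∑ j, ‖c j‖ ^ 2 = ∑ j, ‖u j a‖ ^ 2 := by
    refine Finset.sum_congr rfl fun j _ => ?_
    rw [hc, Complex.norm_conj]
  obtain ⟨V, hV⟩ : ∃ V : ℝ → LL (Zd d), ∀ s, V s = ∑ j, (e s j * c j) • u j := ⟨_, fun _ => rfl⟩
  have hVx : ∀ s x, V s x = ∑ j, (e s j * c j) * u j x := fun s x => by
    rw [hV, dyLoc_apply]
  have hVn : ∀ s, ‖V s‖ ^ 2 ≤ 1 := by
    intro s
    rw [hV, dyLoc_norm_comb u hu]
    refine le_trans (le_of_eq ?_) hcn
    refine Finset.sum_congr rfl fun j _ => ?_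
    rw [norm_mul, hen, one_mul]
  obtain ⟨φ, hφ⟩ : ∃ φ : ℝ → Zd d → ℂ, ∀ s x, φ s x = ψ s x - V s x := ⟨_, fun _ _ => rfl⟩
  have hφs : ∀ s, φ s = fun y => ψ s y - ∑ j, (e s j * c j) * u j y := fun s => by
    funext y
    rw [hφ, hVx]
  have hode : ∀ s x, HasDerivAt (fun s => φ s x)
      (-Complex.I * (S (φ s) x + (W x : ℂ) * φ s x)) s := by
    intro s x
    have h1 : HasDerivAt (fun s => ∑ j, (e s j * c j) * u j x)
        (∑ j, (e s j * (-(E j : ℂ) * Complex.I) * c j) * u j x) s :=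
      HasDerivAt.fun_sum fun j _ => ((hed s j).mul_const (c j)).mul_const (u j x)
    have h2 := (h.ode s x).sub h1
    have h3 : (fun s => φ s x) = (fun s => ψ s x) - fun s => ∑ j, (e s j * c j) * u j x := by
      funext s
      rw [hφ, hVx]
      rfl
    rw [h3]
    refine h2.congr_deriv ?_
    have h4 := dyLoc_S_sub (ψ s) (fun j => e s j * c j) (fun j y => u j y) x
    rw [hφs s, h4]
    have h5 : ∑ j, (e s j * (-(E j : ℂ) * Complex.I) * c j) * u j x =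
        -Complex.I * ∑ j, (e s j * c j) * (S (fun y => u j y) x + (W x : ℂ) * u j x) := by
      rw [Finset.mul_sum]
      refine Finset.sum_congr rfl fun j _ => ?_
      rw [hE]
      ring
    rw [h5]
    simp only [mul_add, Finset.sum_add_distrib]
    have h6 : ∑ j, e s j * c j * ((W x : ℂ) * u j x) = (W x : ℂ) * ∑ j, e s j * c j * u j x := by
      rw [Finset.mul_sum]
      refine Finset.sum_congr rfl fun j _ => ?_
      ring
    rw [h6]
    ring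
  have hsq : ∀ z w : ℂ, ‖z - w‖ ^ 2 ≤ 2 * ‖z‖ ^ 2 + 2 * ‖w‖ ^ 2 := by
    intro z w
    have h1 := norm_sub_le z w
    have h2 : ‖z - w‖ ^ 2 ≤ (‖z‖ + ‖w‖) ^ 2 := pow_le_pow_left₀ (norm_nonneg _) h1 2
    nlinarith [sq_nonneg (‖z‖ - ‖w‖)]
  have hsum : ∀ s, Summable (fun x => ‖φ s x‖ ^ 2) ∧ ∑' x, ‖φ s x‖ ^ 2 ≤ 4 := by
    intro s
    have h1 : HasSum (fun x => 2 * ‖ψ s x‖ ^ 2 + 2 * ‖V s x‖ ^ 2) (2 * 1 + 2 * ‖V s‖ ^ 2) :=
      ((h.norm s).mul_left 2).add ((dyLoc_hasSum (V s)).mul_left 2)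
    have h2 : ∀ x, ‖φ s x‖ ^ 2 ≤ 2 * ‖ψ s x‖ ^ 2 + 2 * ‖V s x‖ ^ 2 := fun x => by
      rw [hφ]
      exact hsq _ _
    have h3 : Summable (fun x => ‖φ s x‖ ^ 2) :=
      Summable.of_nonneg_of_le (fun x => by positivity) h2 h1.summable
    refine ⟨h3, ?_⟩
    have h4 := h3.tsum_le_tsum h2 h1.summable
    rw [h1.tsum_eq] at h4
    have h5 := hVn s
    linarith
  have hφ0 : ∑' x, ‖φ 0 x‖ ^ 2 ≤ η' := by
    have h1 : ∀ x, φ 0 x = (dv a - V 0 : LL (Zd d)) x := by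
      intro x
      rw [hφ, h.init, lp.coeFn_sub, Pi.sub_apply]
      congr 1
      by_cases hx : x = a
      · subst hx
        rw [dyLoc_dv_self, if_pos rfl]
      · rw [dyLoc_dv_ne hx, if_neg hx]
    have h2 : (dv a - V 0 : LL (Zd d)) = dv a - ∑ j, ⟪u j, dv a⟫_ℂ • u j := by
      rw [hV]
      congr 1
      refine Finset.sum_congr rfl fun j _ => ?_
      rw [hin, he]
      simp
    have h3 : ∑' x, ‖φ 0 x‖ ^ 2 = ‖(dv a - V 0 : LL (Zd d))‖ ^ 2 := by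
      rw [← (dyLoc_hasSum (dv a - V 0 : LL (Zd d))).tsum_eq]
      exact tsum_congr fun x => by rw [h1]
    rw [h3, h2, dyLoc_bessel u hu, dyLoc_norm_dv]
    simp only [hin]
    rw [hca]
    linarith
  have hfl := flux (T := |t|) (C := 4) hode (fun s _ => hsum s) t ⟨neg_abs_le t, le_abs_self t⟩
  have hφt : ∑ y ∈ F, ‖φ t y‖ ^ 2 ≤ η' := by
    refine le_trans ((hsum t).1.sum_le_tsum F fun y _ => by positivity) ?_
    rw [hfl]
    exact hφ0
  have hFt : ∑ y ∈ F, ‖V t y‖ ^ 2 ≤ η := by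
    refine le_trans (le_of_eq ?_) (hF (e t) fun j => (hen t j).le)
    refine Finset.sum_congr rfl fun y _ => ?_
    rw [hVx]
    congr 2
    refine Finset.sum_congr rfl fun j _ => ?_
    rw [hc]
    ring
  calc ∑ y ∈ F, ‖ψ t y‖ ^ 2 ≤ ∑ y ∈ F, (2 * ‖V t y‖ ^ 2 + 2 * ‖φ t y‖ ^ 2) := by
        refine Finset.sum_le_sum fun y _ => ?_
        have h1 := hsq (V t y) (-φ t y)
        rw [norm_neg, sub_neg_eq_add] at h1
        have h2 : V t y + φ t y = ψ t y := by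
          rw [hφ]
          ring
        rwa [h2] at h1
    _ = 2 * ∑ y ∈ F, ‖V t y‖ ^ 2 + 2 * ∑ y ∈ F, ‖φ t y‖ ^ 2 := by
        rw [Finset.sum_add_distrib, Finset.mul_sum, Finset.mul_sum]
    _ ≤ 2 * η + 2 * η' := by linarith

/-- the sign -/
noncomputable def dyLoc_sg {d : ℕ} (a x : Zd d) : ℂ := (-1) ^ (∑ i, (x i - a i))

theorem dyLoc_sg_add {d : ℕ} (a x : Zd d) (i : Fin d) :
    dyLoc_sg a (x + Pi.single i 1) = - dyLoc_sg a x := by
  unfold dyLoc_sg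
  have h1 : ∑ k, ((x + Pi.single i 1 : Zd d) k - a k) = ∑ k, (x k - a k) + 1 := by
    have h2 : ∀ k, (x + Pi.single i 1 : Zd d) k - a k =
        (x k - a k) + (Pi.single i (1 : ℤ) : Zd d) k := by
      intro k
      rw [Pi.add_apply]
      ring
    simp only [h2, Finset.sum_add_distrib]
    rw [Finset.sum_pi_single']
    simp
  rw [h1, zpow_add_one₀ (by norm_num)]
  ring

theorem dyLoc_sg_sub {d : ℕ} (a x : Zd d) (i : Fin d) :
    dyLoc_sg a (x - Pi.single i 1) = - dyLoc_sg a x := by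
  have h := dyLoc_sg_add a (x - Pi.single i 1) i
  rw [sub_add_cancel] at h
  rw [h, neg_neg]

theorem dyLoc_sg_norm {d : ℕ} (a x : Zd d) : ‖dyLoc_sg a x‖ = 1 := by
  unfold dyLoc_sg
  rw [norm_zpow, norm_neg, norm_one, one_zpow]

/-- reflection of the sign of the potential: `φ s x = ± conj (ψ s x)`, the sign `(-1) ^ (∑ (x_i - a_i))` -/
theorem ev_neg {d : ℕ} {W : Zd d → ℝ} {a : Zd d} {ψ : ℝ → Zd d → ℂ} (h : Ev d W a ψ) :
    ∃ φ : ℝ → Zd d → ℂ, Ev d (fun x => -W x) a φ ∧ ∀ s x, ‖φ s x‖ = ‖ψ s x‖ := by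
  have hn : ∀ s x, ‖dyLoc_sg a x * starRingEnd ℂ (ψ s x)‖ = ‖ψ s x‖ := by
    intro s x
    rw [norm_mul, dyLoc_sg_norm, one_mul, Complex.norm_conj]
  refine ⟨fun s x => dyLoc_sg a x * starRingEnd ℂ (ψ s x), ⟨?_, ?_, ?_⟩, hn⟩
  · intro x
    rw [h.init]
    by_cases hx : x = a
    · subst hx
      simp [dyLoc_sg]
    · simp [hx]
  · intro s x
    have h1 : HasDerivAt (fun s => starRingEnd ℂ (ψ s x))
        (starRingEnd ℂ (-Complex.I * (S (ψ s) x + (W x : ℂ) * ψ s x))) s := (h.ode s x).star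
    have h2 := h1.const_mul (dyLoc_sg a x)
    refine h2.congr_deriv ?_
    have h3 : S (fun y => dyLoc_sg a y * starRingEnd ℂ (ψ s y)) x =
        - dyLoc_sg a x * starRingEnd ℂ (S (ψ s) x) := by
      unfold S
      rw [map_sum, Finset.mul_sum]
      refine Finset.sum_congr rfl fun i _ => ?_
      beta_reduce
      rw [dyLoc_sg_add, dyLoc_sg_sub, map_add]
      ring
    rw [h3]
    simp only [map_mul, map_neg, map_add, Complex.conj_I, Complex.conj_ofReal]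
    push_cast
    ring
  · intro s
    simp only [hn]
    exact h.norm s

end Pool.Agent.H989.DY
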