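import Pool.Agent.H989.DY.Gen
import Pool.Agent.H121.SD.GenL
import Pool.Agent.H121.SD.GenI

/-!
Dynamical localization, laws of bounded density.
-/

set_option linter.unusedSectionVars false
set_option linter.unusedVariables false

open MeasureTheory ProbabilityTheory Finset Filter
open scoped InnerProductSpace

namespace Pool.Agent.H989.DY

open Pool.Agent.H989.SB
open Pool.Agent.H121.SH Pool.Agent.H121.SD
open Pool.Agent.H987.Z (SqS IsSp)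
open Pool.Agent.W788.LD.Spec (S)
open Pool.Agent.H4R2.LO (Zd)

/-- `-Δ + σ ω` and `S + σ ω` have the same wave packets up to phases -/
lemma evU_ev {d : ℕ} {σ : ℝ} {ω : Zd d → ℝ} {a : Zd d} {ψ : ℝ → Zd d → ℂ}
    (h : EvU d (fun x => σ * ω x) a ψ) :
    ∃ φ : ℝ → Zd d → ℂ, Ev d (fun x => σ * ω x) a φ ∧ ∀ s x, ‖φ s x‖ = ‖ψ s x‖ := by
  have e1 : (fun x : Zd d => -(σ * ω x + 2 * d)) = fun x => (-(σ * ω x)) + -(2 * (d:ℝ)) := by
    funext x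
    ring
  have e2 := evU_conj h
  rw [e1] at e2
  have e3 := ev_shift e2
  obtain ⟨φ, hφ, hn⟩ := ev_neg e3
  simp only [neg_neg] at hφ
  refine ⟨φ, hφ, fun s x => ?_⟩
  rw [hn, norm_mul, Complex.norm_conj]
  have e : Complex.I * ((-(2 * (d:ℝ)) : ℝ) : ℂ) * (s:ℂ) = ((-(2 * (d:ℝ)) * s : ℝ) : ℂ) * Complex.I := by
    push_cast; ring
  rw [e, Complex.norm_exp_ofReal_mul_I, one_mul]

/-- the localized side at all energies -/
theorem locG0 {D ε : ℝ} (hD : 0 < D) (hε : 0 < ε) :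
    ∃ d₀ : ℕ, ∀ η : ℝ, 0 < η → ∃ R : ℕ, ∀ d : ℕ, d₀ ≤ d → ∀ lam : ℝ,
      (1 + ε) * (8 * D * (d * Real.log d)) ≤ lam →
      ∀ (μ : Measure ℝ) [IsProbabilityMeasure μ],
        (∀ A : Set ℝ, MeasurableSet A → μ A ≤ ENNReal.ofReal D * volume A) →
        μ (Set.Icc (-1) 1)ᶜ = 0 →
      ∀ a : Zd d, ∃ G : Set (Zd d → ℝ), MeasurableSet G ∧
        1 - η ≤ (Measure.infinitePi fun _ : Zd d => μ).real G ∧
        ∀ ω ∈ G, ∀ ψ : ℝ → Zd d → ℂ, EvU d (fun x => lam * ω x) a ψ →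
          ∀ (t : ℝ) (F : Finset (Zd d)), (∀ y ∈ F, (R : ℝ) < ∑ i, |(y i : ℝ)|) →
            ∑ y ∈ F, ‖ψ t (a + y)‖ ^ 2 ≤ η := by
  obtain ⟨d₁, γ, hγ, hloc⟩ := fin_gen D ε hD hε
  obtain ⟨d₂, hq⟩ := fin_genQ D ε hD hε
  refine ⟨max d₁ d₂, fun η hη => ?_⟩
  obtain ⟨R, hR⟩ := hq (η / 4) (by positivity)
  refine ⟨R, fun d hd lam hlam μ _ hμ hμ1 a => ?_⟩
  have g1 : d₁ ≤ d := le_trans (le_max_left _ _) hd
  have g2 : d₂ ≤ d := le_trans (le_max_right _ _) hd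
  obtain ⟨G, hG, hP, hG3⟩ := hR d g2 lam hlam μ hμ hμ1 a
  obtain ⟨GG, hGG1, hGG2, hGG3⟩ := three (η := η) hG MeasurableSet.univ (by linarith)
    (by rw [probReal_univ]; linarith) (hloc d g1 lam hlam μ hμ)
  refine ⟨GG, hGG1, hGG2, fun ω hω ψ hψ t F hF => ?_⟩
  obtain ⟨w1, -, w3⟩ := hGG3 ω hω
  have key := locU_point (η := η / 4) (a := a) (ω := fun x => lam * ω x) (by positivity) w3.1 F
    (fun n u E hu hE θ hθ => hG3 ω w1 n u E hu hE θ hθ F fun y hy => by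
      have h5 : ((R : ℤ) : ℝ) < ((∑ i, |y i| : ℤ) : ℝ) := by
        push_cast
        exact hF y hy
      exact_mod_cast h5) (evU_conj hψ) t
  simp only [Complex.norm_conj] at key
  linarith

/-- the localized side for the sites with `b ≤ |ω_a|`, `0 < b` -/
theorem locGb {D D' ε δ b : ℝ} (hD : 0 < D) (hD' : 0 < D') (hε : 0 < ε) (hδ : 0 < δ) :
    ∃ d₀ : ℕ, ∀ η : ℝ, 0 < η → ∃ R : ℕ, ∀ d : ℕ, d₀ ≤ d → R ≤ d → ∀ lam : ℝ,
      (1 + ε) * (8 * D * (d * Real.log d)) ≤ lam →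
      ∀ (μ : Measure ℝ) [IsProbabilityMeasure μ],
        (∀ A : Set ℝ, MeasurableSet A → μ A ≤ ENNReal.ofReal D' * volume A) →
        (∀ A : Set ℝ, MeasurableSet A → μ (A ∩ {v | b - δ < |v|}) ≤ ENNReal.ofReal D * volume A) →
        μ (Set.Icc (-1) 1)ᶜ = 0 →
      ∀ a : Zd d, ∃ G : Set (Zd d → ℝ), MeasurableSet G ∧
        1 - η ≤ (Measure.infinitePi fun _ : Zd d => μ).real G ∧
        ∀ ω ∈ G, b ≤ |ω a| → ∀ ψ : ℝ → Zd d → ℂ, EvU d (fun x => lam * ω x) a ψ →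
          ∀ (t : ℝ) (F : Finset (Zd d)), (∀ y ∈ F, (R : ℝ) < ∑ i, |(y i : ℝ)|) →
            ∑ y ∈ F, ‖ψ t (a + y)‖ ^ 2 ≤ η := by
  obtain ⟨d₁, γ, hγ, hloc⟩ := fin_genI D D' ε (δ / 2) (b - δ / 2) hD hD' hε (by positivity)
  obtain ⟨d₂, hq⟩ := fin_genIQ D D' ε (δ / 2) (b - δ / 2) hD hD' hε (by positivity)
  have hdb : b - δ / 2 - δ / 2 = b - δ := by ring
  rw [hdb] at hloc hq
  -- `2 d ≤ lam`
  obtain ⟨d₃, hd₃⟩ : ∃ d₃ : ℕ, ∀ d : ℕ, d₃ ≤ d → 1 ≤ 4 * D * Real.log d := by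
    have h1 : Tendsto (fun d : ℕ => 4 * D * Real.log d) atTop atTop :=
      (Real.tendsto_log_atTop.comp tendsto_natCast_atTop_atTop).const_mul_atTop (by positivity)
    exact eventually_atTop.1 (h1.eventually_ge_atTop 1)
  obtain ⟨δ₁, hδ₁d⟩ : ∃ δ₁, δ₁ = min δ 1 := ⟨_, rfl⟩
  have hδ₁ : 0 < δ₁ := by rw [hδ₁d]; positivity
  have hδ₁1 : δ₁ ≤ 1 := by rw [hδ₁d]; exact min_le_right _ _
  have hδ₁δ : δ₁ ≤ δ := by rw [hδ₁d]; exact min_le_left _ _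
  refine ⟨max (max d₁ d₂) (max d₃ 1), fun η hη => ?_⟩
  obtain ⟨R, hR⟩ := hq (η / 4) (by positivity)
  obtain ⟨m, hm⟩ : ∃ m : ℕ, 16 / (δ₁ ^ 2 * η) < m := exists_nat_gt _
  refine ⟨max R m, fun d hd hRd lam hlam μ _ hμ hμb hμ1 a => ?_⟩
  have g1 : d₁ ≤ d := le_trans (le_trans (le_max_left _ _) (le_max_left _ _)) hd
  have g2 : d₂ ≤ d := le_trans (le_trans (le_max_right _ _) (le_max_left _ _)) hd
  have g3 : d₃ ≤ d := le_trans (le_trans (le_max_left _ _) (le_max_right _ _)) hd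
  have g4 : 1 ≤ d := le_trans (le_trans (le_max_right _ _) (le_max_right _ _)) hd
  have hd1 : (1:ℝ) ≤ d := by exact_mod_cast g4
  have hd0 : (0:ℝ) < d := by linarith
  have hlam2 : 2 * (d : ℝ) ≤ lam := by
    refine le_trans ?_ hlam
    have h1 := hd₃ d g3
    have h2 : (1:ℝ) ≤ 1 + ε := by linarith
    have h3 : 2 * (d:ℝ) * 1 ≤ 2 * d * (4 * D * Real.log d) := by gcongr
    have h4 : 0 ≤ 8 * D * (d * Real.log d) := by
      have : 0 ≤ Real.log (d:ℝ) := Real.log_nonneg hd1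
      positivity
    nlinarith
  have hlam0 : 0 < lam := by linarith
  obtain ⟨G, hG, hP, hG3⟩ := hR d g2 lam hlam μ hμ hμb a
  have hae : ∀ᵐ ω ∂(Measure.infinitePi fun _ : Zd d => μ), |ω a| ≤ 1 := by
    have h3 : MeasurePreserving (fun ω : Zd d → ℝ => ω a)
        (Measure.infinitePi fun _ : Zd d => μ) μ :=
      measurePreserving_eval_infinitePi (fun _ : Zd d => μ) a
    refine h3.quasiMeasurePreserving.ae (p := fun v : ℝ => |v| ≤ 1) ?_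
    have h4 : ∀ᵐ v ∂μ, v ∈ Set.Icc (-1 : ℝ) 1 := by
      rw [ae_iff]
      exact hμ1
    filter_upwards [h4] with v hv
    exact abs_le.2 hv
  obtain ⟨GG, hGG1, hGG2, hGG3⟩ := three (η := η) hG MeasurableSet.univ (by linarith)
    (by rw [probReal_univ]; linarith) ((hloc d g1 lam hlam μ hμ hμb).2.and hae)
  refine ⟨GG, hGG1, hGG2, fun ω hω hωa ψ hψ t F hF => ?_⟩
  obtain ⟨w1, -, w3, w4⟩ := hGG3 ω hω
  obtain ⟨φ, hφ, hn⟩ := evU_ev hψ
  have habs : |lam| = lam := abs_of_pos hlam0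
  have key := loc_point (σ := lam) (b := b - δ / 2) (M := 2) (D := δ₁ * lam) (η := η / 4)
    (η' := η / 4) (a := a) (ω := ω) (by rw [habs]; exact w3.1) F
    (fun n u E hu hE hE2 θ hθ => hG3 ω w1 n u E hu hE (by rw [habs] at hE2; exact hE2) θ hθ F
      fun y hy => by
        have h5 : ((R : ℤ) : ℝ) < ((∑ i, |y i| : ℤ) : ℝ) := by
          push_cast
          refine lt_of_le_of_lt ?_ (hF y hy)
          exact_mod_cast le_max_left R m
        exact_mod_cast h5)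
    (by positivity) (fun s hs => by
      rw [habs]
      have h1 : |lam * ω a| = lam * |ω a| := by rw [abs_mul, habs]
      have h2 := abs_sub_abs_le_abs_sub (lam * ω a) s
      have h3 := abs_sub_abs_le_abs_sub s (lam * ω a)
      rw [abs_sub_comm (lam * ω a) s] at h2
      rw [h1] at h2 h3
      have h4 : lam * b ≤ lam * |ω a| := by gcongr
      have h5 : lam * |ω a| ≤ lam * 1 := by gcongr
      have h6 : δ₁ * lam ≤ δ * lam := by gcongr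
      have h7 : δ₁ * lam ≤ 1 * lam := by gcongr
      constructor
      · nlinarith
      · nlinarith) (by
      have h1 : (m : ℝ) ≤ d := by exact_mod_cast (le_max_right R m).trans hRd
      have h2 : 16 / (δ₁ ^ 2 * η) < d := lt_of_lt_of_le hm h1
      rw [div_lt_iff₀ (by positivity)] at h2
      have h3 : (δ₁ * (2 * d)) ^ 2 ≤ (δ₁ * lam) ^ 2 := by gcongr
      rw [div_lt_iff₀ (by positivity)]
      have h4 : η / 4 * (δ₁ * (2 * d)) ^ 2 ≤ η / 4 * (δ₁ * lam) ^ 2 := by gcongr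
      refine lt_of_lt_of_le ?_ h4
      have h5 : η / 4 * (δ₁ * (2 * d)) ^ 2 = d * (d * (δ₁ ^ 2 * η)) := by ring
      rw [h5]
      have h6 : (d:ℝ) * 16 < d * (d * (δ₁ ^ 2 * η)) := by gcongr
      linarith) hφ t
  simp only [hn] at key
  linarith

/-- the localized side -/
theorem locG {D D' ε δ b : ℝ} (hD : 0 < D) (hD' : 0 < D') (hε : 0 < ε) (hδ : 0 < δ) (hb : 0 ≤ b) :
    ∃ d₀ : ℕ, ∀ η : ℝ, 0 < η → ∃ R : ℕ, ∀ d : ℕ, d₀ ≤ d → (0 < b → R ≤ d) → ∀ lam : ℝ,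
      (1 + ε) * (8 * D * (d * Real.log d)) ≤ lam →
      ∀ (μ : Measure ℝ) [IsProbabilityMeasure μ],
        (∀ A : Set ℝ, MeasurableSet A → μ A ≤ ENNReal.ofReal D' * volume A) →
        (∀ A : Set ℝ, MeasurableSet A → μ (A ∩ {v | b - δ < |v|}) ≤ ENNReal.ofReal D * volume A) →
        μ (Set.Icc (-1) 1)ᶜ = 0 →
      ∀ a : Zd d, ∃ G : Set (Zd d → ℝ), MeasurableSet G ∧
        1 - η ≤ (Measure.infinitePi fun _ : Zd d => μ).real G ∧
        ∀ ω ∈ G, b ≤ |ω a| → ∀ ψ : ℝ → Zd d → ℂ, EvU d (fun x => lam * ω x) a ψ →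
          ∀ (t : ℝ) (F : Finset (Zd d)), (∀ y ∈ F, (R : ℝ) < ∑ i, |(y i : ℝ)|) →
            ∑ y ∈ F, ‖ψ t (a + y)‖ ^ 2 ≤ η := by
  rcases hb.eq_or_lt with hb0 | hb0
  · obtain ⟨d₀, h⟩ := locG0 (D := D) (ε := ε) hD hε
    refine ⟨d₀, fun η hη => ?_⟩
    obtain ⟨R, hR⟩ := h η hη
    refine ⟨R, fun d hd _ lam hlam μ _ hμ hμb hμ1 a => ?_⟩
    obtain ⟨G, h1, h2, h3⟩ := hR d hd lam hlam μ (fun A hA => by
      refine le_trans (le_of_eq ?_) (hμb A hA)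
      congr 1
      ext v
      simp only [Set.mem_inter_iff, Set.mem_ofPred_eq]
      refine ⟨fun h => ⟨h, ?_⟩, fun h => h.1⟩
      have := abs_nonneg v
      linarith) hμ1 a
    exact ⟨G, h1, h2, fun ω hω _ ψ hψ t F hF => h3 ω hω ψ hψ t F hF⟩
  · obtain ⟨d₀, h⟩ := locGb (D := D) (D' := D') (ε := ε) (δ := δ) (b := b) hD hD' hε hδ
    refine ⟨d₀, fun η hη => ?_⟩
    obtain ⟨R, hR⟩ := h η hη
    exact ⟨R, fun d hd hRd lam hlam μ _ hμ hμb hμ1 a => hR d hd (hRd hb0) lam hlam μ hμ hμb hμ1 a⟩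

end Pool.Agent.H989.DY
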