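import Pool.Agent.H121.EH.Lat
import Pool.Agent.H989.DY.FreeBox
import Pool.Agent.H989.DY.Stat
import Pool.Agent.H989.DY.GenLoc

/-!
Weak disorder: the particle leaves balls of radius `κ d / (1 + λ)²` (after helper121, `Pool.Agent.H121.EH`).
-/

set_option autoImplicit false
set_option linter.unusedVariables false

open scoped BigOperators InnerProductSpace ComplexConjugate
open MeasureTheory

namespace Pool.Agent.H989.EhL

open Pool.Agent.Y662.TR (dv inner_dv dv_apply norm_dv Mw Mw_apply Mw_norm Mw_sa clp_eq ev ll_sum)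
open Pool.Agent.W788.LD.Spec (S)
open Pool.Agent.H4R2.LO (Zd)
open Pool.Agent.H989.DY (LL Ev ev_unique ev_exists DyRes_act DyRes_ker free_box stat EvU evU_ev)
open Pool.Agent.H121.EH

variable {d : ℕ}

/-- with a potential bounded by `L` -/
noncomputable def HL (L : ℝ) (W : Zd d → ℝ) : LL (Zd d) →L[ℂ] LL (Zd d) := H0 d + Mw L W

theorem HL_sa (L : ℝ) (W : Zd d → ℝ) : IsSelfAdjoint (HL L W) := (H0_sa d).add (Mw_sa L W)

theorem HL_act {L : ℝ} (hL : 0 ≤ L) {W : Zd d → ℝ} (hW : ∀ x, |W x| ≤ L) (u : LL (Zd d)) (x : Zd d) :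
    HL L W u x = S (fun y => u y) x + (W x : ℂ) * u x := by
  have h1 : HL L W u x = H0 d u x + Mw L W u x := rfl
  rw [h1, H0_act, Mw_apply, clp_eq (by rw [abs_of_nonneg hL]; exact hW x)]

theorem HL_sub {L : ℝ} (hL : 0 ≤ L) (W : Zd d → ℝ) : ‖HL L W - H0 d‖ ≤ L := by
  have h1 : HL L W - H0 d = Mw L W := by
    unfold HL
    abel
  rw [h1]
  exact (Mw_norm L W).trans (by rw [abs_of_nonneg hL])

theorem coreL {L : ℝ} (hL : 0 ≤ L) {W : Zd d → ℝ} (hW : ∀ x, |W x| ≤ L) (ψ : Zd d → ℝ → Zd d → ℂ)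
    (Q : Finset (Zd d)) (hψ : ∀ a ∈ Q, Ev d W a (ψ a)) {e : ℝ}
    (he0 : 0 ≤ e) {k : ℕ} (hk : 0 < k) {h : ℝ} (hh : 0 < h)
    (ψ0 : Zd d → ℝ → Zd d → ℂ) (hψ0 : ∀ a, Ev d (fun _ => 0) a (ψ0 a))
    (hfree : ∀ t : ℝ, (k : ℝ) * h ≤ |t| → |t| ≤ (k : ℝ) ^ 2 * h →
      ∑ a ∈ Q, ∑ y ∈ Q, ‖ψ0 a t y‖ ^ 2 ≤ e * (Q.card : ℝ))
    {T : ℝ} (hT : (k : ℝ) ^ 2 * h ≤ T) :
    ∫ t in (0 : ℝ)..T, ∑ a ∈ Q, ∑ y ∈ Q, ‖ψ a t y‖ ^ 2 ≤
      3 * ((2 * e + 2 * (L * ((k : ℝ) ^ 2 * h)) ^ 2) + 2 / k) * (Q.card : ℝ) * T := by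
  have hA := HL_sa L W
  have hF : ∀ t, ∑ a ∈ Q, ∑ y ∈ Q, ‖ψ a t y‖ ^ 2 = FQ (HL L W) Q t := by
    intro t
    rw [FQ_eq]
    refine Finset.sum_congr rfl fun a ha => Finset.sum_congr rfl fun y _ => ?_
    rw [pk hA (HL_act hL hW) (hψ a ha) t y]
  simp only [hF]
  refine avg FQ_cont (fun t => by unfold FQ; positivity) (by positivity) (by positivity) (fun t => ?_)
    hk hh (fun t ht1 ht2 => ?_) (fun s => ?_) hT
  · rw [FQ_eq]
    refine (Finset.sum_le_sum fun a _ => mass_le hA Q t a).trans (le_of_eq ?_)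
    simp
  · rw [FQ_eq]
    have h1 : ∀ a ∈ Q, ∑ y ∈ Q, ‖Ug (HL L W) t (dv a) y‖ ^ 2 ≤
        2 * ∑ y ∈ Q, ‖ψ0 a t y‖ ^ 2 + 2 * (L * ((k : ℝ) ^ 2 * h)) ^ 2 := by
      intro a _
      have h2 : ∀ y, ψ0 a t y = Ug (H0 d) t (dv a) y := fun y =>
        pk (H0_sa d) (fun u x => by rw [H0_act]; simp) (hψ0 a) t y
      have h3 : ∀ y, ‖Ug (HL L W) t (dv a) y‖ ^ 2 ≤ 2 * ‖ψ0 a t y‖ ^ 2 +
          2 * ‖(Ug (HL L W) t (dv a) - Ug (H0 d) t (dv a)) y‖ ^ 2 := by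
        intro y
        rw [h2]
        have h4 : Ug (HL L W) t (dv a) y = Ug (H0 d) t (dv a) y +
            (Ug (HL L W) t (dv a) - Ug (H0 d) t (dv a)) y := by
          rw [lp.coeFn_sub, Pi.sub_apply]
          ring
        have h5 := norm_add_le (Ug (H0 d) t (dv a) y)
          ((Ug (HL L W) t (dv a) - Ug (H0 d) t (dv a)) y)
        rw [← h4] at h5
        have h6 := norm_nonneg (Ug (HL L W) t (dv a) y)
        nlinarith [sq_nonneg (‖Ug (H0 d) t (dv a) y‖ -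
          ‖(Ug (HL L W) t (dv a) - Ug (H0 d) t (dv a)) y‖)]
      refine (Finset.sum_le_sum fun y _ => h3 y).trans ?_
      rw [Finset.sum_add_distrib, ← Finset.mul_sum, ← Finset.mul_sum]
      have h7 : ∑ y ∈ Q, ‖(Ug (HL L W) t (dv a) - Ug (H0 d) t (dv a)) y‖ ^ 2 ≤
          ‖Ug (HL L W) t (dv a) - Ug (H0 d) t (dv a)‖ ^ 2 :=
        sum_le_hasSum Q (fun _ _ => by positivity) (ll_sum _)
      have h8 : ‖Ug (HL L W) t (dv a) - Ug (H0 d) t (dv a)‖ ≤ L * ((k : ℝ) ^ 2 * h) := by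
        refine (Ug_close hA (H0_sa d) t (dv a)).trans ?_
        rw [norm_dv, mul_one]
        exact mul_le_mul (HL_sub hL W) ht2 (abs_nonneg t) hL
      have h9 := pow_le_pow_left₀ (norm_nonneg _) h8 2
      linarith
    refine (Finset.sum_le_sum h1).trans ?_
    rw [Finset.sum_add_distrib, ← Finset.mul_sum]
    have h2 := hfree t ht1 ht2
    rw [Finset.sum_const, nsmul_eq_mul]
    linarith
  · exact grid (fun (a : {x // x ∈ Q}) t => Ug (HL L W) t (dv a.1))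
      (fun a b r => ‖Ug (HL L W) r (dv b.1) a.1‖ ^ 2)
      (fun a b s t => by rw [Ug_inner hA, inner_dv]) (k ^ 2) s h

/-- **deterministic statement** for potentials bounded by `L` -/
theorem detL {ε : ℝ} (hε : 0 < ε) : ∃ κ : ℝ, 0 < κ ∧ ∀ (d l : ℕ), 0 < l → ∀ L : ℝ, 1 ≤ L →
    (l : ℝ) * L ^ 2 ≤ κ * d →
    ∀ (W : Zd d → ℝ), (∀ x, |W x| ≤ L) → ∀ (T : ℝ), 1 ≤ T →
    ∀ ψ : Zd d → ℝ → Zd d → ℂ, (∀ a ∈ DY.bx d l, Ev d W a (ψ a)) →
    ∫ t in (0 : ℝ)..T, ∑ a ∈ DY.bx d l, ∑ y ∈ DY.bx d l, ‖ψ a t y‖ ^ 2 ≤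
      ε * (l : ℝ) ^ d * T := by
  obtain ⟨k, hk⟩ := exists_nat_gt (max (18 / ε) 1)
  have hk1 : (1 : ℝ) < k := (le_max_right _ _).trans_lt hk
  have hk2 : 18 / ε < k := (le_max_left _ _).trans_lt hk
  have hk0 : 0 < k := by
    have : (0 : ℝ) < k := by linarith
    exact_mod_cast this
  have hkR : (0 : ℝ) < k := by linarith
  refine ⟨1 / (4 * k * (16 * (k : ℝ) ^ 2) ^ 2), by positivity,
    fun d l hl L hL1 hld W hW T hT ψ hψ => ?_⟩
  have hL0 : 0 < L := by linarith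
  have hlR : (0 : ℝ) < l := by exact_mod_cast hl
  obtain ⟨h, hh⟩ : ∃ h : ℝ, h = 1 / (16 * (k : ℝ) ^ 3 * L) := ⟨_, rfl⟩
  have hh0 : 0 < h := by rw [hh]; positivity
  have hT0 : L * ((k : ℝ) ^ 2 * h) = 1 / (16 * k) := by
    rw [hh]; field_simp
  have ht1 : (k : ℝ) * h = 1 / (16 * (k : ℝ) ^ 2 * L) := by
    rw [hh]; field_simp
  have hT1 : (k : ℝ) ^ 2 * h ≤ 1 / 16 := by
    have h1 : (k : ℝ) ^ 2 * h ≤ L * ((k : ℝ) ^ 2 * h) := le_mul_of_one_le_left (by positivity) hL1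
    refine h1.trans ?_
    rw [hT0]
    exact one_div_le_one_div_of_le (by norm_num) (by linarith)
  have hcard : ((DY.bx d l).card : ℝ) = (l : ℝ) ^ d := by
    unfold DY.bx
    rw [Fintype.card_piFinset]
    simp
  choose ψ0 hψ0 using fun a : Zd d => ev_exists (fun _ : Zd d => (0 : ℝ)) a
  have hfree : ∀ t : ℝ, (k : ℝ) * h ≤ |t| → |t| ≤ (k : ℝ) ^ 2 * h →
      ∑ a ∈ DY.bx d l, ∑ y ∈ DY.bx d l, ‖ψ0 a t y‖ ^ 2 ≤ (1 / k) * ((DY.bx d l).card : ℝ) := by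
    intro t h1 h2
    refine (free_box hl (fun _ => 0) hψ0 t (h2.trans hT1)).trans ?_
    rw [hcard, mul_comm]
    refine mul_le_mul_of_nonneg_right ?_ (by positivity)
    have h3 : (k : ℝ) ≤ d * t ^ 2 / (4 * l) := by
      rw [le_div_iff₀ (by positivity)]
      have h4 : ((k : ℝ) * h) ^ 2 ≤ t ^ 2 := by
        rw [← sq_abs t]
        exact pow_le_pow_left₀ (by positivity) h1 2
      have h7 : (d : ℝ) * ((k : ℝ) * h) ^ 2 ≤ d * t ^ 2 := by gcongr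
      refine le_trans ?_ h7
      rw [ht1]
      have h8 : (l : ℝ) * L ^ 2 * (4 * k * (16 * (k : ℝ) ^ 2) ^ 2) ≤ d := by
        have h9 := mul_le_mul_of_nonneg_right hld
          (by positivity : 0 ≤ 4 * (k:ℝ) * (16 * (k : ℝ) ^ 2) ^ 2)
        refine h9.trans (le_of_eq ?_)
        field_simp
      rw [div_pow, one_pow, mul_one_div, le_div_iff₀ (by positivity)]
      refine le_trans (le_of_eq ?_) h8
      ring
    have h8 : 0 < d * t ^ 2 / (4 * l) := hkR.trans_le h3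
    rw [Real.exp_neg, one_div]
    refine inv_anti₀ hkR ?_
    exact h3.trans ((by linarith [Real.add_one_le_exp (d * t ^ 2 / (4 * (l : ℝ)))]))
  have h1 := coreL hL0.le hW ψ (DY.bx d l) hψ (e := 1 / k) (by positivity) hk0 hh0 ψ0 hψ0 hfree
    (T := T) (by linarith)
  refine h1.trans ?_
  rw [hcard]
  refine mul_le_mul_of_nonneg_right (mul_le_mul_of_nonneg_right ?_ (by positivity)) (by linarith)
  have h2 : 2 * (L * ((k : ℝ) ^ 2 * h)) ^ 2 ≤ 2 / k := by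
    rw [hT0]
    rw [div_pow, one_pow, ← mul_div_assoc, mul_one]
    refine div_le_div_of_nonneg_left (by norm_num) hkR ?_
    nlinarith
  have h3 : 18 / (k : ℝ) ≤ ε := by
    rw [div_le_iff₀ hkR]
    rw [div_lt_iff₀ hε] at hk2
    linarith
  have h4 : 3 * (2 * (1 / (k : ℝ)) + 2 * (L * ((k : ℝ) ^ 2 * h)) ^ 2 + 2 / k) ≤ 18 / k := by
    have h5 : 2 * (1 / (k : ℝ)) = 2 / k := by ring
    have h6 : 18 / (k : ℝ) = 3 * (2 / k + 2 / k + 2 / k) := by ring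
    rw [h5, h6]
    linarith
  exact h4.trans h3

/-- **weak disorder, single sites** -/
theorem weak {ε : ℝ} (hε : 0 < ε) : ∃ κ : ℝ, 0 < κ ∧ ∀ (d : ℕ) (lam : ℝ), 0 ≤ lam →
    (1 + lam) ^ 2 ≤ κ * d → ∀ (μ : Measure ℝ) [IsProbabilityMeasure μ], μ (Set.Icc (-1) 1)ᶜ = 0 →
    ∀ T : ℝ, 1 ≤ T → ∀ a : Zd d, ∃ G : Set (Zd d → ℝ), MeasurableSet G ∧
      1 - ε ≤ (Measure.infinitePi fun _ : Zd d => μ).real G ∧
      ∀ ω ∈ G, ∀ ψ : ℝ → Zd d → ℂ, EvU d (fun x => lam * ω x) a ψ → ∀ F : Finset (Zd d),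
        (∀ y ∈ F, ∑ i, |(y i : ℝ)| ≤ κ * d / (1 + lam) ^ 2) →
        (1 / T) * ∫ t in (0:ℝ)..T, ∑ y ∈ F, ‖ψ t (a + y)‖ ^ 2 ≤ ε := by
  obtain ⟨κ₀, hκ₀, hdet⟩ := detL (ε := ε ^ 2 / 2) (by positivity)
  refine ⟨κ₀ / 2, by positivity, fun d lam hlam hd μ _ hμ T hT a => ?_⟩
  obtain ⟨L, hL⟩ : ∃ L, L = 1 + lam := ⟨_, rfl⟩
  have hL1 : 1 ≤ L := by rw [hL]; linarith
  have hL0 : 0 < L := by linarith
  rw [← hL] at hd ⊢
  obtain ⟨r, hr⟩ : ∃ r : ℕ, r = ⌊κ₀ / 2 * d / L ^ 2⌋₊ := ⟨_, rfl⟩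
  have hr1 : (r : ℝ) ≤ κ₀ / 2 * d / L ^ 2 := by
    rw [hr]
    exact Nat.floor_le (by positivity)
  have hr2 : (r : ℝ) * L ^ 2 ≤ κ₀ / 2 * d := by
    rwa [le_div_iff₀ (by positivity)] at hr1
  obtain ⟨l, hl⟩ : ∃ l : ℕ, l = max 1 (2 * r) := ⟨_, rfl⟩
  have hl0 : 0 < l := by rw [hl]; positivity
  have hrl : 2 * r ≤ l := by rw [hl]; exact le_max_right _ _
  have hlL : (l : ℝ) * L ^ 2 ≤ κ₀ * d := by
    rcases Nat.le_total 1 (2 * r) with h1 | h1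
    · rw [hl, max_eq_right h1]
      push_cast
      linarith
    · rw [hl, max_eq_left h1]
      push_cast
      have : (0:ℝ) ≤ κ₀ * d := by positivity
      linarith
  have hT0 : 0 < T := by linarith
  obtain ⟨G, hG, hP, hG3⟩ := stat (l := l) (r := r) hl0 hrl hμ (lam := lam) (T := T) (η := ε) hT0 hε
    (fun ω hω ψ hψ => by
      have h1 := hdet d l hl0 L hL1 hlL (fun x => lam * ω x) (fun x => by
        rw [abs_mul, abs_of_nonneg hlam]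
        have := hω x
        have h2 : lam * |ω x| ≤ lam * 1 := by gcongr
        linarith) T hT ψ (fun a _ => hψ a)
      have hcont : ∀ a y, Continuous fun t => ‖ψ a t y‖ ^ 2 := fun a y =>
        (continuous_iff_continuousAt.2 fun s => ((hψ a).ode s y).continuousAt).norm.pow 2
      have h2 : ∑ a ∈ DY.bx d l, ∑ y ∈ DY.bx d l, (1 / T) * ∫ t in (0:ℝ)..T, ‖ψ a t y‖ ^ 2 =
          (1 / T) * ∫ t in (0:ℝ)..T, ∑ a ∈ DY.bx d l, ∑ y ∈ DY.bx d l, ‖ψ a t y‖ ^ 2 := by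
        rw [intervalIntegral.integral_finsetSum fun a _ =>
          (continuous_finsetSum _ fun y _ => hcont a y).intervalIntegrable _ _, Finset.mul_sum]
        refine Finset.sum_congr rfl fun a _ => ?_
        rw [intervalIntegral.integral_finsetSum fun y _ => (hcont a y).intervalIntegrable _ _,
          Finset.mul_sum]
      rw [h2]
      calc (1 / T) * ∫ t in (0:ℝ)..T, ∑ a ∈ DY.bx d l, ∑ y ∈ DY.bx d l, ‖ψ a t y‖ ^ 2
          ≤ (1 / T) * (ε ^ 2 / 2 * (l : ℝ) ^ d * T) := by gcongr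
        _ = ε ^ 2 / 2 * (l : ℝ) ^ d := by field_simp) a
  refine ⟨G, hG, hP, fun ω hω ψ hψ F hF => ?_⟩
  obtain ⟨φ, hφ, hn⟩ := evU_ev hψ
  have h1 := hG3 ω hω φ hφ F (fun y hy => by
    have h2 := hF y hy
    have h3 : ((∑ i, |y i| : ℤ) : ℝ) = ∑ i, |(y i : ℝ)| := by push_cast; rfl
    have h4 : 0 ≤ ∑ i, |y i| := Finset.sum_nonneg fun i _ => abs_nonneg _
    obtain ⟨n, hn'⟩ := Int.eq_ofNat_of_zero_le h4
    rw [← h3, hn'] at h2 ⊢
    have h5 : (n : ℝ) ≤ κ₀ / 2 * d / L ^ 2 := by exact_mod_cast h2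
    have h6 : n ≤ r := by
      rw [hr]
      exact Nat.le_floor h5
    exact_mod_cast h6)
  simpa only [hn] using h1

end Pool.Agent.H989.EhL
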