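import Pool.Agent.H989.DY.Unif

/-!
Spreading near an energy at which the density of the single site law is bounded below.
-/

set_option linter.unusedSectionVars false
set_option linter.unusedVariables false

open MeasureTheory ProbabilityTheory Finset Filter
open scoped InnerProductSpace

namespace Pool.Agent.H989.DY

open Pool.Agent.H989.SB
open Pool.Agent.W788.LD.Spec (S)
open Pool.Agent.H4R2.LO (Zd)

theorem comb2 {d : ℕ} {W : Zd d → ℝ} {a : Zd d} {ψ : ℝ → Zd d → ℂ} (h : Ev d W a ψ)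
    {R : ℂ → LL (Zd d) →L[ℂ] LL (Zd d)} (hR : RF R)
    (hsol : ∀ z : ℂ, z.im ≠ 0 → ∀ (f : LL (Zd d)) (x : Zd d),
      S (fun y => R z f y) x + (W x : ℂ) * R z f x - z * R z f x = f x)
    (hres : ∀ z : ℂ, z.im ≠ 0 → ∀ f u : LL (Zd d),
      (∀ x, S (fun y => u y) x + (W x : ℂ) * u x - z * u x = f x) → u = R z f)
    (F : Finset (Zd d)) {T η₀ κ E₁ E₂ D : ℝ} (hT : 0 < T) (hη₀ : 1 / T ≤ η₀) (hκ : 0 < κ) (hD : 0 < D)
    (hb1 : E₁ + D ≤ W a) (hb2 : W a + D ≤ E₂) :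
    ENNReal.ofReal ((1 / T) * ∫ s in (0:ℝ)..T, ∑ x ∈ F, ‖ψ s x‖ ^ 2) ≤
      4 * (ENNReal.ofReal (2 * ((1 / T) / η₀) * F.card + 2 * κ + 8 * (2 * d) / D ^ 2 + 3 * (1 / T) / D) +
      3 * ∫⁻ E in Set.Icc (E₁ - η₀) (E₂ + η₀), ENNReal.ofReal ((η₀ * ‖R ⟨E, η₀⟩ (dv a)‖ ^ 2) *
        (if κ / 3 < ∑ x ∈ F, η₀ * (η₀ * ‖R ⟨E, η₀⟩ (dv x)‖ ^ 2) then 1 else 0))) := by
  have hη : 0 < 1 / T := by positivity
  have hη₀' : 0 < η₀ := lt_of_lt_of_le hη hη₀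
  refine (link h hsol hres F hT).trans ?_
  refine mul_le_mul_right ?_ 4
  set f : ℝ → ENNReal := fun E =>
    ENNReal.ofReal ((1 / T) / Real.pi * ∑ x ∈ F, ‖R ⟨E, 1 / T⟩ (dv a) x‖ ^ 2) with hf
  have hsplit : ∫⁻ E : ℝ, f E = (∫⁻ E in Set.Icc E₁ E₂, f E) + ∫⁻ E in (Set.Icc E₁ E₂)ᶜ, f E :=
    (lintegral_add_compl f measurableSet_Icc).symm
  have h1 : ∫⁻ E in Set.Icc E₁ E₂, f E ≤
      ENNReal.ofReal (2 * ((1 / T) / η₀) * F.card + 2 * κ) +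
      3 * ∫⁻ E in Set.Icc (E₁ - η₀) (E₂ + η₀), ENNReal.ofReal ((η₀ * ‖R ⟨E, η₀⟩ (dv a)‖ ^ 2) *
        (if κ / 3 < ∑ x ∈ F, η₀ * (η₀ * ‖R ⟨E, η₀⟩ (dv x)‖ ^ 2) then 1 else 0)) :=
    win hR a F hη hη₀ hκ (by linarith)
  have h2 : ∫⁻ E in (Set.Icc E₁ E₂)ᶜ, f E ≤
      ENNReal.ofReal (8 * (2 * d) / D ^ 2 + 3 * (1 / T) / D) := by
    refine le_trans ?_ (outside (a := a) hR hsol hres hη hD)
    refine (lintegral_mono_set (s := (Set.Icc E₁ E₂)ᶜ) (t := {E : ℝ | D ≤ |E - W a|}) ?_).trans ?_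
    · intro E hE
      rw [Set.mem_ofPred_eq]
      rw [Set.mem_compl_iff, Set.mem_Icc, not_and_or, not_le, not_le] at hE
      rcases hE with hE | hE
      · have h4 := neg_abs_le (E - W a)
        linarith
      · have h4 := le_abs_self (E - W a)
        linarith
    · refine lintegral_mono fun E => ?_
      refine ENNReal.ofReal_le_ofReal ?_
      refine mul_le_mul_of_nonneg_left (dyComb_sum_le F _) ?_
      positivity
  have h3 : ENNReal.ofReal (2 * ((1 / T) / η₀) * F.card + 2 * κ + 8 * (2 * d) / D ^ 2 + 3 * (1 / T) / D) =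
      ENNReal.ofReal (2 * ((1 / T) / η₀) * F.card + 2 * κ) +
      ENNReal.ofReal (8 * (2 * d) / D ^ 2 + 3 * (1 / T) / D) := by
    rw [← ENNReal.ofReal_add (by positivity) (by positivity)]
    congr 1
    ring
  rw [h3, hsplit]
  refine (add_le_add h1 h2).trans (le_of_eq ?_)
  ring

/-- one realization -/
theorem dyn_point2 {d : ℕ} {σ t₀ e δ η₀ θ ε₁ : ℝ} {R : ℕ} {a : Zd d} {ω : Zd d → ℝ} (hσ : 0 < σ)
    (he : 0 < e) (heδ : 4 * e = δ / 2) (hη₀ : 0 < η₀) (hηδ : η₀ ≤ σ * e) (hθ : 0 < θ) (hε₁ : 0 ≤ ε₁)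
    (hω : ∀ w : ℝ → Zd d → L2 d, Cols σ ω η₀ a (bal d R) w →
      ∫⁻ E in Set.Icc (σ * t₀ - σ * δ / 2) (σ * t₀ + σ * δ / 2), gZ (bal d R) η₀ θ w E
        ≤ ENNReal.ofReal ε₁)
    (ha : |ω a - t₀| ≤ δ / 4) {ψ : ℝ → Zd d → ℂ} (hψ : Ev d (fun x => σ * ω x) a ψ) {T : ℝ}
    (hT : 0 < T) (hTη : 1 / T ≤ η₀) :
    (1 / T) * ∫ s in (0:ℝ)..T, ∑ y ∈ bal d R, ‖ψ s (a + y)‖ ^ 2 ≤
      4 * (2 * ((1 / T) / η₀) * (2 * d + 1) ^ R + 2 * (3 * θ) + 8 * (2 * d) / (e * σ) ^ 2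
        + 3 * (1 / T) / (e * σ)) + 12 * ε₁ := by
  classical
  obtain ⟨Rz, hR, hsol, hres⟩ := exists_res (fun x : Zd d => σ * ω x)
  have hinj : Set.InjOn (fun y : Zd d => a + y) (bal d R) := fun y _ y' _ h => add_left_cancel h
  have ha' := abs_le.1 ha
  have m1 : σ * (-(δ / 4)) ≤ σ * (ω a - t₀) := mul_le_mul_of_nonneg_left ha'.1 hσ.le
  have m2 : σ * (ω a - t₀) ≤ σ * (δ / 4) := mul_le_mul_of_nonneg_left ha'.2 hσ.le
  have m3 : σ * (4 * e) = σ * (δ / 2) := by rw [heδ]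
  have h1 := comb2 hψ hR hsol hres ((bal d R).image fun y => a + y) (T := T) (η₀ := η₀)
    (κ := 3 * θ) (E₁ := σ * t₀ - σ * δ / 2 + e * σ) (E₂ := σ * t₀ + σ * δ / 2 - e * σ)
    (D := e * σ) hT hTη (by positivity) (by positivity) (by linarith) (by linarith)
  simp only [Finset.sum_image hinj] at h1
  have hcard : (((bal d R).image fun y => a + y).card : ℝ) ≤ (2 * d + 1) ^ R := by
    have h2 := card_ball R (bal d R) (fun y hy => mem_bal.1 hy)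
    have h3 : ((bal d R).image fun y => a + y).card ≤ (2 * d + 1) ^ R := Finset.card_image_le.trans h2
    exact_mod_cast h3
  have hcols := cols_of (R := Rz) hsol a (bal d R) hη₀
  have h4 := hω _ hcols
  have h5 : ∫⁻ E in Set.Icc (σ * t₀ - σ * δ / 2 + e * σ - η₀) (σ * t₀ + σ * δ / 2 - e * σ + η₀),
        ENNReal.ofReal ((η₀ * ‖Rz ⟨E, η₀⟩ (dv a)‖ ^ 2) *
        (if 3 * θ / 3 < ∑ y ∈ bal d R, η₀ * (η₀ * ‖Rz ⟨E, η₀⟩ (dv (a + y))‖ ^ 2) then 1 else 0))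
      ≤ ENNReal.ofReal ε₁ := by
    refine le_trans ?_ h4
    refine (lintegral_mono_set (Set.Icc_subset_Icc (by linarith) (by linarith))).trans
      (lintegral_mono fun E => ?_)
    unfold gZ
    have e0 : a + 0 = a := add_zero a
    beta_reduce
    rw [e0, mul_div_cancel_left₀ θ (by norm_num : (3:ℝ) ≠ 0)]
  have hX : 0 ≤ 2 * ((1 / T) / η₀) * ((bal d R).image fun y => a + y).card + 2 * (3 * θ)
      + 8 * (2 * d) / (e * σ) ^ 2 + 3 * (1 / T) / (e * σ) := by positivity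
  have h6 : ENNReal.ofReal ((1 / T) * ∫ s in (0:ℝ)..T, ∑ y ∈ bal d R, ‖ψ s (a + y)‖ ^ 2) ≤
      ENNReal.ofReal (4 * (2 * ((1 / T) / η₀) * ((bal d R).image fun y => a + y).card + 2 * (3 * θ)
      + 8 * (2 * d) / (e * σ) ^ 2 + 3 * (1 / T) / (e * σ)) + 12 * ε₁) := by
    refine h1.trans ((mul_le_mul_right (add_le_add le_rfl (mul_le_mul_right h5 3)) 4).trans
      (le_of_eq ?_))
    rw [show (3 : ENNReal) = ENNReal.ofReal 3 by norm_num, show (4 : ENNReal) = ENNReal.ofReal 4 by norm_num,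
      ← ENNReal.ofReal_mul (by norm_num), ← ENNReal.ofReal_add hX (by positivity),
      ← ENNReal.ofReal_mul (by norm_num)]
    congr 1
    ring
  rw [ENNReal.ofReal_le_ofReal_iff (by positivity)] at h6
  refine h6.trans ?_
  gcongr

/-- spreading, general law -/
theorem sprG1 {G ρ δ ε : ℝ} (hG : 0 < G) (hρ : 0 < ρ) (hδ : 0 < δ) (hε : 0 < ε) (hε1 : ε < 1) :
    ∃ c : ℝ, 0 < c ∧ ∃ d₀ : ℕ, 1 ≤ d₀ ∧ ∀ d : ℕ, d₀ ≤ d → ∀ σ : ℝ, 2 * (d : ℝ) ≤ σ →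
      σ ≤ (1 - ε) * (8 * ρ * (d * Real.log d)) →
      ∀ ν : Measure ℝ, Law ν G → ∀ t₀ : ℝ, |t₀| ≤ 1 → LowD ν t₀ δ ρ →
      ∀ a : Zd d, ∃ GG : Set (Zd d → ℝ), MeasurableSet GG ∧ 1 - ε ≤ (lawZ ν d).real GG ∧
        ∀ ω ∈ GG, |ω a - t₀| ≤ δ / 4 → ∀ ψ : ℝ → Zd d → ℂ, Ev d (fun x => σ * ω x) a ψ →
        ∀ T : ℝ, Real.exp (2 * Real.log (2 * d) ^ 3) ≤ T → ∀ F : Finset (Zd d),
        (∀ y ∈ F, ∑ i, |(y i : ℝ)| ≤ c * Real.log d / Real.log (Real.log d) ^ 2) →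
        (1 / T) * ∫ s in (0:ℝ)..T, ∑ y ∈ F, ‖ψ s (a + y)‖ ^ 2 ≤ ε := by
  obtain ⟨e, hed⟩ : ∃ e, e = δ / 8 := ⟨_, rfl⟩
  have he : 0 < e := by rw [hed]; positivity
  obtain ⟨c₀, hc₀, d₀, hd₀⟩ := dy_window (G := G) (δ := δ) (ρ₀ := ρ) (e₀ := 1) (ε := ε / 48)
    hG hδ hρ (by positivity) (by linarith)
  obtain ⟨c, hc, d₁, hd₁⟩ := FinG3_reg (c₀ := c₀) (ε := ε / 24) hc₀ (by positivity)
  obtain ⟨d₂, hd₂⟩ := dyn_num (c₀ := c₀) (ε := ε / 4) (e := e) hc₀ (by positivity) he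
  refine ⟨c, hc, max 1 (max d₀ (max d₁ d₂)), le_max_left _ _, fun d hd σ h1 h2 ν hν t₀ ht₀ hlow a => ?_⟩
  have g0 : d₀ ≤ d := le_trans (le_trans (le_max_left _ _) (le_max_right _ _)) hd
  have g1 : d₁ ≤ d := le_trans (le_trans (le_trans (le_max_left _ _) (le_max_right _ _)) (le_max_right _ _)) hd
  have g2 : d₂ ≤ d := le_trans (le_trans (le_trans (le_max_right _ _) (le_max_right _ _)) (le_max_right _ _)) hd
  obtain ⟨hd1, R, A, hRA, hR, hA⟩ := hd₁ d g1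
  have hd0 : (1:ℝ) ≤ d := by exact_mod_cast hd1
  have hlog0 : 0 ≤ Real.log (d:ℝ) := Real.log_nonneg hd0
  have hlog : Real.log (d:ℝ) ≤ Real.log (2 * d) := Real.log_le_log (by linarith) (by linarith)
  obtain ⟨GG, hm, hP, hGG⟩ := hd₀ d g0 R A hRA ν hν t₀ (by rw [abs_one]; exact ht₀) hlow σ h1 (by
      refine h2.trans ?_
      have h6 : 0 ≤ 8 * ρ * ((d:ℝ) * Real.log (2 * d)) :=
        mul_nonneg (by positivity) (mul_nonneg (by linarith) (hlog0.trans hlog))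
      have h5 : 0 ≤ 1 - ε := by linarith
      calc (1 - ε) * (8 * ρ * (d * Real.log d)) ≤ (1 - ε) * (8 * ρ * (d * Real.log (2 * d))) := by gcongr
        _ ≤ (1 - ε / 48) * (8 * ρ * (d * Real.log (2 * d))) := by
            gcongr
            linarith
        _ = _ := by ring) a
  refine ⟨GG, hm, by linarith, fun ω hω hωa ψ hψ T hT F hF => ?_⟩
  obtain ⟨n1, n2, n3, n4⟩ := hd₂ d g2 R A hRA σ T h1 hT
  have hσ0 : 0 < σ := by linarith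
  have hT0 : 0 < T := by linarith
  have hdA : 0 < (d : ℝ) ^ A := by positivity
  have hη0 : 0 < pη (Real.log (2 * d)) := Real.exp_pos _
  have h3 := dyn_point2 (δ := δ) (η₀ := pη (Real.log (2 * d))) (θ := 1 / (4 * (d : ℝ) ^ A))
    (ε₁ := ε / 48) (R := R) hσ0 he (by rw [hed]; ring) hη0 (n3.trans (by
      have e1 : (ε / 4) ⊓ e ≤ e := min_le_right _ _
      gcongr)) (by positivity) (by positivity) (hGG ω hω) hωa hψ hT0 n2
  have hFb : F ⊆ bal d R := by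
    intro y hy
    rw [mem_bal]
    have h2 := hF y hy
    have h3 : ((∑ i, (y i).natAbs : ℕ) : ℝ) = ∑ i, |(y i : ℝ)| := by
      push_cast
      refine Finset.sum_congr rfl fun i _ => ?_
      rw [Nat.cast_natAbs, Int.cast_abs]
    rw [← h3] at h2
    have h4 := hR _ h2
    have h5 : ((∑ i, (y i).natAbs : ℕ) : ℤ) = ∑ i, |y i| := by
      push_cast
      rfl
    rw [← h5]
    exact_mod_cast h4
  refine (avg_mono hψ hT0 hFb).trans (h3.trans ?_)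
  have hθ : 4 * (2 * (3 * (1 / (4 * (d : ℝ) ^ A)))) ≤ ε / 8 := by
    have e1 : (1:ℝ) ≤ Real.exp (c * (Real.log d / Real.log (Real.log d)) ^ 2) := by
      rw [Real.one_le_exp_iff]
      positivity
    have e2 : 2 ≤ ε / 24 * (d:ℝ) ^ A := by linarith
    have e3 : 4 * (2 * (3 * (1 / (4 * (d : ℝ) ^ A)))) = 6 / (d:ℝ) ^ A := by field_simp; ring
    rw [e3, div_le_iff₀ hdA]
    linarith
  linarith

/-- spreading for `-Δ + λ V` -/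
theorem sprG {G ρ δ ε : ℝ} (hG : 0 < G) (hρ : 0 < ρ) (hδ : 0 < δ) (hε : 0 < ε) (hε1 : ε < 1) :
    ∃ c : ℝ, 0 < c ∧ ∃ d₀ : ℕ, ∀ d : ℕ, d₀ ≤ d → ∀ σ : ℝ, 2 * (d : ℝ) ≤ σ →
      σ ≤ (1 - ε) * (8 * ρ * (d * Real.log d)) →
      ∀ ν : Measure ℝ, Law ν G → ∀ t₀ : ℝ, |t₀| ≤ 1 → LowD ν t₀ δ ρ →
      ∀ a : Zd d, ∃ GG : Set (Zd d → ℝ), MeasurableSet GG ∧ 1 - ε ≤ (lawZ ν d).real GG ∧
        ∀ ω ∈ GG, |ω a - t₀| ≤ δ / 4 → ∀ ψ : ℝ → Zd d → ℂ, EvU d (fun x => σ * ω x) a ψ →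
        ∀ T : ℝ, Real.exp (2 * Real.log (2 * d) ^ 3) ≤ T → ∀ F : Finset (Zd d),
        (∀ y ∈ F, ∑ i, |(y i : ℝ)| ≤ c * Real.log d / Real.log (Real.log d) ^ 2) →
        (1 / T) * ∫ s in (0:ℝ)..T, ∑ y ∈ F, ‖ψ s (a + y)‖ ^ 2 ≤ ε := by
  obtain ⟨κ, hκ, d₀, hd₀, h⟩ := sprG1 hG hρ hδ hε hε1
  refine ⟨κ, hκ, d₀, fun d hd σ h1 h2 ν hν t₀ ht₀ hlow a => ?_⟩
  obtain ⟨GG, hm, hP, hGG⟩ := h d hd σ h1 h2 ν hν t₀ ht₀ hlow a
  refine ⟨GG, hm, hP, fun ω hω hωa ψ hψ T hT F hF => ?_⟩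
  have e1 : (fun x : Zd d => -(σ * ω x + 2 * d)) = fun x => (-(σ * ω x)) + -(2 * (d:ℝ)) := by
    funext x
    ring
  have e2 := evU_conj hψ
  rw [e1] at e2
  have e3 := ev_shift e2
  obtain ⟨φ, hφ, hn⟩ := ev_neg e3
  simp only [neg_neg] at hφ
  have e4 := hGG ω hω hωa φ hφ T hT F hF
  have e5 : ∀ (s : ℝ) (x : Zd d), ‖Complex.exp (Complex.I * ((-(2 * (d:ℝ)) : ℝ) : ℂ) * s)
      * (starRingEnd ℂ) (ψ s x)‖ = ‖ψ s x‖ := by
    intro s x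
    rw [norm_mul, Complex.norm_conj]
    have e : Complex.I * ((-(2 * (d:ℝ)) : ℝ) : ℂ) * (s:ℂ) = ((-(2 * (d:ℝ)) * s : ℝ) : ℂ) * Complex.I := by
      push_cast; ring
    rw [e, Complex.norm_exp_ofReal_mul_I, one_mul]
  simpa only [hn, e5] using e4

end Pool.Agent.H989.DY
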