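import Pool.Agent.H989.DY.DyComb
import Pool.Agent.H989.DY.DyRes
import Pool.Agent.H989.DY.DyLoc
import Pool.Agent.H989.DY.DyAtom
import Pool.Agent.H121.SD.FinQ
import Pool.Agent.H121.SH.FinB
import Pool.Agent.H989.ME.Edge

/-!
Dynamical localization above the mobility edge, Gaussian law.
-/

set_option linter.unusedSectionVars false
set_option linter.unusedVariables false

open MeasureTheory ProbabilityTheory Finset Filter
open scoped InnerProductSpace

namespace Pool.Agent.H989.DY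

open Pool.Agent.H121.SH Pool.Agent.H121.SD Pool.Agent.H989.ME
open Pool.Agent.H987.Z (SqS IsSp)
open Pool.Agent.W788.LD.Spec (S)
open Pool.Agent.H4R2.LO (Zd)

lemma ll_sqs {d : ℕ} (u : LL (Zd d)) : SqS (fun x => u x) := by
  have := (lp.memℓp u).summable (by norm_num)
  unfold SqS
  simpa using this

/-- one realization -/
theorem loc_point {d : ℕ} {σ b M D η η' : ℝ} {a : Zd d} {ω : Zd d → ℝ}
    (hpp : ∀ (f : Zd d → ℂ) (m : Measure ℝ), SqS f → IsSp (opG σ ω) f m →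
      ∃ N : Set ℝ, N.Countable ∧ m ({E | b * |σ| ≤ |E|} \ N) = 0)
    (F : Finset (Zd d))
    (hF : ∀ (n : ℕ) (u : Fin n → lp (fun _ : Zd d => ℂ) 2) (E : Fin n → ℝ), Orthonormal ℂ u →
      (∀ j x, opG σ ω (u j) x = E j * u j x) → (∀ j, b * |σ| ≤ |E j| ∧ |E j| ≤ M * |σ|) →
      ∀ θ : Fin n → ℂ, (∀ j, ‖θ j‖ ≤ 1) →
      ∑ y ∈ F, ‖∑ j, θ j * (starRingEnd ℂ) (u j a) * u j (a + y)‖ ^ 2 ≤ η)
    (hD : 0 < D) (hJ : ∀ s : ℝ, |s - σ * ω a| < D / 2 → b * |σ| ≤ |s| ∧ |s| ≤ M * |σ|)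
    (hm : 8 * (2 * d) / D ^ 2 < η')
    {ψ : ℝ → Zd d → ℂ} (hψ : Ev d (fun x => σ * ω x) a ψ) (t : ℝ) :
    ∑ y ∈ F, ‖ψ t (a + y)‖ ^ 2 ≤ 2 * η + 2 * η' := by
  classical
  obtain ⟨R, hR, hsol, hres⟩ := exists_res (fun x : Zd d => σ * ω x)
  obtain ⟨m, hfin, hm1, hm2⟩ := hR.sp (dv a)
  rw [DyCheb_norm_dv, one_pow, ENNReal.ofReal_one] at hm2
  have hsp : IsSp (opG σ ω) (fun x => (dv a : LL (Zd d)) x) m := by
    refine ⟨hfin, fun z hz => ⟨fun x => R z (dv a) x, ll_sqs _, fun x => hsol z hz (dv a) x, ?_⟩⟩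
    rw [← hm1 z hz, dyComb_inner, tsum_eq_single a]
    · have e1 : (starRingEnd ℂ) ((dv a : LL (Zd d)) a) * (R z (dv a)) a = (R z (dv a)) a := by
        rw [dyComb_dv_self, map_one, one_mul]
      exact e1.symm
    · intro x hx
      have e1 : (starRingEnd ℂ) ((dv a : LL (Zd d)) x) * (R z (dv a)) x = 0 := by
        rw [dyComb_dv_ne hx, map_zero, zero_mul]
      exact e1
  obtain ⟨N, hN, hN0⟩ := hpp _ m (ll_sqs _) hsp
  have hmass := DyCheb_mass hR a (σ * ω a) (dyComb_chi a)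
    (fun z hz => dyComb_res (a := a) hsol hres z hz) hm1 hm2 hD
  obtain ⟨J, hJd⟩ : ∃ J : Set ℝ, J = {E : ℝ | b * |σ| ≤ |E| ∧ |E| ≤ M * |σ|} := ⟨_, rfl⟩
  have hJm : MeasurableSet J := by
    rw [hJd]
    exact (measurableSet_le measurable_const measurable_norm).inter
      (measurableSet_le measurable_norm measurable_const)
  have hJN : m (J \ N) = 0 := by
    refine measure_mono_null ?_ hN0
    rw [hJd]
    intro s hs
    exact ⟨hs.1.1, hs.2⟩
  have hprob : IsProbabilityMeasure m := ⟨hm2⟩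
  have hc : 1 - η' < m.real J := by
    have h1 : Jᶜ ⊆ {s : ℝ | D / 2 ≤ |s - σ * ω a|} := by
      intro s hs
      by_contra h2
      apply hs
      rw [hJd]
      exact hJ s (not_le.1 h2)
    have h2 : m.real Jᶜ ≤ 8 * (2 * d) / D ^ 2 := by
      rw [Measure.real]
      refine ENNReal.toReal_le_of_le_ofReal (by positivity) ?_
      refine (measure_mono h1).trans (hmass.trans (ENNReal.ofReal_le_ofReal ?_))
      refine div_le_div_of_nonneg_right ?_ (by positivity)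
      linarith [dyComb_chi_norm a]
    rw [probReal_compl_eq_one_sub hJm] at h2
    linarith
  obtain ⟨n, u, E, hu, hE, hEJ, hc'⟩ := atoms hR hsol hm1 hJm hN hJN hc
  have key := loc_comb hψ u E hu hE (η := η) (η' := η') hc' (F.image fun y => a + y)
    (fun θ hθ => by
      rw [Finset.sum_image fun y _ y' _ h => add_left_cancel h]
      refine le_trans (le_of_eq ?_) (hF n u E hu (fun j x => hE j x) (fun j => by
        have := hEJ j
        rw [hJd] at this
        exact this) θ hθ)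
      refine Finset.sum_congr rfl fun y _ => ?_
      simp only [mul_assoc]) t
  rw [Finset.sum_image fun y _ y' _ h => add_left_cancel h] at key
  exact key

/-- tails of one coordinate -/
lemma tail_event (ν : Measure ℝ) [IsProbabilityMeasure ν] {η : ℝ} (hη : 0 < η) : ∃ M : ℝ, 1 ≤ M ∧
    ∀ (d : ℕ) (a : Fin d → ℤ), MeasurableSet {ω : (Fin d → ℤ) → ℝ | |ω a| ≤ M} ∧
      1 - η ≤ (Measure.infinitePi fun _ : Fin d → ℤ => ν).real {ω | |ω a| ≤ M} := by
  have hmono : Monotone fun n : ℕ => {x : ℝ | |x| ≤ n} := by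
    intro n n' h x hx
    have h1 : |x| ≤ n := hx
    have h2 : (n : ℝ) ≤ n' := by exact_mod_cast h
    exact h1.trans h2
  have hU : ⋃ n : ℕ, {x : ℝ | |x| ≤ n} = Set.univ := by
    ext x
    simp only [Set.mem_iUnion, Set.mem_ofPred_eq, Set.mem_univ, iff_true]
    exact exists_nat_ge _
  have ht := tendsto_measure_iUnion_atTop (μ := ν) hmono
  rw [hU, measure_univ] at ht
  have ht2 := (ENNReal.tendsto_toReal ENNReal.one_ne_top).comp ht
  have hev := (ht2.eventually (lt_mem_nhds (show 1 - η < (1 : ENNReal).toReal by simpa using hη))).and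
    (eventually_ge_atTop 1)
  obtain ⟨n, hn, hn1⟩ := hev.exists
  refine ⟨n, by exact_mod_cast hn1, fun d a => ⟨?_, ?_⟩⟩
  · exact measurableSet_le (measurable_norm.comp (measurable_pi_apply a)) measurable_const
  · have hmp := measurePreserving_eval_infinitePi (fun _ : Fin d → ℤ => ν) a
    have hms : MeasurableSet {x : ℝ | |x| ≤ n} := measurableSet_le measurable_norm measurable_const
    have h1 := hmp.measureReal_preimage hms.nullMeasurableSet
    have h2 : (Function.eval a) ⁻¹' {x : ℝ | |x| ≤ n} = {ω : (Fin d → ℤ) → ℝ | |ω a| ≤ n} := rfl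
    rw [h2] at h1
    rw [h1]
    exact hn.le

/-- the solution stays within the distance `R` of the starting point -/
def DynL (d : ℕ) (σ β η : ℝ) (R : ℕ) : Prop :=
  ∀ a : Zd d, ∃ GG : Set (Zd d → ℝ), MeasurableSet GG ∧
    1 - η ≤ (Measure.infinitePi fun _ : Zd d => gaussianReal 0 1).real GG ∧
    ∀ ω ∈ GG, β ≤ |ω a| → ∀ ψ : ℝ → Zd d → ℂ, Ev d (fun x => σ * ω x) a ψ →
      ∀ (t : ℝ) (F : Finset (Zd d)), (∀ y ∈ F, (R : ℝ) < ∑ i, |(y i : ℝ)|) →
      ∑ y ∈ F, ‖ψ t (a + y)‖ ^ 2 ≤ η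

/-- three events -/
lemma three {Ω : Type} [MeasurableSpace Ω] {P : Measure Ω} [IsProbabilityMeasure P] {A B : Set Ω}
    {C : Ω → Prop} (hA : MeasurableSet A) (hB : MeasurableSet B) {η : ℝ}
    (hPA : 1 - η / 2 ≤ P.real A) (hPB : 1 - η / 2 ≤ P.real B) (hC : ∀ᵐ ω ∂P, C ω) :
    ∃ G : Set Ω, MeasurableSet G ∧ 1 - η ≤ P.real G ∧ ∀ ω ∈ G, ω ∈ A ∧ ω ∈ B ∧ C ω := by
  obtain ⟨N, hN1, hN2, hN3⟩ := exists_measurable_superset_of_null (ae_iff.1 hC)
  refine ⟨(A ∩ B) \ N, (hA.inter hB).diff hN2, ?_, fun ω hω => ⟨hω.1.1, hω.1.2, ?_⟩⟩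
  · have h1 : ((A ∩ B) \ N)ᶜ ⊆ Aᶜ ∪ Bᶜ ∪ N := by
      intro ω hω
      by_contra h
      simp only [Set.mem_union, Set.mem_compl_iff, not_or, not_not] at h
      exact hω ⟨⟨h.1.1, h.1.2⟩, h.2⟩
    have h2 : P.real ((A ∩ B) \ N)ᶜ ≤ P.real Aᶜ + P.real Bᶜ + P.real N :=
      (measureReal_mono h1).trans ((measureReal_union_le _ _).trans
        (add_le_add (measureReal_union_le _ _) le_rfl))
    have h3 : P.real N = 0 := by rw [Measure.real, hN3]; rfl
    rw [probReal_compl_eq_one_sub ((hA.inter hB).diff hN2), probReal_compl_eq_one_sub hA,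
      probReal_compl_eq_one_sub hB, h3] at h2
    linarith
  · by_contra h
    exact hω.2 (hN1 h)

/-- the localized side -/
theorem loc_dyn {B ε : ℝ} (hB : 0 ≤ B) (hε : 0 < ε) :
    (∃ d₀ : ℕ, ∀ η : ℝ, 0 < η → ∃ R : ℕ, ∀ d : ℕ, d₀ ≤ d → ∀ σ : ℝ, (1 + ε) * s0 d ≤ |σ| →
        DynL d σ 0 η R) ∧
      ∃ (d₀ R : ℕ), ∀ d : ℕ, d₀ ≤ d → ∀ σ : ℝ, σ ≠ 0 → be d σ ≤ B →
        DynL d σ (be d σ + ε) ε R := by
  obtain ⟨ε₃, hε₃⟩ : ∃ x, x = ε / 2 := ⟨_, rfl⟩
  have hε₃0 : 0 < ε₃ := by rw [hε₃]; positivity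
  obtain ⟨ε₂, hε₂⟩ : ∃ x, x = min ε (Real.exp (ε₃ ^ 2 / 2) - 1) := ⟨_, rfl⟩
  have he : 0 < Real.exp (ε₃ ^ 2 / 2) - 1 := by
    have := Real.add_one_lt_exp (x := ε₃ ^ 2 / 2) (by positivity)
    have h2 : 0 < ε₃ ^ 2 / 2 := by positivity
    linarith
  have h0 : 0 < ε₂ := by rw [hε₂]; exact lt_min hε he
  have h1 : ε₂ ≤ ε := by rw [hε₂]; exact min_le_left _ _
  have h2 : ε₂ ≤ Real.exp (ε₃ ^ 2 / 2) - 1 := by rw [hε₂]; exact min_le_right _ _
  obtain ⟨d₁, γ, hγ, hsa, hloc, hrad⟩ := fin_curve (B + ε₃) ε₂ (by linarith) h0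
  obtain ⟨d₂, hq⟩ := fin_curveQ (B + ε₃) ε₂ (by linarith) h0
  have hA : ∀ d : ℕ, 2 ≤ d → ∀ σ : ℝ, (1 + ε) * s0 d ≤ |σ| →
      (1 + ε₂) * (8 * gaussianPDFReal 0 1 0) * (d * Real.log d) ≤ |σ| := by
    intro d hd σ h
    have hs := s0_pos hd
    refine le_trans ?_ h
    have : (1 + ε₂) * (8 * gaussianPDFReal 0 1 0) * (d * Real.log d) = (1 + ε₂) * s0 d := by
      rw [s0]; ring
    rw [this]
    exact mul_le_mul_of_nonneg_right (by linarith) hs.le
  have hA' : ∀ d : ℕ, 2 ≤ d → ∀ σ : ℝ, σ ≠ 0 →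
      (1 + ε₂) * (8 * gaussianPDFReal 0 1 (be d σ + ε₃)) * (d * Real.log d) ≤ |σ| := by
    intro d hd σ h
    refine le_trans ?_ (loc_side hd (abs_pos.mpr h) hε₃0)
    have hp : 0 ≤ 8 * gaussianPDFReal 0 1 (be d σ + ε₃) := by
      have := gaussianPDFReal_nonneg 0 1 (be d σ + ε₃)
      linarith
    have hd' : (2:ℝ) ≤ d := by exact_mod_cast hd
    have hl : 0 ≤ (d:ℝ) * Real.log d :=
      mul_nonneg (by linarith) (Real.log_nonneg (by linarith))
    exact mul_le_mul_of_nonneg_right (mul_le_mul_of_nonneg_right (by linarith) hp) hl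
  -- the coupling is at least `c d log d`, so at least `2 d`
  have hlogt : Tendsto (fun d : ℕ => Real.log (d : ℝ)) atTop atTop :=
    Real.tendsto_log_atTop.comp tendsto_natCast_atTop_atTop
  have cast : ∀ {d : ℕ} (R : ℕ) (y : Fin d → ℤ), (R : ℝ) < ∑ i, |(y i : ℝ)| → (R : ℤ) < ∑ i, |y i| := by
    intro d R y h
    have h5 : ((R : ℤ) : ℝ) < ((∑ i, |y i| : ℤ) : ℝ) := by push_cast; exact h
    exact_mod_cast h5
  constructor
  · have hp0 := pdf0_pos
    obtain ⟨d₃, hd₃⟩ := eventually_atTop.1 (hlogt.eventually_ge_atTop (1 / (8 * gaussianPDFReal 0 1 0)))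
    refine ⟨max (max d₁ d₂) (max d₃ 2), fun η hη => ?_⟩
    obtain ⟨M₁, hM₁, hM₂⟩ := tail_event (gaussianReal 0 1) (η := η / 2) (by positivity)
    obtain ⟨M, hM⟩ : ∃ M : ℝ, M = 2 * M₁ + 2 + 64 / η := ⟨_, rfl⟩
    have h64 : 0 < 64 / η := by positivity
    have hM0 : 0 < M := by rw [hM]; linarith
    obtain ⟨R, hR⟩ := hq M (η / 4) hM0 (by positivity)
    refine ⟨R, fun d hd σ hσ a => ?_⟩
    have g1 : d₁ ≤ d := le_trans (le_trans (le_max_left _ _) (le_max_left _ _)) hd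
    have g2 : d₂ ≤ d := le_trans (le_trans (le_max_right _ _) (le_max_left _ _)) hd
    have g3 : d₃ ≤ d := le_trans (le_trans (le_max_left _ _) (le_max_right _ _)) hd
    have g4 : 2 ≤ d := le_trans (le_trans (le_max_right _ _) (le_max_right _ _)) hd
    have hd2 : (2:ℝ) ≤ d := by exact_mod_cast g4
    have hσd : (d:ℝ) ≤ |σ| := by
      refine le_trans ?_ hσ
      have h3 := hd₃ d g3
      rw [div_le_iff₀ (by positivity)] at h3
      unfold s0
      have h4 : (d:ℝ) * 1 ≤ d * (Real.log d * (8 * gaussianPDFReal 0 1 0)) := by gcongr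
      have h5 : 0 ≤ 8 * gaussianPDFReal 0 1 0 * (d * Real.log d) := by
        have := hlogt
        have hl : 0 ≤ Real.log (d:ℝ) := Real.log_nonneg (by linarith)
        positivity
      nlinarith
    have hσ0 : 0 < |σ| := by linarith
    obtain ⟨G, hG, hP, hG3⟩ := hR 0 le_rfl (by linarith) d g2 σ (hA d g4 σ hσ) a
    obtain ⟨GG, hGG1, hGG2, hGG3⟩ := three (η := η) hG (hM₂ d a).1 (by linarith) (hM₂ d a).2
      (hloc 0 le_rfl (by linarith) d g1 σ (hA d g4 σ hσ))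
    refine ⟨GG, hGG1, hGG2, fun ω hω hωa ψ hψ t F hF => ?_⟩
    obtain ⟨w1, w2, w3⟩ := hGG3 ω hω
    have w2' : |ω a| ≤ M₁ := w2
    have key := loc_point (b := 0) (M := M) (D := M * |σ|) (η := η / 4) (η' := η / 4) w3.1 F
      (fun n u E hu hE hEM θ hθ => hG3 ω w1 n u E hu hE hEM θ hθ F fun y hy => cast R y (hF y hy))
      (by positivity) (fun s hs => ?_) ?_ hψ t
    · linarith
    · refine ⟨by rw [zero_mul]; exact abs_nonneg _, ?_⟩
      have e1 : |s| ≤ |s - σ * ω a| + |σ * ω a| := by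
        have := abs_add_le (s - σ * ω a) (σ * ω a)
        simpa using this
      have e2 : |σ * ω a| ≤ |σ| * M₁ := by rw [abs_mul]; gcongr
      have e3 : |σ| * M₁ ≤ |σ| * (M / 2) := by
        apply mul_le_mul_of_nonneg_left _ hσ0.le
        rw [hM]; linarith
      linarith
    · have e4 : 64 / η ≤ M := by rw [hM]; linarith
      rw [div_le_iff₀ hη] at e4
      rw [div_lt_iff₀ (by positivity)]
      have e5 : 1 ≤ M := by rw [hM]; linarith
      have e6 : (d:ℝ) ≤ |σ| ^ 2 := by nlinarith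
      have e7 : M ≤ M ^ 2 := by nlinarith
      calc 8 * (2 * (d:ℝ)) = 16 * d := by ring
        _ ≤ 16 * |σ| ^ 2 := by linarith
        _ = (η / 4 * (64 / η)) * |σ| ^ 2 := by
            field_simp
            norm_num
        _ < (η / 4 * M ^ 2) * |σ| ^ 2 := by
            have e8 : 64 / η < M ^ 2 := by
              have : 64 / η < M := by rw [hM]; linarith
              linarith
            have e9 : 0 < |σ| ^ 2 := by positivity
            have e10 : η / 4 * (64 / η) < η / 4 * M ^ 2 := by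
              apply mul_lt_mul_of_pos_left e8 (by positivity)
            exact mul_lt_mul_of_pos_right e10 e9
        _ = η / 4 * (M * |σ|) ^ 2 := by ring
  · obtain ⟨M₁, hM₁, hM₂⟩ := tail_event (gaussianReal 0 1) (η := ε / 2) (by positivity)
    obtain ⟨M, hM⟩ : ∃ M : ℝ, M = M₁ + ε := ⟨_, rfl⟩
    have hM0 : 0 < M := by rw [hM]; linarith
    obtain ⟨R, hR⟩ := hq M (ε / 4) hM0 (by positivity)
    obtain ⟨κ, hκ⟩ : ∃ κ, κ = 8 * gaussianPDFReal 0 1 0 * Real.exp (-(B ^ 2 / 2)) := ⟨_, rfl⟩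
    have hκ0 : 0 < κ := by
      have := pdf0_pos
      rw [hκ]; positivity
    obtain ⟨d₃, hd₃⟩ := eventually_atTop.1 ((hlogt.eventually_ge_atTop (1 / κ)).and
      (tendsto_natCast_atTop_atTop.eventually_ge_atTop (64 / ε ^ 3 + 1)))
    refine ⟨max (max d₁ d₂) (max d₃ 2), R, fun d hd σ hσ hbB a => ?_⟩
    have g1 : d₁ ≤ d := le_trans (le_trans (le_max_left _ _) (le_max_left _ _)) hd
    have g2 : d₂ ≤ d := le_trans (le_trans (le_max_right _ _) (le_max_left _ _)) hd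
    have g3 : d₃ ≤ d := le_trans (le_trans (le_max_left _ _) (le_max_right _ _)) hd
    have g4 : 2 ≤ d := le_trans (le_trans (le_max_right _ _) (le_max_right _ _)) hd
    have hd2 : (2:ℝ) ≤ d := by exact_mod_cast g4
    have hσ0 : 0 < |σ| := abs_pos.2 hσ
    have hb0 := be_nonneg d σ
    have hσd : (d:ℝ) ≤ |σ| := by
      refine le_trans ?_ (be_le g4 hσ0)
      have h3 := (hd₃ d g3).1
      rw [div_le_iff₀ hκ0] at h3
      have h4 : Real.exp (-(B ^ 2 / 2)) ≤ Real.exp (-(be d σ ^ 2 / 2)) := by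
        apply Real.exp_le_exp.2
        have : be d σ ^ 2 ≤ B ^ 2 := by gcongr
        linarith
      have h5 := (s0_pos g4).le
      calc (d:ℝ) = d * 1 := by ring
        _ ≤ d * (Real.log d * κ) := by gcongr
        _ = s0 d * Real.exp (-(B ^ 2 / 2)) := by rw [hκ, s0]; ring
        _ ≤ _ := by gcongr
    have hthr := hA' d g4 σ hσ
    obtain ⟨G, hG, hP, hG3⟩ := hR (be d σ + ε₃) (by linarith) (by linarith) d g2 σ hthr a
    obtain ⟨GG, hGG1, hGG2, hGG3⟩ := three (η := ε) hG (hM₂ d a).1 (by linarith) (hM₂ d a).2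
      (hloc (be d σ + ε₃) (by linarith) (by linarith) d g1 σ hthr)
    refine ⟨GG, hGG1, hGG2, fun ω hω hωa ψ hψ t F hF => ?_⟩
    obtain ⟨w1, w2, w3⟩ := hGG3 ω hω
    have w2' : |ω a| ≤ M₁ := w2
    have key := loc_point (b := be d σ + ε₃) (M := M) (D := ε * |σ|) (η := ε / 4) (η' := ε / 4) w3.1 F
      (fun n u E hu hE hEM θ hθ => hG3 ω w1 n u E hu hE hEM θ hθ F fun y hy => cast R y (hF y hy))
      (by positivity) (fun s hs => ?_) ?_ hψ t
    · linarith
    · have e0 : |σ * ω a| = |σ| * |ω a| := abs_mul _ _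
      have e1 : |s| ≤ |s - σ * ω a| + |σ * ω a| := by
        have := abs_add_le (s - σ * ω a) (σ * ω a)
        simpa using this
      have e1' : |σ * ω a| ≤ |s - σ * ω a| + |s| := by
        have := abs_sub (s) (s - σ * ω a)
        rw [sub_sub_cancel] at this
        linarith
      have e2 : |σ| * |ω a| ≤ |σ| * M₁ := by gcongr
      have e3 : |σ| * (be d σ + ε) ≤ |σ| * |ω a| := by gcongr
      rw [e0] at e1 e1'
      rw [hM, hε₃]
      constructor
      · nlinarith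
      · nlinarith
    · have e4 : 64 / ε ^ 3 + 1 ≤ d := (hd₃ d g3).2
      have e5 : 64 / ε ^ 3 < d := by linarith
      rw [div_lt_iff₀ (by positivity)] at e5
      rw [div_lt_iff₀ (by positivity)]
      have e6 : (d:ℝ) ^ 2 ≤ |σ| ^ 2 := by gcongr
      have e7 : 0 < ε ^ 3 := by positivity
      calc 8 * (2 * (d:ℝ)) = 64 * d / 4 := by ring
        _ < (d * ε ^ 3) * d / 4 := by
            have : (0:ℝ) < d := by linarith
            nlinarith
        _ = ε ^ 3 / 4 * (d:ℝ) ^ 2 := by ring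
        _ ≤ ε ^ 3 / 4 * |σ| ^ 2 := by gcongr
        _ = ε / 4 * (ε * |σ|) ^ 2 := by ring

end Pool.Agent.H989.DY
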