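import Pool.Agent.H989.DY.Asd
import Pool.Agent.H989.DY.DyComb
import Pool.Agent.H989.DY.DyRes
import Pool.Agent.H989.DY.DyLoc
import Pool.Agent.H989.SB.FinG3
import Pool.Agent.H989.ME.Spr

/-!
The spreading of the wave packets below the mobility edge, Gaussian law.
-/

set_option linter.unusedSectionVars false
set_option linter.unusedVariables false

open MeasureTheory ProbabilityTheory Finset Filter

namespace Pool.Agent.H989.DY

open Pool.Agent.H989 Pool.Agent.H989.SB Pool.Agent.H989.ME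
open Pool.Agent.W788.LD.Spec (S)

lemma cols_of {d : ℕ} {σ : ℝ} {ω : Zd d → ℝ} {R : ℂ → LL (Zd d) →L[ℂ] LL (Zd d)}
    (hsol : ∀ z : ℂ, z.im ≠ 0 → ∀ (f : LL (Zd d)) (x : Zd d),
      S (fun y => R z f y) x + ((σ * ω x : ℝ) : ℂ) * R z f x - z * R z f x = f x)
    (a : Zd d) (B : Finset (Zd d)) {η : ℝ} (hη : 0 < η) :
    Cols σ ω η a B (fun E y => R ⟨E, η⟩ (dv (a + y))) := by
  have h1 : ∀ E b, RC σ ω (en η E) b (R ⟨E, η⟩ (dv b)) := by
    intro E b x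
    have h2 := hsol (en η E) hη.ne' (dv b) x
    refine Eq.trans h2 ?_
    by_cases hx : x = b
    · rw [if_pos hx, hx, dyComb_dv_self]
    · rw [if_neg hx, dyComb_dv_ne hx]
  refine ⟨fun E => ?_, fun E y _ => h1 E (a + y)⟩
  have h3 := h1 E (a + 0)
  rw [add_zero] at h3
  simpa using h3

/-- one realization -/
theorem dyn_point {d : ℕ} {σ b e δ η₀ θ ε₁ : ℝ} {R : ℕ} {a : Zd d} {ω : Zd d → ℝ} (hσ : 0 < σ)
    (he : 0 < e) (hη₀ : 0 < η₀) (hηδ : η₀ ≤ σ * δ / 4) (hθ : 0 < θ) (hε₁ : 0 ≤ ε₁)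
    (hω : ∀ w : ℝ → Zd d → L2 d, Cols σ ω η₀ a (bal d R) w →
      ∫⁻ E in Set.Icc (-(b * σ) - σ * δ / 4) (b * σ + σ * δ / 4), gZ (bal d R) η₀ θ w E
        ≤ ENNReal.ofReal ε₁)
    (ha : |ω a| ≤ b - e) {ψ : ℝ → Zd d → ℂ} (hψ : Ev d (fun x => σ * ω x) a ψ) {T : ℝ}
    (hT : 0 < T) (hTη : 1 / T ≤ η₀) :
    (1 / T) * ∫ s in (0:ℝ)..T, ∑ y ∈ bal d R, ‖ψ s (a + y)‖ ^ 2 ≤
      4 * (2 * ((1 / T) / η₀) * (2 * d + 1) ^ R + 2 * (3 * θ) + 8 * (2 * d) / (e * σ) ^ 2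
        + 3 * (1 / T) / (e * σ)) + 12 * ε₁ := by
  classical
  obtain ⟨Rz, hR, hsol, hres⟩ := exists_res (fun x : Zd d => σ * ω x)
  have hinj : Set.InjOn (fun y : Zd d => a + y) (bal d R) := fun y _ y' _ h => add_left_cancel h
  have h1 := comb hψ hR hsol hres ((bal d R).image fun y => a + y) (T := T) (η₀ := η₀)
    (κ := 3 * θ) (b := b * σ) (D := e * σ) hT hTη (by positivity) (by positivity) (by
      rw [abs_mul, abs_of_pos hσ]
      nlinarith)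
  simp only [Finset.sum_image hinj] at h1
  have hcard : (((bal d R).image fun y => a + y).card : ℝ) ≤ (2 * d + 1) ^ R := by
    have h2 := card_ball R (bal d R) (fun y hy => mem_bal.1 hy)
    have h3 : ((bal d R).image fun y => a + y).card ≤ (2 * d + 1) ^ R := Finset.card_image_le.trans h2
    exact_mod_cast h3
  have hcols := cols_of (R := Rz) hsol a (bal d R) hη₀
  have h4 := hω _ hcols
  have h5 : ∫⁻ E in Set.Icc (-(b * σ) - η₀) (b * σ + η₀), ENNReal.ofReal ((η₀ * ‖Rz ⟨E, η₀⟩ (dv a)‖ ^ 2) *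
        (if 3 * θ / 3 < ∑ y ∈ bal d R, η₀ * (η₀ * ‖Rz ⟨E, η₀⟩ (dv (a + y))‖ ^ 2) then 1 else 0))
      ≤ ENNReal.ofReal ε₁ := by
    refine le_trans ?_ h4
    refine (lintegral_mono_set (Set.Icc_subset_Icc (by linarith) (by linarith))).trans
      (lintegral_mono fun E => ?_)
    unfold gZ
    have e0 : a + 0 = a := add_zero a
    beta_reduce
    rw [e0, mul_div_cancel_left₀ θ (by norm_num : (3:ℝ) ≠ 0)]
  have hX : 0 ≤ 2 * ((1 / T) / η₀) * ((bal d R).image fun y => a + y).card + 2 * (3 * θ)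
      + 8 * (2 * d) / (e * σ) ^ 2 + 3 * (1 / T) / (e * σ) := by positivity
  have h6 : ENNReal.ofReal ((1 / T) * ∫ s in (0:ℝ)..T, ∑ y ∈ bal d R, ‖ψ s (a + y)‖ ^ 2) ≤
      ENNReal.ofReal (4 * (2 * ((1 / T) / η₀) * ((bal d R).image fun y => a + y).card + 2 * (3 * θ)
      + 8 * (2 * d) / (e * σ) ^ 2 + 3 * (1 / T) / (e * σ)) + 12 * ε₁) := by
    refine h1.trans ((mul_le_mul_right (add_le_add le_rfl (mul_le_mul_right h5 3)) 4).trans
      (le_of_eq ?_))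
    rw [show (3 : ENNReal) = ENNReal.ofReal 3 by norm_num, show (4 : ENNReal) = ENNReal.ofReal 4 by norm_num,
      ← ENNReal.ofReal_mul (by norm_num), ← ENNReal.ofReal_add hX (by positivity),
      ← ENNReal.ofReal_mul (by norm_num)]
    congr 1
    ring
  rw [ENNReal.ofReal_le_ofReal_iff (by positivity)] at h6
  refine h6.trans ?_
  gcongr

/-- time averages of the probability to be within the distance `c log d / (log log d)²` of the starting point -/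
def DynS (d : ℕ) (σ β c ε : ℝ) : Prop :=
  ∀ a : Zd d, ∃ GG : Set (Zd d → ℝ), MeasurableSet GG ∧ 1 - ε ≤ (lawZ (gaussianReal 0 1) d).real GG ∧
    ∀ ω ∈ GG, |ω a| ≤ β → ∀ ψ : ℝ → Zd d → ℂ, Ev d (fun x => σ * ω x) a ψ →
      ∀ T : ℝ, Real.exp (2 * Real.log (2 * d) ^ 3) ≤ T → ∀ F : Finset (Zd d),
      (∀ y ∈ F, ∑ i, |(y i : ℝ)| ≤ c * Real.log d / Real.log (Real.log d) ^ 2) →
      (1 / T) * ∫ s in (0:ℝ)..T, ∑ y ∈ F, ‖ψ s (a + y)‖ ^ 2 ≤ ε

lemma ev_cont {d : ℕ} {W : Zd d → ℝ} {a : Zd d} {ψ : ℝ → Zd d → ℂ} (h : Ev d W a ψ) (x : Zd d) :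
    Continuous fun s => ψ s x :=
  continuous_iff_continuousAt.2 fun s => (h.ode s x).continuousAt

lemma avg_mono {d : ℕ} {W : Zd d → ℝ} {a : Zd d} {ψ : ℝ → Zd d → ℂ} (h : Ev d W a ψ) {T : ℝ}
    (hT : 0 < T) {F F' : Finset (Zd d)} (hF : F ⊆ F') :
    (1 / T) * ∫ s in (0:ℝ)..T, ∑ y ∈ F, ‖ψ s (a + y)‖ ^ 2 ≤
      (1 / T) * ∫ s in (0:ℝ)..T, ∑ y ∈ F', ‖ψ s (a + y)‖ ^ 2 := by
  have hc : ∀ F : Finset (Zd d), Continuous fun s => ∑ y ∈ F, ‖ψ s (a + y)‖ ^ 2 := fun F =>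
    continuous_finsetSum _ fun y _ => ((ev_cont h (a + y)).norm.pow 2)
  refine mul_le_mul_of_nonneg_left ?_ (by positivity)
  refine intervalIntegral.integral_mono_on hT.le ((hc F).intervalIntegrable _ _)
    ((hc F').intervalIntegrable _ _) fun s _ => ?_
  exact Finset.sum_le_sum_of_subset_of_nonneg hF fun y _ _ => by positivity

theorem DynS.mono {d : ℕ} (hd : 1 ≤ d) {σ β β' c c' ε ε' : ℝ} (hβ : β' ≤ β) (hc : c' ≤ c)
    (hε : ε ≤ ε') (h : DynS d σ β c ε) : DynS d σ β' c' ε' := by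
  have hl : 0 ≤ Real.log (d:ℝ) := Real.log_nonneg (by exact_mod_cast hd)
  have hX : 0 ≤ Real.log (d:ℝ) / Real.log (Real.log d) ^ 2 := div_nonneg hl (sq_nonneg _)
  have h1 : c' * Real.log (d:ℝ) / Real.log (Real.log d) ^ 2 ≤
      c * Real.log (d:ℝ) / Real.log (Real.log d) ^ 2 := by
    rw [mul_div_assoc, mul_div_assoc]
    exact mul_le_mul_of_nonneg_right hc hX
  intro a
  obtain ⟨G, hG, hP, hG3⟩ := h a
  exact ⟨G, hG, by linarith, fun ω hω hωa ψ hψ T hT F hF =>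
    (hG3 ω hω (hωa.trans hβ) ψ hψ T hT F fun y hy => (hF y hy).trans h1).trans hε⟩

theorem dynS_false {d : ℕ} {σ β c ε : ℝ} (hε : 0 ≤ ε) (hβ : β < 0) : DynS d σ β c ε := by
  have hp : (lawZ (gaussianReal 0 1) d).real Set.univ = 1 := by
    unfold lawZ
    exact probReal_univ
  intro a
  refine ⟨Set.univ, MeasurableSet.univ, by rw [hp]; linarith, fun ω hω hωa => ?_⟩
  have := abs_nonneg (ω a)
  linarith

/-- numbers -/
lemma dyn_num {c₀ ε e : ℝ} (hc₀ : 0 < c₀) (hε : 0 < ε) (he : 0 < e) : ∃ d₀ : ℕ, ∀ d : ℕ, d₀ ≤ d →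
    ∀ R A : ℕ, ((R + A : ℕ) : ℝ) * Real.log (Real.log (2 * d)) ^ 2 ≤ c₀ * Real.log (2 * d) →
    ∀ σ T : ℝ, 2 * (d : ℝ) ≤ σ → Real.exp (2 * Real.log (2 * d) ^ 3) ≤ T →
      1 ≤ T ∧ 1 / T ≤ pη (Real.log (2 * d)) ∧ pη (Real.log (2 * d)) ≤ σ * (ε ⊓ e) ∧
      4 * (2 * ((1 / T) / pη (Real.log (2 * d))) * (2 * (d:ℝ) + 1) ^ R + 8 * (2 * d) / (e * σ) ^ 2
        + 3 * (1 / T) / (e * σ)) ≤ ε := by
  have ht : Tendsto (fun d : ℕ => Real.log (2 * (d : ℝ))) atTop atTop :=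
    Real.tendsto_log_atTop.comp (Tendsto.const_mul_atTop (by norm_num) tendsto_natCast_atTop_atTop)
  have ht2 := Real.tendsto_log_atTop.comp ht
  obtain ⟨d₁, hd₁⟩ := eventually_atTop.1 ((ht.eventually_ge_atTop 3).and
    ((ht2.eventually_ge_atTop (1 + c₀)).and (tendsto_natCast_atTop_atTop.eventually_ge_atTop
      (1 + 12 / ε + 48 / (e ^ 2 * ε) + 18 / (e * ε) + 1 / (ε ⊓ e)))))
  refine ⟨d₁, fun d hd R A hRA σ T hσ hT => ?_⟩
  obtain ⟨hx3, hl, hdb⟩ := hd₁ d hd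
  simp only [Function.comp_apply] at hl
  have hεe : 0 < ε ⊓ e := lt_min hε he
  have p1 : 0 < 12 / ε := by positivity
  have p2 : 0 < 48 / (e ^ 2 * ε) := by positivity
  have p3 : 0 < 18 / (e * ε) := by positivity
  have p4 : 0 < 1 / (ε ⊓ e) := by positivity
  have hd1 : (1:ℝ) ≤ d := by linarith
  have hd0 : (0:ℝ) < d := by linarith
  have hσ0 : 0 < σ := by linarith
  obtain ⟨x, hx⟩ : ∃ x, x = Real.log (2 * (d:ℝ)) := ⟨_, rfl⟩
  rw [← hx] at hx3 hl hRA hT ⊢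
  have hex : Real.exp x = 2 * d := by rw [hx, Real.exp_log (by positivity)]
  have hx0 : 0 < x := by linarith
  have hT1 : 1 ≤ T := by
    refine le_trans ?_ hT
    rw [Real.one_le_exp_iff]
    positivity
  have hT0 : 0 < T := by linarith
  have hTi : 1 / T ≤ Real.exp (-(2 * x ^ 3)) := by
    rw [Real.exp_neg, ← one_div]
    exact one_div_le_one_div_of_le (Real.exp_pos _) hT
  have hη : pη x = Real.exp (-x ^ 3) := rfl
  have hx3' : 0 < x ^ 3 := by positivity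
  refine ⟨hT1, ?_, ?_, ?_⟩
  · refine hTi.trans ?_
    rw [hη]
    apply Real.exp_le_exp.2
    linarith
  · rw [hη]
    have h1 : Real.exp (-x ^ 3) ≤ 1 := by rw [Real.exp_le_one_iff]; linarith
    refine h1.trans ?_
    have h2 : 1 / (ε ⊓ e) ≤ σ := by linarith
    rw [div_le_iff₀ hεe] at h2
    linarith
  · have hR : (R:ℝ) ≤ x := by
      have hR0 : (0:ℝ) ≤ R := Nat.cast_nonneg R
      have hA0 : (0:ℝ) ≤ A := Nat.cast_nonneg A
      push_cast at hRA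
      have h1 : c₀ ≤ Real.log x ^ 2 := by nlinarith
      have h2 : (R:ℝ) * c₀ ≤ c₀ * x := by
        calc (R:ℝ) * c₀ ≤ ((R:ℝ) + A) * Real.log x ^ 2 := by
              apply mul_le_mul (by linarith) h1 hc₀.le (by linarith)
          _ ≤ _ := hRA
      nlinarith
    have h1 : (2 * (d:ℝ) + 1) ^ R ≤ Real.exp ((x + 1) * x) := by
      have h2 : 2 * (d:ℝ) + 1 ≤ Real.exp (x + 1) := by
        rw [Real.exp_add, hex]
        have := Real.add_one_le_exp 1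
        nlinarith
      calc (2 * (d:ℝ) + 1) ^ R ≤ Real.exp (x + 1) ^ R := by gcongr
        _ = Real.exp ((x + 1) * R) := by rw [← Real.exp_nat_mul]; ring_nf
        _ ≤ _ := by
          apply Real.exp_le_exp.2
          gcongr
    have h2 : (1 / T) / pη x * (2 * (d:ℝ) + 1) ^ R ≤ 1 / (2 * d) := by
      rw [hη]
      calc (1 / T) / Real.exp (-x ^ 3) * (2 * (d:ℝ) + 1) ^ R
          ≤ Real.exp (-(2 * x ^ 3)) / Real.exp (-x ^ 3) * Real.exp ((x + 1) * x) := by gcongr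
        _ = Real.exp (-x ^ 3 + x ^ 2 + x) := by
            rw [← Real.exp_sub, ← Real.exp_add]
            congr 1
            ring
        _ ≤ Real.exp (-x) := by
            apply Real.exp_le_exp.2
            nlinarith [mul_nonneg hx0.le (sub_nonneg.2 hx3), mul_nonneg (mul_nonneg hx0.le hx0.le) (sub_nonneg.2 hx3)]
        _ = 1 / (2 * d) := by rw [Real.exp_neg, hex, one_div]
    have h3 : 1 / T ≤ 1 := by rw [div_le_one hT0]; exact hT1
    have h4 : 8 * (2 * (d:ℝ)) / (e * σ) ^ 2 ≤ 4 / (e ^ 2 * d) := by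
      rw [div_le_div_iff₀ (by positivity) (by positivity)]
      have : (2 * (d:ℝ)) ^ 2 ≤ σ ^ 2 := by gcongr
      have h5 : 0 < e ^ 2 := by positivity
      nlinarith [mul_le_mul_of_nonneg_left this h5.le]
    have h5 : 3 * (1 / T) / (e * σ) ≤ 3 / (2 * e * d) := by
      rw [div_le_div_iff₀ (by positivity) (by positivity)]
      have h6 : 3 * (1 / T) * (2 * e * d) ≤ 3 * 1 * (2 * e * d) := by gcongr
      have h7 : e * (2 * d) ≤ e * σ := by gcongr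
      nlinarith
    have q1 : 4 * (2 * (1 / (2 * (d:ℝ)))) ≤ ε / 3 := by
      have : 12 / ε ≤ d := by linarith
      rw [div_le_iff₀ hε] at this
      have e1 : 4 * (2 * (1 / (2 * (d:ℝ)))) = 4 / d := by field_simp
      rw [e1, div_le_iff₀ hd0]
      linarith
    have q2 : 4 * (4 / (e ^ 2 * d)) ≤ ε / 3 := by
      have : 48 / (e ^ 2 * ε) ≤ d := by linarith
      rw [div_le_iff₀ (by positivity)] at this
      rw [← mul_div_assoc, div_le_iff₀ (by positivity)]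
      linarith
    have q3 : 4 * (3 / (2 * e * d)) ≤ ε / 3 := by
      have : 18 / (e * ε) ≤ d := by linarith
      rw [div_le_iff₀ (by positivity)] at this
      rw [← mul_div_assoc, div_le_iff₀ (by positivity)]
      linarith
    have e2 : 2 * ((1 / T) / pη x) * (2 * (d:ℝ) + 1) ^ R = 2 * ((1 / T) / pη x * (2 * (d:ℝ) + 1) ^ R) := by
      ring
    rw [e2]
    linarith

/-- below a fixed slope -/
theorem dyn_gauss {b e ε : ℝ} (hb : 0 ≤ b) (he : 0 < e) (hε : 0 < ε) (hε1 : ε < 1) :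
    ∃ c : ℝ, 0 < c ∧ ∃ d₀ : ℕ, 1 ≤ d₀ ∧ ∀ d : ℕ, d₀ ≤ d → ∀ σ : ℝ, 2 * (d : ℝ) ≤ σ →
      σ ≤ (1 - ε) * (8 * gaussianPDFReal 0 1 b) * (d * Real.log d) → DynS d σ (b - e) c ε := by
  obtain ⟨δ, hδ⟩ : ∃ δ, δ = ε / (8 * (b + 1)) := ⟨_, rfl⟩
  have hδ0 : 0 < δ := by rw [hδ]; positivity
  have hsh := pdf_shift hb hε hε1
  rw [← hδ] at hsh
  obtain ⟨c₀, hc₀, d₀, hd₀⟩ := dy_band (G := 1) (b := b) (δ := δ)
    (ρ₀ := gaussianPDFReal 0 1 (b + 2 * δ)) (ε := ε / 48) one_pos hb hδ0 (pdf_pos' _)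
    (by positivity) (by linarith)
  obtain ⟨c, hc, d₁, hd₁⟩ := FinG3_reg (c₀ := c₀) (ε := ε / 24) hc₀ (by positivity)
  obtain ⟨d₂, hd₂⟩ := dyn_num (c₀ := c₀) (ε := (ε / 4) ⊓ (δ / 4)) (e := e) hc₀
    (lt_min (by positivity) (by positivity)) he
  refine ⟨c, hc, max 1 (max d₀ (max d₁ d₂)), le_max_left _ _, fun d hd σ h1 h2 a => ?_⟩
  have g0 : d₀ ≤ d := le_trans (le_trans (le_max_left _ _) (le_max_right _ _)) hd
  have g1 : d₁ ≤ d := le_trans (le_trans (le_trans (le_max_left _ _) (le_max_right _ _)) (le_max_right _ _)) hd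
  have g2 : d₂ ≤ d := le_trans (le_trans (le_trans (le_max_right _ _) (le_max_right _ _)) (le_max_right _ _)) hd
  obtain ⟨hd1, R, A, hRA, hR, hA⟩ := hd₁ d g1
  have hd0 : (1:ℝ) ≤ d := by exact_mod_cast hd1
  have hlog0 : 0 ≤ Real.log (d:ℝ) := Real.log_nonneg hd0
  have hlog : Real.log (d:ℝ) ≤ Real.log (2 * d) := Real.log_le_log (by linarith) (by linarith)
  obtain ⟨GG, hm, hP, hGG⟩ := hd₀ d g0 R A hRA (gaussianReal 0 1) law_gauss
    (fun e he => lowD_gauss hδ0 he) σ h1 (by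
      refine h2.trans ?_
      have hp := pdf_pos' (b + 2 * δ)
      calc (1 - ε) * (8 * gaussianPDFReal 0 1 b) * (d * Real.log d)
          = ((1 - ε) * gaussianPDFReal 0 1 b) * (8 * (d * Real.log d)) := by ring
        _ ≤ ((1 - ε / 2) * gaussianPDFReal 0 1 (b + 2 * δ)) * (8 * (d * Real.log (2 * d))) := by
            have h5 : 0 ≤ (1 - ε / 2) * gaussianPDFReal 0 1 (b + 2 * δ) :=
              mul_nonneg (by linarith) hp.le
            gcongr
        _ ≤ ((1 - ε / 48) * gaussianPDFReal 0 1 (b + 2 * δ)) * (8 * (d * Real.log (2 * d))) := by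
            have h6 : 0 ≤ 8 * ((d:ℝ) * Real.log (2 * d)) :=
              mul_nonneg (by norm_num) (mul_nonneg (by linarith) (hlog0.trans hlog))
            gcongr
            linarith
        _ = _ := by ring) a
  refine ⟨GG, hm, by linarith, fun ω hω hωa ψ hψ T hT F hF => ?_⟩
  obtain ⟨n1, n2, n3, n4⟩ := hd₂ d g2 R A hRA σ T h1 hT
  have hσ0 : 0 < σ := by linarith
  have hT0 : 0 < T := by linarith
  have hdA : 0 < (d : ℝ) ^ A := by positivity
  have hη0 : 0 < pη (Real.log (2 * d)) := Real.exp_pos _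
  have h3 := dyn_point (δ := δ) (η₀ := pη (Real.log (2 * d))) (θ := 1 / (4 * (d : ℝ) ^ A))
    (ε₁ := ε / 48) (R := R) hσ0 he hη0 (n3.trans (by
      have e1 : ((ε / 4) ⊓ (δ / 4)) ⊓ e ≤ δ / 4 := (min_le_left _ _).trans (min_le_right _ _)
      calc σ * (((ε / 4) ⊓ (δ / 4)) ⊓ e) ≤ σ * (δ / 4) := by gcongr
        _ = _ := by ring)) (by positivity) (by positivity) (hGG ω hω) hωa hψ hT0 n2
  have hFb : F ⊆ bal d R := by
    intro y hy
    rw [mem_bal]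
    have h2 := hF y hy
    have h3 : ((∑ i, (y i).natAbs : ℕ) : ℝ) = ∑ i, |(y i : ℝ)| := by
      push_cast
      refine Finset.sum_congr rfl fun i _ => ?_
      rw [Nat.cast_natAbs, Int.cast_abs]
    rw [← h3] at h2
    have h4 := hR _ h2
    have h5 : ((∑ i, (y i).natAbs : ℕ) : ℤ) = ∑ i, |y i| := by
      push_cast
      rfl
    rw [← h5]
    exact_mod_cast h4
  refine (avg_mono hψ hT0 hFb).trans (h3.trans ?_)
  have hθ : 4 * (2 * (3 * (1 / (4 * (d : ℝ) ^ A)))) ≤ ε / 8 := by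
    have e1 : (1:ℝ) ≤ Real.exp (c * (Real.log d / Real.log (Real.log d)) ^ 2) := by
      rw [Real.one_le_exp_iff]
      positivity
    have e2 : 2 ≤ ε / 24 * (d:ℝ) ^ A := by linarith
    have e3 : 4 * (2 * (3 * (1 / (4 * (d : ℝ) ^ A)))) = 6 / (d:ℝ) ^ A := by field_simp; ring
    rw [e3, div_le_iff₀ hdA]
    linarith
  have n5 : (ε / 4) ⊓ (δ / 4) ≤ ε / 4 := min_le_left _ _
  linarith

/-- positive or negative coupling -/
theorem dynS_neg {d : ℕ} {σ β c ε : ℝ} (h : DynS d (-σ) β c ε) : DynS d σ β c ε := by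
  intro a
  obtain ⟨G, hG, hP, hG3⟩ := h a
  refine ⟨G, hG, hP, fun ω hω hωa ψ hψ T hT F hF => ?_⟩
  obtain ⟨φ, hφ, hn⟩ := ev_neg hψ
  have h1 : (fun x : Zd d => -(σ * ω x)) = fun x => -σ * ω x := by funext x; ring
  rw [h1] at hφ
  have h2 := hG3 ω hω hωa φ hφ T hT F hF
  simpa only [hn] using h2

theorem dyn_grid {ε e δ : ℝ} (hε : 0 < ε) (hε1 : ε < 1) (he : 0 < e) (hδ : 0 ≤ δ) (K : ℕ) :
    ∃ c : ℝ, 0 < c ∧ ∃ d₀ : ℕ, 1 ≤ d₀ ∧ ∀ i : ℕ, i < K → ∀ d : ℕ, d₀ ≤ d → ∀ σ : ℝ,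
      2 * (d : ℝ) ≤ |σ| →
      |σ| ≤ (1 - ε) * (8 * gaussianPDFReal 0 1 (i * δ)) * (d * Real.log d) →
      DynS d σ (i * δ - e) c ε := by
  induction K with
  | zero => exact ⟨1, one_pos, 1, le_rfl, fun i hi => absurd hi (Nat.not_lt_zero _)⟩
  | succ K ih =>
    obtain ⟨c, hc, d₀, hd₀, h⟩ := ih
    obtain ⟨c', hc', d₀', hd₀', h'⟩ := dyn_gauss (b := K * δ) (e := e)
      (mul_nonneg (Nat.cast_nonneg _) hδ) he hε hε1
    refine ⟨min c c', lt_min hc hc', max d₀ d₀', le_max_of_le_left hd₀, fun i hi d hd σ h1 h2 => ?_⟩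
    have hd1 : 1 ≤ d := hd₀.trans ((le_max_left _ _).trans hd)
    rcases Nat.lt_succ_iff_lt_or_eq.mp hi with hi | hi
    · exact (h i hi d ((le_max_left _ _).trans hd) σ h1 h2).mono hd1 le_rfl (min_le_left _ _) le_rfl
    · subst hi
      have h3 := h' d ((le_max_right _ _).trans hd) |σ| h1 h2
      rcases abs_choice σ with hs | hs
      · rw [hs] at h3
        exact h3.mono hd1 le_rfl (min_le_right _ _) le_rfl
      · rw [hs] at h3
        exact (dynS_neg h3).mono hd1 le_rfl (min_le_right _ _) le_rfl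

/-- spreading below the explicit edge -/
theorem dyn_edge {B ε : ℝ} (hB : 0 ≤ B) (hε : 0 < ε) :
    ∃ c : ℝ, 0 < c ∧ ∃ d₀ : ℕ, ∀ d : ℕ, d₀ ≤ d → ∀ σ : ℝ, 2 * (d : ℝ) ≤ |σ| →
      DynS d σ (min (be d σ) B - ε) c ε := by
  obtain ⟨ε₀, hε₀⟩ : ∃ x, x = ε / 2 := ⟨_, rfl⟩
  have hε₀0 : 0 < ε₀ := by rw [hε₀]; positivity
  have he : 0 < 1 - Real.exp (-(ε₀ ^ 2 / 4)) := by
    have : Real.exp (-(ε₀ ^ 2 / 4)) < 1 := by
      rw [Real.exp_lt_one_iff]; nlinarith [sq_pos_of_pos hε₀0]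
    linarith
  obtain ⟨ε₁, hε₁⟩ : ∃ x, x = min ε (1 - Real.exp (-(ε₀ ^ 2 / 4))) := ⟨_, rfl⟩
  have h0 : 0 < ε₁ := by rw [hε₁]; exact lt_min hε he
  have h1 : ε₁ < 1 := by
    rw [hε₁]
    refine lt_of_le_of_lt (min_le_right _ _) ?_
    have := Real.exp_pos (-(ε₀ ^ 2 / 4))
    linarith
  have h1ε : ε₁ ≤ ε := by rw [hε₁]; exact min_le_left _ _
  have h1e : ε₁ ≤ 1 - Real.exp (-(ε₀ ^ 2 / 4)) := by rw [hε₁]; exact min_le_right _ _
  obtain ⟨c, hc, d₀, hd₀, h⟩ := dyn_grid h0 h1 hε₀0 (δ := ε₀ / 2) (by linarith) (⌊B / (ε₀ / 2)⌋₊ + 3)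
  refine ⟨c, hc, max d₀ 2, fun d hd σ hσ => ?_⟩
  have hd2 : 2 ≤ d := (le_max_right _ _).trans hd
  have hd2' : (2:ℝ) ≤ d := by exact_mod_cast hd2
  have hs : 0 < |σ| := by linarith
  rcases lt_or_ge (min (be d σ) B) ε with hlt | hge
  · exact dynS_false hε.le (by linarith)
  · have hbe : ε₀ ≤ be d σ := by
      have := hge.trans (min_le_left _ _)
      linarith
    obtain ⟨i, hi⟩ : ∃ i : ℕ, i = ⌊(min (be d σ) B - ε₀) / (ε₀ / 2)⌋₊ + 1 := ⟨_, rfl⟩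
    have hq : 0 ≤ (min (be d σ) B - ε₀) / (ε₀ / 2) := div_nonneg (by linarith) (by linarith)
    have hi1 : (min (be d σ) B - ε₀) ≤ i * (ε₀ / 2) := by
      have := Nat.lt_floor_add_one ((min (be d σ) B - ε₀) / (ε₀ / 2))
      rw [← div_le_iff₀ (by linarith : (0:ℝ) < ε₀ / 2), hi]
      push_cast
      exact this.le
    have hi2 : i * (ε₀ / 2) ≤ be d σ - ε₀ / 2 := by
      have h4 := Nat.floor_le hq
      have h5 : (⌊(min (be d σ) B - ε₀) / (ε₀ / 2)⌋₊ : ℝ) * (ε₀ / 2) ≤ min (be d σ) B - ε₀ := by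
        rwa [← le_div_iff₀ (by linarith : (0:ℝ) < ε₀ / 2)]
      have h6 : min (be d σ) B ≤ be d σ := min_le_left _ _
      rw [hi]; push_cast
      linarith
    have hi3 : i < ⌊B / (ε₀ / 2)⌋₊ + 3 := by
      have : ⌊(min (be d σ) B - ε₀) / (ε₀ / 2)⌋₊ ≤ ⌊B / (ε₀ / 2)⌋₊ := by
        refine Nat.floor_le_floor ?_
        refine div_le_div_of_nonneg_right ?_ (by linarith)
        have h6 : min (be d σ) B ≤ B := min_le_right _ _
        linarith
      omega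
    have h7 := spr_side hd2 hs hε₀0 (b := i * (ε₀ / 2)) (by positivity) hi2 hbe
    refine (h i hi3 d ((le_max_left _ _).trans hd) σ hσ (h7.trans ?_)).mono
      (hd₀.trans ((le_max_left _ _).trans hd)) (by linarith) le_rfl h1ε
    have hp : 0 ≤ 8 * gaussianPDFReal 0 1 (i * (ε₀ / 2)) := by
      have := gaussianPDFReal_nonneg 0 1 (i * (ε₀ / 2))
      linarith
    have hl : 0 ≤ (d:ℝ) * Real.log d :=
      mul_nonneg (by linarith) (Real.log_nonneg (by linarith))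
    refine mul_le_mul_of_nonneg_right (mul_le_mul_of_nonneg_right ?_ hp) hl
    linarith

end Pool.Agent.H989.DY
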