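import Pool.Agent.H989.DY.Spd
import Pool.Agent.H989.DY.Lod
import Pool.Agent.H989.DY.DyEx
import Pool.Agent.H121.SD.UnifQ
import Pool.Agent.H989.SB.FinU3

/-!
Dynamics in the uniform Anderson model.
-/

set_option linter.unusedSectionVars false
set_option linter.unusedVariables false

open MeasureTheory ProbabilityTheory Finset Filter
open scoped InnerProductSpace

namespace Pool.Agent.H989.DY

open Pool.Agent.H989.SB
open Pool.Agent.H121.SH Pool.Agent.H121.SD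
open Pool.Agent.H987.Z (SqS IsSp)
open Pool.Agent.W788.LD.Spec (S)
open Pool.Agent.H4R2.LO (Zd)

/-- `Δ_ω = - (S + W)`, `W = - (ω + 2 d)` -/
lemma opH_eq {d : ℕ} (ω : Zd d → ℝ) (u : Zd d → ℂ) (x : Zd d) :
    opH ω u x = -(S u x + ((-(ω x + 2 * d) : ℝ) : ℂ) * u x) := by
  unfold opH S
  simp only [Finset.sum_add_distrib, Finset.sum_sub_distrib, Finset.sum_const,
    Finset.card_univ, Fintype.card_fin, nsmul_eq_mul]
  push_cast
  ring

lemma S_conj {d : ℕ} (u : Zd d → ℂ) (x : Zd d) :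
    S (fun y => (starRingEnd ℂ) (u y)) x = (starRingEnd ℂ) (S u x) := by
  unfold S
  simp only [map_sum, map_add]

/-- the wave packets of the uniform model -/
structure EvU (d : ℕ) (ω : Zd d → ℝ) (a : Zd d) (ψ : ℝ → Zd d → ℂ) : Prop where
  init : ∀ x, ψ 0 x = if x = a then 1 else 0
  ode : ∀ s x, HasDerivAt (fun s => ψ s x) (-Complex.I * opH ω (ψ s) x) s
  norm : ∀ s, HasSum (fun x => ‖ψ s x‖ ^ 2) 1

lemma evU_conj {d : ℕ} {ω : Zd d → ℝ} {a : Zd d} {ψ : ℝ → Zd d → ℂ} (h : EvU d ω a ψ) :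
    Ev d (fun x => -(ω x + 2 * d)) a (fun s x => (starRingEnd ℂ) (ψ s x)) := by
  refine ⟨fun x => ?_, fun s x => ?_, fun s => ?_⟩
  · rw [h.init]
    split_ifs <;> simp
  · have h1 := (h.ode s x)
    have h2 := (Complex.conjCLE.hasFDerivAt (x := ψ s x)).comp_hasDerivAt s h1
    refine h2.congr_deriv ?_
    rw [S_conj]
    show (starRingEnd ℂ) (-Complex.I * opH ω (ψ s) x) = _
    rw [opH_eq, map_mul, map_neg, Complex.conj_I, map_neg, map_add, map_mul, Complex.conj_ofReal]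
    ring
  · simpa only [Complex.norm_conj] using h.norm s

lemma evU_of {d : ℕ} {ω : Zd d → ℝ} {a : Zd d} {ψ : ℝ → Zd d → ℂ}
    (h : Ev d (fun x => -(ω x + 2 * d)) a ψ) : EvU d ω a (fun s x => (starRingEnd ℂ) (ψ s x)) := by
  refine ⟨fun x => ?_, fun s x => ?_, fun s => ?_⟩
  · rw [h.init]
    split_ifs <;> simp
  · have h1 := (h.ode s x)
    have h2 := (Complex.conjCLE.hasFDerivAt (x := ψ s x)).comp_hasDerivAt s h1
    refine h2.congr_deriv ?_
    rw [opH_eq, S_conj]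
    show (starRingEnd ℂ) (-Complex.I * (S (ψ s) x + ((-(ω x + 2 * d) : ℝ) : ℂ) * ψ s x)) = _
    rw [map_mul, map_neg, Complex.conj_I, map_add, map_mul, Complex.conj_ofReal]
    ring
  · simpa only [Complex.norm_conj] using h.norm s

theorem evU_exists {d : ℕ} (ω : Zd d → ℝ) (a : Zd d) : ∃ ψ, EvU d ω a ψ := by
  obtain ⟨ψ, hψ⟩ := ev_exists (fun x : Zd d => -(ω x + 2 * d)) a
  exact ⟨_, evU_of hψ⟩

theorem evU_unique {d : ℕ} {ω : Zd d → ℝ} {a : Zd d} {ψ φ : ℝ → Zd d → ℂ} (h : EvU d ω a ψ)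
    (h' : EvU d ω a φ) : ψ = φ := by
  have h1 := ev_unique (evU_conj h) (evU_conj h')
  funext s x
  have h2 := congrFun (congrFun h1 s) x
  exact (starRingEnd ℂ).injective h2

/-- gauge transformation: a constant in the potential -/
lemma ev_shift {d : ℕ} {W : Zd d → ℝ} {k : ℝ} {a : Zd d} {ψ : ℝ → Zd d → ℂ}
    (h : Ev d (fun x => W x + k) a ψ) :
    Ev d W a (fun s x => Complex.exp (Complex.I * k * s) * ψ s x) := by
  refine ⟨fun x => ?_, fun s x => ?_, fun s => ?_⟩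
  · rw [h.init]
    simp
  · have h0 : HasDerivAt (fun s : ℝ => Complex.I * k * (s : ℂ)) (Complex.I * k) s := by
      have := (Complex.ofRealCLM.hasDerivAt (x := s)).const_mul (Complex.I * (k : ℂ))
      simpa using this
    have h1 := h0.cexp
    have h2 := h1.mul (h.ode s x)
    refine h2.congr_deriv ?_
    have h3 : S (fun y => Complex.exp (Complex.I * k * s) * ψ s y) x
        = Complex.exp (Complex.I * k * s) * S (ψ s) x := by
      unfold S
      rw [Finset.mul_sum]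
      refine Finset.sum_congr rfl fun i _ => ?_
      ring
    rw [h3]
    push_cast
    ring
  · have h1 : ∀ x, ‖Complex.exp (Complex.I * k * s) * ψ s x‖ ^ 2 = ‖ψ s x‖ ^ 2 := by
      intro x
      rw [norm_mul]
      have : ‖Complex.exp (Complex.I * k * s)‖ = 1 := by
        have e : Complex.I * (k:ℂ) * (s:ℂ) = ((k * s : ℝ) : ℂ) * Complex.I := by push_cast; ring
        rw [e, Complex.norm_exp_ofReal_mul_I]
      rw [this, one_mul]
    simpa only [h1] using h.norm s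

/-- the localized side, one realization -/
theorem locU_point {d : ℕ} {η : ℝ} {a : Zd d} {ω : Zd d → ℝ} (hη : 0 < η)
    (hpp : ∀ (f : Zd d → ℂ) (m : Measure ℝ), SqS f → IsSp (opH ω) f m →
      ∃ N : Set ℝ, N.Countable ∧ m Nᶜ = 0)
    (F : Finset (Zd d))
    (hF : ∀ (n : ℕ) (u : Fin n → lp (fun _ : Zd d => ℂ) 2) (E : Fin n → ℝ), Orthonormal ℂ u →
      (∀ j x, opH ω (u j) x = E j * u j x) → ∀ θ : Fin n → ℂ, (∀ j, ‖θ j‖ ≤ 1) →
      ∑ y ∈ F, ‖∑ j, θ j * (starRingEnd ℂ) (u j a) * u j (a + y)‖ ^ 2 ≤ η)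
    {ψ : ℝ → Zd d → ℂ} (hψ : Ev d (fun x => -(ω x + 2 * d)) a ψ) (t : ℝ) :
    ∑ y ∈ F, ‖ψ t (a + y)‖ ^ 2 ≤ 4 * η := by
  classical
  obtain ⟨R, hR, hsol, hres⟩ := exists_res (fun x : Zd d => -(ω x + 2 * d))
  obtain ⟨m, hfin, hm1, hm2⟩ := hR.sp (dv a)
  rw [DyCheb_norm_dv, one_pow, ENNReal.ofReal_one] at hm2
  have hneg : MeasurableEmbedding (fun s : ℝ => -s) := (Homeomorph.neg ℝ).measurableEmbedding
  have hsp : IsSp (opH ω) (fun x => (dv a : LL (Zd d)) x) (m.map (fun s : ℝ => -s)) := by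
    refine ⟨Measure.isFiniteMeasure_map m _, fun z hz => ⟨fun x => -(R (-z) (dv a) x), ?_, fun x => ?_, ?_⟩⟩
    · have := ll_sqs (R (-z) (dv a))
      unfold SqS at this ⊢
      simpa only [norm_neg] using this
    · have hz' : (-z).im ≠ 0 := by rw [Complex.neg_im]; exact neg_ne_zero.2 hz
      have h1 := hsol (-z) hz' (dv a) x
      rw [opH_eq]
      have h2 : S (fun y => -(R (-z) (dv a) y)) x = -S (fun y => R (-z) (dv a) y) x := by
        unfold S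
        rw [← Finset.sum_neg_distrib]
        refine Finset.sum_congr rfl fun i _ => ?_
        ring
      have h3 : -(-S (fun y => R (-z) (dv a) y) x + ((-(ω x + 2 * d) : ℝ) : ℂ) * -(R (-z) (dv a) x))
          - z * -(R (-z) (dv a) x) = (dv a : LL (Zd d)) x := by linear_combination h1
      rw [← h2] at h3
      exact h3
    · have hz' : (-z).im ≠ 0 := by rw [Complex.neg_im]; exact neg_ne_zero.2 hz
      rw [hneg.integral_map]
      have h1 := hm1 (-z) hz'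
      rw [dyComb_inner] at h1
      have h2 : ∑' x, (starRingEnd ℂ) ((dv a : LL (Zd d)) x) * -(R (-z) (dv a) x)
          = -(R (-z) (dv a) a) := by
        rw [tsum_eq_single a]
        · rw [dyComb_dv_self, map_one, one_mul]
        · intro x hx
          rw [dyComb_dv_ne hx, map_zero, zero_mul]
      refine Eq.trans ?_ h2.symm
      rw [h1, ← integral_neg]
      refine integral_congr_ae (Eventually.of_forall fun s => ?_)
      show (((-s : ℝ) : ℂ) - z)⁻¹ = -((s : ℂ) - -z)⁻¹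
      rw [← inv_neg]
      congr 1
      push_cast
      ring
  obtain ⟨N, hN, hN0⟩ := hpp _ _ (ll_sqs _) hsp
  have hN' : ((fun s : ℝ => -s) ⁻¹' N).Countable := hN.preimage neg_injective
  have hN0' : m (Set.univ \ ((fun s : ℝ => -s) ⁻¹' N)) = 0 := by
    rw [hneg.map_apply] at hN0
    rw [← Set.compl_eq_univ_sdiff]
    exact hN0
  have hprob : IsProbabilityMeasure m := ⟨hm2⟩
  obtain ⟨n, u, E, hu, hE, -, hc'⟩ := atoms hR hsol hm1 MeasurableSet.univ hN' hN0'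
    (c := 1 - η) (by rw [probReal_univ]; linarith)
  have key := loc_comb hψ u E hu hE (η := η) (η' := η) hc' (F.image fun y => a + y)
    (fun θ hθ => by
      rw [Finset.sum_image fun y _ y' _ h => add_left_cancel h]
      refine le_trans (le_of_eq ?_) (hF n u (fun j => -E j) hu (fun j x => ?_) θ hθ)
      · refine Finset.sum_congr rfl fun y _ => ?_
        simp only [mul_assoc]
      · have h1 := hE j x
        rw [opH_eq]
        rw [h1]
        push_cast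
        ring) t
  rw [Finset.sum_image fun y _ y' _ h => add_left_cancel h] at key
  linarith

/-- the localized side, uniform law -/
theorem locU {ε : ℝ} (hε : 0 < ε) :
    ∃ d₀ : ℕ, ∀ η : ℝ, 0 < η → ∃ R : ℕ, ∀ d : ℕ, d₀ ≤ d → ∀ c : ℝ,
      (1 + ε) * (4 * (d * Real.log d)) ≤ c →
      ∀ a : Zd d, ∃ G : Set (Zd d → ℝ), MeasurableSet G ∧
        1 - η ≤ (Measure.infinitePi fun _ : Zd d => unif c).real G ∧
        ∀ ω ∈ G, ∀ ψ : ℝ → Zd d → ℂ, EvU d ω a ψ → ∀ (t : ℝ) (F : Finset (Zd d)),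
          (∀ y ∈ F, (R : ℝ) < ∑ i, |(y i : ℝ)|) → ∑ y ∈ F, ‖ψ t (a + y)‖ ^ 2 ≤ η := by
  obtain ⟨d₁, γ, hγ, hloc, -⟩ := fin_unif ε hε
  obtain ⟨d₂, hq⟩ := fin_unifQ ε hε
  refine ⟨max (max d₁ d₂) 2, fun η hη => ?_⟩
  obtain ⟨R, hR⟩ := hq (η / 4) (by positivity)
  refine ⟨R, fun d hd c hc a => ?_⟩
  have g1 : d₁ ≤ d := le_trans (le_trans (le_max_left _ _) (le_max_left _ _)) hd
  have g2 : d₂ ≤ d := le_trans (le_trans (le_max_right _ _) (le_max_left _ _)) hd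
  have g3 : 2 ≤ d := le_trans (le_max_right _ _) hd
  have hd2 : (2:ℝ) ≤ d := by exact_mod_cast g3
  have hl : 0 < Real.log (d:ℝ) := Real.log_pos (by linarith)
  have hc0 : 0 < c := lt_of_lt_of_le (by positivity) hc
  have := unif_prob c hc0
  obtain ⟨G, hG, hP, hG3⟩ := hR d g2 c hc a
  obtain ⟨GG, hGG1, hGG2, hGG3⟩ := three (η := η) hG MeasurableSet.univ (by linarith)
    (by rw [probReal_univ]; linarith) (hloc d g1 c hc)
  refine ⟨GG, hGG1, hGG2, fun ω hω ψ hψ t F hF => ?_⟩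
  obtain ⟨w1, -, w3⟩ := hGG3 ω hω
  have key := locU_point (η := η / 4) (a := a) (by positivity) w3.1 F
    (fun n u E hu hE θ hθ => hG3 ω w1 n u E hu hE θ hθ F fun y hy => by
      have h5 : ((R : ℤ) : ℝ) < ((∑ i, |y i| : ℤ) : ℝ) := by
        push_cast
        exact hF y hy
      exact_mod_cast h5) (evU_conj hψ) t
  simp only [Complex.norm_conj] at key
  linarith

/-- spreading, the uniform law on `[-1, 1]` -/
theorem sprU1 {ε : ℝ} (hε : 0 < ε) (hε1 : ε < 1) :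
    ∃ c : ℝ, 0 < c ∧ ∃ d₀ : ℕ, 1 ≤ d₀ ∧ ∀ d : ℕ, d₀ ≤ d → ∀ σ : ℝ, 2 * (d : ℝ) ≤ σ →
      σ ≤ (1 - ε) * (4 * (d * Real.log d)) →
      ∀ a : Zd d, ∃ GG : Set (Zd d → ℝ), MeasurableSet GG ∧ 1 - ε ≤ (lawZ unif1 d).real GG ∧
        ∀ ω ∈ GG, ∀ ψ : ℝ → Zd d → ℂ, Ev d (fun x => σ * ω x) a ψ →
        ∀ T : ℝ, Real.exp (2 * Real.log (2 * d) ^ 3) ≤ T → ∀ F : Finset (Zd d),
        (∀ y ∈ F, ∑ i, |(y i : ℝ)| ≤ c * Real.log d / Real.log (Real.log d) ^ 2) →
        (1 / T) * ∫ s in (0:ℝ)..T, ∑ y ∈ F, ‖ψ s (a + y)‖ ^ 2 ≤ ε := by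
  obtain ⟨b, hbd⟩ : ∃ b, b = 1 - ε / 4 := ⟨_, rfl⟩
  have hb : 0 ≤ b := by rw [hbd]; linarith
  have hb1 : b < 1 := by rw [hbd]; linarith
  obtain ⟨δ, hδ⟩ : ∃ δ, δ = (1 - b) / 3 := ⟨_, rfl⟩
  have hδ0 : 0 < δ := by rw [hδ]; linarith
  obtain ⟨e, hed⟩ : ∃ e, e = ε / 4 := ⟨_, rfl⟩
  have he : 0 < e := by rw [hed]; positivity
  obtain ⟨c₀, hc₀, d₀, hd₀⟩ := dy_band (G := 1) (b := b) (δ := δ)
    (ρ₀ := 2⁻¹) (ε := ε / 48) one_pos hb hδ0 (by norm_num) (by positivity) (by linarith)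
  obtain ⟨c, hc, d₁, hd₁⟩ := FinG3_reg (c₀ := c₀) (ε := ε / 24) hc₀ (by positivity)
  obtain ⟨d₂, hd₂⟩ := dyn_num (c₀ := c₀) (ε := (ε / 4) ⊓ (δ / 4)) (e := e) hc₀
    (lt_min (by positivity) (by positivity)) he
  have hprob1 : IsProbabilityMeasure unif1 := law_unif.prob
  refine ⟨c, hc, max 1 (max d₀ (max d₁ d₂)), le_max_left _ _, fun d hd σ h1 h2 a => ?_⟩
  have g0 : d₀ ≤ d := le_trans (le_trans (le_max_left _ _) (le_max_right _ _)) hd
  have g1 : d₁ ≤ d := le_trans (le_trans (le_trans (le_max_left _ _) (le_max_right _ _)) (le_max_right _ _)) hd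
  have g2 : d₂ ≤ d := le_trans (le_trans (le_trans (le_max_right _ _) (le_max_right _ _)) (le_max_right _ _)) hd
  obtain ⟨hd1, R, A, hRA, hR, hA⟩ := hd₁ d g1
  have hd0 : (1:ℝ) ≤ d := by exact_mod_cast hd1
  have hlog0 : 0 ≤ Real.log (d:ℝ) := Real.log_nonneg hd0
  have hlog : Real.log (d:ℝ) ≤ Real.log (2 * d) := Real.log_le_log (by linarith) (by linarith)
  obtain ⟨GG, hm, hP, hGG⟩ := hd₀ d g0 R A hRA unif1 law_unif
    (fun e he => by rw [hδ] at he ⊢; exact lowD_unif hb1 he) σ h1 (by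
      refine h2.trans ?_
      have h6 : 0 ≤ 4 * ((d:ℝ) * Real.log (2 * d)) :=
        mul_nonneg (by norm_num) (mul_nonneg (by linarith) (hlog0.trans hlog))
      have h5 : 0 ≤ 1 - ε := by linarith
      calc (1 - ε) * (4 * (d * Real.log d)) ≤ (1 - ε) * (4 * (d * Real.log (2 * d))) := by gcongr
        _ ≤ (1 - ε / 48) * (4 * (d * Real.log (2 * d))) := by
            gcongr
            linarith
        _ = _ := by ring) a
  -- the potential at `a`
  have hms : MeasurableSet {ω : Zd d → ℝ | |ω a| ≤ b - e} :=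
    measurableSet_le (measurable_norm.comp (measurable_pi_apply a)) measurable_const
  have hbe : b - e = 1 - ε / 2 := by rw [hbd, hed]; ring
  have hr : 0 ≤ 1 - ε / 2 := by linarith
  have hPa : 1 - ε / 2 ≤ (lawZ unif1 d).real {ω : Zd d → ℝ | |ω a| ≤ b - e} := by
    have hmp := measurePreserving_eval_infinitePi (fun _ : Zd d => unif1) a
    have hms1 : MeasurableSet {x : ℝ | |x| ≤ b - e} := measurableSet_le measurable_norm measurable_const
    have h3 := hmp.measureReal_preimage hms1.nullMeasurableSet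
    have h4 : (Function.eval a) ⁻¹' {x : ℝ | |x| ≤ b - e} = {ω : Zd d → ℝ | |ω a| ≤ b - e} := rfl
    rw [h4] at h3
    rw [h3]
    have h5 : {x : ℝ | |x| ≤ b - e} = Set.Icc (-(1 - ε / 2)) (1 - ε / 2) := by
      ext x
      rw [hbe, Set.mem_Icc]
      exact (abs_le (a := x) (b := 1 - ε / 2))
    rw [h5, Measure.real, Measure.smul_apply, Measure.restrict_apply measurableSet_Icc]
    have h6 : Set.Icc (-(1 - ε / 2)) (1 - ε / 2) ∩ Set.Icc (-1 : ℝ) 1 = Set.Icc (-(1 - ε / 2)) (1 - ε / 2) := by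
      rw [Set.inter_eq_left]
      exact Set.Icc_subset_Icc (by linarith) (by linarith)
    rw [h6, Real.volume_Icc, smul_eq_mul, ENNReal.toReal_mul, ENNReal.toReal_inv,
      ENNReal.toReal_ofReal (by linarith)]
    norm_num
    linarith
  refine ⟨GG ∩ {ω : Zd d → ℝ | |ω a| ≤ b - e}, hm.inter hms, ?_, fun ω hω ψ hψ T hT F hF => ?_⟩
  · have h1 : (GG ∩ {ω : Zd d → ℝ | |ω a| ≤ b - e})ᶜ = GGᶜ ∪ {ω : Zd d → ℝ | |ω a| ≤ b - e}ᶜ :=
      Set.compl_inter _ _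
    have h2 : (lawZ unif1 d).real (GG ∩ {ω : Zd d → ℝ | |ω a| ≤ b - e})ᶜ
        ≤ (lawZ unif1 d).real GGᶜ + (lawZ unif1 d).real {ω : Zd d → ℝ | |ω a| ≤ b - e}ᶜ := by
      rw [h1]
      exact measureReal_union_le _ _
    rw [probReal_compl_eq_one_sub (hm.inter hms), probReal_compl_eq_one_sub hm,
      probReal_compl_eq_one_sub hms] at h2
    linarith
  obtain ⟨n1, n2, n3, n4⟩ := hd₂ d g2 R A hRA σ T h1 hT
  have hσ0 : 0 < σ := by linarith
  have hT0 : 0 < T := by linarith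
  have hdA : 0 < (d : ℝ) ^ A := by positivity
  have hη0 : 0 < pη (Real.log (2 * d)) := Real.exp_pos _
  have hωa : |ω a| ≤ b - e := hω.2
  have h3 := dyn_point (δ := δ) (η₀ := pη (Real.log (2 * d))) (θ := 1 / (4 * (d : ℝ) ^ A))
    (ε₁ := ε / 48) (R := R) hσ0 he hη0 (n3.trans (by
      have e1 : ((ε / 4) ⊓ (δ / 4)) ⊓ e ≤ δ / 4 := (min_le_left _ _).trans (min_le_right _ _)
      calc σ * (((ε / 4) ⊓ (δ / 4)) ⊓ e) ≤ σ * (δ / 4) := by gcongr
        _ = _ := by ring)) (by positivity) (by positivity) (hGG ω hω.1) hωa hψ hT0 n2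
  have hFb : F ⊆ bal d R := by
    intro y hy
    rw [mem_bal]
    have h2 := hF y hy
    have h3 : ((∑ i, (y i).natAbs : ℕ) : ℝ) = ∑ i, |(y i : ℝ)| := by
      push_cast
      refine Finset.sum_congr rfl fun i _ => ?_
      rw [Nat.cast_natAbs, Int.cast_abs]
    rw [← h3] at h2
    have h4 := hR _ h2
    have h5 : ((∑ i, (y i).natAbs : ℕ) : ℤ) = ∑ i, |y i| := by
      push_cast
      rfl
    rw [← h5]
    exact_mod_cast h4
  refine (avg_mono hψ hT0 hFb).trans (h3.trans ?_)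
  have hθ : 4 * (2 * (3 * (1 / (4 * (d : ℝ) ^ A)))) ≤ ε / 8 := by
    have e1 : (1:ℝ) ≤ Real.exp (c * (Real.log d / Real.log (Real.log d)) ^ 2) := by
      rw [Real.one_le_exp_iff]
      positivity
    have e2 : 2 ≤ ε / 24 * (d:ℝ) ^ A := by linarith
    have e3 : 4 * (2 * (3 * (1 / (4 * (d : ℝ) ^ A)))) = 6 / (d:ℝ) ^ A := by field_simp; ring
    rw [e3, div_le_iff₀ hdA]
    linarith
  have n5 : (ε / 4) ⊓ (δ / 4) ≤ ε / 4 := min_le_left _ _
  linarith

/-- spreading, the uniform model -/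
theorem sprU {ε : ℝ} (hε : 0 < ε) (hε1 : ε < 1) :
    ∃ κ : ℝ, 0 < κ ∧ ∃ d₀ : ℕ, ∀ d : ℕ, d₀ ≤ d → ∀ c : ℝ, 2 * (d : ℝ) ≤ c →
      c ≤ (1 - ε) * (4 * (d * Real.log d)) →
      ∀ a : Zd d, ∃ GG : Set (Zd d → ℝ), MeasurableSet GG ∧
        1 - ε ≤ (Measure.infinitePi fun _ : Zd d => unifc c).real GG ∧
        ∀ ω ∈ GG, ∀ ψ : ℝ → Zd d → ℂ, EvU d ω a ψ →
        ∀ T : ℝ, Real.exp (2 * Real.log (2 * d) ^ 3) ≤ T → ∀ F : Finset (Zd d),
        (∀ y ∈ F, ∑ i, |(y i : ℝ)| ≤ κ * Real.log d / Real.log (Real.log d) ^ 2) →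
        (1 / T) * ∫ s in (0:ℝ)..T, ∑ y ∈ F, ‖ψ s (a + y)‖ ^ 2 ≤ ε := by
  obtain ⟨κ, hκ, d₀, hd₀, h⟩ := sprU1 hε hε1
  refine ⟨κ, hκ, d₀, fun d hd c h1 h2 a => ?_⟩
  have hd1 : (1:ℝ) ≤ d := by exact_mod_cast hd₀.trans hd
  have hc : 0 < c := by linarith
  obtain ⟨GG, hm, hP, hGG⟩ := h d hd c h1 h2 a
  obtain ⟨hm', hP'⟩ := FinU3_map hc hm hP
  refine ⟨_, hm', hP', fun ω hω ψ hψ T hT F hF => ?_⟩
  have e1 : (fun x : Zd d => -(ω x + 2 * d)) = fun x => c * (-c⁻¹ * ω x) + -(2 * (d:ℝ)) := by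
    funext x
    field_simp
    ring
  have e2 := evU_conj hψ
  rw [e1] at e2
  have e3 := ev_shift e2
  have e4 := hGG _ hω _ e3 T hT F hF
  have e5 : ∀ (s : ℝ) (x : Zd d), ‖Complex.exp (Complex.I * ((-(2 * (d:ℝ)) : ℝ) : ℂ) * s)
      * (starRingEnd ℂ) (ψ s x)‖ = ‖ψ s x‖ := by
    intro s x
    rw [norm_mul, Complex.norm_conj]
    have e : Complex.I * ((-(2 * (d:ℝ)) : ℝ) : ℂ) * (s:ℂ) = ((-(2 * (d:ℝ)) * s : ℝ) : ℂ) * Complex.I := by
      push_cast; ring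
    rw [e, Complex.norm_exp_ofReal_mul_I, one_mul]
  simpa only [e5] using e4

end Pool.Agent.H989.DY
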